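import Mathlib

set_option autoImplicit false

open Pointwise

namespace Pool.Agent.RatioGrowth

variable {G : Type*} [Group G] [DecidableEq G]

/-- Elements of `T^(m+1+j)` outside `T^(m+j)` lie in `(T^(m+1) \ T^m) * T^j`. -/
lemma sdiff_subset (T : Finset G) (m j : ℕ) :
    T ^ (m + 1 + j) \ T ^ (m + j) ⊆ (T ^ (m + 1) \ T ^ m) * T ^ j := by
  intro g hg
  rw [Finset.mem_sdiff] at hg
  obtain ⟨hg1, hg2⟩ := hg
  rw [pow_add] at hg1
  obtain ⟨x, hx, y, hy, rfl⟩ := Finset.mem_mul.1 hg1
  refine Finset.mul_mem_mul ?_ hy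
  rw [Finset.mem_sdiff]
  refine ⟨hx, fun hx' => hg2 ?_⟩
  rw [pow_add]
  exact Finset.mul_mem_mul hx' hy

lemma card_step (T : Finset G) (h1 : (1 : G) ∈ T) (m j : ℕ) :
    (T ^ (m + 1 + j)).card ≤ (T ^ (m + j)).card + ((T ^ (m + 1)).card - (T ^ m).card) * T.card ^ j := by
  have hsub : T ^ m ⊆ T ^ (m + 1) := Finset.pow_subset_pow_right h1 (Nat.le_succ m)
  have h2 : (T ^ (m + 1 + j)).card ≤ (T ^ (m + j)).card + (T ^ (m + 1 + j) \ T ^ (m + j)).card := by
    have := Finset.card_le_card (s := T ^ (m + 1 + j)) (t := T ^ (m + j) ∪ (T ^ (m + 1 + j) \ T ^ (m + j)))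
      (by intro x hx; by_cases h : x ∈ T ^ (m + j) <;> simp [h, hx])
    exact this.trans (Finset.card_union_le _ _)
  have h3 : (T ^ (m + 1 + j) \ T ^ (m + j)).card ≤ ((T ^ (m + 1)).card - (T ^ m).card) * T.card ^ j := by
    calc (T ^ (m + 1 + j) \ T ^ (m + j)).card ≤ ((T ^ (m + 1) \ T ^ m) * T ^ j).card :=
          Finset.card_le_card (sdiff_subset T m j)
      _ ≤ (T ^ (m + 1) \ T ^ m).card * (T ^ j).card := Finset.card_mul_le
      _ ≤ ((T ^ (m + 1)).card - (T ^ m).card) * T.card ^ j := by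
          rw [Finset.card_sdiff_of_subset hsub]
          exact Nat.mul_le_mul_left _ Finset.card_pow_le
  omega

lemma card_steps (T : Finset G) (h1 : (1 : G) ∈ T) (m C : ℕ) :
    (T ^ (m + C)).card ≤ (T ^ m).card +
      ((T ^ (m + 1)).card - (T ^ m).card) * ∑ j ∈ Finset.range C, T.card ^ j := by
  induction C with
  | zero => simp
  | succ C ih =>
    have := card_step T h1 m C
    rw [show m + (C + 1) = m + 1 + C by ring]
    rw [Finset.sum_range_succ, mul_add]
    omega

/-- If balls double after a bounded number of steps then spheres are a definite proportion of balls. -/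
theorem ratio_of_doubling (T : Finset G) (h1 : (1 : G) ∈ T) (C : ℕ)
    (hC : ∀ n, 2 * (T ^ n).card ≤ (T ^ (n + C)).card) :
    ∃ ε : ℝ, 0 < ε ∧ ∀ n : ℕ,
      ε * ((T ^ n).card : ℝ) ≤ ((T ^ (n + 1)).card : ℝ) - ((T ^ n).card : ℝ) := by
  set K : ℕ := ∑ j ∈ Finset.range C, T.card ^ j with hK
  refine ⟨1 / (K + 1 : ℝ), by positivity, fun n => ?_⟩
  have hmono : (T ^ n).card ≤ (T ^ (n + 1)).card :=
    Finset.card_le_card (Finset.pow_subset_pow_right h1 (Nat.le_succ n))
  have h2 := card_steps T h1 n C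
  rw [← hK] at h2
  have h3 := hC n
  have h4 : (T ^ n).card ≤ ((T ^ (n + 1)).card - (T ^ n).card) * K := by omega
  have h5 : ((T ^ n).card : ℝ) ≤ (((T ^ (n + 1)).card : ℝ) - ((T ^ n).card : ℝ)) * K := by
    have : (((T ^ n).card : ℕ) : ℝ) ≤ ((((T ^ (n + 1)).card - (T ^ n).card) * K : ℕ) : ℝ) := by
      exact_mod_cast h4
    rw [Nat.cast_mul, Nat.cast_sub hmono] at this
    exact this
  have h6 : (0 : ℝ) ≤ ((T ^ (n + 1)).card : ℝ) - ((T ^ n).card : ℝ) := by
    have : ((T ^ n).card : ℝ) ≤ ((T ^ (n + 1)).card : ℝ) := by exact_mod_cast hmono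
    linarith
  rw [div_mul_eq_mul_div, one_mul, div_le_iff₀ (by positivity)]
  nlinarith

/-- Counting form of the insertion argument: if every element of `T^n` has at least `2 * M` admissible
modifications landing in `T^(n+C)`, and each element of `T^(n+C)` comes from at most `M` pairs, then
balls double. -/
theorem doubling_of_insertion {ι : Type*} (T : Finset G) (n C M : ℕ) (hM : 0 < M)
    (P : G → Finset ι) (Φ : G → ι → G)
    (hP : ∀ g ∈ T ^ n, 2 * M ≤ (P g).card)
    (hmem : ∀ g ∈ T ^ n, ∀ p ∈ P g, Φ g p ∈ T ^ (n + C))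
    (hfib : ∀ g' ∈ T ^ (n + C),
      (((T ^ n).sigma fun g => P g).filter fun x => Φ x.1 x.2 = g').card ≤ M) :
    2 * (T ^ n).card ≤ (T ^ (n + C)).card := by
  have h1 : (((T ^ n).sigma fun g => P g)).card ≤ M * (T ^ (n + C)).card := by
    refine Finset.card_le_mul_card_image_of_maps_to (f := fun x : (Σ _ : G, ι) => Φ x.1 x.2) ?_ M ?_
    · rintro ⟨g, p⟩ h
      rw [Finset.mem_sigma] at h
      exact hmem g h.1 p h.2
    · intro g' hg'
      exact hfib g' hg'
  have h2 : (T ^ n).card * (2 * M) ≤ (((T ^ n).sigma fun g => P g)).card := by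
    rw [Finset.card_sigma]
    calc (T ^ n).card * (2 * M) = ∑ _g ∈ T ^ n, (2 * M) := by simp
      _ ≤ ∑ g ∈ T ^ n, (P g).card := Finset.sum_le_sum hP
  have h3 : M * (2 * (T ^ n).card) ≤ M * (T ^ (n + C)).card := by
    calc M * (2 * (T ^ n).card) = (T ^ n).card * (2 * M) := by ring
      _ ≤ _ := h2.trans h1
  exact Nat.le_of_mul_le_mul_left h3 hM

/-- Every finite subset of a group generated by `S` is contained in some power of `S ∪ S⁻¹ ∪ {1}`. -/
theorem exists_pow_superset (S : Finset G) (hS : Subgroup.closure (S : Set G) = ⊤) (F : Finset G) :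
    ∃ C : ℕ, F ⊆ (S ∪ S⁻¹ ∪ {1}) ^ C := by
  set T : Finset G := S ∪ S⁻¹ ∪ {1} with hT
  have h1 : (1 : G) ∈ T := by simp [hT]
  have hinv : T⁻¹ = T := by
    ext x
    simp only [hT, Finset.mem_inv', Finset.mem_union, Finset.mem_singleton, inv_eq_one, inv_inv]
    tauto
  have key : ∀ g : G, ∃ C : ℕ, g ∈ T ^ C := by
    intro g
    have hg : g ∈ Subgroup.closure (S : Set G) := by rw [hS]; trivial
    induction hg using Subgroup.closure_induction with
    | mem x hx => exact ⟨1, by rw [pow_one, hT]; simp [Finset.mem_coe.1 hx]⟩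
    | one => exact ⟨0, by simp⟩
    | mul x y _ _ hx hy =>
      obtain ⟨a, ha⟩ := hx
      obtain ⟨b, hb⟩ := hy
      exact ⟨a + b, by rw [pow_add]; exact Finset.mul_mem_mul ha hb⟩
    | inv x _ hx =>
      obtain ⟨a, ha⟩ := hx
      refine ⟨a, ?_⟩
      have : x⁻¹ ∈ (T ^ a)⁻¹ := by simpa using ha
      rwa [← inv_pow, hinv] at this
  choose c hc using key
  refine ⟨F.sup c, fun g hg => ?_⟩
  exact Finset.pow_subset_pow_right h1 (Finset.le_sup (f := c) hg) (hc g)

/-- An element of `T^n` is the end point of a path `w 0 = 1, …, w n = g` with steps in `T`. -/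
theorem exists_path (T : Finset G) (n : ℕ) (g : G) (hg : g ∈ T ^ n) :
    ∃ w : ℕ → G, w 0 = 1 ∧ w n = g ∧ (∀ i < n, (w i)⁻¹ * w (i + 1) ∈ T) ∧
      (∀ i ≤ n, w i ∈ T ^ i) ∧ (∀ i ≤ n, (w i)⁻¹ * g ∈ T ^ (n - i)) := by
  induction n generalizing g with
  | zero =>
    refine ⟨fun _ => 1, rfl, ?_, ?_, ?_, ?_⟩
    · have : g = 1 := by simpa using hg
      simp [this]
    · intro i hi; omega
    · intro i hi; simp [Nat.le_zero.1 hi]
    · intro i hi
      have : g = 1 := by simpa using hg
      simp [Nat.le_zero.1 hi, this]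
  | succ n ih =>
    rw [pow_succ] at hg
    obtain ⟨x, hx, y, hy, rfl⟩ := Finset.mem_mul.1 hg
    obtain ⟨w, h0, hn, hs, hp, hq⟩ := ih x hx
    refine ⟨fun i => if i ≤ n then w i else x * y, by simp [h0], by simp, ?_, ?_, ?_⟩
    · intro i hi
      rcases Nat.lt_or_ge i n with h | h
      · have h' : i ≤ n := h.le
        have h'' : i + 1 ≤ n := h
        simp only [h', h'', if_true]
        exact hs i h
      · have hi' : i = n := by omega
        subst hi'
        simp only [le_refl, if_true, Nat.not_succ_le_self, if_false]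
        rw [hn]
        simpa using hy
    · intro i hi
      by_cases h : i ≤ n
      · simp only [h, if_true]; exact hp i h
      · have hi' : i = n + 1 := by omega
        subst hi'
        simp only [h, if_false]
        rw [pow_succ]
        exact Finset.mul_mem_mul hx hy
    · intro i hi
      by_cases h : i ≤ n
      · simp only [h, if_true]
        have := hq i h
        rw [show n + 1 - i = (n - i) + 1 by omega, pow_succ, ← mul_assoc]
        exact Finset.mul_mem_mul this hy
      · have hi' : i = n + 1 := by omega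
        subst hi'
        simp [h]

end Pool.Agent.RatioGrowth
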