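import Mathlib
import Pool.Agent.RatioGrowth.Basic

set_option autoImplicit false

open Pointwise

namespace Pool.Agent.RatioGrowth

variable {G : Type*} [Group G]

/-- If the kernel of a map onto `ℤ` is not finitely generated, it is a strictly ascending
union for `t` or for `t⁻¹`. -/
theorem exists_ascending (χ : G →* Multiplicative ℤ) (t : G) (ht : χ t = Multiplicative.ofAdd 1)
    (hfg : ¬ χ.ker.FG) (S : Finset G) (hS : Subgroup.closure (S : Set G) = ⊤) :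
    ∃ t' : G, (t' = t ∨ t' = t⁻¹) ∧ ∃ N₀ : Subgroup G, N₀ ≤ χ.ker ∧
      (∀ g ∈ N₀, t' * g * t'⁻¹ ∈ N₀) ∧ (∀ g ∈ χ.ker, ∃ k : ℕ, t' ^ k * g * (t' ^ k)⁻¹ ∈ N₀) ∧
      ∃ x ∈ χ.ker, x ∉ N₀ := by
  classical
  set e : G → ℤ := fun g => Multiplicative.toAdd (χ g) with he
  have he_mul : ∀ a b, e (a * b) = e a + e b := fun a b => by simp [he]
  have he_inv : ∀ a, e a⁻¹ = - e a := fun a => by simp [he]
  have he_one : e 1 = 0 := by simp [he]
  have he_t : ∀ k : ℤ, e (t ^ k) = k := fun k => by simp [he, ht]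
  have hker : ∀ g, g ∈ χ.ker ↔ e g = 0 := by
    intro g
    rw [MonoidHom.mem_ker]
    constructor
    · intro h; simp [he, h]
    · intro h; exact Multiplicative.toAdd.injective (by simpa [he] using h)
  set ν : G → G := fun g => g * (t ^ (e g))⁻¹ with hν
  have hνker : ∀ s, ν s ∈ χ.ker := fun s => by
    rw [hker, hν]; simp only [he_mul, he_inv, he_t]; ring
  -- the three generating families
  have hall : χ.ker ≤ Subgroup.closure {g | ∃ s ∈ S, ∃ j : ℤ, g = t ^ j * ν s * (t ^ j)⁻¹} := by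
    set K := Subgroup.closure {g | ∃ s ∈ S, ∃ j : ℤ, g = t ^ j * ν s * (t ^ j)⁻¹} with hK
    have hKt : ∀ j : ℤ, ∀ g ∈ K, t ^ j * g * (t ^ j)⁻¹ ∈ K := by
      intro j g hg
      induction hg using Subgroup.closure_induction with
      | mem x hx =>
        obtain ⟨s, hs, i, rfl⟩ := hx
        refine Subgroup.subset_closure ⟨s, hs, j + i, ?_⟩
        rw [zpow_add]; group
      | one => simp
      | mul x y _ _ hx hy =>
        have : t ^ j * (x * y) * (t ^ j)⁻¹ = (t ^ j * x * (t ^ j)⁻¹) * (t ^ j * y * (t ^ j)⁻¹) := by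
          group
        rw [this]; exact K.mul_mem hx hy
      | inv x _ hx =>
        have : t ^ j * x⁻¹ * (t ^ j)⁻¹ = (t ^ j * x * (t ^ j)⁻¹)⁻¹ := by group
        rw [this]; exact K.inv_mem hx
    have hgen : ∀ g : G, ν g ∈ K := by
      intro g
      have hg : g ∈ Subgroup.closure (S : Set G) := by rw [hS]; trivial
      induction hg using Subgroup.closure_induction with
      | mem x hx => exact Subgroup.subset_closure ⟨x, Finset.mem_coe.1 hx, 0, by simp⟩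
      | one => simp [hν, he_one]
      | mul x y _ _ hx hy =>
        have : ν (x * y) = ν x * (t ^ (e x) * ν y * (t ^ (e x))⁻¹) := by
          simp only [hν, he_mul, zpow_add]; group
        rw [this]; exact K.mul_mem hx (hKt _ _ hy)
      | inv x _ hx =>
        have : ν x⁻¹ = t ^ (-e x) * (ν x)⁻¹ * (t ^ (-e x))⁻¹ := by
          simp only [hν, he_inv, mul_inv_rev, inv_inv, zpow_neg]; group
        rw [this]; exact hKt _ _ (K.inv_mem hx)
    intro g hg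
    have := hgen g
    rw [hker] at hg
    simpa [hν, hg] using this
  set Np := Subgroup.closure {g | ∃ s ∈ S, ∃ j : ℕ, g = t ^ j * ν s * (t ^ j)⁻¹} with hNp
  set Nm := Subgroup.closure {g | ∃ s ∈ S, ∃ j : ℕ, g = (t ^ j)⁻¹ * ν s * t ^ j} with hNm
  have conj_ker : ∀ a g : G, g ∈ χ.ker → a * g * a⁻¹ ∈ χ.ker := fun a g hg => by
    rw [hker] at hg ⊢; rw [he_mul, he_mul, he_inv, hg]; ring
  have hNpk : Np ≤ χ.ker := by
    rw [hNp, Subgroup.closure_le]
    rintro _ ⟨s, _, j, rfl⟩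
    exact conj_ker _ _ (hνker s)
  have hNmk : Nm ≤ χ.ker := by
    rw [hNm, Subgroup.closure_le]
    rintro _ ⟨s, _, j, rfl⟩
    have := conj_ker (t ^ j)⁻¹ _ (hνker s)
    simpa using this
  have hNpasc : ∀ g ∈ Np, t * g * t⁻¹ ∈ Np := by
    intro g hg
    induction hg using Subgroup.closure_induction with
    | mem x hx =>
      obtain ⟨s, hs, i, rfl⟩ := hx
      refine Subgroup.subset_closure ⟨s, hs, i + 1, ?_⟩
      rw [pow_succ']; group
    | one => simp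
    | mul x y _ _ hx hy =>
      have : t * (x * y) * t⁻¹ = (t * x * t⁻¹) * (t * y * t⁻¹) := by group
      rw [this]; exact Np.mul_mem hx hy
    | inv x _ hx =>
      have : t * x⁻¹ * t⁻¹ = (t * x * t⁻¹)⁻¹ := by group
      rw [this]; exact Np.inv_mem hx
  have hNmasc : ∀ g ∈ Nm, t⁻¹ * g * t⁻¹⁻¹ ∈ Nm := by
    intro g hg
    induction hg using Subgroup.closure_induction with
    | mem x hx =>
      obtain ⟨s, hs, i, rfl⟩ := hx
      refine Subgroup.subset_closure ⟨s, hs, i + 1, ?_⟩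
      rw [pow_succ]; group
    | one => simp
    | mul x y _ _ hx hy =>
      have : t⁻¹ * (x * y) * t⁻¹⁻¹ = (t⁻¹ * x * t⁻¹⁻¹) * (t⁻¹ * y * t⁻¹⁻¹) := by group
      rw [this]; exact Nm.mul_mem hx hy
    | inv x _ hx =>
      have : t⁻¹ * x⁻¹ * t⁻¹⁻¹ = (t⁻¹ * x * t⁻¹⁻¹)⁻¹ := by group
      rw [this]; exact Nm.inv_mem hx
  -- exhaustion
  have hup : ∀ g ∈ χ.ker, ∃ k : ℕ, t ^ k * g * (t ^ k)⁻¹ ∈ Np := by
    intro g hg
    have hg' := hall hg
    have hasck : ∀ (i : ℕ) (g : G), g ∈ Np → t ^ i * g * (t ^ i)⁻¹ ∈ Np := by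
      intro i
      induction i with
      | zero => intro g hg; simpa using hg
      | succ i ih =>
        intro g hg
        have := ih _ (hNpasc g hg)
        have h2 : t ^ (i + 1) * g * (t ^ (i + 1))⁻¹ = t ^ i * (t * g * t⁻¹) * (t ^ i)⁻¹ := by
          rw [pow_succ]; group
        rwa [h2]
    induction hg' using Subgroup.closure_induction with
    | mem x hx =>
      obtain ⟨s, hs, i, rfl⟩ := hx
      refine ⟨i.natAbs, Subgroup.subset_closure ⟨s, hs, (i.natAbs + i).toNat, ?_⟩⟩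
      have h1 : ((t ^ (((i.natAbs : ℤ) + i).toNat) : G)) = t ^ ((i.natAbs : ℤ) + i) := by
        rw [← zpow_natCast, Int.toNat_of_nonneg (by omega)]
      rw [h1, zpow_add, zpow_natCast]; group
    | one => exact ⟨0, by simp⟩
    | mul x y hx' hy' hx hy =>
      have hxk : x ∈ χ.ker := by
        have : Subgroup.closure {g | ∃ s ∈ S, ∃ j : ℤ, g = t ^ j * ν s * (t ^ j)⁻¹} ≤ χ.ker := by
          rw [Subgroup.closure_le]
          rintro _ ⟨s, _, j, rfl⟩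
          exact conj_ker _ _ (hνker s)
        exact this hx'
      have hyk : y ∈ χ.ker := by
        have : Subgroup.closure {g | ∃ s ∈ S, ∃ j : ℤ, g = t ^ j * ν s * (t ^ j)⁻¹} ≤ χ.ker := by
          rw [Subgroup.closure_le]
          rintro _ ⟨s, _, j, rfl⟩
          exact conj_ker _ _ (hνker s)
        exact this hy'
      obtain ⟨k1, h1⟩ := hx hxk
      obtain ⟨k2, h2⟩ := hy hyk
      refine ⟨k1 + k2, ?_⟩
      have h3 : t ^ (k1 + k2) * (x * y) * (t ^ (k1 + k2))⁻¹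
          = (t ^ k2 * (t ^ k1 * x * (t ^ k1)⁻¹) * (t ^ k2)⁻¹)
            * (t ^ k1 * (t ^ k2 * y * (t ^ k2)⁻¹) * (t ^ k1)⁻¹) := by
        have h4 : t ^ (k1 + k2) = t ^ k2 * t ^ k1 := by rw [add_comm, pow_add]
        have h5 : t ^ k2 * t ^ k1 = t ^ k1 * t ^ k2 := by rw [← pow_add, ← pow_add, add_comm]
        rw [h4]
        calc t ^ k2 * t ^ k1 * (x * y) * (t ^ k2 * t ^ k1)⁻¹
            = (t ^ k2 * (t ^ k1 * x * (t ^ k1)⁻¹) * (t ^ k2)⁻¹)
              * ((t ^ k2 * t ^ k1) * y * (t ^ k2 * t ^ k1)⁻¹) := by group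
          _ = _ := by rw [h5]; group
      rw [h3]
      exact Np.mul_mem (hasck k2 _ h1) (hasck k1 _ h2)
    | inv x hx' hx =>
      have hxk : x ∈ χ.ker := by
        have := χ.ker.inv_mem hg
        simpa using this
      obtain ⟨k1, h1⟩ := hx hxk
      refine ⟨k1, ?_⟩
      have : t ^ k1 * x⁻¹ * (t ^ k1)⁻¹ = (t ^ k1 * x * (t ^ k1)⁻¹)⁻¹ := by group
      rw [this]; exact Np.inv_mem h1
  have hdown : ∀ g ∈ χ.ker, ∃ k : ℕ, t⁻¹ ^ k * g * (t⁻¹ ^ k)⁻¹ ∈ Nm := by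
    intro g hg
    have hg' := hall hg
    have hasck : ∀ (i : ℕ) (g : G), g ∈ Nm → t⁻¹ ^ i * g * (t⁻¹ ^ i)⁻¹ ∈ Nm := by
      intro i
      induction i with
      | zero => intro g hg; simpa using hg
      | succ i ih =>
        intro g hg
        have := ih _ (hNmasc g hg)
        have h2 : t⁻¹ ^ (i + 1) * g * (t⁻¹ ^ (i + 1))⁻¹
            = t⁻¹ ^ i * (t⁻¹ * g * t⁻¹⁻¹) * (t⁻¹ ^ i)⁻¹ := by
          rw [pow_succ]; group
        rwa [h2]
    induction hg' using Subgroup.closure_induction with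
    | mem x hx =>
      obtain ⟨s, hs, i, rfl⟩ := hx
      refine ⟨i.natAbs, Subgroup.subset_closure ⟨s, hs, ((i.natAbs : ℤ) - i).toNat, ?_⟩⟩
      have h1 : ((t ^ (((i.natAbs : ℤ) - i).toNat) : G)) = t ^ ((i.natAbs : ℤ) - i) := by
        rw [← zpow_natCast, Int.toNat_of_nonneg (by omega)]
      rw [h1, zpow_sub, inv_pow, zpow_natCast]; group
    | one => exact ⟨0, by simp⟩
    | mul x y hx' hy' hx hy =>
      have hle : Subgroup.closure {g | ∃ s ∈ S, ∃ j : ℤ, g = t ^ j * ν s * (t ^ j)⁻¹} ≤ χ.ker := by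
        rw [Subgroup.closure_le]
        rintro _ ⟨s, _, j, rfl⟩
        exact conj_ker _ _ (hνker s)
      obtain ⟨k1, h1⟩ := hx (hle hx')
      obtain ⟨k2, h2⟩ := hy (hle hy')
      refine ⟨k1 + k2, ?_⟩
      have h3 : t⁻¹ ^ (k1 + k2) * (x * y) * (t⁻¹ ^ (k1 + k2))⁻¹
          = (t⁻¹ ^ k2 * (t⁻¹ ^ k1 * x * (t⁻¹ ^ k1)⁻¹) * (t⁻¹ ^ k2)⁻¹)
            * (t⁻¹ ^ k1 * (t⁻¹ ^ k2 * y * (t⁻¹ ^ k2)⁻¹) * (t⁻¹ ^ k1)⁻¹) := by
        have h4 : t⁻¹ ^ (k1 + k2) = t⁻¹ ^ k2 * t⁻¹ ^ k1 := by rw [add_comm, pow_add]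
        have h5 : t⁻¹ ^ k2 * t⁻¹ ^ k1 = t⁻¹ ^ k1 * t⁻¹ ^ k2 := by
          rw [← pow_add, ← pow_add, add_comm]
        rw [h4]
        calc t⁻¹ ^ k2 * t⁻¹ ^ k1 * (x * y) * (t⁻¹ ^ k2 * t⁻¹ ^ k1)⁻¹
            = (t⁻¹ ^ k2 * (t⁻¹ ^ k1 * x * (t⁻¹ ^ k1)⁻¹) * (t⁻¹ ^ k2)⁻¹)
              * ((t⁻¹ ^ k2 * t⁻¹ ^ k1) * y * (t⁻¹ ^ k2 * t⁻¹ ^ k1)⁻¹) := by group
          _ = _ := by rw [h5]; group
      rw [h3]
      exact Nm.mul_mem (hasck k2 _ h1) (hasck k1 _ h2)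
    | inv x hx' hx =>
      have hxk : x ∈ χ.ker := by
        have := χ.ker.inv_mem hg
        simpa using this
      obtain ⟨k1, h1⟩ := hx hxk
      refine ⟨k1, ?_⟩
      have : t⁻¹ ^ k1 * x⁻¹ * (t⁻¹ ^ k1)⁻¹ = (t⁻¹ ^ k1 * x * (t⁻¹ ^ k1)⁻¹)⁻¹ := by group
      rw [this]; exact Nm.inv_mem h1
  by_cases hp : χ.ker ≤ Np
  · by_cases hm : χ.ker ≤ Nm
    · -- both one-sided: the kernel is finitely generated
      exfalso
      apply hfg
      -- finite stages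
      set F : ℕ → Subgroup G := fun r => Subgroup.closure
        (((Finset.range (r + 1)).biUnion fun j => S.image fun s => (t ^ j)⁻¹ * ν s * t ^ j : Finset G)
          : Set G) with hF
      have hFmono : ∀ {r r' : ℕ}, r ≤ r' → F r ≤ F r' := by
        intro r r' hrr
        refine Subgroup.closure_mono ?_
        intro g hg
        simp only [Finset.coe_biUnion, Set.mem_iUnion, Finset.coe_image, Set.mem_image,
          Finset.mem_coe, Finset.mem_range] at hg ⊢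
        obtain ⟨j, hj, s, hs, rfl⟩ := hg
        exact ⟨j, by omega, s, hs, rfl⟩
      have hFmem : ∀ (r j : ℕ), j ≤ r → ∀ s ∈ S, (t ^ j)⁻¹ * ν s * t ^ j ∈ F r := by
        intro r j hj s hs
        refine Subgroup.subset_closure ?_
        simp only [Finset.coe_biUnion, Set.mem_iUnion, Finset.coe_image, Set.mem_image,
          Finset.mem_coe, Finset.mem_range]
        exact ⟨j, by omega, s, hs, rfl⟩
      have hex : ∀ g ∈ Nm, ∃ r, g ∈ F r := by
        intro g hg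
        induction hg using Subgroup.closure_induction with
        | mem x hx =>
          obtain ⟨s, hs, j, rfl⟩ := hx
          exact ⟨j, hFmem j j le_rfl s hs⟩
        | one => exact ⟨0, Subgroup.one_mem _⟩
        | mul x y _ _ hx hy =>
          obtain ⟨a, ha⟩ := hx
          obtain ⟨b, hb⟩ := hy
          exact ⟨max a b, Subgroup.mul_mem _ (hFmono (le_max_left _ _) ha)
            (hFmono (le_max_right _ _) hb)⟩
        | inv x _ hx =>
          obtain ⟨a, ha⟩ := hx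
          exact ⟨a, Subgroup.inv_mem _ ha⟩
      have h1 : ∀ s : G, ∃ r, t * ν s * t⁻¹ ∈ F r := fun s =>
        hex _ (hm (conj_ker t _ (hνker s)))
      choose ρ hρ using h1
      set r := S.sup ρ with hr
      have hFr : ∀ g ∈ F r, t * g * t⁻¹ ∈ F r := by
        intro g hg
        induction hg using Subgroup.closure_induction with
        | mem x hx =>
          simp only [Finset.coe_biUnion, Set.mem_iUnion, Finset.coe_image, Set.mem_image,
            Finset.mem_coe, Finset.mem_range] at hx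
          obtain ⟨j, hj, s, hs, rfl⟩ := hx
          rcases j with _ | j
          · simp only [pow_zero, inv_one, one_mul, mul_one]
            exact hFmono (Finset.le_sup (f := ρ) hs) (hρ s)
          · have : t * ((t ^ (j + 1))⁻¹ * ν s * t ^ (j + 1)) * t⁻¹ = (t ^ j)⁻¹ * ν s * t ^ j := by
              rw [pow_succ]; group
            rw [this]
            exact hFmem r j (by omega) s hs
        | one => simp
        | mul x y _ _ hx hy =>
          have : t * (x * y) * t⁻¹ = (t * x * t⁻¹) * (t * y * t⁻¹) := by group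
          rw [this]; exact Subgroup.mul_mem _ hx hy
        | inv x _ hx =>
          have : t * x⁻¹ * t⁻¹ = (t * x * t⁻¹)⁻¹ := by group
          rw [this]; exact Subgroup.inv_mem _ hx
      have hNpF : Np ≤ F r := by
        rw [hNp, Subgroup.closure_le]
        rintro _ ⟨s, hs, j, rfl⟩
        induction j with
        | zero =>
          have := hFmem r 0 (Nat.zero_le _) s hs
          simpa using this
        | succ j ih =>
          have := hFr _ ih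
          have h2 : t ^ (j + 1) * ν s * (t ^ (j + 1))⁻¹ = t * (t ^ j * ν s * (t ^ j)⁻¹) * t⁻¹ := by
            rw [pow_succ']; group
          rw [h2]; exact this
      have hFk : F r ≤ χ.ker := by
        rw [hF, Subgroup.closure_le]
        intro g hg
        simp only [Finset.coe_biUnion, Set.mem_iUnion, Finset.coe_image, Set.mem_image,
          Finset.mem_coe, Finset.mem_range] at hg
        obtain ⟨j, _, s, _, rfl⟩ := hg
        have := conj_ker (t ^ j)⁻¹ _ (hνker s)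
        simpa using this
      have : χ.ker = F r := le_antisymm (hp.trans hNpF) hFk
      rw [this]
      exact ⟨_, rfl⟩
    · obtain ⟨x, hx, hxN⟩ := Set.not_subset.1 hm
      exact ⟨t⁻¹, Or.inr rfl, Nm, hNmk, hNmasc, hdown, x, hx, hxN⟩
  · obtain ⟨x, hx, hxN⟩ := Set.not_subset.1 hp
    exact ⟨t, Or.inl rfl, Np, hNpk, hNpasc, hup, x, hx, hxN⟩

/-- size of an element relative to an ascending filtration -/
noncomputable def ascNorm (t : G) (N₀ : Subgroup G) (g : G) : ℝ :=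
  sInf {r : ℝ | ∃ k : ℤ, r = (2 : ℝ) ^ k ∧ t ^ k * g * (t ^ k)⁻¹ ∈ N₀}

lemma ascNorm_bdd (t : G) (N₀ : Subgroup G) (g : G) :
    BddBelow {r : ℝ | ∃ k : ℤ, r = (2 : ℝ) ^ k ∧ t ^ k * g * (t ^ k)⁻¹ ∈ N₀} := by
  refine ⟨0, ?_⟩
  rintro _ ⟨k, rfl, _⟩
  positivity

lemma ascNorm_nonneg (t : G) (N₀ : Subgroup G) (g : G) : 0 ≤ ascNorm t N₀ g := by
  refine Real.sInf_nonneg ?_
  rintro _ ⟨k, rfl, _⟩
  positivity

lemma ascNorm_inv (t : G) (N₀ : Subgroup G) (g : G) : ascNorm t N₀ g⁻¹ = ascNorm t N₀ g := by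
  unfold ascNorm
  congr 1
  ext r
  constructor
  · rintro ⟨k, hr, hk⟩
    refine ⟨k, hr, ?_⟩
    have := N₀.inv_mem hk
    have e : (t ^ k * g⁻¹ * (t ^ k)⁻¹)⁻¹ = t ^ k * g * (t ^ k)⁻¹ := by group
    rwa [e] at this
  · rintro ⟨k, hr, hk⟩
    refine ⟨k, hr, ?_⟩
    have := N₀.inv_mem hk
    have e : (t ^ k * g * (t ^ k)⁻¹)⁻¹ = t ^ k * g⁻¹ * (t ^ k)⁻¹ := by group
    rwa [e] at this

lemma ascNorm_one (t : G) (N₀ : Subgroup G) : ascNorm t N₀ 1 = 0 := by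
  refine le_antisymm ?_ (ascNorm_nonneg _ _ _)
  refine le_of_forall_pos_le_add fun ε hε => ?_
  rw [zero_add]
  obtain ⟨m, hm⟩ := exists_pow_lt_of_lt_one hε (by norm_num : (1 / 2 : ℝ) < 1)
  refine (csInf_le (ascNorm_bdd t N₀ 1) ⟨-(m : ℤ), rfl, by simp⟩).trans ?_
  rw [zpow_neg, zpow_natCast, ← inv_pow, ← one_div]
  exact hm.le

lemma asc_conj {t : G} {N₀ : Subgroup G} (hasc : ∀ g ∈ N₀, t * g * t⁻¹ ∈ N₀) {k l : ℤ} (h : k ≤ l)
    {g : G} (hg : t ^ k * g * (t ^ k)⁻¹ ∈ N₀) : t ^ l * g * (t ^ l)⁻¹ ∈ N₀ := by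
  obtain ⟨m, rfl⟩ := Int.le.dest h
  clear h
  induction m with
  | zero => simpa using hg
  | succ m ih =>
    have h1 := hasc _ ih
    have h2 : t * (t ^ (k + (m : ℤ)) * g * (t ^ (k + (m : ℤ)))⁻¹) * t⁻¹
        = t ^ (k + ((m + 1 : ℕ) : ℤ)) * g * (t ^ (k + ((m + 1 : ℕ) : ℤ)))⁻¹ := by
      have h3 : t ^ (k + ((m + 1 : ℕ) : ℤ)) = t * t ^ (k + (m : ℤ)) := by
        rw [← zpow_one_add]; congr 1; push_cast; ring
      rw [h3]; group
    rwa [h2] at h1

lemma ascNorm_mul {t : G} {N₀ : Subgroup G} (hasc : ∀ g ∈ N₀, t * g * t⁻¹ ∈ N₀) {g h : G}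
    (hg : ∃ k : ℕ, t ^ k * g * (t ^ k)⁻¹ ∈ N₀) (hh : ∃ k : ℕ, t ^ k * h * (t ^ k)⁻¹ ∈ N₀) :
    ascNorm t N₀ (g * h) ≤ ascNorm t N₀ g + ascNorm t N₀ h := by
  have hne : ∀ g : G, (∃ k : ℕ, t ^ k * g * (t ^ k)⁻¹ ∈ N₀) →
      {r : ℝ | ∃ k : ℤ, r = (2 : ℝ) ^ k ∧ t ^ k * g * (t ^ k)⁻¹ ∈ N₀}.Nonempty := by
    rintro g ⟨k, hk⟩
    exact ⟨2 ^ (k : ℤ), k, rfl, by rw [zpow_natCast]; exact hk⟩
  refine le_of_forall_pos_le_add fun ε hε => ?_
  obtain ⟨_, ⟨k, rfl, hk⟩, hk2⟩ := exists_lt_of_csInf_lt (hne g hg)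
    (lt_add_of_pos_right (ascNorm t N₀ g) hε)
  obtain ⟨_, ⟨l, rfl, hl⟩, hl2⟩ := exists_lt_of_csInf_lt (hne h hh)
    (lt_add_of_pos_right (ascNorm t N₀ h) hε)
  have hm : t ^ (max k l) * (g * h) * (t ^ (max k l))⁻¹ ∈ N₀ := by
    have h1 := asc_conj hasc (le_max_left k l) hk
    have h2 := asc_conj hasc (le_max_right k l) hl
    have h3 := N₀.mul_mem h1 h2
    have h4 : t ^ (max k l) * g * (t ^ (max k l))⁻¹ * (t ^ (max k l) * h * (t ^ (max k l))⁻¹) =
      t ^ (max k l) * (g * h) * (t ^ (max k l))⁻¹ := by group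
    rwa [h4] at h3
  refine (csInf_le (ascNorm_bdd t N₀ (g * h)) ⟨max k l, rfl, hm⟩).trans ?_
  have hg0 := ascNorm_nonneg t N₀ g
  have hh0 := ascNorm_nonneg t N₀ h
  rcases le_total k l with hkl | hkl
  · rw [max_eq_right hkl]; linarith
  · rw [max_eq_left hkl]; linarith

lemma ascNorm_conj (t : G) (N₀ : Subgroup G) (g : G) :
    ascNorm t N₀ (t⁻¹ * g * t⁻¹⁻¹) = 2 * ascNorm t N₀ g := by
  have h1 : {r : ℝ | ∃ k : ℤ, r = (2 : ℝ) ^ k ∧ t ^ k * (t⁻¹ * g * t⁻¹⁻¹) * (t ^ k)⁻¹ ∈ N₀} =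
      (2 : ℝ) • {r : ℝ | ∃ k : ℤ, r = (2 : ℝ) ^ k ∧ t ^ k * g * (t ^ k)⁻¹ ∈ N₀} := by
    ext r
    rw [Set.mem_smul_set]
    constructor
    · rintro ⟨k, hr, hk⟩
      refine ⟨2 ^ (k - 1), ⟨k - 1, rfl, ?_⟩, ?_⟩
      · have e : t ^ (k - 1) * g * (t ^ (k - 1))⁻¹ = t ^ k * (t⁻¹ * g * t⁻¹⁻¹) * (t ^ k)⁻¹ := by
          rw [zpow_sub_one]; group
        rwa [e]
      · rw [hr, smul_eq_mul, zpow_sub_one₀ (by norm_num : (2 : ℝ) ≠ 0)]; ring
    · rintro ⟨_, ⟨k, rfl, hk⟩, hr⟩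
      refine ⟨k + 1, ?_, ?_⟩
      · rw [← hr, smul_eq_mul, zpow_add_one₀ (by norm_num : (2 : ℝ) ≠ 0)]; ring
      · have e : t ^ (k + 1) * (t⁻¹ * g * t⁻¹⁻¹) * (t ^ (k + 1))⁻¹ = t ^ k * g * (t ^ k)⁻¹ := by
          rw [zpow_add_one]; group
        rwa [e]
  unfold ascNorm
  rw [h1, Real.sInf_smul_of_nonneg (by norm_num), smul_eq_mul]

lemma ascNorm_pos {t : G} {N₀ : Subgroup G} (hasc : ∀ g ∈ N₀, t * g * t⁻¹ ∈ N₀) {g : G}
    (hg : ∃ k : ℕ, t ^ k * g * (t ^ k)⁻¹ ∈ N₀) (hgN : g ∉ N₀) : 0 < ascNorm t N₀ g := by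
  have hne : {r : ℝ | ∃ k : ℤ, r = (2 : ℝ) ^ k ∧ t ^ k * g * (t ^ k)⁻¹ ∈ N₀}.Nonempty := by
    obtain ⟨k, hk⟩ := hg
    exact ⟨2 ^ (k : ℤ), k, rfl, by rw [zpow_natCast]; exact hk⟩
  have : (1 : ℝ) ≤ ascNorm t N₀ g := by
    refine le_csInf hne ?_
    rintro _ ⟨k, rfl, hk⟩
    by_contra hcon
    push Not at hcon
    apply hgN
    have hk0 : k ≤ 0 := by
      by_contra hpos
      push Not at hpos
      have : (1 : ℝ) ≤ 2 ^ k := one_le_zpow₀ (by norm_num) hpos.le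
      linarith
    have := asc_conj hasc hk0 hk
    simpa using this
  linarith

end Pool.Agent.RatioGrowth
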