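import Mathlib
import Pool.Agent.RatioGrowth.Basic

set_option autoImplicit false

open Pointwise

namespace Pool.Agent.RatioGrowth

variable {G : Type*} [Group G]

/-- The subgroup `t^{-k} N₀ t^k`. -/
def shiftSub (t : G) (N₀ : Subgroup G) (k : ℤ) : Subgroup G :=
  N₀.comap (MulAut.conj (t ^ k)).toMonoidHom

lemma mem_shiftSub {t : G} {N₀ : Subgroup G} {k : ℤ} {g : G} :
    g ∈ shiftSub t N₀ k ↔ t ^ k * g * (t ^ k)⁻¹ ∈ N₀ := by
  rw [shiftSub, Subgroup.mem_comap]
  change (MulAut.conj (t ^ k)) g ∈ N₀ ↔ _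
  rw [MulAut.conj_apply]

lemma shiftSub_conj {t : G} {N₀ : Subgroup G} {k j : ℤ} {g : G} :
    t ^ j * g * (t ^ j)⁻¹ ∈ shiftSub t N₀ k ↔ g ∈ shiftSub t N₀ (k + j) := by
  rw [mem_shiftSub, mem_shiftSub]
  have : t ^ k * (t ^ j * g * (t ^ j)⁻¹) * (t ^ k)⁻¹ = t ^ (k + j) * g * (t ^ (k + j))⁻¹ := by
    rw [zpow_add]; group
  rw [this]

lemma shiftSub_mono {t : G} {N₀ : Subgroup G} (hasc : ∀ g ∈ N₀, t * g * t⁻¹ ∈ N₀)
    {k k' : ℤ} (h : k ≤ k') : shiftSub t N₀ k ≤ shiftSub t N₀ k' := by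
  obtain ⟨m, rfl⟩ := Int.le.dest h
  clear h
  intro g hg
  rw [mem_shiftSub] at hg ⊢
  induction m with
  | zero => simpa using hg
  | succ m ih =>
    have := hasc _ ih
    have h2 : t * (t ^ (k + (m : ℤ)) * g * (t ^ (k + (m : ℤ)))⁻¹) * t⁻¹
        = t ^ (k + ((m + 1 : ℕ) : ℤ)) * g * (t ^ (k + ((m + 1 : ℕ) : ℤ)))⁻¹ := by
      have h3 : t ^ (k + ((m + 1 : ℕ) : ℤ)) = t * t ^ (k + (m : ℤ)) := by
        rw [← zpow_one_add]; congr 1; push_cast; ring
      rw [h3]; group
    rwa [h2] at this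

/-- General criterion: `χ : G → ℤ` with kernel exhausted by `t^{-k} N₀ t^k`, where
`t N₀ t⁻¹ ≤ N₀`, and some element of the kernel outside `N₀` commutes with `N₀`. -/
theorem ascending_ratio [DecidableEq G] (χ : G →* Multiplicative ℤ) (t : G)
    (ht : χ t = Multiplicative.ofAdd 1)
    (N₀ : Subgroup G) (hasc : ∀ g ∈ N₀, t * g * t⁻¹ ∈ N₀)
    (hunion : ∀ g ∈ χ.ker, ∃ k : ℕ, t ^ k * g * (t ^ k)⁻¹ ∈ N₀)
    (x : G) (hxker : x ∈ χ.ker) (hxN : x ∉ N₀) (hcomm : ∀ g ∈ N₀, x * g = g * x)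
    (S : Finset G) (hS : Subgroup.closure (S : Set G) = ⊤) :
    ∃ ε : ℝ, 0 < ε ∧ ∀ n : ℕ,
      ε * (((S ∪ S⁻¹ ∪ {1}) ^ n).card : ℝ) ≤
        (((S ∪ S⁻¹ ∪ {1}) ^ (n + 1)).card : ℝ) - (((S ∪ S⁻¹ ∪ {1}) ^ n).card : ℝ) := by
  classical
  set T : Finset G := S ∪ S⁻¹ ∪ {1} with hT
  have h1T : (1 : G) ∈ T := by simp [hT]
  set e : G → ℤ := fun g => Multiplicative.toAdd (χ g) with he
  have he_mul : ∀ a b, e (a * b) = e a + e b := fun a b => by simp [he]
  have he_inv : ∀ a, e a⁻¹ = - e a := fun a => by simp [he]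
  have he_one : e 1 = 0 := by simp [he]
  have he_t : ∀ k : ℤ, e (t ^ k) = k := fun k => by simp [he, ht]
  have hker : ∀ g, g ∈ χ.ker ↔ e g = 0 := by
    intro g
    rw [MonoidHom.mem_ker]
    constructor
    · intro h; simp [he, h]
    · intro h; exact Multiplicative.toAdd.injective (by simpa [he] using h)
  -- kernel part
  set ν : G → G := fun g => g * (t ^ (e g))⁻¹ with hν
  have hνg : ∀ g, g = ν g * t ^ (e g) := fun g => by simp [hν]
  have hNmono := fun {k k' : ℤ} (h : k ≤ k') => shiftSub_mono (t := t) (N₀ := N₀) hasc h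
  have hexh : ∀ g ∈ χ.ker, ∃ k : ℕ, g ∈ shiftSub t N₀ (k : ℤ) := by
    intro g hg
    obtain ⟨k, hk⟩ := hunion g hg
    exact ⟨k, by rw [mem_shiftSub]; simpa using hk⟩
  -- constant for generators
  obtain ⟨c, hc⟩ : ∃ c : ℕ, ∀ s ∈ T, ν s ∈ shiftSub t N₀ (c : ℤ) := by
    have hνker : ∀ s, ν s ∈ χ.ker := fun s => by
      rw [hker, hν]; simp only [he_mul, he_inv, he_t]; ring
    choose f hf using fun s => hexh (ν s) (hνker s)
    refine ⟨T.sup f, fun s hs => hNmono ?_ (hf s)⟩
    exact_mod_cast Finset.le_sup (f := f) hs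
  -- level of `x`
  obtain ⟨d, hd1, hxd, hxd'⟩ : ∃ d : ℕ, 1 ≤ d ∧ x ∈ shiftSub t N₀ (d : ℤ) ∧
      x ∉ shiftSub t N₀ ((d : ℤ) - 1) := by
    have hex := hexh x hxker
    refine ⟨Nat.find hex, ?_, Nat.find_spec hex, ?_⟩
    · by_contra h
      have h0 : Nat.find hex = 0 := by omega
      have := Nat.find_spec hex
      rw [h0, mem_shiftSub] at this
      exact hxN (by simpa using this)
    · intro h
      have hpos : 1 ≤ Nat.find hex := by
        by_contra h'
        have h0 : Nat.find hex = 0 := by omega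
        have := Nat.find_spec hex
        rw [h0, mem_shiftSub] at this
        exact hxN (by simpa using this)
      refine Nat.find_min hex (m := Nat.find hex - 1) (by omega) ?_
      rw [Nat.cast_sub hpos]
      simpa using h
  -- conjugates of `x`
  set Xc : ℤ → G := fun j => (t ^ j)⁻¹ * x * t ^ j with hXc
  have hX1 : ∀ j : ℤ, Xc j ∈ shiftSub t N₀ (j + d) := by
    intro j
    have h := (shiftSub_conj (t := t) (N₀ := N₀) (k := j + d) (j := -j) (g := x)).2
      (by simpa using hxd)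
    simpa [hXc] using h
  have hX2 : ∀ j : ℤ, Xc j ∉ shiftSub t N₀ (j + d - 1) := by
    intro j h
    apply hxd'
    have h' : t ^ (-j) * x * (t ^ (-j))⁻¹ ∈ shiftSub t N₀ (j + d - 1) := by
      simpa [hXc] using h
    rw [shiftSub_conj] at h'
    have : j + (d : ℤ) - 1 + -j = (d : ℤ) - 1 := by ring
    rwa [this] at h'
  have hXcomm : ∀ j : ℤ, ∀ g ∈ shiftSub t N₀ j, Xc j * g = g * Xc j := by
    intro j g hg
    rw [mem_shiftSub] at hg
    have h := hcomm _ hg
    have h2 : Xc j * g = (t ^ j)⁻¹ * (x * (t ^ j * g * (t ^ j)⁻¹)) * t ^ j := by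
      simp only [hXc]; group
    have h3 : g * Xc j = (t ^ j)⁻¹ * ((t ^ j * g * (t ^ j)⁻¹) * x) * t ^ j := by
      simp only [hXc]; group
    rw [h2, h3, h]
  -- the inserted words
  set m : ℤ := c + 1 with hm
  set u : Bool → G := fun b => if b then Xc m * Xc (m - 1) else Xc m with hu
  obtain ⟨C, hC⟩ := exists_pow_superset S hS (Finset.univ.image u)
  rw [← hT] at hC
  refine ratio_of_doubling T h1T C fun n => ?_
  have hpath := fun g : G => fun hg : g ∈ T ^ n => exists_path T n g hg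
  choose! w hw0 hwn hws hwp hwq using hpath
  -- lowest level on the path
  have hmin : ∀ g : G, ∃ i ≤ n, ∀ j ≤ n, e (w g i) ≤ e (w g j) := by
    intro g
    obtain ⟨i, hi, hi2⟩ := Finset.exists_min_image (Finset.range (n + 1))
      (fun i => e (w g i)) ⟨0, by simp⟩
    exact ⟨i, by simpa [Nat.lt_succ_iff] using hi, fun j hj => hi2 j (by simp; omega)⟩
  choose i0 hi0 hi0min using hmin
  set κ : G → ℤ := fun g => - e (w g (i0 g)) with hκ
  have hνpath : ∀ g ∈ T ^ n, ∀ i ≤ n, ν (w g i) ∈ shiftSub t N₀ (κ g + c) := by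
    intro g hg i
    induction i with
    | zero => intro _; rw [hw0 g hg]; simp [hν, he_one]
    | succ i ih =>
      intro hi
      have h1 := ih (by omega)
      set s := (w g i)⁻¹ * w g (i + 1) with hs
      have h2 : w g (i + 1) = w g i * s := by simp [hs]
      have h3 : ν (w g (i + 1)) = ν (w g i) * (t ^ (e (w g i)) * ν s * (t ^ (e (w g i)))⁻¹) := by
        rw [h2]
        simp only [hν, he_mul, zpow_add]
        group
      rw [h3]
      refine Subgroup.mul_mem _ h1 ?_
      rw [shiftSub_conj]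
      refine hNmono ?_ (hc s (hws g hg i (by omega)))
      have h4 := hi0min g i (by omega)
      simp only [hκ]
      linarith
  have hνgk : ∀ g ∈ T ^ n, ν g ∈ shiftSub t N₀ (κ g + c) := by
    intro g hg
    have := hνpath g hg n le_rfl
    rwa [hwn g hg] at this
  -- the left multipliers
  set y : G → Bool → G := fun g b => if b then Xc (κ g + m) * Xc (κ g + m - 1) else Xc (κ g + m)
    with hy
  have hyconj : ∀ g ∈ T ^ n, ∀ b, w g (i0 g) * u b * (w g (i0 g))⁻¹ = y g b := by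
    intro g hg b
    set a := w g (i0 g) with ha
    have hνa : ν a ∈ shiftSub t N₀ (κ g + c) := hνpath g hg (i0 g) (hi0 g)
    have hea : e a = - κ g := by simp [hκ, ← ha]
    have hX : ∀ j : ℤ, κ g + c ≤ κ g + j → a * Xc j * a⁻¹ = Xc (κ g + j) := by
      intro j hj
      have h1 := hXcomm (κ g + j) (ν a) (hNmono hj hνa)
      have h2 : a * Xc j * a⁻¹ = ν a * Xc (κ g + j) * (ν a)⁻¹ := by
        conv_lhs => rw [hνg a, hea]
        simp only [hXc]
        rw [zpow_add]
        group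
      rw [h2, ← h1]; group
    cases b with
    | false =>
      simp only [hu, hy, Bool.false_eq_true, if_false]
      exact hX m (by rw [hm]; linarith)
    | true =>
      simp only [hu, hy, if_true]
      have h1 := hX m (by rw [hm]; linarith)
      have h2 := hX (m - 1) (by rw [hm]; linarith)
      have h3 : a * (Xc m * Xc (m - 1)) * a⁻¹ = (a * Xc m * a⁻¹) * (a * Xc (m - 1) * a⁻¹) := by
        group
      rw [h3, h1, h2]
      congr 2
      ring
  have hxe : ∀ j, e (Xc j) = 0 := by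
    intro j
    have := (hker x).1 hxker
    simp only [hXc, he_mul, he_inv, he_t, this]; ring
  have hye : ∀ g b, e (y g b) = 0 := by
    intro g b
    cases b <;> simp [hy, hxe, he_mul]
  have hy1 : ∀ g b, y g b ∈ shiftSub t N₀ (κ g + m + d) := by
    intro g b
    cases b with
    | false => simpa [hy] using hX1 (κ g + m)
    | true =>
      simp only [hy, if_true]
      exact Subgroup.mul_mem _ (hX1 _) (hNmono (by linarith) (hX1 _))
  have hy2 : ∀ g b, y g b ∉ shiftSub t N₀ (κ g + m + d - 1) := by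
    intro g b
    cases b with
    | false => simpa [hy] using hX2 (κ g + m)
    | true =>
      simp only [hy, if_true]
      intro h
      apply hX2 (κ g + m)
      have h3 : Xc (κ g + m - 1) ∈ shiftSub t N₀ (κ g + m + d - 1) := by
        have := hX1 (κ g + m - 1)
        have h4 : κ g + m - 1 + (d : ℤ) = κ g + m + d - 1 := by ring
        rwa [h4] at this
      have := Subgroup.mul_mem _ h (Subgroup.inv_mem _ h3)
      simpa using this
  have hd1' : (1 : ℤ) ≤ d := by exact_mod_cast hd1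
  have hinj : ∀ g ∈ T ^ n, ∀ h ∈ T ^ n, ∀ b b', κ h ≤ κ g → y g b * g = y h b' * h →
      g = h ∧ b = b' := by
    intro g hg h hh b b' hκκ heq
    have hee : e g = e h := by
      have := congrArg e heq
      simpa [he_mul, hye] using this
    have hνeq : y g b * ν g = y h b' * ν h := by
      have h1 : y g b * ν g = (y g b * g) * (t ^ e g)⁻¹ := by simp [hν, mul_assoc]
      have h2 : y h b' * ν h = (y h b' * h) * (t ^ e h)⁻¹ := by simp [hν, mul_assoc]
      rw [h1, h2, heq, hee]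
    have hng := hνgk g hg
    have hnh := hνgk h hh
    have hκeq : κ g = κ h := by
      by_contra hne
      have hlt : κ h < κ g := lt_of_le_of_ne hκκ (Ne.symm hne)
      apply hy2 g b
      have h1 : y g b = y h b' * ν h * (ν g)⁻¹ := by rw [← hνeq]; group
      rw [h1]
      refine Subgroup.mul_mem _ (Subgroup.mul_mem _ (hNmono ?_ (hy1 h b')) (hNmono ?_ hnh))
        (Subgroup.inv_mem _ (hNmono ?_ hng))
      · linarith
      · rw [hm]; linarith
      · rw [hm]; linarith
    have hkey : ¬ (Xc (κ g + m - 1) ∈ shiftSub t N₀ (κ g + c)) := by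
      intro h1
      apply hX2 (κ g + m - 1)
      refine hNmono ?_ h1
      rw [hm]; linarith
    have hbb : b = b' := by
      rcases b with _ | _ <;> rcases b' with _ | _
      · rfl
      · exfalso
        simp only [hy, Bool.false_eq_true, if_false, if_true, ← hκeq, mul_assoc] at hνeq
        have h1 := mul_left_cancel hνeq
        apply hkey
        have h2 : Xc (κ g + m - 1) = ν g * (ν h)⁻¹ := by rw [h1]; group
        rw [h2]
        exact Subgroup.mul_mem _ hng (Subgroup.inv_mem _ (by rw [hκeq]; exact hnh))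
      · exfalso
        simp only [hy, Bool.false_eq_true, if_false, if_true, ← hκeq, mul_assoc] at hνeq
        have h1 := mul_left_cancel hνeq
        apply hkey
        have h2 : Xc (κ g + m - 1) = ν h * (ν g)⁻¹ := by rw [← h1]; group
        rw [h2]
        exact Subgroup.mul_mem _ (by rw [hκeq]; exact hnh) (Subgroup.inv_mem _ hng)
      · rfl
    refine ⟨?_, hbb⟩
    subst hbb
    have hyy : y g b = y h b := by simp only [hy, hκeq]
    rw [hyy] at heq
    exact mul_left_cancel heq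
  refine doubling_of_insertion T n C 1 one_pos (fun _ => (Finset.univ : Finset Bool))
    (fun g b => y g b * g) ?_ ?_ ?_
  · intro g _; simp
  · intro g hg b _
    have hin : i0 g ≤ n := hi0 g
    have hdec : y g b * g = w g (i0 g) * (u b * ((w g (i0 g))⁻¹ * g)) := by
      rw [← hyconj g hg b]; group
    change y g b * g ∈ T ^ (n + C)
    rw [hdec, show n + C = i0 g + (C + (n - i0 g)) by omega, pow_add, pow_add]
    exact Finset.mul_mem_mul (hwp g hg _ hin)
      (Finset.mul_mem_mul (hC (Finset.mem_image_of_mem _ (Finset.mem_univ _))) (hwq g hg _ hin))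
  · intro g' _
    rw [Finset.card_le_one]
    rintro ⟨g, b⟩ hgb ⟨h, b'⟩ hhb
    simp only [Finset.mem_filter, Finset.mem_sigma, Finset.mem_univ, and_true] at hgb hhb
    have heq : y g b * g = y h b' * h := hgb.2.trans hhb.2.symm
    rcases le_total (κ h) (κ g) with hk | hk
    · obtain ⟨h1, h2⟩ := hinj g hgb.1 h hhb.1 b b' hk heq
      subst h1; subst h2; rfl
    · obtain ⟨h1, h2⟩ := hinj h hhb.1 g hgb.1 b' b hk heq.symm
      subst h1; subst h2; rfl

/-- Finitely generated groups with a surjection to `ℤ` whose kernel is abelian and not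
finitely generated. -/
theorem abelian_by_cyclic_ratio [DecidableEq G] (χ : G →* Multiplicative ℤ)
    (hχ : Function.Surjective χ)
    (hab : ∀ a ∈ χ.ker, ∀ b ∈ χ.ker, a * b = b * a) (hfg : ¬ χ.ker.FG)
    (S : Finset G) (hS : Subgroup.closure (S : Set G) = ⊤) :
    ∃ ε : ℝ, 0 < ε ∧ ∀ n : ℕ,
      ε * (((S ∪ S⁻¹ ∪ {1}) ^ n).card : ℝ) ≤
        (((S ∪ S⁻¹ ∪ {1}) ^ (n + 1)).card : ℝ) - (((S ∪ S⁻¹ ∪ {1}) ^ n).card : ℝ) := by
  classical
  obtain ⟨t, ht⟩ := hχ (Multiplicative.ofAdd 1)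
  set e : G → ℤ := fun g => Multiplicative.toAdd (χ g) with he
  have he_mul : ∀ a b, e (a * b) = e a + e b := fun a b => by simp [he]
  have he_inv : ∀ a, e a⁻¹ = - e a := fun a => by simp [he]
  have he_one : e 1 = 0 := by simp [he]
  have he_t : ∀ k : ℤ, e (t ^ k) = k := fun k => by simp [he, ht]
  have hker : ∀ g, g ∈ χ.ker ↔ e g = 0 := by
    intro g
    rw [MonoidHom.mem_ker]
    constructor
    · intro h; simp [he, h]
    · intro h; exact Multiplicative.toAdd.injective (by simpa [he] using h)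
  set ν : G → G := fun g => g * (t ^ (e g))⁻¹ with hν
  have hνker : ∀ s, ν s ∈ χ.ker := fun s => by
    rw [hker, hν]; simp only [he_mul, he_inv, he_t]; ring
  -- the three generating families
  have hall : χ.ker ≤ Subgroup.closure {g | ∃ s ∈ S, ∃ j : ℤ, g = t ^ j * ν s * (t ^ j)⁻¹} := by
    set K := Subgroup.closure {g | ∃ s ∈ S, ∃ j : ℤ, g = t ^ j * ν s * (t ^ j)⁻¹} with hK
    have hKt : ∀ j : ℤ, ∀ g ∈ K, t ^ j * g * (t ^ j)⁻¹ ∈ K := by
      intro j g hg
      induction hg using Subgroup.closure_induction with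
      | mem x hx =>
        obtain ⟨s, hs, i, rfl⟩ := hx
        refine Subgroup.subset_closure ⟨s, hs, j + i, ?_⟩
        rw [zpow_add]; group
      | one => simp
      | mul x y _ _ hx hy =>
        have : t ^ j * (x * y) * (t ^ j)⁻¹ = (t ^ j * x * (t ^ j)⁻¹) * (t ^ j * y * (t ^ j)⁻¹) := by
          group
        rw [this]; exact K.mul_mem hx hy
      | inv x _ hx =>
        have : t ^ j * x⁻¹ * (t ^ j)⁻¹ = (t ^ j * x * (t ^ j)⁻¹)⁻¹ := by group
        rw [this]; exact K.inv_mem hx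
    have hgen : ∀ g : G, ν g ∈ K := by
      intro g
      have hg : g ∈ Subgroup.closure (S : Set G) := by rw [hS]; trivial
      induction hg using Subgroup.closure_induction with
      | mem x hx => exact Subgroup.subset_closure ⟨x, Finset.mem_coe.1 hx, 0, by simp⟩
      | one => simp [hν, he_one]
      | mul x y _ _ hx hy =>
        have : ν (x * y) = ν x * (t ^ (e x) * ν y * (t ^ (e x))⁻¹) := by
          simp only [hν, he_mul, zpow_add]; group
        rw [this]; exact K.mul_mem hx (hKt _ _ hy)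
      | inv x _ hx =>
        have : ν x⁻¹ = t ^ (-e x) * (ν x)⁻¹ * (t ^ (-e x))⁻¹ := by
          simp only [hν, he_inv, mul_inv_rev, inv_inv, zpow_neg]; group
        rw [this]; exact hKt _ _ (K.inv_mem hx)
    intro g hg
    have := hgen g
    rw [hker] at hg
    simpa [hν, hg] using this
  set Np := Subgroup.closure {g | ∃ s ∈ S, ∃ j : ℕ, g = t ^ j * ν s * (t ^ j)⁻¹} with hNp
  set Nm := Subgroup.closure {g | ∃ s ∈ S, ∃ j : ℕ, g = (t ^ j)⁻¹ * ν s * t ^ j} with hNm
  have conj_ker : ∀ a g : G, g ∈ χ.ker → a * g * a⁻¹ ∈ χ.ker := fun a g hg => by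
    rw [hker] at hg ⊢; rw [he_mul, he_mul, he_inv, hg]; ring
  have hNpk : Np ≤ χ.ker := by
    rw [hNp, Subgroup.closure_le]
    rintro _ ⟨s, _, j, rfl⟩
    exact conj_ker _ _ (hνker s)
  have hNmk : Nm ≤ χ.ker := by
    rw [hNm, Subgroup.closure_le]
    rintro _ ⟨s, _, j, rfl⟩
    have := conj_ker (t ^ j)⁻¹ _ (hνker s)
    simpa using this
  have hNpasc : ∀ g ∈ Np, t * g * t⁻¹ ∈ Np := by
    intro g hg
    induction hg using Subgroup.closure_induction with
    | mem x hx =>
      obtain ⟨s, hs, i, rfl⟩ := hx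
      refine Subgroup.subset_closure ⟨s, hs, i + 1, ?_⟩
      rw [pow_succ']; group
    | one => simp
    | mul x y _ _ hx hy =>
      have : t * (x * y) * t⁻¹ = (t * x * t⁻¹) * (t * y * t⁻¹) := by group
      rw [this]; exact Np.mul_mem hx hy
    | inv x _ hx =>
      have : t * x⁻¹ * t⁻¹ = (t * x * t⁻¹)⁻¹ := by group
      rw [this]; exact Np.inv_mem hx
  have hNmasc : ∀ g ∈ Nm, t⁻¹ * g * t⁻¹⁻¹ ∈ Nm := by
    intro g hg
    induction hg using Subgroup.closure_induction with
    | mem x hx =>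
      obtain ⟨s, hs, i, rfl⟩ := hx
      refine Subgroup.subset_closure ⟨s, hs, i + 1, ?_⟩
      rw [pow_succ]; group
    | one => simp
    | mul x y _ _ hx hy =>
      have : t⁻¹ * (x * y) * t⁻¹⁻¹ = (t⁻¹ * x * t⁻¹⁻¹) * (t⁻¹ * y * t⁻¹⁻¹) := by group
      rw [this]; exact Nm.mul_mem hx hy
    | inv x _ hx =>
      have : t⁻¹ * x⁻¹ * t⁻¹⁻¹ = (t⁻¹ * x * t⁻¹⁻¹)⁻¹ := by group
      rw [this]; exact Nm.inv_mem hx
  -- exhaustion
  have hup : ∀ g ∈ χ.ker, ∃ k : ℕ, t ^ k * g * (t ^ k)⁻¹ ∈ Np := by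
    intro g hg
    have hg' := hall hg
    have hasck : ∀ (i : ℕ) (g : G), g ∈ Np → t ^ i * g * (t ^ i)⁻¹ ∈ Np := by
      intro i
      induction i with
      | zero => intro g hg; simpa using hg
      | succ i ih =>
        intro g hg
        have := ih _ (hNpasc g hg)
        have h2 : t ^ (i + 1) * g * (t ^ (i + 1))⁻¹ = t ^ i * (t * g * t⁻¹) * (t ^ i)⁻¹ := by
          rw [pow_succ]; group
        rwa [h2]
    induction hg' using Subgroup.closure_induction with
    | mem x hx =>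
      obtain ⟨s, hs, i, rfl⟩ := hx
      refine ⟨i.natAbs, Subgroup.subset_closure ⟨s, hs, (i.natAbs + i).toNat, ?_⟩⟩
      have h1 : ((t ^ (((i.natAbs : ℤ) + i).toNat) : G)) = t ^ ((i.natAbs : ℤ) + i) := by
        rw [← zpow_natCast, Int.toNat_of_nonneg (by omega)]
      rw [h1, zpow_add, zpow_natCast]; group
    | one => exact ⟨0, by simp⟩
    | mul x y hx' hy' hx hy =>
      have hxk : x ∈ χ.ker := by
        have : Subgroup.closure {g | ∃ s ∈ S, ∃ j : ℤ, g = t ^ j * ν s * (t ^ j)⁻¹} ≤ χ.ker := by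
          rw [Subgroup.closure_le]
          rintro _ ⟨s, _, j, rfl⟩
          exact conj_ker _ _ (hνker s)
        exact this hx'
      have hyk : y ∈ χ.ker := by
        have : Subgroup.closure {g | ∃ s ∈ S, ∃ j : ℤ, g = t ^ j * ν s * (t ^ j)⁻¹} ≤ χ.ker := by
          rw [Subgroup.closure_le]
          rintro _ ⟨s, _, j, rfl⟩
          exact conj_ker _ _ (hνker s)
        exact this hy'
      obtain ⟨k1, h1⟩ := hx hxk
      obtain ⟨k2, h2⟩ := hy hyk
      refine ⟨k1 + k2, ?_⟩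
      have h3 : t ^ (k1 + k2) * (x * y) * (t ^ (k1 + k2))⁻¹
          = (t ^ k2 * (t ^ k1 * x * (t ^ k1)⁻¹) * (t ^ k2)⁻¹)
            * (t ^ k1 * (t ^ k2 * y * (t ^ k2)⁻¹) * (t ^ k1)⁻¹) := by
        have h4 : t ^ (k1 + k2) = t ^ k2 * t ^ k1 := by rw [add_comm, pow_add]
        have h5 : t ^ k2 * t ^ k1 = t ^ k1 * t ^ k2 := by rw [← pow_add, ← pow_add, add_comm]
        rw [h4]
        calc t ^ k2 * t ^ k1 * (x * y) * (t ^ k2 * t ^ k1)⁻¹
            = (t ^ k2 * (t ^ k1 * x * (t ^ k1)⁻¹) * (t ^ k2)⁻¹)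
              * ((t ^ k2 * t ^ k1) * y * (t ^ k2 * t ^ k1)⁻¹) := by group
          _ = _ := by rw [h5]; group
      rw [h3]
      exact Np.mul_mem (hasck k2 _ h1) (hasck k1 _ h2)
    | inv x hx' hx =>
      have hxk : x ∈ χ.ker := by
        have := χ.ker.inv_mem hg
        simpa using this
      obtain ⟨k1, h1⟩ := hx hxk
      refine ⟨k1, ?_⟩
      have : t ^ k1 * x⁻¹ * (t ^ k1)⁻¹ = (t ^ k1 * x * (t ^ k1)⁻¹)⁻¹ := by group
      rw [this]; exact Np.inv_mem h1
  have hdown : ∀ g ∈ χ.ker, ∃ k : ℕ, t⁻¹ ^ k * g * (t⁻¹ ^ k)⁻¹ ∈ Nm := by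
    intro g hg
    have hg' := hall hg
    have hasck : ∀ (i : ℕ) (g : G), g ∈ Nm → t⁻¹ ^ i * g * (t⁻¹ ^ i)⁻¹ ∈ Nm := by
      intro i
      induction i with
      | zero => intro g hg; simpa using hg
      | succ i ih =>
        intro g hg
        have := ih _ (hNmasc g hg)
        have h2 : t⁻¹ ^ (i + 1) * g * (t⁻¹ ^ (i + 1))⁻¹
            = t⁻¹ ^ i * (t⁻¹ * g * t⁻¹⁻¹) * (t⁻¹ ^ i)⁻¹ := by
          rw [pow_succ]; group
        rwa [h2]
    induction hg' using Subgroup.closure_induction with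
    | mem x hx =>
      obtain ⟨s, hs, i, rfl⟩ := hx
      refine ⟨i.natAbs, Subgroup.subset_closure ⟨s, hs, ((i.natAbs : ℤ) - i).toNat, ?_⟩⟩
      have h1 : ((t ^ (((i.natAbs : ℤ) - i).toNat) : G)) = t ^ ((i.natAbs : ℤ) - i) := by
        rw [← zpow_natCast, Int.toNat_of_nonneg (by omega)]
      rw [h1, zpow_sub, inv_pow, zpow_natCast]; group
    | one => exact ⟨0, by simp⟩
    | mul x y hx' hy' hx hy =>
      have hle : Subgroup.closure {g | ∃ s ∈ S, ∃ j : ℤ, g = t ^ j * ν s * (t ^ j)⁻¹} ≤ χ.ker := by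
        rw [Subgroup.closure_le]
        rintro _ ⟨s, _, j, rfl⟩
        exact conj_ker _ _ (hνker s)
      obtain ⟨k1, h1⟩ := hx (hle hx')
      obtain ⟨k2, h2⟩ := hy (hle hy')
      refine ⟨k1 + k2, ?_⟩
      have h3 : t⁻¹ ^ (k1 + k2) * (x * y) * (t⁻¹ ^ (k1 + k2))⁻¹
          = (t⁻¹ ^ k2 * (t⁻¹ ^ k1 * x * (t⁻¹ ^ k1)⁻¹) * (t⁻¹ ^ k2)⁻¹)
            * (t⁻¹ ^ k1 * (t⁻¹ ^ k2 * y * (t⁻¹ ^ k2)⁻¹) * (t⁻¹ ^ k1)⁻¹) := by
        have h4 : t⁻¹ ^ (k1 + k2) = t⁻¹ ^ k2 * t⁻¹ ^ k1 := by rw [add_comm, pow_add]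
        have h5 : t⁻¹ ^ k2 * t⁻¹ ^ k1 = t⁻¹ ^ k1 * t⁻¹ ^ k2 := by
          rw [← pow_add, ← pow_add, add_comm]
        rw [h4]
        calc t⁻¹ ^ k2 * t⁻¹ ^ k1 * (x * y) * (t⁻¹ ^ k2 * t⁻¹ ^ k1)⁻¹
            = (t⁻¹ ^ k2 * (t⁻¹ ^ k1 * x * (t⁻¹ ^ k1)⁻¹) * (t⁻¹ ^ k2)⁻¹)
              * ((t⁻¹ ^ k2 * t⁻¹ ^ k1) * y * (t⁻¹ ^ k2 * t⁻¹ ^ k1)⁻¹) := by group
          _ = _ := by rw [h5]; group
      rw [h3]
      exact Nm.mul_mem (hasck k2 _ h1) (hasck k1 _ h2)
    | inv x hx' hx =>
      have hxk : x ∈ χ.ker := by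
        have := χ.ker.inv_mem hg
        simpa using this
      obtain ⟨k1, h1⟩ := hx hxk
      refine ⟨k1, ?_⟩
      have : t⁻¹ ^ k1 * x⁻¹ * (t⁻¹ ^ k1)⁻¹ = (t⁻¹ ^ k1 * x * (t⁻¹ ^ k1)⁻¹)⁻¹ := by group
      rw [this]; exact Nm.inv_mem h1
  by_cases hp : χ.ker ≤ Np
  · by_cases hm : χ.ker ≤ Nm
    · -- both one-sided: the kernel is finitely generated
      exfalso
      apply hfg
      -- finite stages
      set F : ℕ → Subgroup G := fun r => Subgroup.closure
        (((Finset.range (r + 1)).biUnion fun j => S.image fun s => (t ^ j)⁻¹ * ν s * t ^ j : Finset G)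
          : Set G) with hF
      have hFmono : ∀ {r r' : ℕ}, r ≤ r' → F r ≤ F r' := by
        intro r r' hrr
        refine Subgroup.closure_mono ?_
        intro g hg
        simp only [Finset.coe_biUnion, Set.mem_iUnion, Finset.coe_image, Set.mem_image,
          Finset.mem_coe, Finset.mem_range] at hg ⊢
        obtain ⟨j, hj, s, hs, rfl⟩ := hg
        exact ⟨j, by omega, s, hs, rfl⟩
      have hFmem : ∀ (r j : ℕ), j ≤ r → ∀ s ∈ S, (t ^ j)⁻¹ * ν s * t ^ j ∈ F r := by
        intro r j hj s hs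
        refine Subgroup.subset_closure ?_
        simp only [Finset.coe_biUnion, Set.mem_iUnion, Finset.coe_image, Set.mem_image,
          Finset.mem_coe, Finset.mem_range]
        exact ⟨j, by omega, s, hs, rfl⟩
      have hex : ∀ g ∈ Nm, ∃ r, g ∈ F r := by
        intro g hg
        induction hg using Subgroup.closure_induction with
        | mem x hx =>
          obtain ⟨s, hs, j, rfl⟩ := hx
          exact ⟨j, hFmem j j le_rfl s hs⟩
        | one => exact ⟨0, Subgroup.one_mem _⟩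
        | mul x y _ _ hx hy =>
          obtain ⟨a, ha⟩ := hx
          obtain ⟨b, hb⟩ := hy
          exact ⟨max a b, Subgroup.mul_mem _ (hFmono (le_max_left _ _) ha)
            (hFmono (le_max_right _ _) hb)⟩
        | inv x _ hx =>
          obtain ⟨a, ha⟩ := hx
          exact ⟨a, Subgroup.inv_mem _ ha⟩
      have h1 : ∀ s : G, ∃ r, t * ν s * t⁻¹ ∈ F r := fun s =>
        hex _ (hm (conj_ker t _ (hνker s)))
      choose ρ hρ using h1
      set r := S.sup ρ with hr
      have hFr : ∀ g ∈ F r, t * g * t⁻¹ ∈ F r := by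
        intro g hg
        induction hg using Subgroup.closure_induction with
        | mem x hx =>
          simp only [Finset.coe_biUnion, Set.mem_iUnion, Finset.coe_image, Set.mem_image,
            Finset.mem_coe, Finset.mem_range] at hx
          obtain ⟨j, hj, s, hs, rfl⟩ := hx
          rcases j with _ | j
          · simp only [pow_zero, inv_one, one_mul, mul_one]
            exact hFmono (Finset.le_sup (f := ρ) hs) (hρ s)
          · have : t * ((t ^ (j + 1))⁻¹ * ν s * t ^ (j + 1)) * t⁻¹ = (t ^ j)⁻¹ * ν s * t ^ j := by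
              rw [pow_succ]; group
            rw [this]
            exact hFmem r j (by omega) s hs
        | one => simp
        | mul x y _ _ hx hy =>
          have : t * (x * y) * t⁻¹ = (t * x * t⁻¹) * (t * y * t⁻¹) := by group
          rw [this]; exact Subgroup.mul_mem _ hx hy
        | inv x _ hx =>
          have : t * x⁻¹ * t⁻¹ = (t * x * t⁻¹)⁻¹ := by group
          rw [this]; exact Subgroup.inv_mem _ hx
      have hNpF : Np ≤ F r := by
        rw [hNp, Subgroup.closure_le]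
        rintro _ ⟨s, hs, j, rfl⟩
        induction j with
        | zero =>
          have := hFmem r 0 (Nat.zero_le _) s hs
          simpa using this
        | succ j ih =>
          have := hFr _ ih
          have h2 : t ^ (j + 1) * ν s * (t ^ (j + 1))⁻¹ = t * (t ^ j * ν s * (t ^ j)⁻¹) * t⁻¹ := by
            rw [pow_succ']; group
          rw [h2]; exact this
      have hFk : F r ≤ χ.ker := by
        rw [hF, Subgroup.closure_le]
        intro g hg
        simp only [Finset.coe_biUnion, Set.mem_iUnion, Finset.coe_image, Set.mem_image,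
          Finset.mem_coe, Finset.mem_range] at hg
        obtain ⟨j, _, s, _, rfl⟩ := hg
        have := conj_ker (t ^ j)⁻¹ _ (hνker s)
        simpa using this
      have : χ.ker = F r := le_antisymm (hp.trans hNpF) hFk
      rw [this]
      exact ⟨_, rfl⟩
    · obtain ⟨x, hx, hxN⟩ := Set.not_subset.1 hm
      have ht' : χ⁻¹ t⁻¹ = Multiplicative.ofAdd 1 := by
        simp [ht]
      have hkk : ∀ g, g ∈ (χ⁻¹ : G →* Multiplicative ℤ).ker ↔ g ∈ χ.ker := by
        intro g; simp [MonoidHom.mem_ker]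
      exact ascending_ratio (χ⁻¹) t⁻¹ ht' Nm hNmasc (fun g hg => hdown g ((hkk g).1 hg)) x
        ((hkk x).2 hx) hxN (fun g hg => hab x hx g (hNmk hg)) S hS
  · obtain ⟨x, hx, hxN⟩ := Set.not_subset.1 hp
    exact ascending_ratio χ t ht Np hNpasc hup x hx hxN (fun g hg => hab x hx g (hNpk hg)) S hS

end Pool.Agent.RatioGrowth
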