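import Mathlib

set_option autoImplicit false

namespace Pool.Agent.RatioGrowth

variable {X : Type*} (Γ : SimpleGraph X)

/-- Closed ball of radius `r` around `v` in the graph metric. -/
def cball (v : X) (r : ℕ) : Set X := {w | Γ.dist v w ≤ r}

variable {Γ}

lemma mem_cball {v w : X} {r : ℕ} : w ∈ cball Γ v r ↔ Γ.dist v w ≤ r := Iff.rfl

/-- Interpolation on geodesics. -/
lemma exists_between (hc : Γ.Connected) (u v : X) (k : ℕ) (hk : k ≤ Γ.dist u v) :
    ∃ w, Γ.dist u w = k ∧ Γ.dist w v = Γ.dist u v - k := by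
  obtain ⟨p, hp⟩ := hc.exists_walk_length_eq_dist u v
  refine ⟨p.getVert k, ?_, ?_⟩
  all_goals
    have h1 : Γ.dist u (p.getVert k) ≤ k := by
      have := SimpleGraph.dist_le (p.take k)
      rw [SimpleGraph.Walk.take_length] at this
      omega
    have h2 : Γ.dist (p.getVert k) v ≤ Γ.dist u v - k := by
      have := SimpleGraph.dist_le (p.drop k)
      rw [SimpleGraph.Walk.drop_length] at this
      omega
    have h3 := hc.dist_triangle (u := u) (v := p.getVert k) (w := v)
    omega

lemma cball_finite (hc : Γ.Connected) (hfin : ∀ v, (Γ.neighborSet v).Finite) (v : X) (r : ℕ) :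
    (cball Γ v r).Finite := by
  induction r with
  | zero =>
    refine (Set.finite_singleton v).subset ?_
    intro w hw
    have : Γ.dist v w = 0 := Nat.le_zero.1 hw
    rw [hc.dist_eq_zero_iff] at this
    simp [this]
  | succ r ih =>
    refine (ih.union (ih.biUnion fun w _ => hfin w)).subset ?_
    intro w hw
    by_cases h : Γ.dist v w ≤ r
    · exact Or.inl h
    · right
      have hd : Γ.dist v w = r + 1 := by
        have : Γ.dist v w ≤ r + 1 := hw
        omega
      obtain ⟨x, hx1, hx2⟩ := exists_between hc v w r (by omega)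
      rw [hd] at hx2
      simp only [Set.mem_iUnion]
      refine ⟨x, hx1.le, ?_⟩
      have : Γ.dist x w = 1 := by omega
      exact SimpleGraph.dist_eq_one_iff_adj.1 this

lemma exists_far (hc : Γ.Connected) (hfin : ∀ v, (Γ.neighborSet v).Finite) [Infinite X]
    (F : Finset X) (D : ℕ) : ∃ z, ∀ v ∈ F, D ≤ Γ.dist v z := by
  have hfinite : (⋃ v ∈ F, cball Γ v D).Finite :=
    F.finite_toSet.biUnion fun v _ => cball_finite hc hfin v D
  obtain ⟨z, hz⟩ := hfinite.infinite_compl.nonempty
  refine ⟨z, fun v hv => ?_⟩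
  by_contra h
  apply hz
  simp only [Set.mem_iUnion]
  exact ⟨v, hv, by rw [mem_cball]; omega⟩

section Action

variable {H : Type*} [Group H] [MulAction H X]

lemma dist_smul_le (hc : Γ.Connected) (hinv : ∀ (h : H) (x y : X), Γ.Adj x y → Γ.Adj (h • x) (h • y))
    (h : H) (x y : X) : Γ.dist (h • x) (h • y) ≤ Γ.dist x y := by
  obtain ⟨p, hp⟩ := hc.exists_walk_length_eq_dist x y
  let φ : Γ →g Γ := ⟨fun x => h • x, fun {a b} hab => hinv h a b hab⟩
  have := SimpleGraph.dist_le (p.map φ)
  rw [SimpleGraph.Walk.length_map, hp] at this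
  exact this

lemma dist_smul (hc : Γ.Connected) (hinv : ∀ (h : H) (x y : X), Γ.Adj x y → Γ.Adj (h • x) (h • y))
    (h : H) (x y : X) : Γ.dist (h • x) (h • y) = Γ.dist x y := by
  refine le_antisymm (dist_smul_le hc hinv h x y) ?_
  have := dist_smul_le hc hinv h⁻¹ (h • x) (h • y)
  simpa using this

/-- In a transitive graph all balls of the same radius have the same size. -/
lemma ncard_cball (hc : Γ.Connected) (hinv : ∀ (h : H) (x y : X), Γ.Adj x y → Γ.Adj (h • x) (h • y))
    [MulAction.IsPretransitive H X] (u v : X) (r : ℕ) :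
    (cball Γ u r).ncard = (cball Γ v r).ncard := by
  obtain ⟨h, rfl⟩ := MulAction.exists_smul_eq H u v
  have : cball Γ (h • u) r = (fun x => h • x) '' cball Γ u r := by
    ext w
    simp only [Set.mem_image, mem_cball]
    constructor
    · intro hw
      refine ⟨h⁻¹ • w, ?_, by simp⟩
      have := dist_smul hc hinv h u (h⁻¹ • w)
      rw [smul_inv_smul] at this
      omega
    · rintro ⟨x, hx, rfl⟩
      rw [dist_smul hc hinv]
      exact hx
  rw [this, Set.ncard_image_of_injective _ (MulAction.injective h)]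

end Action

lemma ncard_cball_add_le (hc : Γ.Connected) (hfin : ∀ v, (Γ.neighborSet v).Finite) (v : X)
    (a b N : ℕ) (hN : ∀ w, (cball Γ w b).ncard ≤ N) :
    (cball Γ v (a + b)).ncard ≤ (cball Γ v a).ncard * N := by
  classical
  have h1 : cball Γ v (a + b) ⊆ ⋃ w ∈ (cball_finite hc hfin v a).toFinset, cball Γ w b := by
    intro u hu
    simp only [Set.mem_iUnion, Set.Finite.mem_toFinset]
    by_cases h : Γ.dist v u ≤ a
    · refine ⟨u, h, ?_⟩
      rw [mem_cball, SimpleGraph.dist_self]; omega
    · obtain ⟨w, hw1, hw2⟩ := exists_between hc v u a (by omega)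
      refine ⟨w, hw1.le, ?_⟩
      rw [mem_cball] at hu ⊢
      omega
  have hfU : (⋃ w ∈ (cball_finite hc hfin v a).toFinset, cball Γ w b).Finite :=
    (Finset.finite_toSet _).biUnion fun w _ => cball_finite hc hfin w b
  calc (cball Γ v (a + b)).ncard
      ≤ (⋃ w ∈ (cball_finite hc hfin v a).toFinset, cball Γ w b).ncard := Set.ncard_le_ncard h1 hfU
    _ ≤ ∑ w ∈ (cball_finite hc hfin v a).toFinset, (cball Γ w b).ncard := by
        have h2 : (⋃ w ∈ (cball_finite hc hfin v a).toFinset, cball Γ w b)
            = (((cball_finite hc hfin v a).toFinset.biUnion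
                fun w => (cball_finite hc hfin w b).toFinset : Finset X) : Set X) := by
          ext x; simp
        rw [h2, Set.ncard_coe_finset]
        refine Finset.card_biUnion_le.trans ?_
        refine Finset.sum_le_sum fun w _ => ?_
        rw [Set.ncard_eq_toFinset_card _ (cball_finite hc hfin w b)]
    _ ≤ ∑ w ∈ (cball_finite hc hfin v a).toFinset, N := Finset.sum_le_sum fun w _ => hN w
    _ = (cball Γ v a).ncard * N := by
        rw [Finset.sum_const, smul_eq_mul, Set.ncard_eq_toFinset_card _ (cball_finite hc hfin v a)]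

lemma succ_le_ncard_cball (hc : Γ.Connected) (hfin : ∀ v, (Γ.neighborSet v).Finite) [Infinite X]
    (v : X) (r : ℕ) : r + 1 ≤ (cball Γ v r).ncard := by
  obtain ⟨z, hz⟩ := exists_far hc hfin {v} r
  have hz' := hz v (by simp)
  choose f hf1 hf2 using fun k : Fin (r + 1) => exists_between hc v z k (by omega)
  have hinj : Function.Injective f := by
    intro a b hab
    have h1 := hf1 a
    have h2 := hf1 b
    rw [hab] at h1
    exact Fin.ext (by omega)
  have h3 : Set.range f ⊆ cball Γ v r := by
    rintro _ ⟨k, rfl⟩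
    rw [mem_cball, hf1]
    omega
  calc r + 1 = (Set.range f).ncard := by
        rw [← Set.image_univ, Set.ncard_image_of_injective _ hinj, Set.ncard_univ]
        simp
    _ ≤ _ := Set.ncard_le_ncard h3 (cball_finite hc hfin v r)

lemma exists_large (K : ℕ) : ∃ x0 : ℕ, ∀ x ≥ x0, 2 * (K * x ^ 2) + 1 ≤ 2 ^ x := by
  have h := tendsto_pow_const_div_const_pow_of_one_lt 2 (r := (2 : ℝ)) (by norm_num)
  have h2 : ∀ᶠ n : ℕ in Filter.atTop, (n : ℝ) ^ 2 / 2 ^ n < 1 / (2 * K + 1) :=
    h.eventually (gt_mem_nhds (by positivity))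
  obtain ⟨x0, hx0⟩ := Filter.eventually_atTop.1 h2
  refine ⟨max x0 1, fun x hx => ?_⟩
  have h3 := hx0 x (le_trans (le_max_left _ _) hx)
  have hx1 : 1 ≤ x := le_trans (le_max_right _ _) hx
  rw [div_lt_div_iff₀ (by positivity) (by positivity)] at h3
  have h4 : x ^ 2 * (2 * K + 1) < 2 ^ x := by
    have : ((x ^ 2 * (2 * K + 1) : ℕ) : ℝ) < ((2 ^ x : ℕ) : ℝ) := by
      push_cast
      linarith
    exact_mod_cast this
  nlinarith [h4, hx1]

end Pool.Agent.RatioGrowth
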