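import Mathlib
import Pool.Agent.RatioGrowth.Graph

set_option autoImplicit false

open Pointwise

namespace Pool.Agent.RatioGrowth

/-- The Cayley graph of `Q` for a set `U` (right multiplication), symmetrised. -/
def cayley (Q : Type*) [Group Q] (U : Set Q) : SimpleGraph Q where
  Adj x y := x ≠ y ∧ (x⁻¹ * y ∈ U ∨ y⁻¹ * x ∈ U)
  symm := ⟨fun _ _ h => ⟨h.1.symm, h.2.symm⟩⟩
  loopless := ⟨fun _ h => h.1 rfl⟩

variable {Q : Type*} [Group Q] (U : Set Q)

lemma cayley_adj {x y : Q} : (cayley Q U).Adj x y ↔ x ≠ y ∧ (x⁻¹ * y ∈ U ∨ y⁻¹ * x ∈ U) := Iff.rfl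

lemma cayley_smul (h x y : Q) (hxy : (cayley Q U).Adj x y) : (cayley Q U).Adj (h • x) (h • y) := by
  rw [cayley_adj] at hxy ⊢
  simp only [smul_eq_mul]
  refine ⟨fun e => hxy.1 (mul_left_cancel e), ?_⟩
  have e1 : (h * x)⁻¹ * (h * y) = x⁻¹ * y := by group
  have e2 : (h * y)⁻¹ * (h * x) = y⁻¹ * x := by group
  rw [e1, e2]; exact hxy.2

lemma cayley_finite (hU : U.Finite) (v : Q) : ((cayley Q U).neighborSet v).Finite := by
  refine ((hU.image (fun u => v * u)).union (hU.image (fun u => v * u⁻¹))).subset ?_
  intro w hw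
  rw [SimpleGraph.mem_neighborSet, cayley_adj] at hw
  rcases hw.2 with h | h
  · left; exact ⟨_, h, by group⟩
  · right; exact ⟨_, h, by group⟩

lemma cayley_connected (hgen : Subgroup.closure U = ⊤) : (cayley Q U).Connected := by
  have hstep : ∀ x u : Q, (u ∈ U ∨ u⁻¹ ∈ U) → (cayley Q U).Reachable x (x * u) := by
    intro x u hu
    by_cases h1 : u = 1
    · subst h1; rw [mul_one]
    · refine SimpleGraph.Adj.reachable ?_
      rw [cayley_adj]
      refine ⟨fun e => h1 ?_, ?_⟩
      · have : x * 1 = x * u := by rw [mul_one]; exact e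
        exact (mul_left_cancel this).symm
      · have e1 : x⁻¹ * (x * u) = u := by group
        have e2 : (x * u)⁻¹ * x = u⁻¹ := by group
        rw [e1, e2]; exact hu
  have hall : ∀ g x : Q, (cayley Q U).Reachable x (x * g) := by
    intro g
    have hg : g ∈ Subgroup.closure U := by rw [hgen]; trivial
    induction hg using Subgroup.closure_induction with
    | mem u hu => intro x; exact hstep x u (Or.inl hu)
    | one => intro x; rw [mul_one]
    | mul a b _ _ ha hb =>
      intro x
      rw [← mul_assoc]
      exact (ha x).trans (hb (x * a))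
    | inv a _ ha =>
      intro x
      have := ha (x * a⁻¹)
      rw [inv_mul_cancel_right] at this
      exact this.symm
  refine ⟨fun x y => ?_⟩
  have := hall (x⁻¹ * y) x
  rwa [mul_inv_cancel_left] at this

/-- Separated subsets of balls. -/
lemma exists_separated {X : Type*} {Γ : SimpleGraph X} (hc : Γ.Connected)
    (hfin : ∀ v, (Γ.neighborSet v).Finite) (o : X) (r k N : ℕ)
    (hN : ∀ w, (cball Γ w k).ncard ≤ N) :
    ∃ E : Finset X, (∀ x ∈ E, Γ.dist o x ≤ r) ∧ (∀ x ∈ E, ∀ y ∈ E, x ≠ y → k < Γ.dist x y) ∧
      (cball Γ o r).ncard ≤ E.card * N := by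
  classical
  have hBf := cball_finite hc hfin o r
  set B := hBf.toFinset with hB
  set P : Finset (Finset X) := B.powerset.filter
    (fun E => ∀ x ∈ E, ∀ y ∈ E, x ≠ y → k < Γ.dist x y) with hP
  have hPne : P.Nonempty := ⟨∅, by simp [hP]⟩
  obtain ⟨E, hE, hmax⟩ := Finset.exists_max_image P Finset.card hPne
  rw [hP, Finset.mem_filter, Finset.mem_powerset] at hE
  refine ⟨E, fun x hx => ?_, hE.2, ?_⟩
  · have := hE.1 hx
    rw [hB, Set.Finite.mem_toFinset] at this
    exact this
  · have hcover : B ⊆ E.biUnion fun x => (cball_finite hc hfin x k).toFinset := by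
      intro b hb
      by_contra hcon
      simp only [Finset.mem_biUnion, Set.Finite.mem_toFinset, mem_cball, not_exists, not_and,
        not_le] at hcon
      have hbE : b ∉ E := by
        intro h
        have := hcon b h
        rw [SimpleGraph.dist_self] at this
        omega
      have h1 : insert b E ∈ P := by
        rw [hP, Finset.mem_filter, Finset.mem_powerset]
        refine ⟨Finset.insert_subset hb hE.1, ?_⟩
        intro x hx y hy hxy
        rw [Finset.mem_insert] at hx hy
        rcases hx with rfl | hx <;> rcases hy with rfl | hy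
        · exact absurd rfl hxy
        · rw [SimpleGraph.dist_comm]; exact hcon y hy
        · exact hcon x hx
        · exact hE.2 x hx y hy hxy
      have h2 := hmax _ h1
      rw [Finset.card_insert_of_notMem hbE] at h2
      omega
    calc (cball Γ o r).ncard = B.card := Set.ncard_eq_toFinset_card _ hBf
      _ ≤ (E.biUnion fun x => (cball_finite hc hfin x k).toFinset).card := Finset.card_le_card hcover
      _ ≤ ∑ x ∈ E, ((cball_finite hc hfin x k).toFinset).card := Finset.card_biUnion_le
      _ ≤ ∑ _x ∈ E, N := Finset.sum_le_sum fun x _ => by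
          rw [← Set.ncard_eq_toFinset_card _ (cball_finite hc hfin x k)]; exact hN x
      _ = E.card * N := by rw [Finset.sum_const, smul_eq_mul]

end Pool.Agent.RatioGrowth
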