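import Mathlib
import Pool.Agent.RatioGrowth.Basic
import Pool.Agent.RatioGrowth.Cayley

set_option autoImplicit false

open Pointwise

namespace Pool.Agent.RatioGrowth

section OrbitGraph

variable {G X : Type*} [Group G] [MulAction G X] (x₀ : X) (T : Set G)

/-- The graph on an orbit with edges `g x₀ — g s x₀` for `s ∈ T`. -/
def orbitGraph : SimpleGraph (MulAction.orbit G x₀) where
  Adj x y := x ≠ y ∧ ∃ g s : G, (s ∈ T ∨ s⁻¹ ∈ T) ∧ (x : X) = g • x₀ ∧ (y : X) = (g * s) • x₀
  symm := ⟨fun x y h => by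
    obtain ⟨h1, g, s, hs, hx, hy⟩ := h
    refine ⟨h1.symm, g * s, s⁻¹, ?_, hy, ?_⟩
    · rw [inv_inv]; exact hs.symm
    · rw [mul_inv_cancel_right]; exact hx⟩
  loopless := ⟨fun _ h => h.1 rfl⟩

lemma orbitGraph_adj {x y : MulAction.orbit G x₀} : (orbitGraph x₀ T).Adj x y ↔
    x ≠ y ∧ ∃ g s : G, (s ∈ T ∨ s⁻¹ ∈ T) ∧ (x : X) = g • x₀ ∧ (y : X) = (g * s) • x₀ := Iff.rfl

lemma orbitGraph_smul (h : G) (x y : MulAction.orbit G x₀) (hxy : (orbitGraph x₀ T).Adj x y) :
    (orbitGraph x₀ T).Adj (h • x) (h • y) := by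
  rw [orbitGraph_adj] at hxy ⊢
  obtain ⟨h1, g, s, hs, hx, hy⟩ := hxy
  refine ⟨fun e => h1 (MulAction.injective h e), h * g, s, hs, ?_, ?_⟩
  · rw [MulAction.orbit.coe_smul, hx, mul_smul]
  · rw [MulAction.orbit.coe_smul, hy, mul_assoc, mul_smul h]

lemma orbitGraph_connected (hgen : Subgroup.closure T = ⊤) : (orbitGraph x₀ T).Connected := by
  set o : MulAction.orbit G x₀ := ⟨x₀, MulAction.mem_orbit_self x₀⟩ with ho
  have hstep : ∀ g s : G, (s ∈ T ∨ s⁻¹ ∈ T) → (orbitGraph x₀ T).Reachable (g • o) ((g * s) • o) := by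
    intro g s hs
    by_cases h1 : g • o = (g * s) • o
    · rw [h1]
    · refine SimpleGraph.Adj.reachable ?_
      exact ⟨h1, g, s, hs, rfl, rfl⟩
  have hall : ∀ h g : G, (orbitGraph x₀ T).Reachable (g • o) ((g * h) • o) := by
    intro h
    have hg : h ∈ Subgroup.closure T := by rw [hgen]; trivial
    induction hg using Subgroup.closure_induction with
    | mem u hu => intro g; exact hstep g u (Or.inl hu)
    | one => intro g; rw [mul_one]
    | mul a b _ _ ha hb =>
      intro g
      rw [← mul_assoc]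
      exact (ha g).trans (hb (g * a))
    | inv a _ ha =>
      intro g
      have := ha (g * a⁻¹)
      rw [inv_mul_cancel_right] at this
      exact this.symm
  have hne : Nonempty (MulAction.orbit G x₀) := ⟨o⟩
  refine ⟨fun x y => ?_⟩
  obtain ⟨g, hg⟩ := MulAction.exists_smul_eq G o x
  obtain ⟨h, hh⟩ := MulAction.exists_smul_eq G o y
  have := hall (g⁻¹ * h) g
  rwa [mul_inv_cancel_left, hg, hh] at this

lemma orbitGraph_finite {Γ : SimpleGraph X} (hc : Γ.Connected)
    (hfin : ∀ v, (Γ.neighborSet v).Finite)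
    (hinv : ∀ (h : G) (x y : X), Γ.Adj x y → Γ.Adj (h • x) (h • y)) (hT : T.Finite)
    (v : MulAction.orbit G x₀) : ((orbitGraph x₀ T).neighborSet v).Finite := by
  classical
  obtain ⟨c, hcT⟩ : ∃ c : ℕ, ∀ s : G, (s ∈ T ∨ s⁻¹ ∈ T) → Γ.dist x₀ (s • x₀) ≤ c := by
    refine ⟨hT.toFinset.sup fun s => Γ.dist x₀ (s • x₀), ?_⟩
    rintro s (hs | hs)
    · exact Finset.le_sup (f := fun s : G => Γ.dist x₀ (s • x₀)) (hT.mem_toFinset.2 hs)
    · have h1 := Finset.le_sup (f := fun s : G => Γ.dist x₀ (s • x₀)) (hT.mem_toFinset.2 hs)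
      have h2 := dist_smul hc hinv s x₀ (s⁻¹ • x₀)
      rw [smul_inv_smul, SimpleGraph.dist_comm] at h2
      have h3 : Γ.dist x₀ (s⁻¹ • x₀) ≤ hT.toFinset.sup fun s => Γ.dist x₀ (s • x₀) := h1
      omega
  refine ((cball_finite hc hfin (v : X) c).preimage Subtype.val_injective.injOn).subset ?_
  intro w hw
  rw [SimpleGraph.mem_neighborSet, orbitGraph_adj] at hw
  obtain ⟨_, g, s, hs, hx, hy⟩ := hw
  rw [Set.mem_preimage, mem_cball, hx, hy, mul_smul, dist_smul hc hinv]
  exact hcT s hs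

end OrbitGraph

section Lam

variable {G L X : Type*} [Group G] [Group L] [MulAction G X] {lam : G → X → L}
  (hlam : ∀ g h x, lam (g * h) x = lam g x * lam h (g⁻¹ • x))

include hlam

lemma lam_one (x : X) : lam 1 x = 1 := by
  have h := hlam 1 1 x
  simpa using h

lemma lam_inv (g : G) (x : X) : lam g⁻¹ (g⁻¹ • x) = (lam g x)⁻¹ := by
  have h := hlam g g⁻¹ x
  rw [mul_inv_cancel, lam_one hlam] at h
  exact eq_inv_of_mul_eq_one_right h.symm

lemma lam_conj (g h : G) (hh : ∀ x : X, h • x = x) (x : X) :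
    lam (g * h * g⁻¹) x = lam g x * lam h (g⁻¹ • x) * (lam g x)⁻¹ := by
  have h1 : h⁻¹ • (g⁻¹ • x) = g⁻¹ • x := by
    rw [inv_smul_eq_iff, hh]
  rw [hlam (g * h) g⁻¹ x, hlam g h x, mul_inv_rev, mul_smul, h1, lam_inv hlam]

end Lam

lemma prod_map_eq_single {ι L : Type*} [Group L] (l : List ι) (hl : l.Nodup) (f : ι → L) (i : ι)
    (hi : i ∈ l) (h : ∀ j ∈ l, j ≠ i → f j = 1) : (l.map f).prod = f i := by
  induction l with
  | nil => simp at hi
  | cons a l ih =>
    rw [List.map_cons, List.prod_cons]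
    rw [List.nodup_cons] at hl
    rcases List.mem_cons.1 hi with rfl | hi'
    · have : (l.map f).prod = 1 := by
        refine List.prod_eq_one fun y hy => ?_
        obtain ⟨j, hj, rfl⟩ := List.mem_map.1 hy
        exact h j (List.mem_cons_of_mem _ hj) (fun e => hl.1 (e ▸ hj))
      rw [this, mul_one]
    · rw [h a List.mem_cons_self (fun e => hl.1 (e ▸ hi')), one_mul]
      exact ih hl.2 hi' fun j hj hne => h j (List.mem_cons_of_mem _ hj) hne

/-- Groups with a finitely supported cocycle over an action on a locally finite graph. -/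
theorem cocycle_ratio {G L X : Type*} [Group G] [DecidableEq G] [Group L] [MulAction G X]
    (lam : G → X → L) (hlam : ∀ g h x, lam (g * h) x = lam g x * lam h (g⁻¹ • x))
    (hlamfin : ∀ g, {x | lam g x ≠ 1}.Finite)
    (Γ : SimpleGraph X) (hc : Γ.Connected) (hfin : ∀ v, (Γ.neighborSet v).Finite)
    (hinv : ∀ (g : G) (x y : X), Γ.Adj x y → Γ.Adj (g • x) (g • y))
    (x₀ : X) (horb : (MulAction.orbit G x₀).Infinite)
    (a : G) (haX : ∀ x : X, a • x = x) (ha : lam a x₀ ≠ 1)
    (hC : ∀ y ∈ Subgroup.normalClosure {a}, (∀ x, lam y x = 1) → y = 1)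
    (S : Finset G) (hS : Subgroup.closure (S : Set G) = ⊤) :
    ∃ ε : ℝ, 0 < ε ∧ ∀ n : ℕ,
      ε * (((S ∪ S⁻¹ ∪ {1}) ^ n).card : ℝ) ≤
        (((S ∪ S⁻¹ ∪ {1}) ^ (n + 1)).card : ℝ) - (((S ∪ S⁻¹ ∪ {1}) ^ n).card : ℝ) := by
  classical
  set T : Finset G := S ∪ S⁻¹ ∪ {1} with hT
  have h1T : (1 : G) ∈ T := by simp [hT]
  have hdist : ∀ (h : G) (x y : X), Γ.dist (h • x) (h • y) = Γ.dist x y := dist_smul hc hinv
  -- the orbit graph
  have hinfX : Infinite (MulAction.orbit G x₀) := horb.to_subtype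
  set Γ' := orbitGraph x₀ (S : Set G) with hΓ'
  have hc' : Γ'.Connected := orbitGraph_connected x₀ _ hS
  have hfin' : ∀ v, (Γ'.neighborSet v).Finite :=
    orbitGraph_finite x₀ _ hc hfin hinv S.finite_toSet
  have hinv' : ∀ (g : G) (x y : MulAction.orbit G x₀), Γ'.Adj x y → Γ'.Adj (g • x) (g • y) :=
    orbitGraph_smul x₀ _
  have hdist' : ∀ (h : G) (x y : MulAction.orbit G x₀), Γ'.dist (h • x) (h • y) = Γ'.dist x y :=
    dist_smul hc' hinv'
  set o : MulAction.orbit G x₀ := ⟨x₀, MulAction.mem_orbit_self x₀⟩ with ho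
  have hocoe : ∀ g : G, ((g • o : MulAction.orbit G x₀) : X) = g • x₀ := fun g => rfl
  have hex : ∀ p : MulAction.orbit G x₀, ∃ g : G, g • o = p := fun p => MulAction.exists_smul_eq G o p
  choose σ hσ using hex
  have hσX : ∀ p : MulAction.orbit G x₀, σ p • x₀ = (p : X) := fun p => by
    rw [← hocoe, hσ]
  -- comparison of the two metrics
  have hRex : ∀ ρ : ℕ, ∃ R : ℕ, ∀ y y' : MulAction.orbit G x₀, Γ.dist (y : X) (y' : X) ≤ ρ →
      Γ'.dist y y' ≤ R := by
    intro ρ
    have hf : {y : MulAction.orbit G x₀ | Γ.dist x₀ (y : X) ≤ ρ}.Finite :=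
      (cball_finite hc hfin x₀ ρ).preimage Subtype.val_injective.injOn
    refine ⟨hf.toFinset.sup fun y => Γ'.dist o y, fun y y' h => ?_⟩
    have h1 : Γ'.dist y y' = Γ'.dist o ((σ y)⁻¹ • y') := by
      have := hdist' (σ y) o ((σ y)⁻¹ • y')
      rw [hσ, smul_inv_smul] at this
      exact this
    have h2 : Γ.dist x₀ (((σ y)⁻¹ • y' : MulAction.orbit G x₀) : X) ≤ ρ := by
      have := hdist (σ y) x₀ ((σ y)⁻¹ • (y' : X))
      rw [hσX, smul_inv_smul] at this
      rw [MulAction.orbit.coe_smul]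
      omega
    rw [h1]
    exact Finset.le_sup (f := fun y => Γ'.dist o y) (hf.mem_toFinset.2 h2)
  -- constants
  obtain ⟨ρ, hρ⟩ : ∃ ρ : ℕ, ∀ x, lam a x ≠ 1 → Γ.dist x₀ x ≤ ρ :=
    ⟨(hlamfin a).toFinset.sup fun x => Γ.dist x₀ x, fun x hx =>
      Finset.le_sup (f := fun x => Γ.dist x₀ x) ((hlamfin a).mem_toFinset.2 hx)⟩
  obtain ⟨c, hcT⟩ : ∃ c : ℕ, ∀ s ∈ T, ∀ x, lam s x ≠ 1 → Γ.dist x₀ x ≤ c := by
    refine ⟨(T.biUnion fun s => (hlamfin s).toFinset).sup fun x => Γ.dist x₀ x, fun s hs x hx => ?_⟩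
    refine Finset.le_sup (f := fun x => Γ.dist x₀ x) ?_
    exact Finset.mem_biUnion.2 ⟨s, hs, (hlamfin s).mem_toFinset.2 hx⟩
  obtain ⟨R, hR⟩ := hRex (c + ρ)
  obtain ⟨R₂, hR₂⟩ := hRex (2 * ρ)
  set N : ℕ → ℕ := fun r => (cball Γ' o r).ncard with hN
  have hNall : ∀ v r, (cball Γ' v r).ncard = N r := fun v r => ncard_cball (H := G) hc' hinv' v o r
  set Lc : ℕ := N R₂ with hLc
  obtain ⟨k0, hk0⟩ := exists_large (N (R₂ + R + 1) * Lc ^ 2)
  set r : ℕ := k0 * Lc with hr
  have hNr : r + 1 ≤ N r := succ_le_ncard_cball hc' hfin' o r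
  obtain ⟨Sep, hSep1, hSep2, hSep3⟩ := exists_separated hc' hfin' o r R₂ Lc
    (fun w => (hNall w _).le)
  have hSepcard : k0 ≤ Sep.card := by
    have h1 : k0 * Lc < Sep.card * Lc := by
      have : N r ≤ Sep.card * Lc := hSep3
      omega
    exact (lt_of_mul_lt_mul_right h1 (Nat.zero_le _)).le
  set D : ℕ := r + R + 1 with hD
  set M : ℕ := N (D + r + R₂) with hM
  have hMle : M ≤ N (R₂ + R + 1) * Lc ^ 2 * Sep.card ^ 2 := by
    have e1 : D + r + R₂ = r + (r + (R₂ + R + 1)) := by omega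
    have e2 : M ≤ N r * (N r * N (R₂ + R + 1)) := by
      rw [hM, e1]
      refine ncard_cball_add_le hc' hfin' o r (r + (R₂ + R + 1)) _ fun w => ?_
      refine (ncard_cball_add_le hc' hfin' w r (R₂ + R + 1) (N (R₂ + R + 1))
        fun w' => ?_).trans ?_
      · exact (hNall w' _).le
      · rw [hNall w r]
    have e3 : N r ≤ Sep.card * Lc := hSep3
    calc M ≤ N r * (N r * N (R₂ + R + 1)) := e2
      _ ≤ (Sep.card * Lc) * ((Sep.card * Lc) * N (R₂ + R + 1)) :=
        Nat.mul_le_mul e3 (Nat.mul_le_mul_right _ e3)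
      _ = _ := by ring
  have hMpos : 0 < M := by
    have : D + r + R₂ + 1 ≤ N (D + r + R₂) := succ_le_ncard_cball hc' hfin' o (D + r + R₂)
    omega
  have hlarge : 2 * M ≤ 2 ^ Sep.card - 1 := by
    have h3 := hk0 Sep.card hSepcard
    omega
  -- the finite set of all local insertions
  obtain ⟨C₁, hC₁⟩ := exists_pow_superset S hS
    ((cball_finite hc' hfin' o (D + r)).toFinset.image fun p => σ p * a * (σ p)⁻¹)
  rw [← hT] at hC₁
  refine ratio_of_doubling T h1T (C₁ * Sep.card) fun n => ?_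
  -- paths
  have hpath := fun g : G => fun hg : g ∈ T ^ n => exists_path T n g hg
  choose! w hw0 hwn hws hwp hwq using hpath
  have hlamp : ∀ g ∈ T ^ n, ∀ i ≤ n, ∀ x, lam (w g i) x ≠ 1 →
      ∃ j ≤ n, Γ.dist (w g j • x₀) x ≤ c := by
    intro g hg i
    induction i with
    | zero => intro _ x hx; rw [hw0 g hg, lam_one hlam] at hx; exact absurd rfl hx
    | succ i ih =>
      intro hi x hx
      by_cases h : lam (w g i) x ≠ 1
      · exact ih (by omega) x h
      · rw [not_not] at h
        have h2 : w g (i + 1) = w g i * ((w g i)⁻¹ * w g (i + 1)) := by group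
        rw [h2, hlam, h, one_mul] at hx
        refine ⟨i, by omega, ?_⟩
        have h3 := hcT _ (hws g hg i (by omega)) _ hx
        rw [← hdist (w g i) x₀ _] at h3
        simpa using h3
  -- a far away vertex
  obtain ⟨z, hz⟩ := exists_far hc' hfin'
    ((T ^ n).biUnion fun g => (Finset.range (n + 1)).image fun i => w g i • o) D
  have hz' : ∀ g ∈ T ^ n, ∀ i ≤ n, D ≤ Γ'.dist (w g i • o) z := by
    intro g hg i hi
    refine hz _ ?_
    simp only [Finset.mem_biUnion, Finset.mem_image, Finset.mem_range]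
    exact ⟨g, hg, i, by omega, rfl⟩
  have hmin : ∀ g : G, ∃ i ≤ n, ∀ j ≤ n, Γ'.dist (w g i • o) z ≤ Γ'.dist (w g j • o) z := by
    intro g
    obtain ⟨i, hi, hi2⟩ := Finset.exists_min_image (Finset.range (n + 1))
      (fun i => Γ'.dist (w g i • o) z) ⟨0, by simp⟩
    exact ⟨i, by simpa [Nat.lt_succ_iff] using hi, fun j hj => hi2 j (by simp; omega)⟩
  choose i0 hi0 hi0min using hmin
  set q : G → MulAction.orbit G x₀ := fun g => w g (i0 g) • o with hq
  -- points near the region closer to `z` are virgin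
  set Near : X → ℕ → Prop := fun v K => ∃ y : MulAction.orbit G x₀, Γ.dist (y : X) v ≤ ρ ∧
    Γ'.dist y z + R + 1 ≤ K with hNear
  have hvirgin : ∀ g ∈ T ^ n, ∀ i ≤ n, ∀ v, Near v (Γ'.dist (q g) z) → lam (w g i) v = 1 := by
    intro g hg i hi v hv
    by_contra hcon
    obtain ⟨y, hy1, hy2⟩ := hv
    obtain ⟨j, hj, hjv⟩ := hlamp g hg i hi v hcon
    have h1 := hc.dist_triangle (u := w g j • x₀) (v := v) (w := (y : X))
    rw [SimpleGraph.dist_comm (u := v)] at h1
    have h2 := hR (w g j • o) y (by rw [hocoe]; omega)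
    have h3 := hi0min g j hj
    have h4 := hc'.dist_triangle (u := w g j • o) (v := y) (w := z)
    simp only [hq] at hy2
    omega
  -- the centre of the insertion region, a function of `q`
  have hp : ∀ v : MulAction.orbit G x₀, ∃ p : MulAction.orbit G x₀, D ≤ Γ'.dist v z →
      Γ'.dist v p = D ∧ Γ'.dist p z = Γ'.dist v z - D := by
    intro v
    by_cases hv : D ≤ Γ'.dist v z
    · obtain ⟨p, hp1, hp2⟩ := exists_between hc' v z D hv
      exact ⟨p, fun _ => ⟨hp1, hp2⟩⟩
    · exact ⟨o, fun h => absurd h hv⟩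
  choose p hp using hp
  set Pat : Finset (Finset (MulAction.orbit G x₀)) := Sep.powerset.erase ∅ with hPat
  -- translated patterns
  set pt : MulAction.orbit G x₀ → MulAction.orbit G x₀ → MulAction.orbit G x₀ :=
    fun v e => σ (p v) • e with hpt
  have hpt_inj : ∀ v, Function.Injective (pt v) := fun v => MulAction.injective _
  have hregion : ∀ g ∈ T ^ n, ∀ e ∈ Sep, Γ'.dist (q g) (pt (q g) e) ≤ D + r ∧
      Γ'.dist (pt (q g) e) z + R + 1 ≤ Γ'.dist (q g) z := by
    intro g hg e he
    have h1 := hSep1 e he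
    obtain ⟨hp1, hp2⟩ := hp (q g) (hz' g hg _ (hi0 g))
    have h2 : Γ'.dist (p (q g)) (pt (q g) e) ≤ r := by
      have := hdist' (σ (p (q g))) o e
      rw [hσ] at this
      simp only [hpt]
      omega
    have h3 : D ≤ Γ'.dist (q g) z := hz' g hg _ (hi0 g)
    have h4 := hc'.dist_triangle (u := q g) (v := p (q g)) (w := pt (q g) e)
    have h5 := hc'.dist_triangle (u := pt (q g) e) (v := p (q g)) (w := z)
    rw [SimpleGraph.dist_comm (u := pt (q g) e) (v := p (q g))] at h5
    omega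
  -- single insertions
  set A : G → MulAction.orbit G x₀ → G := fun u p' =>
    (u * σ (u⁻¹ • p')) * a * (u * σ (u⁻¹ • p'))⁻¹ with hA
  have hAact : ∀ u p' (x : X), A u p' • x = x := by
    intro u p' x
    simp only [hA]
    rw [mul_smul, mul_smul, haX, smul_inv_smul]
  have hAv : ∀ u p', (u * σ (u⁻¹ • p')) • x₀ = ((p' : MulAction.orbit G x₀) : X) := by
    intro u p'
    rw [mul_smul, hσX, MulAction.orbit.coe_smul, smul_inv_smul]
  have hAlam : ∀ u p' (x : X), lam (A u p') x = lam (u * σ (u⁻¹ • p')) x *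
      lam a ((u * σ (u⁻¹ • p'))⁻¹ • x) * (lam (u * σ (u⁻¹ • p')) x)⁻¹ :=
    fun u p' x => lam_conj hlam _ a haX x
  have hAne : ∀ u p' (x : X), lam (A u p') x ≠ 1 → Γ.dist (p' : X) x ≤ ρ := by
    intro u p' x hx
    rw [hAlam] at hx
    have h1 : lam a ((u * σ (u⁻¹ • p'))⁻¹ • x) ≠ 1 := by
      intro h; apply hx; rw [h]; group
    have h2 := hρ _ h1
    rw [← hdist (u * σ (u⁻¹ • p')) x₀ _, smul_inv_smul, hAv] at h2
    exact h2
  have hAself : ∀ u p', lam (A u p') (p' : X) ≠ 1 := by
    intro u p' h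
    rw [hAlam] at h
    apply ha
    have h1 : (u * σ (u⁻¹ • p'))⁻¹ • (p' : X) = x₀ := by rw [inv_smul_eq_iff, hAv]
    rw [h1] at h
    rw [mul_inv_eq_one] at h
    exact mul_eq_left.1 h
  have hAcl : ∀ u p', A u p' ∈ Subgroup.normalClosure {a} := by
    intro u p'
    exact (Subgroup.normalClosure_normal (s := ({a} : Set G))).conj_mem a
      (Subgroup.subset_normalClosure (Set.mem_singleton a)) _
  -- the left multipliers
  set Y : G → Finset (MulAction.orbit G x₀) → G := fun g E =>
    (E.toList.map fun e => A (w g (i0 g)) (pt (q g) e)).prod with hY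
  have hlist : ∀ (l : List G), (∀ y ∈ l, ∀ x : X, y • x = x) →
      (∀ x : X, l.prod • x = x) ∧ ∀ x : X, lam l.prod x = (l.map fun y => lam y x).prod := by
    intro l
    induction l with
    | nil => intro _; exact ⟨fun x => by simp, fun x => by simp [lam_one hlam]⟩
    | cons b l ih =>
      intro hl
      obtain ⟨h1, h2⟩ := ih fun y hy => hl y (List.mem_cons_of_mem _ hy)
      have hb := hl b List.mem_cons_self
      refine ⟨fun x => by rw [List.prod_cons, mul_smul, h1, hb], fun x => ?_⟩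
      have h3 : b⁻¹ • x = x := by rw [inv_smul_eq_iff, hb]
      rw [List.prod_cons, hlam, h3, h2, List.map_cons, List.prod_cons]
  have hYact : ∀ g E (x : X), Y g E • x = x := by
    intro g E x
    refine (hlist _ ?_).1 x
    intro y hy x
    obtain ⟨e, _, rfl⟩ := List.mem_map.1 hy
    exact hAact _ _ x
  have hYlam : ∀ g E (x : X), lam (Y g E) x =
      (E.toList.map fun e => lam (A (w g (i0 g)) (pt (q g) e)) x).prod := by
    intro g E x
    have := (hlist (E.toList.map fun e => A (w g (i0 g)) (pt (q g) e)) (by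
      intro y hy x
      obtain ⟨e, _, rfl⟩ := List.mem_map.1 hy
      exact hAact _ _ x)).2 x
    rw [List.map_map] at this
    exact this
  have hYcl : ∀ g E, Y g E ∈ Subgroup.normalClosure {a} := by
    intro g E
    refine Subgroup.list_prod_mem _ ?_
    intro y hy
    obtain ⟨e, _, rfl⟩ := List.mem_map.1 hy
    exact hAcl _ _
  have hYne : ∀ g E (x : X), lam (Y g E) x ≠ 1 → ∃ e ∈ E, Γ.dist ((pt (q g) e) : X) x ≤ ρ := by
    intro g E x hx
    rw [hYlam] at hx
    by_contra hcon
    push Not at hcon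
    apply hx
    refine List.prod_eq_one fun y hy => ?_
    obtain ⟨e, he, rfl⟩ := List.mem_map.1 hy
    by_contra h
    have h1 := hcon e (Finset.mem_toList.1 he)
    have h2 := hAne _ _ _ h
    omega
  have hYeval : ∀ g E, E ⊆ Sep → ∀ e ∈ Sep, (lam (Y g E) ((pt (q g) e) : X) ≠ 1 ↔ e ∈ E) := by
    intro g E hE e he
    have hother : ∀ e' ∈ E, e' ≠ e → lam (A (w g (i0 g)) (pt (q g) e')) ((pt (q g) e) : X) = 1 := by
      intro e' he' hne
      by_contra hcon
      have h1 := hAne _ _ _ hcon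
      have h2 := hR₂ (pt (q g) e') (pt (q g) e) (by omega)
      have h3 := hdist' (σ (p (q g))) e' e
      have h4 := hSep2 e' (hE he') e he hne
      simp only [hpt] at h2
      omega
    constructor
    · intro h
      by_contra hcon
      apply h
      rw [hYlam]
      refine List.prod_eq_one fun y hy => ?_
      obtain ⟨e', he', rfl⟩ := List.mem_map.1 hy
      have he'E := Finset.mem_toList.1 he'
      exact hother e' he'E (fun h => hcon (h ▸ he'E))
    · intro h
      rw [hYlam, prod_map_eq_single _ (Finset.nodup_toList E) _ e (Finset.mem_toList.2 h)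
        (fun e' he' hne => hother e' (Finset.mem_toList.1 he') hne)]
      exact hAself _ _
  have hYnear : ∀ g ∈ T ^ n, ∀ E ⊆ Sep, ∀ x : X, lam (Y g E) x ≠ 1 → Near x (Γ'.dist (q g) z) := by
    intro g hg E hE x hx
    obtain ⟨e, he, hd⟩ := hYne g E x hx
    exact ⟨pt (q g) e, hd, (hregion g hg e (hE he)).2⟩
  refine doubling_of_insertion T n (C₁ * Sep.card) M hMpos (fun _ => Pat) (fun g E => Y g E * g)
    ?_ ?_ ?_
  · intro g hg
    rw [hPat, Finset.card_erase_of_mem (by simp), Finset.card_powerset]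
    exact hlarge
  · intro g hg E hE
    rw [hPat, Finset.mem_erase, Finset.mem_powerset] at hE
    set u := w g (i0 g) with hu
    have hin : i0 g ≤ n := hi0 g
    have hconj : ∀ l : List (MulAction.orbit G x₀), (∀ e ∈ l, e ∈ Sep) →
        u⁻¹ * (l.map fun e => A u (pt (q g) e)).prod * u ∈ T ^ (C₁ * l.length) := by
      intro l
      induction l with
      | nil => intro _; simp
      | cons b l ih =>
        intro hl
        have h1 := ih fun e he => hl e (List.mem_cons_of_mem _ he)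
        have h2 : u⁻¹ * A u (pt (q g) b) * u ∈ T ^ C₁ := by
          have h3 : u⁻¹ * A u (pt (q g) b) * u =
              σ (u⁻¹ • pt (q g) b) * a * (σ (u⁻¹ • pt (q g) b))⁻¹ := by
            simp only [hA]; group
          rw [h3]
          refine hC₁ (Finset.mem_image.2 ⟨u⁻¹ • pt (q g) b, ?_, rfl⟩)
          rw [Set.Finite.mem_toFinset, mem_cball]
          have h4 := (hregion g hg b (hl b List.mem_cons_self)).1
          have h5 := hdist' u o (u⁻¹ • pt (q g) b)
          rw [smul_inv_smul] at h5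
          have h6 : u • o = q g := rfl
          rw [h6] at h5
          omega
        rw [List.map_cons, List.prod_cons, List.length_cons, mul_add, mul_one, add_comm, pow_add]
        have h5 : u⁻¹ * (A u (pt (q g) b) * (l.map fun e => A u (pt (q g) e)).prod) * u =
            (u⁻¹ * A u (pt (q g) b) * u) * (u⁻¹ * (l.map fun e => A u (pt (q g) e)).prod * u) := by
          group
        rw [h5]
        exact Finset.mul_mem_mul h2 h1
    have h1 : u⁻¹ * Y g E * u ∈ T ^ (C₁ * Sep.card) := by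
      have h2 := hconj E.toList fun e he => hE.2 (Finset.mem_toList.1 he)
      rw [Finset.length_toList] at h2
      exact Finset.pow_subset_pow_right h1T
        (Nat.mul_le_mul_left _ (Finset.card_le_card hE.2)) h2
    have hdec : Y g E * g = u * ((u⁻¹ * Y g E * u) * (u⁻¹ * g)) := by group
    change Y g E * g ∈ T ^ (n + C₁ * Sep.card)
    rw [hdec, show n + C₁ * Sep.card = i0 g + (C₁ * Sep.card + (n - i0 g)) by omega, pow_add,
      pow_add]
    exact Finset.mul_mem_mul (hwp g hg _ hin) (Finset.mul_mem_mul h1 (hwq g hg _ hin))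
  · intro g' _
    set F := ((T ^ n).sigma fun _ => Pat).filter
      (fun x : (Σ _ : G, Finset (MulAction.orbit G x₀)) => Y x.1 x.2 * x.1 = g') with hF
    rcases F.eq_empty_or_nonempty with hFe | hFne
    · rw [hFe]; simp
    · have hfacts : ∀ x ∈ F, x.1 ∈ T ^ n ∧ x.2 ∈ Pat ∧ Y x.1 x.2 * x.1 = g' := by
        intro x hx
        rw [hF, Finset.mem_filter, Finset.mem_sigma] at hx
        exact ⟨hx.1.1, hx.1.2, hx.2⟩
      have hPatmem : ∀ E ∈ Pat, E ≠ ∅ ∧ E ⊆ Sep := by
        intro E hE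
        rwa [hPat, Finset.mem_erase, Finset.mem_powerset] at hE
      have hgl : ∀ x ∈ F, ∀ v, lam g' v = lam (Y x.1 x.2) v * lam x.1 v := by
        intro x hx v
        obtain ⟨h1, h2, h3⟩ := hfacts x hx
        have h4 : (Y x.1 x.2)⁻¹ • v = v := by rw [inv_smul_eq_iff, hYact]
        rw [← h3, hlam, h4]
      have hreg : ∀ x ∈ F, ∀ v, lam (Y x.1 x.2) v =
          if Near v (Γ'.dist (q x.1) z) then lam g' v else 1 := by
        intro x hx v
        obtain ⟨h1, h2, h3⟩ := hfacts x hx
        split_ifs with h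
        · rw [hgl x hx v]
          have := hvirgin x.1 h1 n le_rfl v h
          rw [hwn x.1 h1] at this
          rw [this, mul_one]
        · by_contra hcon
          exact h (hYnear x.1 h1 x.2 (hPatmem _ h2).2 v hcon)
      have hex2 : ∀ x ∈ F, ∃ v : X, lam g' v ≠ 1 ∧ Near v (Γ'.dist (q x.1) z) := by
        intro x hx
        obtain ⟨h1, h2, h3⟩ := hfacts x hx
        obtain ⟨hne, hsub⟩ := hPatmem _ h2
        obtain ⟨e, he⟩ := Finset.nonempty_iff_ne_empty.2 hne
        have h4 := (hYeval x.1 x.2 hsub e (hsub he)).2 he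
        have h5 := hYnear x.1 h1 x.2 hsub _ h4
        have h6 := hreg x hx ((pt (q x.1) e) : X)
        rw [if_pos h5] at h6
        exact ⟨_, by rw [← h6]; exact h4, h5⟩
      obtain ⟨x1, hx1⟩ := hFne
      -- minimise the distance of a nearby orbit point to `z`
      have hQ : ∃ k : ℕ, ∃ v : X, lam g' v ≠ 1 ∧ ∃ y : MulAction.orbit G x₀,
          Γ.dist (y : X) v ≤ ρ ∧ Γ'.dist y z = k := by
        obtain ⟨v, hv, y, hy1, hy2⟩ := hex2 x1 hx1
        exact ⟨_, v, hv, y, hy1, rfl⟩
      obtain ⟨v, hv, y₁, hy₁, hy₁z⟩ := Nat.find_spec hQ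
      have hvNear : ∀ x ∈ F, Near v (Γ'.dist (q x.1) z) := by
        intro x hx
        obtain ⟨v', hv', y, hy1, hy2⟩ := hex2 x hx
        have h1 := Nat.find_min' hQ ⟨v', hv', y, hy1, rfl⟩
        exact ⟨y₁, hy₁, by omega⟩
      have hvY : ∀ x ∈ F, lam (Y x.1 x.2) v ≠ 1 := by
        intro x hx
        rw [hreg x hx v, if_pos (hvNear x hx)]
        exact hv
      have hinj : Set.InjOn (fun x : (Σ _ : G, Finset (MulAction.orbit G x₀)) => q x.1)
          (F : Set _) := by
        intro x hx x' hx' hxy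
        have hxF : x ∈ F := hx
        have hxF' : x' ∈ F := hx'
        simp only at hxy
        obtain ⟨h1, h2, h3⟩ := hfacts x hxF
        obtain ⟨h1', h2', h3'⟩ := hfacts x' hxF'
        have hfun : ∀ v, lam (Y x.1 x.2) v = lam (Y x'.1 x'.2) v := by
          intro v
          rw [hreg x hxF v, hreg x' hxF' v, hxy]
        have hYY : Y x.1 x.2 = Y x'.1 x'.2 := by
          have h4 : Y x.1 x.2 * (Y x'.1 x'.2)⁻¹ = 1 := by
            refine hC _ (Subgroup.mul_mem _ (hYcl _ _) (Subgroup.inv_mem _ (hYcl _ _))) ?_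
            intro v
            have h5 : (Y x.1 x.2)⁻¹ • v = v := by rw [inv_smul_eq_iff, hYact]
            have h6 : (Y x'.1 x'.2)⁻¹ • v = v := by rw [inv_smul_eq_iff, hYact]
            have h7 := lam_inv hlam (Y x'.1 x'.2) v
            rw [h6] at h7
            rw [hlam, h5, h7, hfun v, mul_inv_cancel]
          exact mul_inv_eq_one.1 h4
        have h5 : x.1 = x'.1 := by
          rw [← h3', hYY] at h3
          exact mul_left_cancel h3
        have hE : x.2 = x'.2 := by
          ext b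
          constructor
          · intro hb
            have hbS := (hPatmem _ h2).2 hb
            have e1 := (hYeval x.1 x.2 (hPatmem _ h2).2 b hbS).2 hb
            rw [hfun, hxy] at e1
            exact (hYeval x'.1 x'.2 (hPatmem _ h2').2 b hbS).1 e1
          · intro hb
            have hbS := (hPatmem _ h2').2 hb
            have e1 := (hYeval x'.1 x'.2 (hPatmem _ h2').2 b hbS).2 hb
            rw [← hfun, ← hxy] at e1
            exact (hYeval x.1 x.2 (hPatmem _ h2).2 b hbS).1 e1
        exact Sigma.ext h5 (heq_of_eq hE)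
      -- a nearby orbit point of `v`
      calc F.card = (F.image fun x : (Σ _ : G, Finset (MulAction.orbit G x₀)) => q x.1).card :=
            (Finset.card_image_of_injOn hinj).symm
        _ ≤ ((cball_finite hc' hfin' y₁ (D + r + R₂)).toFinset).card := by
            refine Finset.card_le_card ?_
            intro b hb
            obtain ⟨x, hx, rfl⟩ := Finset.mem_image.1 hb
            rw [Set.Finite.mem_toFinset, mem_cball]
            obtain ⟨h1, h2, _⟩ := hfacts x hx
            obtain ⟨e, he, hd⟩ := hYne _ _ v (hvY x hx)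
            have h3 := (hregion x.1 h1 e ((hPatmem _ h2).2 he)).1
            have h4 := hc.dist_triangle (u := (y₁ : X)) (v := v) (w := ((pt (q x.1) e) : X))
            rw [SimpleGraph.dist_comm (u := v)] at h4
            have h5 := hR₂ y₁ (pt (q x.1) e) (by omega)
            have h6 := hc'.dist_triangle (u := y₁) (v := pt (q x.1) e) (w := q x.1)
            rw [SimpleGraph.dist_comm (u := pt (q x.1) e) (v := q x.1)] at h6
            omega
        _ = M := by
            rw [← Set.ncard_eq_toFinset_card _ (cball_finite hc' hfin' y₁ (D + r + R₂)), hNall]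

end Pool.Agent.RatioGrowth
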