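import Mathlib
import Pool.Agent.RatioGrowth.Basic
import Pool.Agent.RatioGrowth.Cayley

set_option autoImplicit false

open Pointwise

namespace Pool.Agent.RatioGrowth

section

variable {G Q R : Type*} [Group G] [Group Q] [AddCommGroup R] (π : G →* Q)
  (δ : G → Q →₀ R) (hδ : ∀ g h x, δ (g * h) x = δ g x + δ h ((π g)⁻¹ * x))

include hδ

lemma der_one (x : Q) : δ 1 x = 0 := by
  have h := hδ 1 1 x
  simp only [map_one, inv_one, one_mul] at h
  simpa using h

lemma der_conj (g a : G) (ha : π a = 1) (x : Q) :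
    δ (g * a * g⁻¹) x = δ a ((π g)⁻¹ * x) := by
  have h1 := hδ (g * a) g⁻¹ x
  have h2 := hδ g a x
  have h3 := hδ g g⁻¹ x
  rw [mul_inv_cancel, der_one π δ hδ] at h3
  rw [map_mul π g a, ha, mul_one] at h1
  rw [h1, h2]
  have h4 : δ g x = - δ g⁻¹ ((π g)⁻¹ * x) := by
    rw [eq_neg_iff_add_eq_zero]; exact h3.symm
  rw [h4]; abel

end

/-- Groups with a derivation into a group ring not vanishing on a central element of the kernel. -/
theorem derivation_ratio {G Q R : Type*} [Group G] [Group Q] [Infinite Q] [AddCommGroup R]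
    [DecidableEq G] (π : G →* Q) (hπ : Function.Surjective π)
    (δ : G → Q →₀ R) (hδ : ∀ g h x, δ (g * h) x = δ g x + δ h ((π g)⁻¹ * x))
    (a : G) (ha : π a = 1) (hac : ∀ g, π g = 1 → g * a = a * g) (hδa : δ a ≠ 0)
    (S : Finset G) (hS : Subgroup.closure (S : Set G) = ⊤) :
    ∃ ε : ℝ, 0 < ε ∧ ∀ n : ℕ,
      ε * (((S ∪ S⁻¹ ∪ {1}) ^ n).card : ℝ) ≤
        (((S ∪ S⁻¹ ∪ {1}) ^ (n + 1)).card : ℝ) - (((S ∪ S⁻¹ ∪ {1}) ^ n).card : ℝ) := by
  classical
  set T : Finset G := S ∪ S⁻¹ ∪ {1} with hT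
  have h1T : (1 : G) ∈ T := by simp [hT]
  -- Cayley graph
  set U : Set Q := π '' (S : Set G) with hU
  have hUfin : U.Finite := S.finite_toSet.image _
  have hUgen : Subgroup.closure U = ⊤ := by
    rw [hU, ← MonoidHom.map_closure, hS, ← MonoidHom.range_eq_map]
    exact MonoidHom.range_eq_top.2 hπ
  set Γ := cayley Q U with hΓ
  have hc : Γ.Connected := cayley_connected U hUgen
  have hfin : ∀ v, (Γ.neighborSet v).Finite := cayley_finite U hUfin
  have hinv : ∀ (h : Q) (x y : Q), Γ.Adj x y → Γ.Adj (h • x) (h • y) := fun h x y => cayley_smul U h x y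
  have hdist : ∀ h x y : Q, Γ.dist (h * x) (h * y) = Γ.dist x y := fun h x y =>
    dist_smul hc hinv h x y
  -- conjugates of `a`
  have hconj_eq : ∀ g h : G, π g = π h → g * a * g⁻¹ = h * a * h⁻¹ := by
    intro g h hgh
    have h1 : π (h⁻¹ * g) = 1 := by rw [map_mul, map_inv, hgh, inv_mul_cancel]
    have h2 := hac _ h1
    calc g * a * g⁻¹ = h * ((h⁻¹ * g) * a) * g⁻¹ := by group
      _ = h * (a * (h⁻¹ * g)) * g⁻¹ := by rw [h2]
      _ = h * a * h⁻¹ := by group
  choose σ hσ using hπ
  have hmemker : ∀ g : G, g * a * g⁻¹ ∈ π.ker := fun g => by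
    rw [MonoidHom.mem_ker, map_mul, map_mul, ha, map_inv]; simp
  have hcentral : ∀ g : G, (⟨g * a * g⁻¹, hmemker g⟩ : π.ker) ∈ Subgroup.center π.ker := by
    intro g
    rw [Subgroup.mem_center_iff]
    rintro ⟨k, hk⟩
    rw [MonoidHom.mem_ker] at hk
    refine Subtype.ext ?_
    change k * (g * a * g⁻¹) = g * a * g⁻¹ * k
    have h1 := hconj_eq (k * g) g (by rw [map_mul, hk, one_mul])
    calc k * (g * a * g⁻¹) = (k * g) * a * (k * g)⁻¹ * k := by group
      _ = g * a * g⁻¹ * k := by rw [h1]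
  let _ : CommGroup (Subgroup.center π.ker) :=
    { (inferInstance : Group (Subgroup.center π.ker)) with
      mul_comm := fun x y => Subtype.ext (Subgroup.mem_center_iff.1 y.2 x) }
  set cz : Q → Subgroup.center π.ker := fun x => ⟨⟨σ x * a * (σ x)⁻¹, hmemker _⟩, hcentral _⟩ with hcz
  set y : Finset Q → G := fun E => (((∏ x ∈ E, cz x : Subgroup.center π.ker) : π.ker) : G) with hy
  have hy_empty : y ∅ = 1 := by simp [hy]
  have hy_insert : ∀ (x : Q) (E : Finset Q), x ∉ E → y (insert x E) = (σ x * a * (σ x)⁻¹) * y E := by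
    intro x E hx
    simp only [hy]
    rw [Finset.prod_insert hx]
    simp [hcz]
  have hπy : ∀ E, π (y E) = 1 := fun E => (∏ x ∈ E, cz x : Subgroup.center π.ker).1.2
  have hconj_y : ∀ (u : G) (E : Finset Q), u⁻¹ * y E * u = y (E.image fun x => (π u)⁻¹ * x) := by
    intro u E
    induction E using Finset.induction_on with
    | empty => simp [hy_empty]
    | insert x E hx ih =>
      rw [hy_insert x E hx, Finset.image_insert, hy_insert]
      · rw [← ih]
        have h1 := hconj_eq (u⁻¹ * σ x) (σ ((π u)⁻¹ * x)) (by rw [map_mul, map_inv, hσ, hσ])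
        rw [← h1]; group
      · intro hcon
        obtain ⟨x', hx', hxx'⟩ := Finset.mem_image.1 hcon
        have : x' = x := mul_left_cancel hxx'
        subst this; exact hx hx'
  have hδy : ∀ (E : Finset Q) (v : Q), δ (y E) v = ∑ x ∈ E, δ a (x⁻¹ * v) := by
    intro E v
    induction E using Finset.induction_on with
    | empty => rw [hy_empty, der_one π δ hδ]; simp
    | insert x E hx ih =>
      rw [hy_insert x E hx, hδ, der_conj π δ hδ _ _ ha, hσ, Finset.sum_insert hx, ← ih]
      have : π (σ x * a * (σ x)⁻¹) = 1 := MonoidHom.mem_ker.1 (hmemker (σ x))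
      rw [this]; simp
  -- constants
  obtain ⟨y₀, hy₀⟩ : ∃ y₀, δ a y₀ ≠ 0 := by
    by_contra hcon
    push Not at hcon
    exact hδa (Finsupp.ext hcon)
  obtain ⟨ρ, hρ⟩ : ∃ ρ : ℕ, ∀ x, δ a x ≠ 0 → Γ.dist 1 x ≤ ρ :=
    ⟨(δ a).support.sup fun x => Γ.dist 1 x, fun x hx =>
      Finset.le_sup (f := fun x => Γ.dist 1 x) (Finsupp.mem_support_iff.2 hx)⟩
  obtain ⟨c, hcT⟩ : ∃ c : ℕ, ∀ s ∈ T, ∀ x, δ s x ≠ 0 → Γ.dist 1 x ≤ c := by
    refine ⟨(T.biUnion fun s => (δ s).support).sup fun x => Γ.dist 1 x, fun s hs x hx => ?_⟩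
    refine Finset.le_sup (f := fun x => Γ.dist 1 x) ?_
    exact Finset.mem_biUnion.2 ⟨s, hs, Finsupp.mem_support_iff.2 hx⟩
  set N : ℕ → ℕ := fun r => (cball Γ 1 r).ncard with hN
  have hNall : ∀ v r, (cball Γ v r).ncard = N r := fun v r => ncard_cball (H := Q) hc hinv v 1 r
  set L : ℕ := N (2 * ρ) with hL
  obtain ⟨x0, hx0⟩ := exists_large (N (2 * ρ + c + 1) * L ^ 2)
  set r : ℕ := x0 * L with hr
  have hNr : r + 1 ≤ N r := succ_le_ncard_cball hc hfin 1 r
  obtain ⟨Sep, hSep1, hSep2, hSep3⟩ := exists_separated hc hfin (1 : Q) r (2 * ρ) L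
    (fun w => (hNall w _).le)
  have hSepcard : x0 ≤ Sep.card := by
    have h1 : x0 * L < Sep.card * L := by
      have : N r ≤ Sep.card * L := hSep3
      omega
    exact (lt_of_mul_lt_mul_right h1 (Nat.zero_le _)).le
  set D : ℕ := r + ρ + c + 1 with hD
  set M : ℕ := N (D + r + ρ) with hM
  have hMle : M ≤ N (2 * ρ + c + 1) * L ^ 2 * Sep.card ^ 2 := by
    have e1 : D + r + ρ = r + (r + (2 * ρ + c + 1)) := by omega
    have e2 : M ≤ N r * (N r * N (2 * ρ + c + 1)) := by
      rw [hM, e1]
      refine ncard_cball_add_le hc hfin 1 r (r + (2 * ρ + c + 1)) _ fun w => ?_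
      refine (ncard_cball_add_le hc hfin w r (2 * ρ + c + 1) (N (2 * ρ + c + 1))
        fun w' => ?_).trans ?_
      · exact (hNall w' _).le
      · rw [hNall w r]
    have e3 : N r ≤ Sep.card * L := hSep3
    calc M ≤ N r * (N r * N (2 * ρ + c + 1)) := e2
      _ ≤ (Sep.card * L) * ((Sep.card * L) * N (2 * ρ + c + 1)) :=
        Nat.mul_le_mul e3 (Nat.mul_le_mul_right _ e3)
      _ = _ := by ring
  have hMpos : 0 < M := by
    have : D + r + ρ + 1 ≤ N (D + r + ρ) := succ_le_ncard_cball hc hfin 1 (D + r + ρ)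
    omega
  have hlarge : 2 * M ≤ 2 ^ Sep.card - 1 := by
    have h3 := hx0 Sep.card hSepcard
    omega
  -- the finite set of all local insertions
  obtain ⟨C, hC⟩ := exists_pow_superset S hS
    (((cball_finite hc hfin 1 (D + r)).toFinset.powerset).image y)
  rw [← hT] at hC
  refine ratio_of_doubling T h1T C fun n => ?_
  -- paths
  have hpath := fun g : G => fun hg : g ∈ T ^ n => exists_path T n g hg
  choose! w hw0 hwn hws hwp hwq using hpath
  -- supports are close to the path
  have hlamp : ∀ g ∈ T ^ n, ∀ i ≤ n, ∀ x, δ (w g i) x ≠ 0 →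
      ∃ j ≤ n, Γ.dist (π (w g j)) x ≤ c := by
    intro g hg i
    induction i with
    | zero => intro _ x hx; rw [hw0 g hg, der_one π δ hδ] at hx; exact absurd rfl hx
    | succ i ih =>
      intro hi x hx
      by_cases h : δ (w g i) x ≠ 0
      · exact ih (by omega) x h
      · rw [not_not] at h
        have h2 : w g (i + 1) = w g i * ((w g i)⁻¹ * w g (i + 1)) := by group
        rw [h2, hδ, h, zero_add] at hx
        refine ⟨i, by omega, ?_⟩
        have h3 := hcT _ (hws g hg i (by omega)) _ hx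
        rw [← hdist (π (w g i)) 1 _] at h3
        simpa using h3
  -- a far away vertex
  obtain ⟨z, hz⟩ := exists_far hc hfin
    ((T ^ n).biUnion fun g => (Finset.range (n + 1)).image fun i => π (w g i)) D
  have hz' : ∀ g ∈ T ^ n, ∀ i ≤ n, D ≤ Γ.dist (π (w g i)) z := by
    intro g hg i hi
    refine hz _ ?_
    simp only [Finset.mem_biUnion, Finset.mem_image, Finset.mem_range]
    exact ⟨g, hg, i, by omega, rfl⟩
  have hmin : ∀ g : G, ∃ i ≤ n, ∀ j ≤ n,
      Γ.dist (π (w g i)) z ≤ Γ.dist (π (w g j)) z := by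
    intro g
    obtain ⟨i, hi, hi2⟩ := Finset.exists_min_image (Finset.range (n + 1))
      (fun i => Γ.dist (π (w g i)) z) ⟨0, by simp⟩
    exact ⟨i, by simpa [Nat.lt_succ_iff] using hi, fun j hj => hi2 j (by simp; omega)⟩
  choose i0 hi0 hi0min using hmin
  set q : G → Q := fun g => π (w g (i0 g)) with hq
  have hlampfar : ∀ g ∈ T ^ n, ∀ i ≤ n, ∀ x, δ (w g i) x ≠ 0 →
      Γ.dist (q g) z ≤ Γ.dist x z + c := by
    intro g hg i hi x hx
    obtain ⟨j, hj, hjx⟩ := hlamp g hg i hi x hx
    have h1 := hi0min g j hj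
    have h2 := hc.dist_triangle (u := π (w g j)) (v := x) (w := z)
    simp only [hq]
    omega
  -- the centre of the insertion region, a function of `q`
  have hp : ∀ v : Q, ∃ p : Q, D ≤ Γ.dist v z → Γ.dist v p = D ∧ Γ.dist p z = Γ.dist v z - D := by
    intro v
    by_cases hv : D ≤ Γ.dist v z
    · obtain ⟨p, hp1, hp2⟩ := exists_between hc v z D hv
      exact ⟨p, fun _ => ⟨hp1, hp2⟩⟩
    · exact ⟨1, fun h => absurd h hv⟩
  choose p hp using hp
  set Pat : Finset (Finset Q) := Sep.powerset.erase ∅ with hPat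
  set tr : Q → Finset Q → Finset Q := fun v E => E.image fun x => p v * x with htr
  have hregion : ∀ g ∈ T ^ n, ∀ E ∈ Pat, ∀ x ∈ tr (q g) E,
      Γ.dist (q g) x ≤ D + r ∧ ∀ v, Γ.dist x v ≤ ρ → Γ.dist v z + c + 1 ≤ Γ.dist (q g) z := by
    intro g hg E hE x hx
    obtain ⟨x', hx', rfl⟩ := Finset.mem_image.1 hx
    rw [hPat, Finset.mem_erase, Finset.mem_powerset] at hE
    have h1 := hSep1 x' (hE.2 hx')
    obtain ⟨hp1, hp2⟩ := hp (q g) (hz' g hg _ (hi0 g))
    have h2 : Γ.dist (p (q g)) (p (q g) * x') ≤ r := by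
      have := hdist (p (q g)) 1 x'
      rw [mul_one] at this
      omega
    have h3 : D ≤ Γ.dist (q g) z := hz' g hg _ (hi0 g)
    constructor
    · have h4 := hc.dist_triangle (u := q g) (v := p (q g)) (w := p (q g) * x')
      omega
    · intro v hv
      have h4 := hc.dist_triangle (u := v) (v := p (q g) * x') (w := z)
      have h5 := hc.dist_triangle (u := p (q g) * x') (v := p (q g)) (w := z)
      rw [SimpleGraph.dist_comm (u := v) (v := p (q g) * x')] at h4
      rw [SimpleGraph.dist_comm (u := p (q g) * x') (v := p (q g))] at h5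
      omega
  have hδy_ne : ∀ (E : Finset Q) (v : Q), δ (y E) v ≠ 0 → ∃ x ∈ E, Γ.dist x v ≤ ρ := by
    intro E v hv
    rw [hδy] at hv
    obtain ⟨x, hx, hxv⟩ := Finset.exists_ne_zero_of_sum_ne_zero hv
    refine ⟨x, hx, ?_⟩
    have h1 := hρ _ hxv
    have h2 := hdist x 1 (x⁻¹ * v)
    rw [mul_one, mul_inv_cancel_left] at h2
    omega
  -- separated evaluation
  have heval : ∀ (v : Q) (E : Finset Q), E ⊆ Sep → ∀ x ∈ Sep,
      δ (y (tr v E)) (p v * x * y₀) = if x ∈ E then δ a y₀ else 0 := by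
    intro v E hE x hx
    rw [hδy]
    have hzero : ∀ x' ∈ tr v E, x' ≠ p v * x → δ a (x'⁻¹ * (p v * x * y₀)) = 0 := by
      intro x' hx' hne
      by_contra hcon
      obtain ⟨x'', hx'', rfl⟩ := Finset.mem_image.1 hx'
      have h1 := hρ _ hcon
      have h2 := hdist (p v * x'') 1 ((p v * x'')⁻¹ * (p v * x * y₀))
      rw [mul_one, mul_inv_cancel_left] at h2
      have h3 := hρ _ hy₀
      have h4 := hdist (p v * x) 1 y₀
      rw [mul_one] at h4
      have h5 := hc.dist_triangle (u := p v * x'') (v := p v * x * y₀) (w := p v * x)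
      rw [SimpleGraph.dist_comm (u := p v * x * y₀)] at h5
      have h6 := hdist (p v) x'' x
      have h7 := hSep2 x'' (hE hx'') x hx (fun h => hne (by rw [h]))
      omega
    split_ifs with h
    · rw [Finset.sum_eq_single_of_mem (p v * x) (Finset.mem_image_of_mem _ h)
        (fun x' hx' hne => hzero x' hx' hne)]
      congr 1
      group
    · refine Finset.sum_eq_zero fun x' hx' => hzero x' hx' ?_
      rintro rfl
      obtain ⟨x'', hx'', he⟩ := Finset.mem_image.1 hx'
      have : x'' = x := mul_left_cancel he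
      subst this; exact h hx''
  refine doubling_of_insertion T n C M hMpos (fun _ => Pat) (fun g E => y (tr (q g) E) * g) ?_ ?_ ?_
  · intro g hg
    rw [hPat, Finset.card_erase_of_mem (by simp), Finset.card_powerset]
    exact hlarge
  · intro g hg E hE
    set u := w g (i0 g) with hu
    have hdec : y (tr (q g) E) * g = u * ((u⁻¹ * y (tr (q g) E) * u) * (u⁻¹ * g)) := by group
    have hin : i0 g ≤ n := hi0 g
    have h1 : u⁻¹ * y (tr (q g) E) * u ∈ T ^ C := by
      rw [hconj_y]
      refine hC (Finset.mem_image_of_mem _ ?_)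
      rw [Finset.mem_powerset]
      intro v hv
      obtain ⟨x, hx, rfl⟩ := Finset.mem_image.1 hv
      rw [Set.Finite.mem_toFinset, mem_cball]
      have h2 := (hregion g hg E hE x hx).1
      rw [← hdist (π u) 1 _]
      simpa [hq, ← hu] using h2
    have h2 : u ∈ T ^ (i0 g) := hwp g hg _ hin
    have h3 : u⁻¹ * g ∈ T ^ (n - i0 g) := hwq g hg _ hin
    change y (tr (q g) E) * g ∈ T ^ (n + C)
    rw [hdec, show n + C = i0 g + (C + (n - i0 g)) by omega, pow_add, pow_add]
    exact Finset.mul_mem_mul h2 (Finset.mul_mem_mul h1 h3)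
  · intro g' _
    set F := ((T ^ n).sigma fun _ => Pat).filter
      (fun x : (Σ _ : G, Finset Q) => y (tr (q x.1) x.2) * x.1 = g') with hF
    rcases F.eq_empty_or_nonempty with hFe | hFne
    · rw [hFe]; simp
    · have hfacts : ∀ x ∈ F, x.1 ∈ T ^ n ∧ x.2 ∈ Pat ∧ y (tr (q x.1) x.2) * x.1 = g' := by
        intro x hx
        rw [hF, Finset.mem_filter, Finset.mem_sigma] at hx
        exact ⟨hx.1.1, hx.1.2, hx.2⟩
      have hgl : ∀ x ∈ F, ∀ v, δ g' v = δ (y (tr (q x.1) x.2)) v + δ x.1 v := by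
        intro x hx v
        obtain ⟨h1, h2, h3⟩ := hfacts x hx
        rw [← h3, hδ, hπy]; simp
      have hnear : ∀ x ∈ F, ∀ v, δ (y (tr (q x.1) x.2)) v ≠ 0 →
          Γ.dist v z + c + 1 ≤ Γ.dist (q x.1) z := by
        intro x hx v hv
        obtain ⟨h1, h2, h3⟩ := hfacts x hx
        obtain ⟨x', hx', hd⟩ := hδy_ne _ v hv
        exact (hregion x.1 h1 x.2 h2 x' hx').2 v hd
      have hfar : ∀ x ∈ F, ∀ v, δ x.1 v ≠ 0 → Γ.dist (q x.1) z ≤ Γ.dist v z + c := by
        intro x hx v hv
        obtain ⟨h1, h2, h3⟩ := hfacts x hx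
        exact hlampfar x.1 h1 n le_rfl v (by rw [hwn x.1 h1]; exact hv)
      have hreg : ∀ x ∈ F, ∀ v, δ (y (tr (q x.1) x.2)) v =
          if Γ.dist v z + c + 1 ≤ Γ.dist (q x.1) z then δ g' v else 0 := by
        intro x hx v
        split_ifs with h
        · rw [hgl x hx v]
          have : δ x.1 v = 0 := by
            by_contra hcon
            have := hfar x hx v hcon
            omega
          rw [this, add_zero]
        · by_contra hcon
          exact h (hnear x hx v hcon)
      have hex : ∀ x ∈ F, ∃ v, δ g' v ≠ 0 ∧ Γ.dist v z + c + 1 ≤ Γ.dist (q x.1) z := by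
        intro x hx
        obtain ⟨h1, h2, h3⟩ := hfacts x hx
        rw [hPat, Finset.mem_erase, Finset.mem_powerset] at h2
        obtain ⟨x', hx'⟩ := Finset.nonempty_iff_ne_empty.2 h2.1
        have h4 := heval (q x.1) x.2 h2.2 x' (h2.2 hx')
        rw [if_pos hx'] at h4
        have h5 : δ (y (tr (q x.1) x.2)) (p (q x.1) * x' * y₀) ≠ 0 := by rw [h4]; exact hy₀
        have h6 := hnear x hx _ h5
        have h7 := hreg x hx (p (q x.1) * x' * y₀)
        rw [if_pos h6] at h7
        exact ⟨_, by rw [← h7]; exact h5, h6⟩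
      obtain ⟨x1, hx1⟩ := hFne
      have hsupp : (δ g').support.Nonempty := by
        obtain ⟨v, hv, _⟩ := hex x1 hx1
        exact ⟨v, Finsupp.mem_support_iff.2 hv⟩
      obtain ⟨v, hv, hvmin⟩ := Finset.exists_min_image _ (fun v => Γ.dist v z) hsupp
      rw [Finsupp.mem_support_iff] at hv
      have hvE : ∀ x ∈ F, δ (y (tr (q x.1) x.2)) v ≠ 0 := by
        intro x hx
        obtain ⟨v', hv', hd⟩ := hex x hx
        have h4 := hvmin v' (Finsupp.mem_support_iff.2 hv')
        rw [hreg x hx v, if_pos (by omega)]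
        exact hv
      have hinj : Set.InjOn (fun x : (Σ _ : G, Finset Q) => q x.1) (F : Set _) := by
        intro x hx x' hx' hxy
        have hxF : x ∈ F := hx
        have hxF' : x' ∈ F := hx'
        simp only at hxy
        obtain ⟨h1, h2, h3⟩ := hfacts x hxF
        obtain ⟨h1', h2', h3'⟩ := hfacts x' hxF'
        have h2P := h2
        have h2P' := h2'
        rw [hPat, Finset.mem_erase, Finset.mem_powerset] at h2P h2P'
        have hfun : ∀ v, δ (y (tr (q x.1) x.2)) v = δ (y (tr (q x.1) x'.2)) v := by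
          intro v
          have e1 := hreg x hxF v
          have e2 := hreg x' hxF' v
          rw [← hxy] at e2
          rw [e1, e2]
        have hE : x.2 = x'.2 := by
          ext b
          constructor
          · intro hb
            have e1 := heval (q x.1) x.2 h2P.2 b (h2P.2 hb)
            have e2 := heval (q x.1) x'.2 h2P'.2 b (h2P.2 hb)
            rw [if_pos hb] at e1
            by_contra hcon
            rw [if_neg hcon, ← hfun, e1] at e2
            exact hy₀ e2
          · intro hb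
            have e1 := heval (q x.1) x.2 h2P.2 b (h2P'.2 hb)
            have e2 := heval (q x.1) x'.2 h2P'.2 b (h2P'.2 hb)
            rw [if_pos hb] at e2
            by_contra hcon
            rw [if_neg hcon, hfun, e2] at e1
            exact hy₀ e1
        have h5 : x.1 = x'.1 := by
          rw [← h3', ← hxy, hE] at h3
          exact mul_left_cancel h3
        exact Sigma.ext h5 (heq_of_eq hE)
      calc F.card = (F.image fun x : (Σ _ : G, Finset Q) => q x.1).card :=
            (Finset.card_image_of_injOn hinj).symm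
        _ ≤ ((cball_finite hc hfin v (D + r + ρ)).toFinset).card := by
            refine Finset.card_le_card ?_
            intro b hb
            obtain ⟨x, hx, rfl⟩ := Finset.mem_image.1 hb
            rw [Set.Finite.mem_toFinset, mem_cball, SimpleGraph.dist_comm]
            obtain ⟨h1, h2, _⟩ := hfacts x hx
            obtain ⟨x', hx', hd⟩ := hδy_ne _ v (hvE x hx)
            have h3 := (hregion x.1 h1 x.2 h2 x' hx').1
            have h4 := hc.dist_triangle (u := q x.1) (v := x') (w := v)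
            omega
        _ = M := by
            rw [← Set.ncard_eq_toFinset_card _ (cball_finite hc hfin v (D + r + ρ)), hNall]

end Pool.Agent.RatioGrowth
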