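import Mathlib

set_option autoImplicit false

namespace Pool.Agent.RatioGrowth

/-- If all eigenvalues have modulus at most one, matrix coefficients of powers grow
subexponentially. -/
theorem growth_of_eigen {V : Type*} [AddCommGroup V] [Module ℂ V] [FiniteDimensional ℂ V]
    (Φ : Module.End ℂ V) (h : ∀ μ, Φ.HasEigenvalue μ → ‖μ‖ ≤ 1) (L : V →ₗ[ℂ] ℂ) (ρ : ℝ)
    (hρ : 1 < ρ) (v : V) : ∃ C : ℝ, 0 ≤ C ∧ ∀ j : ℕ, ‖L ((Φ ^ j) v)‖ ≤ C * ρ ^ j := by
  have hmem : v ∈ ⨆ μ, Φ.maxGenEigenspace μ := by
    rw [Module.End.iSup_maxGenEigenspace_eq_top]; trivial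
  induction hmem using Submodule.iSup_induction' with
  | mem μ x hx =>
    rw [Module.End.mem_maxGenEigenspace] at hx
    obtain ⟨k, hk⟩ := hx
    induction k generalizing x with
    | zero =>
      have : x = 0 := by simpa using hk
      subst this
      exact ⟨0, le_rfl, fun j => by simp⟩
    | succ k ih =>
      by_cases hμ : Φ.HasEigenvalue μ
      · set x' := (Φ - μ • (1 : Module.End ℂ V)) x with hx'
        have h1 : ((Φ - μ • (1 : Module.End ℂ V)) ^ k) x' = 0 := by
          rw [hx', ← Module.End.mul_apply, ← pow_succ]; exact hk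
        obtain ⟨C', hC', hC⟩ := ih x' h1
        have h2 : Φ x = μ • x + x' := by
          rw [hx']; simp
        refine ⟨‖L x‖ + C' / (ρ - 1), by
          have : 0 < ρ - 1 := by linarith
          positivity, fun j => ?_⟩
        have hρ1 : 0 < ρ - 1 := by linarith
        have h3 : ∀ j : ℕ, ‖L ((Φ ^ j) x)‖ ≤ ‖L x‖ + C' * (ρ ^ j / (ρ - 1)) := by
          intro j
          induction j with
          | zero =>
            simp only [pow_zero, Module.End.one_apply]
            have : 0 ≤ C' * (1 / (ρ - 1)) := by positivity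
            linarith
          | succ j ihj =>
            have h4 : (Φ ^ (j + 1)) x = μ • (Φ ^ j) x + (Φ ^ j) x' := by
              rw [pow_succ, Module.End.mul_apply, h2, map_add, map_smul]
            rw [h4, map_add, map_smul]
            have h5 : ‖μ • L ((Φ ^ j) x)‖ ≤ ‖L ((Φ ^ j) x)‖ := by
              rw [norm_smul]
              exact mul_le_of_le_one_left (norm_nonneg _) (h μ hμ)
            have h6 : C' * (ρ ^ (j + 1) / (ρ - 1)) = C' * (ρ ^ j / (ρ - 1)) + C' * ρ ^ j := by
              field_simp; ring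
            calc ‖μ • L ((Φ ^ j) x) + L ((Φ ^ j) x')‖
                ≤ ‖μ • L ((Φ ^ j) x)‖ + ‖L ((Φ ^ j) x')‖ := norm_add_le _ _
              _ ≤ (‖L x‖ + C' * (ρ ^ j / (ρ - 1))) + C' * ρ ^ j :=
                add_le_add (h5.trans ihj) (hC j)
              _ = _ := by rw [h6]; ring
        refine (h3 j).trans ?_
        have h7 : (1 : ℝ) ≤ ρ ^ j := one_le_pow₀ hρ.le
        have h8 : ‖L x‖ ≤ ‖L x‖ * ρ ^ j := le_mul_of_one_le_right (norm_nonneg _) h7
        have h9 : C' * (ρ ^ j / (ρ - 1)) = C' / (ρ - 1) * ρ ^ j := by ring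
        rw [h9]
        nlinarith
      · -- not an eigenvalue: the vector is zero
        have hinj : ∀ y, (Φ - μ • (1 : Module.End ℂ V)) y = 0 → y = 0 := by
          intro y hy
          by_contra hne
          apply hμ
          rw [Module.End.hasEigenvalue_iff, ne_eq, Submodule.eq_bot_iff]
          push Not
          refine ⟨y, ?_, hne⟩
          rw [Module.End.mem_eigenspace_iff]
          have h1 : Φ y - μ • y = 0 := by simpa using hy
          exact sub_eq_zero.1 h1
        have h1 : ((Φ - μ • (1 : Module.End ℂ V)) ^ k) x = 0 := by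
          apply hinj
          rw [← Module.End.mul_apply, ← pow_succ']; exact hk
        exact ih x h1
  | zero => exact ⟨0, le_rfl, fun j => by simp⟩
  | add x y _ _ hx hy =>
    obtain ⟨C₁, h1, h2⟩ := hx
    obtain ⟨C₂, h3, h4⟩ := hy
    refine ⟨C₁ + C₂, by positivity, fun j => ?_⟩
    rw [map_add, map_add]
    calc _ ≤ ‖L ((Φ ^ j) x)‖ + ‖L ((Φ ^ j) y)‖ := norm_add_le _ _
      _ ≤ C₁ * ρ ^ j + C₂ * ρ ^ j := add_le_add (h2 j) (h4 j)
      _ = _ := by ring

end Pool.Agent.RatioGrowth
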