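import Mathlib
import Pool.Agent.RatioGrowth.Basic

set_option autoImplicit false

open Pointwise

namespace Pool.Agent.RatioGrowth

/-- A group `G` in which every element is uniquely `ι v * τ ^ j * r φ` with `v` in an abelian group
`A` normalised by `τ`, `j` an integer and `φ` in a (finite) set `F`. -/
structure LineData (G A F : Type*) [Group G] [AddCommGroup A] where
  ι : A → G
  τ : G
  r : F → G
  a : G → A
  k : G → ℤ
  f : G → F
  sh : ℤ → A →+ A
  sh_add : ∀ i j v, sh (i + j) v = sh i (sh j v)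
  ι_add : ∀ v w, ι (v + w) = ι v * ι w
  conj : ∀ (j : ℤ) v, τ ^ j * ι v * (τ ^ j)⁻¹ = ι (sh j v)
  repr : ∀ g, ι (a g) * τ ^ (k g) * r (f g) = g
  a_spec : ∀ v (j : ℤ) φ, a (ι v * τ ^ j * r φ) = v
  k_spec : ∀ v (j : ℤ) φ, k (ι v * τ ^ j * r φ) = j
  f_spec : ∀ v (j : ℤ) φ, f (ι v * τ ^ j * r φ) = φ
  a_one : a 1 = 0
  k_one : k 1 = 0

namespace LineData

variable {G A F : Type*} [Group G] [AddCommGroup A] (D : LineData G A F)

lemma ι_zero : D.ι 0 = 1 := by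
  have := D.ι_add 0 0
  simpa using this

lemma mul_eq (g x : G) : g * x = D.ι (D.a g + D.sh (D.k g) (D.a (D.r (D.f g) * x))) *
    D.τ ^ (D.k g + D.k (D.r (D.f g) * x)) * D.r (D.f (D.r (D.f g) * x)) := by
  set y := D.r (D.f g) * x with hy
  have h1 : g * x = D.ι (D.a g) * D.τ ^ (D.k g) * y := by
    rw [hy]
    conv_lhs => rw [← D.repr g]
    group
  rw [h1]
  conv_lhs => rw [← D.repr y]
  rw [D.ι_add, ← D.conj, zpow_add]
  group

lemma a_mul (g x : G) : D.a (g * x) = D.a g + D.sh (D.k g) (D.a (D.r (D.f g) * x)) := by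
  conv_lhs => rw [D.mul_eq g x]
  exact D.a_spec _ _ _

lemma k_mul (g x : G) : D.k (g * x) = D.k g + D.k (D.r (D.f g) * x) := by
  conv_lhs => rw [D.mul_eq g x]
  exact D.k_spec _ _ _

lemma f_mul (g x : G) : D.f (g * x) = D.f (D.r (D.f g) * x) := by
  conv_lhs => rw [D.mul_eq g x]
  exact D.f_spec _ _ _

lemma ext' {g h : G} (ha : D.a g = D.a h) (hk : D.k g = D.k h) (hf : D.f g = D.f h) : g = h := by
  rw [← D.repr g, ← D.repr h, ha, hk, hf]

/-- connecting element -/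
def conn (φ : F) (j : ℤ) (φ' : F) : G := (D.r φ)⁻¹ * D.τ ^ j * D.r φ'

lemma r_conn (φ : F) (j : ℤ) (φ' : F) : D.r φ * D.conn φ j φ' = D.ι 0 * D.τ ^ j * D.r φ' := by
  rw [D.ι_zero, conn]; group

lemma a_conn (g : G) (j : ℤ) (φ' : F) : D.a (g * D.conn (D.f g) j φ') = D.a g := by
  rw [D.a_mul, D.r_conn, D.a_spec, map_zero, add_zero]

lemma k_conn (g : G) (j : ℤ) (φ' : F) : D.k (g * D.conn (D.f g) j φ') = D.k g + j := by
  rw [D.k_mul, D.r_conn, D.k_spec]

lemma f_conn (g : G) (j : ℤ) (φ' : F) : D.f (g * D.conn (D.f g) j φ') = φ' := by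
  rw [D.f_mul, D.r_conn, D.f_spec]

/-- insertion element -/
def ins (φ : F) (i : ℤ) (v : A) : G := (D.r φ)⁻¹ * (D.τ ^ i * D.ι v * (D.τ ^ i)⁻¹) * D.r φ

lemma r_ins (φ : F) (i : ℤ) (v : A) :
    D.r φ * D.ins φ i v = D.ι (D.sh i v) * D.τ ^ (0 : ℤ) * D.r φ := by
  rw [ins, D.conj]; group

lemma a_ins (g : G) (i : ℤ) (v : A) :
    D.a (g * D.ins (D.f g) i v) = D.a g + D.sh (D.k g + i) v := by
  rw [D.a_mul, D.r_ins, D.a_spec, D.sh_add]

lemma k_ins (g : G) (i : ℤ) (v : A) : D.k (g * D.ins (D.f g) i v) = D.k g := by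
  rw [D.k_mul, D.r_ins, D.k_spec, add_zero]

lemma f_ins (g : G) (i : ℤ) (v : A) : D.f (g * D.ins (D.f g) i v) = D.f g := by
  rw [D.f_mul, D.r_ins, D.f_spec]

lemma shadow_k {g g' : G} (hk : D.k g = D.k g') (hf : D.f g = D.f g') (x : G) :
    D.k (g * x) = D.k (g' * x) := by rw [D.k_mul g x, D.k_mul g' x, hk, hf]

lemma shadow_f {g g' : G} (hf : D.f g = D.f g') (x : G) :
    D.f (g * x) = D.f (g' * x) := by rw [D.f_mul g x, D.f_mul g' x, hf]

lemma shadow_a {g g' : G} (hk : D.k g = D.k g') (hf : D.f g = D.f g') (x : G) :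
    D.a (g * x) = D.a g + (D.a (g' * x) - D.a g') := by
  rw [D.a_mul, D.a_mul g', hk, hf]; abel

end LineData

end Pool.Agent.RatioGrowth
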