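import Mathlib
import Pool.Agent.RatioGrowth.Line

set_option autoImplicit false

open Pointwise

namespace Pool.Agent.RatioGrowth

namespace LineData

variable {G A F : Type*} [Group G] [AddCommGroup A] (D : LineData G A F)

/-- number of letters with starting height at most `L` -/
def kept (h : ℕ → ℤ) (L : ℤ) (i j : ℕ) : ℕ := ((Finset.Ico i j).filter fun l => h l ≤ L).card

/-- number of letters with starting height in `(L - H, L]` -/
def cross (h : ℕ → ℤ) (L : ℤ) (H : ℕ) (i j : ℕ) : ℕ :=
  ((Finset.Ico i j).filter fun l => h l ≤ L ∧ L - H < h l).card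

lemma Ico_succ_eq {i j : ℕ} (hij : i ≤ j) : Finset.Ico i (j + 1) = insert j (Finset.Ico i j) := by
  ext x
  simp only [Finset.mem_Ico, Finset.mem_insert]
  omega

lemma kept_succ (h : ℕ → ℤ) (L : ℤ) {i j : ℕ} (hij : i ≤ j) :
    kept h L i (j + 1) = kept h L i j + if h j ≤ L then 1 else 0 := by
  unfold kept
  rw [Ico_succ_eq hij, Finset.filter_insert]
  split_ifs with hc
  · rw [Finset.card_insert_of_notMem (by simp)]
  · rfl

lemma cross_succ (h : ℕ → ℤ) (L : ℤ) (H : ℕ) {i j : ℕ} (hij : i ≤ j) :
    cross h L H i (j + 1) = cross h L H i j + if h j ≤ L ∧ L - H < h j then 1 else 0 := by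
  unfold cross
  rw [Ico_succ_eq hij, Finset.filter_insert]
  split_ifs with hc
  · rw [Finset.card_insert_of_notMem (by simp)]
  · rfl

variable [DecidableEq G]

/-- Path surgery: remove all letters whose starting height exceeds `L`. -/
theorem surgery_aux (T : Finset G) (H R : ℕ)
    (hH : ∀ φ, ∀ s ∈ T, |D.k (D.r φ * s)| ≤ H)
    (hR : ∀ φ φ' (j : ℤ), D.conn φ j φ' ∈ T ^ (R * (j.natAbs + 1)))
    (w : ℕ → G) (i : ℕ) (L : ℤ) (B : ℕ) (u' : G)
    (hk : D.k u' = D.k (w i)) (hf : D.f u' = D.f (w i)) (hB : D.k (w i) ≤ L + B) (j : ℕ)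
    (hij : i ≤ j) (hT : ∀ l, i ≤ l → l < j → (w l)⁻¹ * w (l + 1) ∈ T) :
    ∃ z c, z ∈ T ^ c ∧
      D.a (u' * z) = D.a u' +
        ∑ l ∈ (Finset.Ico i j).filter (fun l => D.k (w l) ≤ L), (D.a (w (l + 1)) - D.a (w l)) ∧
      ((D.k (w j) ≤ L ∧ D.k (u' * z) = D.k (w j) ∧ D.f (u' * z) = D.f (w j) ∧
          c ≤ kept (fun l => D.k (w l)) L i j + R * (2 * H + 1) * cross (fun l => D.k (w l)) L H i j
            + R * (B + H + 1)) ∨
        (L < D.k (w j) ∧ |D.k (u' * z) - L| ≤ H ∧
          c + R * (2 * H + 1) ≤ kept (fun l => D.k (w l)) L i j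
            + R * (2 * H + 1) * cross (fun l => D.k (w l)) L H i j + R * (B + H + 1)) ∨
        (L < D.k (w j) ∧ L < D.k (w i) ∧ z = 1 ∧ c = 0)) := by
  induction j, hij using Nat.le_induction with
  | base =>
    refine ⟨1, 0, by simp, by simp, ?_⟩
    rcases le_or_gt (D.k (w i)) L with h | h
    · left
      exact ⟨h, by simpa using hk, by simpa using hf, Nat.zero_le _⟩
    · right; right
      exact ⟨h, h, rfl, rfl⟩
  | succ j hij ih =>
    obtain ⟨z, c, hz, hza, hcase⟩ := ih (fun l h1 h2 => hT l h1 (by omega))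
    have hs := hT j hij (by omega)
    set s := (w j)⁻¹ * w (j + 1) with hsdef
    have hws : w (j + 1) = w j * s := by simp [hsdef]
    have hstep : |D.k (w (j + 1)) - D.k (w j)| ≤ H := by
      rw [hws, D.k_mul]
      have := hH (D.f (w j)) s hs
      simpa using this
    have hkept := kept_succ (fun l => D.k (w l)) L hij
    have hcross := cross_succ (fun l => D.k (w l)) L H hij
    have hsum : (Finset.Ico i (j + 1)).filter (fun l => D.k (w l) ≤ L) =
        if D.k (w j) ≤ L then insert j ((Finset.Ico i j).filter (fun l => D.k (w l) ≤ L))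
        else (Finset.Ico i j).filter (fun l => D.k (w l) ≤ L) := by
      rw [Ico_succ_eq hij, Finset.filter_insert]
    rcases hcase with ⟨hLj, hzk, hzf, hc⟩ | hab
    · -- below at `j`
      have hza' : D.a (u' * (z * s)) = D.a u' +
          ∑ l ∈ (Finset.Ico i (j + 1)).filter (fun l => D.k (w l) ≤ L),
            (D.a (w (l + 1)) - D.a (w l)) := by
        rw [hsum, if_pos hLj, Finset.sum_insert (by simp), ← mul_assoc,
          D.shadow_a hzk hzf, ← hws, hza]
        abel
      rcases le_or_gt (D.k (w (j + 1))) L with h | h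
      · refine ⟨z * s, c + 1, ?_, hza', Or.inl ⟨h, ?_, ?_, ?_⟩⟩
        · rw [pow_succ]; exact Finset.mul_mem_mul hz hs
        · rw [← mul_assoc, D.shadow_k hzk hzf, ← hws]
        · rw [← mul_assoc, D.shadow_f hzf, ← hws]
        · rw [hkept, hcross, if_pos hLj]
          have : R * (2 * H + 1) * cross (fun l => D.k (w l)) L H i j ≤
            R * (2 * H + 1) * (cross (fun l => D.k (w l)) L H i j +
              if D.k (w j) ≤ L ∧ L - H < D.k (w j) then 1 else 0) :=
            Nat.mul_le_mul_left _ (Nat.le_add_right _ _)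
          omega
      · refine ⟨z * s, c + 1, ?_, hza', Or.inr (Or.inl ⟨h, ?_, ?_⟩)⟩
        · rw [pow_succ]; exact Finset.mul_mem_mul hz hs
        · rw [← mul_assoc, D.shadow_k hzk hzf, ← hws]
          rw [abs_le] at hstep ⊢
          constructor
          · linarith [hstep.1]
          · linarith [hstep.2]
        · rw [hkept, hcross, if_pos hLj, if_pos ⟨hLj, by
            rw [abs_le] at hstep; linarith [hstep.2]⟩]
          have hma := Nat.mul_add (R * (2 * H + 1)) (cross (fun l => D.k (w l)) L H i j) 1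
          omega
    · -- above at `j`
      have hLj : L < D.k (w j) := by
        rcases hab with h | h
        · exact h.1
        · exact h.1
      have hza' : D.a (u' * z) = D.a u' +
          ∑ l ∈ (Finset.Ico i (j + 1)).filter (fun l => D.k (w l) ≤ L),
            (D.a (w (l + 1)) - D.a (w l)) := by
        rw [hsum, if_neg (not_le.2 hLj), hza]
      have hkept' : kept (fun l => D.k (w l)) L i (j + 1) = kept (fun l => D.k (w l)) L i j := by
        rw [hkept, if_neg (not_le.2 hLj), add_zero]
      have hcross' : cross (fun l => D.k (w l)) L H i (j + 1)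
          = cross (fun l => D.k (w l)) L H i j := by
        rw [hcross, if_neg (fun h => not_le.2 hLj h.1), add_zero]
      rcases le_or_gt (D.k (w (j + 1))) L with h | h
      · -- return
        set y := D.conn (D.f (u' * z)) (D.k (w (j + 1)) - D.k (u' * z)) (D.f (w (j + 1))) with hy
        have hya : D.a (u' * (z * y)) = D.a u' +
            ∑ l ∈ (Finset.Ico i (j + 1)).filter (fun l => D.k (w l) ≤ L),
              (D.a (w (l + 1)) - D.a (w l)) := by
          rw [← mul_assoc, hy, D.a_conn, hza']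
        have hyk : D.k (u' * (z * y)) = D.k (w (j + 1)) := by
          rw [← mul_assoc, hy, D.k_conn]; ring
        have hyf : D.f (u' * (z * y)) = D.f (w (j + 1)) := by
          rw [← mul_assoc, hy, D.f_conn]
        have hyT := hR (D.f (u' * z)) (D.f (w (j + 1))) (D.k (w (j + 1)) - D.k (u' * z))
        rw [← hy] at hyT
        refine ⟨z * y, c + R * ((D.k (w (j + 1)) - D.k (u' * z)).natAbs + 1), ?_, hya,
          Or.inl ⟨h, hyk, hyf, ?_⟩⟩
        · rw [pow_add]; exact Finset.mul_mem_mul hz hyT
        · rw [hkept', hcross']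
          rcases hab with ⟨_, hz2, hc⟩ | ⟨_, hi, hz1, hc0⟩
          · have h3 : (D.k (w (j + 1)) - D.k (u' * z)).natAbs ≤ 2 * H := by
              rw [abs_le] at hz2 hstep
              zify
              rw [abs_le]
              constructor
              · linarith [hz2.1, hz2.2, hstep.1, hstep.2]
              · linarith [hz2.1, hz2.2, hstep.1, hstep.2]
            have h4 : R * ((D.k (w (j + 1)) - D.k (u' * z)).natAbs + 1) ≤ R * (2 * H + 1) :=
              Nat.mul_le_mul_left _ (by omega)
            omega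
          · have h3 : (D.k (w (j + 1)) - D.k (u' * z)).natAbs ≤ B + H := by
              rw [hz1, mul_one, hk]
              rw [abs_le] at hstep
              zify
              rw [abs_le]
              constructor
              · linarith [hstep.1, hstep.2]
              · linarith [hstep.1, hstep.2]
            have h4 : R * ((D.k (w (j + 1)) - D.k (u' * z)).natAbs + 1) ≤ R * (B + H + 1) :=
              Nat.mul_le_mul_left _ (by omega)
            omega
      · refine ⟨z, c, hz, hza', Or.inr ?_⟩
        rcases hab with ⟨_, hz2, hc⟩ | ⟨_, hi, hz1, hc0⟩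
        · left
          exact ⟨h, hz2, by rw [hkept', hcross']; exact hc⟩
        · right
          exact ⟨h, hi, hz1, hc0⟩

/-- Path surgery, final form. -/
theorem surgery (T : Finset G) (h1 : (1 : G) ∈ T) (H R : ℕ)
    (hH : ∀ φ, ∀ s ∈ T, |D.k (D.r φ * s)| ≤ H)
    (hR : ∀ φ φ' (j : ℤ), D.conn φ j φ' ∈ T ^ (R * (j.natAbs + 1)))
    (w : ℕ → G) (i : ℕ) (L : ℤ) (B : ℕ) (u' : G)
    (hk : D.k u' = D.k (w i)) (hf : D.f u' = D.f (w i)) (j : ℕ)
    (hij : i ≤ j) (hT : ∀ l, i ≤ l → l < j → (w l)⁻¹ * w (l + 1) ∈ T)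
    (hBi : D.k (w i) ≤ L + B) (hBj : D.k (w j) ≤ L + B) :
    ∃ z, z ∈ T ^ (kept (fun l => D.k (w l)) L i j
        + R * (2 * H + 1) * cross (fun l => D.k (w l)) L H i j + 2 * (R * (B + H + 1))) ∧
      D.a (u' * z) = D.a u' +
        ∑ l ∈ (Finset.Ico i j).filter (fun l => D.k (w l) ≤ L), (D.a (w (l + 1)) - D.a (w l)) ∧
      D.k (u' * z) = D.k (w j) ∧ D.f (u' * z) = D.f (w j) := by
  obtain ⟨z, c, hz, hza, hcase⟩ := D.surgery_aux T H R hH hR w i L B u' hk hf hBi j hij hT
  rcases hcase with ⟨hLj, hzk, hzf, hc⟩ | hab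
  · refine ⟨z, Finset.pow_subset_pow_right h1 ?_ hz, hza, hzk, hzf⟩
    omega
  · set y := D.conn (D.f (u' * z)) (D.k (w j) - D.k (u' * z)) (D.f (w j)) with hy
    have hyT := hR (D.f (u' * z)) (D.f (w j)) (D.k (w j) - D.k (u' * z))
    rw [← hy] at hyT
    refine ⟨z * y, ?_, by rw [← mul_assoc, hy, D.a_conn, hza], by
      rw [← mul_assoc, hy, D.k_conn]; ring, by rw [← mul_assoc, hy, D.f_conn]⟩
    have hmem : z * y ∈ T ^ (c + R * ((D.k (w j) - D.k (u' * z)).natAbs + 1)) := by
      rw [pow_add]; exact Finset.mul_mem_mul hz hyT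
    refine Finset.pow_subset_pow_right h1 ?_ hmem
    rcases hab with ⟨hLj, hz2, hc⟩ | ⟨hLj, hi, hz1, hc0⟩
    · have h3 : (D.k (w j) - D.k (u' * z)).natAbs ≤ B + H := by
        rw [abs_le] at hz2
        zify
        rw [abs_le]
        constructor
        · linarith [hz2.1, hz2.2]
        · linarith [hz2.1, hz2.2]
      have h4 : R * ((D.k (w j) - D.k (u' * z)).natAbs + 1) ≤ R * (B + H + 1) :=
        Nat.mul_le_mul_left _ (by omega)
      omega
    · have h3 : (D.k (w j) - D.k (u' * z)).natAbs ≤ B + H := by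
        rw [hz1, mul_one, hk]
        zify
        rw [abs_le]
        constructor
        · linarith
        · linarith
      have h4 : R * ((D.k (w j) - D.k (u' * z)).natAbs + 1) ≤ R * (B + H + 1) :=
        Nat.mul_le_mul_left _ (by omega)
      omega

end LineData

end Pool.Agent.RatioGrowth
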