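import Mathlib
import Pool.Agent.RatioGrowth.LineSurgery

set_option autoImplicit false

open Pointwise

namespace Pool.Agent.RatioGrowth

namespace LineData

variable {G A F : Type*} [Group G] [AddCommGroup A] (D : LineData G A F)

lemma seminorm_sum_le (ν : AddGroupSeminorm A) {ι : Type*} (s : Finset ι) (x : ι → A) :
    ν (∑ i ∈ s, x i) ≤ ∑ i ∈ s, ν (x i) := by
  classical
  induction s using Finset.induction_on with
  | empty => simp
  | insert a s ha ih =>
    rw [Finset.sum_insert ha, Finset.sum_insert ha]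
    exact (map_add_le_add ν _ _).trans (by linarith)

/-- digit sums -/
def dsum (p : ℕ) (v : A) (s : Finset ℕ) : A := ∑ l ∈ s, D.sh ((p * l : ℕ) : ℤ) v

/-- digit patterns with top digit one -/
def pat (p m : ℕ) (v : A) (s : Finset ℕ) : A := D.sh ((p * m : ℕ) : ℤ) v + D.dsum p v s

variable (ν : AddGroupSeminorm A) (lam : ℝ) (hlam : 1 < lam)
  (hν : ∀ (j : ℤ) v, ν (D.sh j v) = lam ^ j * ν v)

include hν in
lemma ν_sh_nat (p l : ℕ) (v : A) : ν (D.sh ((p * l : ℕ) : ℤ) v) = (lam ^ p) ^ l * ν v := by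
  rw [hν, zpow_natCast, pow_mul]

lemma geom_le (X : ℝ) (hX : 9 ≤ X) (m : ℕ) : ∑ l ∈ Finset.range m, X ^ l ≤ X ^ m / 8 := by
  induction m with
  | zero => norm_num
  | succ m ih =>
    rw [Finset.sum_range_succ, pow_succ]
    have : 0 < X ^ m := by positivity
    nlinarith

include hν in
lemma ν_dsum_le (p : ℕ) (hp : 9 ≤ lam ^ p) (v : A) (m : ℕ) (s : Finset ℕ)
    (hs : s ⊆ Finset.range m) : ν (D.dsum p v s) ≤ (lam ^ p) ^ m / 8 * ν v := by
  calc ν (D.dsum p v s) ≤ ∑ l ∈ s, ν (D.sh ((p * l : ℕ) : ℤ) v) := seminorm_sum_le ν _ _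
    _ = ∑ l ∈ s, (lam ^ p) ^ l * ν v := by
        refine Finset.sum_congr rfl fun l _ => D.ν_sh_nat ν lam hν p l v
    _ ≤ ∑ l ∈ Finset.range m, (lam ^ p) ^ l * ν v := by
        refine Finset.sum_le_sum_of_subset_of_nonneg hs fun l _ _ => ?_
        have : 0 ≤ lam ^ p := by linarith
        have := apply_nonneg ν v
        positivity
    _ = (∑ l ∈ Finset.range m, (lam ^ p) ^ l) * ν v := by rw [Finset.sum_mul]
    _ ≤ _ := mul_le_mul_of_nonneg_right (geom_le _ hp m) (apply_nonneg ν v)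

include hν in
lemma dsum_sep (p : ℕ) (hp : 9 ≤ lam ^ p) (v : A) (m : ℕ) :
    ∀ s s' : Finset ℕ, s ⊆ Finset.range m → s' ⊆ Finset.range m → s ≠ s' →
      3 / 4 * ν v ≤ ν (D.dsum p v s - D.dsum p v s') := by
  have hv := apply_nonneg ν v
  induction m with
  | zero =>
    intro s s' hs hs' hne
    exact absurd ((Finset.subset_empty.1 hs).trans (Finset.subset_empty.1 hs').symm) hne
  | succ m ih =>
    intro s s' hs hs' hne
    have herase : ∀ u : Finset ℕ, u ⊆ Finset.range (m + 1) → u.erase m ⊆ Finset.range m := by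
      intro u hu x hx
      rw [Finset.mem_erase] at hx
      have := hu hx.2
      rw [Finset.mem_range] at this ⊢
      omega
    have hsplit : ∀ u : Finset ℕ, m ∈ u →
        D.dsum p v u = D.sh ((p * m : ℕ) : ℤ) v + D.dsum p v (u.erase m) := by
      intro u hu
      unfold dsum
      rw [← Finset.add_sum_erase u _ hu]
    have hnot : ∀ u : Finset ℕ, u ⊆ Finset.range (m + 1) → m ∉ u → u ⊆ Finset.range m := by
      intro u hu hm x hx
      have := hu hx
      rw [Finset.mem_range] at this ⊢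
      rcases Nat.lt_or_ge x m with h | h
      · exact h
      · have : x = m := by omega
        subst this; exact absurd hx hm
    have hbig : ∀ u u' : Finset ℕ, u ⊆ Finset.range (m + 1) → u' ⊆ Finset.range (m + 1) →
        m ∈ u → m ∉ u' → 3 / 4 * ν v ≤ ν (D.dsum p v u - D.dsum p v u') := by
      intro u u' hu hu' hmu hmu'
      have h1 := D.ν_dsum_le ν lam hν p hp v m (u.erase m) (herase u hu)
      have h2 := D.ν_dsum_le ν lam hν p hp v m u' (hnot u' hu' hmu')
      have h3 := D.ν_sh_nat ν lam hν p m v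
      have h4 : D.sh ((p * m : ℕ) : ℤ) v =
          (D.dsum p v u - D.dsum p v u') + (D.dsum p v u' - D.dsum p v (u.erase m)) := by
        rw [hsplit u hmu]; abel
      have h5 : ν (D.sh ((p * m : ℕ) : ℤ) v) ≤ ν (D.dsum p v u - D.dsum p v u') +
          (ν (D.dsum p v u') + ν (D.dsum p v (u.erase m))) := by
        rw [h4]
        refine (map_add_le_add ν _ _).trans ?_
        have := map_sub_le_add ν (D.dsum p v u') (D.dsum p v (u.erase m))
        linarith
      rw [h3] at h5
      have h6 : (1 : ℝ) ≤ (lam ^ p) ^ m := one_le_pow₀ (by linarith)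
      nlinarith
    by_cases hm : m ∈ s <;> by_cases hm' : m ∈ s'
    · have h1 : s.erase m ≠ s'.erase m := by
        intro h
        apply hne
        rw [← Finset.insert_erase hm, ← Finset.insert_erase hm', h]
      have := ih _ _ (herase s hs) (herase s' hs') h1
      rw [hsplit s hm, hsplit s' hm']
      simpa using this
    · exact hbig s s' hs hs' hm hm'
    · have := hbig s' s hs' hs hm' hm
      rwa [map_sub_rev] at this
    · exact ih _ _ (hnot s hs hm) (hnot s' hs' hm') hne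

include hν in
lemma ν_pat_le (p : ℕ) (hp : 9 ≤ lam ^ p) (v : A) (m : ℕ) (s : Finset ℕ)
    (hs : s ⊆ Finset.range m) : ν (D.pat p m v s) ≤ 9 / 8 * ((lam ^ p) ^ m * ν v) := by
  have h1 := D.ν_dsum_le ν lam hν p hp v m s hs
  have h2 := D.ν_sh_nat ν lam hν p m v
  have h3 := map_add_le_add ν (D.sh ((p * m : ℕ) : ℤ) v) (D.dsum p v s)
  unfold pat
  linarith

include hν in
lemma le_ν_pat (p : ℕ) (hp : 9 ≤ lam ^ p) (v : A) (m : ℕ) (s : Finset ℕ)
    (hs : s ⊆ Finset.range m) : 7 / 8 * ((lam ^ p) ^ m * ν v) ≤ ν (D.pat p m v s) := by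
  have h1 := D.ν_dsum_le ν lam hν p hp v m s hs
  have h2 := D.ν_sh_nat ν lam hν p m v
  have h3 := map_sub_le_add ν (D.pat p m v s) (D.dsum p v s)
  have h4 : D.pat p m v s - D.dsum p v s = D.sh ((p * m : ℕ) : ℤ) v := by unfold pat; abel
  rw [h4, h2] at h3
  linarith

variable [DecidableEq G]

include hlam hν in
/-- decoding: pairs `(g, L)` with `ν (a g)` small compared with `lam ^ (L + j₀)` can be recovered
after adding a pattern, up to boundedly many choices. -/
theorem decode (T : Finset G) (p m j₀ w N : ℕ) (hp : 9 ≤ lam ^ p) (v₀ : A) (hv₀ : 0 < ν v₀)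
    (hw : 2 ≤ lam ^ w) (X : Finset (G × ℤ))
    (hX : ∀ x ∈ X, ν (D.a x.1) ≤ lam ^ (x.2 + j₀) * ν v₀ / 8)
    (Φ : G × ℤ → Finset ℕ → G)
    (hΦ : ∀ x ∈ X, ∀ s ⊆ Finset.range m, Φ x s ∈ T ^ N ∧ D.k (Φ x s) = D.k x.1 ∧
      D.f (Φ x s) = D.f x.1 ∧ D.a (Φ x s) = D.a x.1 + D.sh (x.2 + j₀) (D.pat p m v₀ s)) :
    X.card * 2 ^ m ≤ (2 * w + 1) * (T ^ N).card := by
  classical
  have hlam0 : 0 < lam := by linarith
  set Y : Finset ((G × ℤ) × Finset ℕ) := X ×ˢ (Finset.range m).powerset with hY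
  have hYcard : Y.card = X.card * 2 ^ m := by
    rw [hY, Finset.card_product, Finset.card_powerset, Finset.card_range]
  rw [← hYcard]
  refine Finset.card_le_mul_card_image_of_maps_to (f := fun y : (G × ℤ) × Finset ℕ => Φ y.1 y.2) ?_
    _ ?_
  · rintro ⟨x, s⟩ h
    rw [hY, Finset.mem_product, Finset.mem_powerset] at h
    exact (hΦ x h.1 s h.2).1
  · intro g' _
    -- size estimate
    have hsize : ∀ y ∈ Y.filter (fun y => Φ y.1 y.2 = g'),
        3 / 4 * (lam ^ (y.1.2 + j₀) * ((lam ^ p) ^ m * ν v₀)) ≤ ν (D.a g') ∧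
        ν (D.a g') ≤ 5 / 4 * (lam ^ (y.1.2 + j₀) * ((lam ^ p) ^ m * ν v₀)) := by
      rintro ⟨x, s⟩ h
      rw [Finset.mem_filter, hY, Finset.mem_product, Finset.mem_powerset] at h
      obtain ⟨⟨hx, hs⟩, hg⟩ := h
      obtain ⟨_, _, _, ha⟩ := hΦ x hx s hs
      simp only at hg ha ⊢
      rw [hg] at ha
      have h1 := hX x hx
      have h2 := D.ν_pat_le ν lam hν p hp v₀ m s hs
      have h3 := D.le_ν_pat ν lam hν p hp v₀ m s hs
      have h4 := hν (x.2 + j₀) (D.pat p m v₀ s)
      have h5 : 0 < lam ^ (x.2 + (j₀ : ℤ)) := by positivity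
      have h6 : (1 : ℝ) ≤ (lam ^ p) ^ m := one_le_pow₀ (by linarith)
      have h7 : ν (D.a x.1) ≤ 1 / 8 * (lam ^ (x.2 + (j₀ : ℤ)) * ((lam ^ p) ^ m * ν v₀)) := by
        refine h1.trans ?_
        have : lam ^ (x.2 + (j₀ : ℤ)) * ν v₀ ≤ lam ^ (x.2 + (j₀ : ℤ)) * ((lam ^ p) ^ m * ν v₀) := by
          refine mul_le_mul_of_nonneg_left ?_ h5.le
          nlinarith
        linarith
      constructor
      · have h8 := map_sub_le_add ν (D.a g') (D.a x.1)
        have h9 : D.a g' - D.a x.1 = D.sh (x.2 + j₀) (D.pat p m v₀ s) := by rw [ha]; abel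
        rw [h9, h4] at h8
        have := mul_le_mul_of_nonneg_left h3 h5.le
        linarith
      · rw [ha]
        refine (map_add_le_add ν _ _).trans ?_
        rw [h4]
        have := mul_le_mul_of_nonneg_left h2 h5.le
        linarith
    rcases (Y.filter (fun y => Φ y.1 y.2 = g')).eq_empty_or_nonempty with he | ⟨y₁, hy₁⟩
    · rw [he]; simp
    · have hwin : ∀ y ∈ Y.filter (fun y => Φ y.1 y.2 = g'), ∀ y' ∈ Y.filter (fun y => Φ y.1 y.2 = g'),
          y.1.2 < y'.1.2 + w := by
        intro y hy y' hy'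
        have h1 := (hsize y hy).1
        have h2 := (hsize y' hy').2
        by_contra hcon
        push Not at hcon
        have h3 : lam ^ (y'.1.2 + j₀ + (w : ℤ)) ≤ lam ^ (y.1.2 + (j₀ : ℤ)) :=
          zpow_le_zpow_right₀ hlam.le (by linarith)
        rw [zpow_add₀ hlam0.ne', zpow_natCast] at h3
        have h5 : 0 < lam ^ (y'.1.2 + (j₀ : ℤ)) := by positivity
        have h6 : (1 : ℝ) ≤ (lam ^ p) ^ m := one_le_pow₀ (by linarith)
        have h7 : 0 < (lam ^ p) ^ m * ν v₀ := by positivity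
        have h8 : 2 * lam ^ (y'.1.2 + (j₀ : ℤ)) ≤ lam ^ (y.1.2 + (j₀ : ℤ)) := by nlinarith
        have h9 : 2 * (lam ^ (y'.1.2 + (j₀ : ℤ)) * ((lam ^ p) ^ m * ν v₀)) ≤
            lam ^ (y.1.2 + (j₀ : ℤ)) * ((lam ^ p) ^ m * ν v₀) := by
          have := mul_le_mul_of_nonneg_right h8 h7.le
          linarith
        have h10 : 0 < lam ^ (y'.1.2 + (j₀ : ℤ)) * ((lam ^ p) ^ m * ν v₀) := by positivity
        linarith
      have hcard : (Finset.Icc (y₁.1.2 - w) (y₁.1.2 + w)).card = 2 * w + 1 := by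
        rw [Int.card_Icc]; omega
      rw [← hcard]
      refine Finset.card_le_card_of_injOn (fun y => y.1.2) ?_ ?_
      · intro y hy
        have h1 := hwin y hy y₁ hy₁
        have h2 := hwin y₁ hy₁ y hy
        simp only [Finset.coe_Icc, Set.mem_Icc]
        constructor <;> linarith
      · rintro ⟨x, s⟩ hy ⟨x', s'⟩ hy' hL
        simp only [Finset.mem_coe, Finset.mem_filter, hY, Finset.mem_product,
          Finset.mem_powerset] at hy hy' hL
        obtain ⟨⟨hx, hs⟩, hg⟩ := hy
        obtain ⟨⟨hx', hs'⟩, hg'⟩ := hy'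
        obtain ⟨_, hk1, hf1, ha1⟩ := hΦ x hx s hs
        obtain ⟨_, hk2, hf2, ha2⟩ := hΦ x' hx' s' hs'
        rw [hg] at hk1 hf1 ha1
        rw [hg'] at hk2 hf2 ha2
        have hss : s = s' := by
          by_contra hne
          have h1 := D.dsum_sep ν lam hν p hp v₀ m s s' hs hs' hne
          have h2 : D.sh (x.2 + j₀) (D.dsum p v₀ s - D.dsum p v₀ s') = D.a x'.1 - D.a x.1 := by
            have h3 : D.dsum p v₀ s - D.dsum p v₀ s' = D.pat p m v₀ s - D.pat p m v₀ s' := by
              unfold pat; abel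
            rw [h3, map_sub]
            rw [← hL] at ha2
            have : D.a x.1 + D.sh (x.2 + j₀) (D.pat p m v₀ s) =
              D.a x'.1 + D.sh (x.2 + j₀) (D.pat p m v₀ s') := ha1.symm.trans ha2
            have h4 : D.sh (x.2 + j₀) (D.pat p m v₀ s) =
              D.a x'.1 + D.sh (x.2 + j₀) (D.pat p m v₀ s') - D.a x.1 := by
              rw [← this]; abel
            rw [h4]; abel
          have h3 := hν (x.2 + j₀) (D.dsum p v₀ s - D.dsum p v₀ s')
          rw [h2] at h3
          have h4 := map_sub_le_add ν (D.a x'.1) (D.a x.1)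
          have h5 := hX x hx
          have h6 := hX x' hx'
          rw [← hL] at h6
          have h7 : 0 < lam ^ (x.2 + (j₀ : ℤ)) := by positivity
          have h8 := mul_le_mul_of_nonneg_left h1 h7.le
          have h9 : 0 < lam ^ (x.2 + (j₀ : ℤ)) * ν v₀ := by positivity
          linarith
        subst hss
        have hx1 : x.1 = x'.1 := by
          refine D.ext' ?_ (hk1.symm.trans hk2) (hf1.symm.trans hf2)
          rw [← hL] at ha2
          have : D.a x.1 + D.sh (x.2 + j₀) (D.pat p m v₀ s) =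
              D.a x'.1 + D.sh (x.2 + j₀) (D.pat p m v₀ s) := ha1.symm.trans ha2
          exact add_right_cancel this
        have : x = x' := Prod.ext hx1 hL
        rw [this]

end LineData

end Pool.Agent.RatioGrowth
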