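import Mathlib
import Pool.Agent.RatioGrowth.LinePattern

set_option autoImplicit false

open Pointwise

namespace Pool.Agent.RatioGrowth

/-- Weighted count of heights under exponential occupation bounds. -/
theorem height_sum_bound (n : ℕ) (h : ℕ → ℤ) (K : ℤ) (hK : ∀ i < n, h i ≤ K) (x : ℕ)
    (C θ lam : ℝ) (hC : 0 ≤ C) (hθ : 0 < θ) (hθl : θ < lam)
    (hN : ∀ y : ℕ, x < y → (((Finset.range n).filter fun i => K - y < h i).card : ℝ) ≤ C * θ ^ y) :
    ∑ i ∈ (Finset.range n).filter (fun i => h i ≤ K - x), lam ^ (h i) ≤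
      C * θ ^ x * lam ^ (K - x) * (θ / (1 - θ / lam)) := by
  have hlam : 0 < lam := hθ.trans hθl
  set I := (Finset.range n).filter (fun i => h i ≤ K - x) with hI
  set y : ℕ → ℕ := fun i => (K - h i).toNat with hy
  have hyI : ∀ i ∈ I, (y i : ℤ) = K - h i := by
    intro i hi
    rw [hI, Finset.mem_filter, Finset.mem_range] at hi
    rw [hy]
    exact Int.toNat_of_nonneg (by have := hK i hi.1; linarith)
  obtain ⟨Y, hY⟩ : ∃ Y : ℕ, ∀ i ∈ I, y i < x + Y := by
    refine ⟨I.sup y + 1, fun i hi => ?_⟩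
    have := Finset.le_sup (f := y) hi
    omega
  have hxI : ∀ i ∈ I, x ≤ y i := by
    intro i hi
    have h1 := hyI i hi
    rw [hI, Finset.mem_filter, Finset.mem_range] at hi
    omega
  have hmaps : ∀ i ∈ I, y i ∈ Finset.Ico x (x + Y) := fun i hi =>
    Finset.mem_Ico.2 ⟨hxI i hi, hY i hi⟩
  have hq : θ / lam < 1 := (div_lt_one hlam).2 hθl
  have hq0 : 0 < θ / lam := div_pos hθ hlam
  calc ∑ i ∈ I, lam ^ (h i)
      = ∑ z ∈ Finset.Ico x (x + Y), ∑ i ∈ I.filter (fun i => y i = z), lam ^ (h i) :=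
        (Finset.sum_fiberwise_of_maps_to hmaps _).symm
    _ ≤ ∑ z ∈ Finset.Ico x (x + Y), C * θ ^ (z + 1) * lam ^ (K - z) := by
        refine Finset.sum_le_sum fun z hz => ?_
        rw [Finset.mem_Ico] at hz
        have h1 : ∑ i ∈ I.filter (fun i => y i = z), lam ^ (h i) =
            ∑ i ∈ I.filter (fun i => y i = z), lam ^ (K - z) := by
          refine Finset.sum_congr rfl fun i hi => ?_
          rw [Finset.mem_filter] at hi
          have := hyI i hi.1
          rw [hi.2] at this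
          congr 1
          linarith
        rw [h1, Finset.sum_const, nsmul_eq_mul]
        refine mul_le_mul_of_nonneg_right ?_ (by positivity)
        refine le_trans ?_ (hN (z + 1) (by omega))
        norm_cast
        refine Finset.card_le_card fun i hi => ?_
        rw [Finset.mem_filter] at hi
        have h2 := hyI i hi.1
        rw [hi.2] at h2
        have h3 := hi.1
        rw [hI, Finset.mem_filter] at h3
        rw [Finset.mem_filter]
        refine ⟨h3.1, ?_⟩
        push_cast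
        linarith
    _ = C * θ ^ x * lam ^ (K - x) * θ * ∑ z ∈ Finset.range Y, (θ / lam) ^ z := by
        rw [Finset.mul_sum, Finset.sum_Ico_eq_sum_range, Nat.add_sub_cancel_left]
        refine Finset.sum_congr rfl fun z _ => ?_
        have h2 : lam ^ (K - ((x + z : ℕ) : ℤ)) = lam ^ (K - x) / lam ^ z := by
          rw [← zpow_natCast lam z, ← zpow_sub₀ hlam.ne']
          congr 1; push_cast; ring
        rw [h2, div_pow, pow_add, pow_add, pow_one]
        ring
    _ ≤ C * θ ^ x * lam ^ (K - x) * θ * (1 / (1 - θ / lam)) := by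
        refine mul_le_mul_of_nonneg_left ?_ (by positivity)
        have h3 := Summable.sum_le_tsum (Finset.range Y) (fun z _ => pow_nonneg hq0.le z)
          (summable_geometric_of_lt_one hq0.le hq)
        rw [tsum_geometric_of_lt_one hq0.le hq] at h3
        simpa [one_div] using h3
    _ = _ := by ring

namespace LineData

variable {G A F : Type*} [Group G] [AddCommGroup A] (D : LineData G A F)

variable [DecidableEq G]

/-- length of pattern insertions -/
theorem exists_ins_const (T : Finset G) (h1 : (1 : G) ∈ T) [Finite F] (p : ℕ) (v₀ : A)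
    (hgen : ∀ E : Finset G, ∃ C : ℕ, E ⊆ T ^ C) :
    ∃ C₄ : ℕ, ∀ (φ : F) (i : ℤ) (m : ℕ) (s : Finset ℕ), s ⊆ Finset.range m →
      D.ins φ i (D.pat p m v₀ s) ∈ T ^ (C₄ * (i.natAbs + m + 1)) := by
  classical
  have := Fintype.ofFinite F
  obtain ⟨C, hC⟩ := hgen ({D.τ, D.τ⁻¹, D.ι v₀} ∪
    Finset.univ.image (fun φ => D.r φ) ∪ Finset.univ.image (fun φ => (D.r φ)⁻¹))
  have hτ : D.τ ∈ T ^ C := hC (by simp)
  have hτ' : D.τ⁻¹ ∈ T ^ C := hC (by simp)
  have hv : D.ι v₀ ∈ T ^ C := hC (by simp)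
  have hr : ∀ φ, D.r φ ∈ T ^ C := fun φ => hC (by simp)
  have hr' : ∀ φ, (D.r φ)⁻¹ ∈ T ^ C := fun φ => hC (by simp)
  have hτn : ∀ l : ℕ, D.τ ^ l ∈ T ^ (C * l) := fun l => by
    rw [pow_mul]; exact Finset.pow_mem_pow hτ
  have hτn' : ∀ l : ℕ, (D.τ ^ l)⁻¹ ∈ T ^ (C * l) := fun l => by
    rw [pow_mul, ← inv_pow]; exact Finset.pow_mem_pow hτ'
  have hτz : ∀ i : ℤ, D.τ ^ i ∈ T ^ (C * i.natAbs) := by
    intro i
    obtain ⟨l, rfl | rfl⟩ := Int.eq_nat_or_neg i
    · rw [zpow_natCast, Int.natAbs_natCast]; exact hτn _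
    · rw [zpow_neg, zpow_natCast, Int.natAbs_neg, Int.natAbs_natCast]; exact hτn' _
  have hτz' : ∀ i : ℤ, (D.τ ^ i)⁻¹ ∈ T ^ (C * i.natAbs) := by
    intro i
    have := hτz (-i)
    rwa [zpow_neg, Int.natAbs_neg] at this
  have hι : ∀ (m : ℕ) (s : Finset ℕ), s ⊆ Finset.range m →
      D.ι (D.pat p m v₀ s) ∈ T ^ (C + (C + 2 * (C * p)) * m) := by
    intro m
    induction m with
    | zero =>
      intro s hs
      have : s = ∅ := by simpa using hs
      subst this
      simp only [pat, dsum, mul_zero, Nat.cast_zero, Finset.sum_empty, add_zero]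
      have h0 : D.sh 0 v₀ = v₀ := by
        have h1 := D.conj 0 v₀
        have h2 := D.a_spec v₀ 0 (D.f 1)
        have h3 := D.a_spec (D.sh 0 v₀) 0 (D.f 1)
        rw [← h1] at h3
        rw [← h3]
        conv_rhs => rw [← h2]
        simp
      rw [h0]; exact hv
    | succ m ih =>
      intro s hs
      set s' := (Finset.range m).filter (fun l => l + 1 ∈ s) with hs'
      have hs'm : s' ⊆ Finset.range m := Finset.filter_subset _ _
      have hsh0 : D.sh 0 v₀ = v₀ := by
        have h1 := D.conj 0 v₀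
        have h2 := D.a_spec v₀ 0 (D.f 1)
        have h3 := D.a_spec (D.sh 0 v₀) 0 (D.f 1)
        rw [← h1] at h3
        rw [← h3]
        conv_rhs => rw [← h2]
        simp
      have hsum : D.dsum p v₀ s = (if 0 ∈ s then v₀ else 0) + D.sh (p : ℤ) (D.dsum p v₀ s') := by
        unfold dsum
        have e1 : ∑ l ∈ s, D.sh ((p * l : ℕ) : ℤ) v₀ =
            ∑ l ∈ Finset.range (m + 1), if l ∈ s then D.sh ((p * l : ℕ) : ℤ) v₀ else 0 := by
          rw [← Finset.sum_filter]
          congr 1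
          ext l
          simp only [Finset.mem_filter]
          exact ⟨fun h => ⟨hs h, h⟩, fun h => h.2⟩
        rw [e1, Finset.sum_range_succ', map_sum, hs', Finset.sum_filter, add_comm]
        congr 1
        · simp [hsh0]
        · refine Finset.sum_congr rfl fun l _ => ?_
          split_ifs
          · have e0 : ((p * (l + 1) : ℕ) : ℤ) = (p : ℤ) + ((p * l : ℕ) : ℤ) := by push_cast; ring
            rw [← D.sh_add, e0]
          · rfl
      have hpat : D.pat p (m + 1) v₀ s = (if 0 ∈ s then v₀ else 0) +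
          D.sh (p : ℤ) (D.pat p m v₀ s') := by
        unfold pat
        rw [hsum, map_add, ← D.sh_add]
        have : ((p * (m + 1) : ℕ) : ℤ) = (p : ℤ) + ((p * m : ℕ) : ℤ) := by push_cast; ring
        rw [this]; abel
      rw [hpat, D.ι_add, ← D.conj, zpow_natCast]
      have e2 : D.ι (if 0 ∈ s then v₀ else 0) ∈ T ^ C := by
        split_ifs
        · exact hv
        · rw [D.ι_zero]; exact Finset.one_mem_pow h1
      have e3 := ih s' hs'm
      have e4 : C + (C + 2 * (C * p)) * (m + 1) =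
          C + (C * p + (C + (C + 2 * (C * p)) * m) + C * p) := by ring
      rw [e4, pow_add, pow_add, pow_add]
      exact Finset.mul_mem_mul e2 (Finset.mul_mem_mul (Finset.mul_mem_mul (hτn p) e3) (hτn' p))
  refine ⟨4 * C + 2 * (C * p) + 1, fun φ i m s hs => ?_⟩
  have hmem : D.ins φ i (D.pat p m v₀ s) ∈
      T ^ (C + (C * i.natAbs + (C + (C + 2 * (C * p)) * m) + C * i.natAbs) + C) := by
    unfold ins
    rw [pow_add, pow_add, pow_add, pow_add]
    exact Finset.mul_mem_mul (Finset.mul_mem_mul (hr' φ)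
      (Finset.mul_mem_mul (Finset.mul_mem_mul (hτz i) (hι m s hs)) (hτz' i))) (hr φ)
  refine Finset.pow_subset_pow_right h1 ?_ hmem
  refine Nat.le.intro (k := 2 * C * i.natAbs + 3 * C * m + C + 2 * C * p * i.natAbs + 2 * C * p
    + i.natAbs + m + 1) ?_
  ring

/-- length of connecting elements -/
theorem exists_conn_const (T : Finset G) (h1 : (1 : G) ∈ T) [Finite F]
    (hgen : ∀ E : Finset G, ∃ C : ℕ, E ⊆ T ^ C) :
    ∃ R : ℕ, ∀ (φ φ' : F) (j : ℤ), D.conn φ j φ' ∈ T ^ (R * (j.natAbs + 1)) := by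
  classical
  have := Fintype.ofFinite F
  obtain ⟨C, hC⟩ := hgen ({D.τ, D.τ⁻¹} ∪
    Finset.univ.image (fun φ => D.r φ) ∪ Finset.univ.image (fun φ => (D.r φ)⁻¹))
  have hτ : D.τ ∈ T ^ C := hC (by simp)
  have hτ' : D.τ⁻¹ ∈ T ^ C := hC (by simp)
  have hr : ∀ φ, D.r φ ∈ T ^ C := fun φ => hC (by simp)
  have hr' : ∀ φ, (D.r φ)⁻¹ ∈ T ^ C := fun φ => hC (by simp)
  have hτn : ∀ l : ℕ, D.τ ^ l ∈ T ^ (C * l) := fun l => by
    rw [pow_mul]; exact Finset.pow_mem_pow hτ
  have hτn' : ∀ l : ℕ, (D.τ ^ l)⁻¹ ∈ T ^ (C * l) := fun l => by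
    rw [pow_mul, ← inv_pow]; exact Finset.pow_mem_pow hτ'
  have hτz : ∀ i : ℤ, D.τ ^ i ∈ T ^ (C * i.natAbs) := by
    intro i
    obtain ⟨l, rfl | rfl⟩ := Int.eq_nat_or_neg i
    · rw [zpow_natCast, Int.natAbs_natCast]; exact hτn _
    · rw [zpow_neg, zpow_natCast, Int.natAbs_neg, Int.natAbs_natCast]; exact hτn' _
  refine ⟨2 * C, fun φ φ' j => ?_⟩
  have hmem : D.conn φ j φ' ∈ T ^ (C + C * j.natAbs + C) := by
    unfold conn
    rw [pow_add, pow_add]
    exact Finset.mul_mem_mul (Finset.mul_mem_mul (hr' φ) (hτz j)) (hr φ')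
  refine Finset.pow_subset_pow_right h1 ?_ hmem
  nlinarith [Nat.zero_le (C * j.natAbs)]

/-- Counting elements with the same truncation: contents of the removed letters. -/
theorem content_count [Fintype F] (T : Finset G) (B : Finset G) (w : G → ℕ → G) (n X N : ℕ)
    (L : ℤ) (g₀ : G)
    (hw0 : ∀ g ∈ B, w g 0 = 1) (hwn : ∀ g ∈ B, w g n = g)
    (hwT : ∀ g ∈ B, ∀ i < n, (w g i)⁻¹ * w g (i + 1) ∈ T)
    (hX : ∀ g ∈ B, ∀ i < n, D.k (w g i) ≤ L + X)
    (hN : ∀ g ∈ B, ((Finset.range n).filter fun i => L < D.k (w g i)).card ≤ N)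
    (hk : ∀ g ∈ B, D.k g = D.k g₀) (hf : ∀ g ∈ B, D.f g = D.f g₀)
    (ha : ∀ g ∈ B, D.a g₀ =
      ∑ i ∈ (Finset.range n).filter (fun i => D.k (w g i) ≤ L), (D.a (w g (i + 1)) - D.a (w g i))) :
    B.card ≤ (N + 1) ^ (X * Fintype.card F * T.card) := by
  classical
  set keys : Finset (ℤ × F × G) := (Finset.Ioc (0 : ℤ) X) ×ˢ (Finset.univ ×ˢ T) with hkeys
  have hkc : keys.card = X * Fintype.card F * T.card := by
    rw [hkeys, Finset.card_product, Finset.card_product, Int.card_Ioc, Finset.card_univ]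
    simp [mul_assoc]
  set key : G → ℕ → ℤ × F × G := fun g i =>
    (D.k (w g i) - L, D.f (w g i), (w g i)⁻¹ * w g (i + 1)) with hkey
  set up : G → Finset ℕ := fun g => (Finset.range n).filter fun i => L < D.k (w g i) with hup
  set cnt : G → keys → Fin (N + 1) := fun g κ =>
    Fin.ofNat (N + 1) ((up g).filter fun i => key g i = κ).card with hcnt
  have hcardle : ∀ g ∈ B, ∀ κ, ((up g).filter fun i => key g i = κ).card < N + 1 := by
    intro g hg κ
    have := Finset.card_le_card (Finset.filter_subset (fun i => key g i = κ) (up g))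
    have h2 := hN g hg
    simp only [hup] at this h2 ⊢
    omega
  have hval : ∀ g ∈ B, ∀ κ : keys, ((cnt g κ : Fin (N + 1)) : ℕ) =
      ((up g).filter fun i => key g i = κ).card := by
    intro g hg κ
    simp only [hcnt, Fin.ofNat]
    exact Nat.mod_eq_of_lt (hcardle g hg κ)
  have htot : ∀ g ∈ B, D.a g = D.a g₀ +
      ∑ κ ∈ keys, ((up g).filter fun i => key g i = κ).card •
        D.sh (L + κ.1) (D.a (D.r κ.2.1 * κ.2.2)) := by
    intro g hg
    have e1 : D.a g = ∑ i ∈ Finset.range n, (D.a (w g (i + 1)) - D.a (w g i)) := by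
      rw [Finset.sum_range_sub (fun i => D.a (w g i)), hwn g hg, hw0 g hg, D.a_one, sub_zero]
    rw [e1, ha g hg]
    have e2 : (Finset.range n).filter (fun i => ¬ D.k (w g i) ≤ L) = up g := by
      simp only [hup, not_le]
    rw [← Finset.sum_filter_add_sum_filter_not (Finset.range n) (fun i => D.k (w g i) ≤ L), e2]
    congr 1
    have e3 : ∀ i ∈ up g, key g i ∈ keys := by
      intro i hi
      simp only [hup, Finset.mem_filter, Finset.mem_range] at hi
      simp only [hkey, hkeys, Finset.mem_product, Finset.mem_Ioc, Finset.mem_univ, true_and]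
      exact ⟨⟨by linarith [hi.2], by linarith [hX g hg i hi.1]⟩, hwT g hg i hi.1⟩
    rw [← Finset.sum_fiberwise_of_maps_to e3]
    refine Finset.sum_congr rfl fun κ _ => ?_
    rw [← Finset.sum_const]
    refine Finset.sum_congr rfl fun i hi => ?_
    rw [Finset.mem_filter] at hi
    obtain ⟨_, hi2⟩ := hi
    rw [← hi2]
    simp only [hkey]
    have e4 : w g (i + 1) = w g i * ((w g i)⁻¹ * w g (i + 1)) := by group
    have e5 := D.a_mul (w g i) ((w g i)⁻¹ * w g (i + 1))
    rw [← e4] at e5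
    rw [e5]
    have e6 : L + (D.k (w g i) - L) = D.k (w g i) := by ring
    rw [e6]; abel
  have hinj : Set.InjOn cnt (B : Set G) := by
    intro g hg g' hg' heq
    rw [Finset.mem_coe] at hg hg'
    refine D.ext' ?_ ((hk g hg).trans (hk g' hg').symm) ((hf g hg).trans (hf g' hg').symm)
    rw [htot g hg, htot g' hg']
    congr 1
    refine Finset.sum_congr rfl fun κ hκ => ?_
    have h1 := hval g hg ⟨κ, hκ⟩
    have h2 := hval g' hg' ⟨κ, hκ⟩
    rw [heq] at h1
    simp only at h1 h2
    rw [← h1, ← h2]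
  calc B.card ≤ (Finset.univ : Finset (keys → Fin (N + 1))).card :=
        Finset.card_le_card_of_injOn cnt (fun _ _ => Finset.mem_coe.2 (Finset.mem_univ _)) hinj
    _ = (N + 1) ^ (X * Fintype.card F * T.card) := by
        rw [Finset.card_univ, Fintype.card_fun, Fintype.card_fin, Fintype.card_coe, hkc]

end LineData

end Pool.Agent.RatioGrowth
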