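import Mathlib

set_option autoImplicit false

namespace Pool.Agent.RatioGrowth

open Filter Asymptotics

/-- Choice of parameters for the counting of bad elements. -/
theorem exists_params (θ lam : ℝ) (hθ : 1 < θ) (hlam : 1 < lam) (C₄ R H e w : ℕ) (c₆ : ℝ)
    (hc₆ : 0 < c₆) :
    ∃ τ₀ : ℕ, 2 ≤ τ₀ ∧ ∀ τ : ℕ, τ₀ ≤ τ → ∃ X j₀ m : ℕ,
      (∀ x : ℕ, θ ^ x ≤ τ → x ≤ X) ∧ c₆ * τ ≤ lam ^ j₀ ∧
      4 * (4 * (R * (X + H + 1)) + C₄ * (X + j₀ + m + 1)) ≤ 3 * τ ∧
      (2 * w + 1) * (τ + 1) ^ (X * e) * (τ * (τ + 1)) ≤ 2 ^ m := by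
  have hlθ : 0 < Real.log θ := Real.log_pos hθ
  have hll : 0 < Real.log lam := Real.log_pos hlam
  set D : ℝ := 4 * (C₄ + 1) with hD
  have hDpos : 0 < D := by positivity
  -- asymptotics
  have h1 : ∀ᶠ t : ℝ in atTop, Real.log t ≤ 1 / (16 * R + 4 * C₄ + 1) *
      (1 / (1 / Real.log θ + 1 / Real.log lam)) * t := by
    have hc : (0 : ℝ) < 1 / (16 * R + 4 * C₄ + 1) * (1 / (1 / Real.log θ + 1 / Real.log lam)) := by
      positivity
    filter_upwards [Real.isLittleO_log_id_atTop.bound hc, eventually_ge_atTop 1] with t ht ht1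
    rw [Real.norm_of_nonneg (Real.log_nonneg ht1), id, Real.norm_of_nonneg (by linarith)] at ht
    exact ht
  have h2 : ∀ᶠ t : ℝ in atTop, (16 * R * (H + 1) + 4 * C₄ * (|Real.log c₆| / Real.log lam + 2)
      : ℝ) ≤ t := eventually_ge_atTop _
  set K : ℝ := 2 * e / Real.log θ + 4 with hK
  have hKpos : 0 < K := by positivity
  have h3 : ∀ᶠ t : ℝ in atTop, Real.log t ^ 2 ≤ (Real.log 2 / (4 * D * K)) * t := by
    have hc : (0 : ℝ) < Real.log 2 / (4 * D * K) := by
      have : 0 < Real.log 2 := Real.log_pos (by norm_num)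
      positivity
    filter_upwards [Real.isLittleO_pow_log_id_atTop (n := 2) |>.bound hc,
      eventually_ge_atTop 1] with t ht ht1
    rw [Real.norm_of_nonneg (sq_nonneg _), id, Real.norm_of_nonneg (by linarith)] at ht
    exact ht
  have h4 : ∀ᶠ t : ℝ in atTop, 4 * D * (Real.log (2 * w + 1) + Real.log 2) / Real.log 2 ≤ t :=
    eventually_ge_atTop _
  have h5 : ∀ᶠ t : ℝ in atTop, max 3 (max (1 / c₆) (Real.exp 1)) ≤ t := eventually_ge_atTop _
  have hall := (h1.and (h2.and (h3.and (h4.and h5))))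
  obtain ⟨t₀, ht₀⟩ := eventually_atTop.1 hall
  refine ⟨max 2 ⌈t₀⌉₊, le_max_left _ _, fun τ hτ => ?_⟩
  have hτt : t₀ ≤ (τ : ℝ) := (Nat.le_ceil t₀).trans (by exact_mod_cast (le_max_right _ _).trans hτ)
  obtain ⟨e1, e2, e3, e4, e5⟩ := ht₀ τ hτt
  have hτ3 : (3 : ℝ) ≤ τ := (le_max_left _ _).trans e5
  have hτc : 1 / c₆ ≤ τ := ((le_max_left _ _).trans (le_max_right _ _)).trans e5
  have hτe : Real.exp 1 ≤ τ := ((le_max_right _ _).trans (le_max_right _ _)).trans e5
  have hτpos : (0 : ℝ) < τ := by linarith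
  have hlog1 : 1 ≤ Real.log τ := by
    rw [Real.le_log_iff_exp_le hτpos]; exact hτe
  have hlog0 : 0 ≤ Real.log τ := by linarith
  have hcτ : 1 ≤ c₆ * τ := by
    rw [div_le_iff₀ hc₆] at hτc; linarith
  set X : ℕ := ⌊Real.log τ / Real.log θ⌋₊ with hX
  set j₀ : ℕ := ⌈Real.log (c₆ * τ) / Real.log lam⌉₊ with hj₀
  set m : ℕ := ⌊(τ : ℝ) / D⌋₊ with hm
  have hXle : (X : ℝ) ≤ Real.log τ / Real.log θ := Nat.floor_le (by positivity)
  have hjle : (j₀ : ℝ) ≤ (|Real.log c₆| + Real.log τ) / Real.log lam + 1 := by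
    have h6 : 0 ≤ Real.log (c₆ * τ) / Real.log lam := div_nonneg (Real.log_nonneg hcτ) hll.le
    have h7 := (Nat.ceil_lt_add_one h6).le
    refine h7.trans ?_
    have h8 : Real.log (c₆ * τ) ≤ |Real.log c₆| + Real.log τ := by
      rw [Real.log_mul hc₆.ne' hτpos.ne']
      linarith [le_abs_self (Real.log c₆)]
    have := div_le_div_of_nonneg_right h8 hll.le
    linarith
  have hmle : (m : ℝ) ≤ τ / D := Nat.floor_le (by positivity)
  have hmge : τ / D - 1 < (m : ℝ) := by
    have := Nat.lt_floor_add_one ((τ : ℝ) / D)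
    linarith
  refine ⟨X, j₀, m, ?_, ?_, ?_, ?_⟩
  · intro x hx
    refine Nat.le_floor ?_
    rw [le_div_iff₀ hlθ, ← Real.log_pow]
    exact Real.log_le_log (by positivity) hx
  · have h6 : Real.log (c₆ * τ) / Real.log lam ≤ j₀ := Nat.le_ceil _
    rw [div_le_iff₀ hll, ← Real.log_pow] at h6
    exact (Real.log_le_log_iff (by positivity) (by positivity)).1 h6
  · have h6 : (4 * (4 * (R * (X + H + 1)) + C₄ * (X + j₀ + m + 1)) : ℝ) ≤ 3 * τ := by
      have e6 : (4 * C₄ * m : ℝ) ≤ τ := by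
        have h7 : (4 * C₄ : ℝ) ≤ D := by rw [hD]; linarith
        calc (4 * C₄ * m : ℝ) ≤ D * m := mul_le_mul_of_nonneg_right h7 (Nat.cast_nonneg _)
          _ ≤ D * (τ / D) := mul_le_mul_of_nonneg_left hmle hDpos.le
          _ = τ := by field_simp
      have e7 : ((16 * R + 4 * C₄ : ℝ)) * (Real.log τ * (1 / Real.log θ + 1 / Real.log lam)) ≤ τ := by
        have hq : 0 < 1 / Real.log θ + 1 / Real.log lam := by positivity
        have hs : (0 : ℝ) < 16 * R + 4 * C₄ + 1 := by positivity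
        have h7 := mul_le_mul_of_nonneg_right e1 hq.le
        have h8 : 1 / (16 * R + 4 * C₄ + 1) * (1 / (1 / Real.log θ + 1 / Real.log lam)) * τ *
            (1 / Real.log θ + 1 / Real.log lam) = τ / (16 * R + 4 * C₄ + 1 : ℝ) := by
          field_simp
        rw [h8, le_div_iff₀ hs] at h7
        have h9 : 0 ≤ Real.log τ * (1 / Real.log θ + 1 / Real.log lam) := by positivity
        linarith
      have hR0 : (0 : ℝ) ≤ R := Nat.cast_nonneg _
      have hC0 : (0 : ℝ) ≤ C₄ := Nat.cast_nonneg _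
      have e8 : (16 * R * X : ℝ) ≤ 16 * R * (Real.log τ / Real.log θ) :=
        mul_le_mul_of_nonneg_left hXle (by positivity)
      have e9 : (4 * C₄ * X : ℝ) ≤ 4 * C₄ * (Real.log τ / Real.log θ) :=
        mul_le_mul_of_nonneg_left hXle (by positivity)
      have e10 : (4 * C₄ * j₀ : ℝ) ≤ 4 * C₄ * ((|Real.log c₆| + Real.log τ) / Real.log lam + 1) :=
        mul_le_mul_of_nonneg_left hjle (by positivity)
      have e11 : 0 ≤ 16 * R * (Real.log τ / Real.log lam) := by positivity
      have e12 : (|Real.log c₆| + Real.log τ) / Real.log lam =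
        |Real.log c₆| / Real.log lam + Real.log τ / Real.log lam := by rw [add_div]
      rw [e12] at e10
      have e13 : Real.log τ * (1 / Real.log θ + 1 / Real.log lam) =
        Real.log τ / Real.log θ + Real.log τ / Real.log lam := by ring
      rw [e13] at e7
      have e14 : (16 * R + 4 * C₄ : ℝ) * (Real.log τ / Real.log θ + Real.log τ / Real.log lam) =
        16 * R * (Real.log τ / Real.log θ) + 4 * C₄ * (Real.log τ / Real.log θ) +
        16 * R * (Real.log τ / Real.log lam) + 4 * C₄ * (Real.log τ / Real.log lam) := by ring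
      rw [e14] at e7
      have e15 : (4 * (4 * (R * (X + H + 1)) + C₄ * (X + j₀ + m + 1)) : ℝ) =
        16 * R * X + 16 * R * (H + 1) + 4 * C₄ * X + 4 * C₄ * j₀ + 4 * C₄ * m + 4 * C₄ := by ring
      have e16 : 4 * C₄ * (|Real.log c₆| / Real.log lam + Real.log τ / Real.log lam + 1) =
        4 * C₄ * (|Real.log c₆| / Real.log lam + 2) + 4 * C₄ * (Real.log τ / Real.log lam)
          - 4 * C₄ := by ring
      rw [e15]
      rw [e16] at e10
      linarith
    exact_mod_cast h6
  · have hl2 : 0 < Real.log 2 := Real.log_pos (by norm_num)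
    have h6 : (((2 * w + 1) * (τ + 1) ^ (X * e) * (τ * (τ + 1)) : ℕ) : ℝ) ≤ ((2 ^ m : ℕ) : ℝ) := by
      push_cast
      have hpos : (0 : ℝ) < (2 * w + 1) * (τ + 1) ^ (X * e) * (τ * (τ + 1)) := by positivity
      rw [← Real.log_le_log_iff hpos (by positivity)]
      rw [Real.log_mul (by positivity) (by positivity), Real.log_mul (by positivity) (by positivity),
        Real.log_mul (by positivity) (by positivity), Real.log_pow, Real.log_pow]
      have hl : Real.log (τ + 1) ≤ 2 * Real.log τ := by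
        have : ((τ : ℝ) + 1) ≤ (τ : ℝ) ^ 2 := by nlinarith
        calc Real.log (τ + 1) ≤ Real.log ((τ : ℝ) ^ 2) := Real.log_le_log (by positivity) this
          _ = 2 * Real.log τ := by rw [Real.log_pow]; norm_num
      have hlp : 0 ≤ Real.log ((τ : ℝ) + 1) := Real.log_nonneg (by linarith)
      have e6 : ((X * e : ℕ) : ℝ) * Real.log (τ + 1) ≤ (2 * e / Real.log θ) * Real.log τ ^ 2 := by
        push_cast
        calc (X * e : ℝ) * Real.log (τ + 1) ≤ ((Real.log τ / Real.log θ) * e) * (2 * Real.log τ) := by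
              refine mul_le_mul (mul_le_mul_of_nonneg_right hXle (Nat.cast_nonneg _)) hl hlp ?_
              positivity
          _ = _ := by ring
      have hsq : Real.log τ ≤ Real.log τ ^ 2 := by
        rw [sq]; exact le_mul_of_one_le_left hlog0 hlog1
      have e7 : Real.log τ + Real.log (τ + 1) ≤ 4 * Real.log τ ^ 2 := by linarith
      have e8 : (2 * e / Real.log θ) * Real.log τ ^ 2 + 4 * Real.log τ ^ 2 ≤
          Real.log 2 / (4 * D) * τ := by
        calc (2 * e / Real.log θ) * Real.log τ ^ 2 + 4 * Real.log τ ^ 2 = K * Real.log τ ^ 2 := by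
              rw [hK]; ring
          _ ≤ K * ((Real.log 2 / (4 * D * K)) * τ) := mul_le_mul_of_nonneg_left e3 hKpos.le
          _ = _ := by field_simp
      have e9 : Real.log (2 * w + 1) + Real.log 2 ≤ Real.log 2 / (4 * D) * τ := by
        rw [div_le_iff₀ hl2] at e4
        rw [div_mul_eq_mul_div, le_div_iff₀ (by positivity)]
        linarith
      have e10 : (τ / D - 1) * Real.log 2 ≤ m * Real.log 2 :=
        mul_le_mul_of_nonneg_right hmge.le hl2.le
      have e11 : Real.log 2 / (4 * D) * τ + Real.log 2 / (4 * D) * τ ≤ τ / D * Real.log 2 := by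
        have : Real.log 2 / (4 * D) * τ + Real.log 2 / (4 * D) * τ = (τ / D * Real.log 2) / 2 := by
          field_simp; ring
        rw [this]
        have : 0 ≤ τ / D * Real.log 2 := by positivity
        linarith
      linarith
    exact_mod_cast h6

end Pool.Agent.RatioGrowth
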