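import Mathlib
import Pool.Agent.RatioGrowth.LineLemmas
import Pool.Agent.RatioGrowth.LineParams

set_option autoImplicit false

open Pointwise

namespace Pool.Agent.RatioGrowth

lemma sum_inv_le (a b : ℕ) (ha : 1 ≤ a) :
    ∑ τ ∈ Finset.Ico a b, (1 : ℝ) / (τ * (τ + 1)) ≤ 1 / a := by
  have ha' : (0 : ℝ) < a := by exact_mod_cast ha
  rcases le_or_gt b a with h | h
  · rw [Finset.Ico_eq_empty_of_le h]; simp
  · have key : ∀ b, a ≤ b → ∑ τ ∈ Finset.Ico a b, (1 : ℝ) / (τ * (τ + 1)) = 1 / a - 1 / b := by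
      intro b hb
      induction b, hb using Nat.le_induction with
      | base => simp
      | succ b hb ih =>
        have hb' : (0 : ℝ) < b := by
          have : (a : ℝ) ≤ b := by exact_mod_cast hb
          linarith
        rw [Finset.sum_Ico_succ_top hb, ih]
        push_cast
        field_simp
        ring
    rw [key b h.le]
    have : (0 : ℝ) ≤ 1 / b := by positivity
    linarith

lemma exists_last (P : ℕ → Prop) (h : ∃ x, P x) (B : ℕ) (hB : ∀ y, B ≤ y → ¬ P y) :
    ∃ x, P x ∧ ∀ y, x < y → ¬ P y := by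
  classical
  obtain ⟨x₀, hx₀⟩ := h
  have hx₀B : x₀ ≤ B := by
    by_contra hcon
    exact hB x₀ (by omega) hx₀
  refine ⟨Nat.findGreatest P B, Nat.findGreatest_spec hx₀B hx₀, fun y hy hPy => ?_⟩
  rcases Nat.lt_or_ge y B with h | h
  · exact Nat.findGreatest_is_greatest hy h.le hPy
  · exact hB y h hPy

lemma exists_theta (lam : ℝ) (hlam : 1 < lam) (c : ℝ) (H : ℕ) :
    ∃ θ : ℝ, 1 < θ ∧ θ < lam ∧ c * (θ ^ H - 1) ≤ 1 / 4 := by
  have hcont : Filter.Tendsto (fun θ : ℝ => c * (θ ^ H - 1)) (nhds 1) (nhds (c * (1 ^ H - 1))) := by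
    have : Continuous (fun θ : ℝ => c * (θ ^ H - 1)) := by fun_prop
    exact this.tendsto 1
  simp only [one_pow, sub_self, mul_zero] at hcont
  have h1 : ∀ᶠ θ : ℝ in nhds 1, c * (θ ^ H - 1) < 1 / 4 :=
    hcont.eventually (gt_mem_nhds (by norm_num))
  have h2 : ∀ᶠ θ : ℝ in nhds 1, θ < lam := gt_mem_nhds hlam
  have h3 := (h1.and h2)
  have h4 : ∀ᶠ θ : ℝ in nhdsWithin 1 (Set.Ioi 1), (c * (θ ^ H - 1) < 1 / 4 ∧ θ < lam) ∧ θ ∈ Set.Ioi (1 : ℝ) :=
    (h3.filter_mono nhdsWithin_le_nhds).and self_mem_nhdsWithin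
  obtain ⟨θ, ⟨h5, h6⟩, h7⟩ := h4.exists
  exact ⟨θ, h7, h6, h5.le⟩

namespace LineData

variable {G A F : Type*} [Group G] [AddCommGroup A] (D : LineData G A F)

lemma a_insert (u x : G) (i : ℤ) (v : A) :
    D.a (u * D.ins (D.f u) i v * x) = D.a (u * x) + D.sh (D.k u + i) v := by
  rw [D.shadow_a (D.k_ins u i v) (D.f_ins u i v), D.a_ins]; abel

lemma k_insert (u x : G) (i : ℤ) (v : A) :
    D.k (u * D.ins (D.f u) i v * x) = D.k (u * x) :=
  D.shadow_k (D.k_ins u i v) (D.f_ins u i v) x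

lemma f_insert (u x : G) (i : ℤ) (v : A) :
    D.f (u * D.ins (D.f u) i v * x) = D.f (u * x) :=
  D.shadow_f (D.f_ins u i v) x

variable [DecidableEq G]

/-- Main counting theorem. -/
theorem doubling [Finite F] (ν : AddGroupSeminorm A) (lam : ℝ) (hlam : 1 < lam)
    (hν : ∀ (j : ℤ) v, ν (D.sh j v) = lam ^ j * ν v) (v₀ : A) (hv₀ : 0 < ν v₀)
    (T : Finset G) (h1T : (1 : G) ∈ T) (hgen : ∀ E : Finset G, ∃ C : ℕ, E ⊆ T ^ C) :
    ∃ C, ∀ n, 2 * (T ^ n).card ≤ (T ^ (n + C)).card := by
  classical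
  have := Fintype.ofFinite F
  have hlam0 : 0 < lam := by linarith
  -- constants
  obtain ⟨R, hR⟩ := D.exists_conn_const T h1T hgen
  obtain ⟨p, hp⟩ : ∃ p : ℕ, 9 ≤ lam ^ p := by
    obtain ⟨p, hp⟩ := pow_unbounded_of_one_lt 9 hlam
    exact ⟨p, hp.le⟩
  obtain ⟨w, hw⟩ : ∃ w : ℕ, 2 ≤ lam ^ w := by
    obtain ⟨w, hw⟩ := pow_unbounded_of_one_lt 2 hlam
    exact ⟨w, hw.le⟩
  obtain ⟨C₄, hC₄⟩ := D.exists_ins_const T h1T p v₀ hgen
  obtain ⟨H, hH1, hH⟩ : ∃ H : ℕ, 1 ≤ H ∧ ∀ φ, ∀ s ∈ T, |D.k (D.r φ * s)| ≤ H := by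
    refine ⟨(Finset.univ ×ˢ T).sup (fun x : F × G => (D.k (D.r x.1 * x.2)).natAbs) + 1, by omega,
      fun φ s hs => ?_⟩
    have h := Finset.le_sup (f := fun x : F × G => (D.k (D.r x.1 * x.2)).natAbs)
      (Finset.mem_product.2 ⟨Finset.mem_univ φ, hs⟩ : (φ, s) ∈ (Finset.univ ×ˢ T))
    simp only at h
    rw [Int.abs_eq_natAbs]
    exact_mod_cast h.trans (Nat.le_succ _)
  obtain ⟨αm, hαm0, hαm⟩ : ∃ αm : ℝ, 0 < αm ∧ ∀ φ, ∀ s ∈ T, ν (D.a (D.r φ * s)) ≤ αm := by
    refine ⟨∑ x ∈ (Finset.univ ×ˢ T : Finset (F × G)), ν (D.a (D.r x.1 * x.2)) + 1, ?_, ?_⟩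
    · have : 0 ≤ ∑ x ∈ (Finset.univ ×ˢ T : Finset (F × G)), ν (D.a (D.r x.1 * x.2)) :=
        Finset.sum_nonneg fun _ _ => apply_nonneg ν _
      linarith
    · intro φ s hs
      have h := Finset.single_le_sum (f := fun x : F × G => ν (D.a (D.r x.1 * x.2)))
        (fun x _ => apply_nonneg ν _)
        (Finset.mem_product.2 ⟨Finset.mem_univ φ, hs⟩ : (φ, s) ∈ (Finset.univ ×ˢ T))
      simp only at h
      linarith
  obtain ⟨θ, hθ1, hθlam, hθR⟩ := exists_theta lam hlam ((R * (2 * H + 1) : ℕ) : ℝ) H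
  have hθ0 : 0 < θ := by linarith
  have hq1 : θ / lam < 1 := (div_lt_one hlam0).2 hθlam
  set κ₀ : ℝ := θ / (1 - θ / lam) with hκ₀
  have hκ₀pos : 0 < κ₀ := div_pos hθ0 (by linarith)
  set c₆ : ℝ := 8 * αm * κ₀ / ν v₀ with hc₆
  have hc₆pos : 0 < c₆ := by positivity
  obtain ⟨τ₀, hτ₀2, hpar⟩ := exists_params θ lam hθ1 hlam C₄ R H (Fintype.card F * T.card) w c₆ hc₆pos
  choose! Xf jf mf hXf hjf hlenf hcntf using hpar
  obtain ⟨j₁, hj₁⟩ : ∃ j₁ : ℕ, c₆ * τ₀ ≤ lam ^ j₁ := by
    obtain ⟨j, hj⟩ := pow_unbounded_of_one_lt (c₆ * τ₀) hlam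
    exact ⟨j, hj.le⟩
  set m₁ : ℕ := 4 * (2 * w + 1) with hm₁
  have hm₁' : 4 * (2 * w + 1) ≤ 2 ^ m₁ := Nat.lt_two_pow_self.le
  refine ⟨C₄ * (j₁ + m₁ + 1), fun n => ?_⟩
  -- paths
  have hpath := fun g : G => fun hg : g ∈ T ^ n => exists_path T n g hg
  choose! W hW0 hWn hWs hWp hWq using hpath
  have hmax : ∀ g : G, ∃ i ≤ n, ∀ j ≤ n, D.k (W g j) ≤ D.k (W g i) := by
    intro g
    obtain ⟨i, hi, hi2⟩ := Finset.exists_max_image (Finset.range (n + 1))
      (fun i => D.k (W g i)) ⟨0, by simp⟩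
    exact ⟨i, by simpa [Nat.lt_succ_iff] using hi, fun j hj => hi2 j (by simp; omega)⟩
  choose i0 hi0 hi0max using hmax
  set K : G → ℤ := fun g => D.k (W g (i0 g)) with hK
  set N : G → ℕ → ℕ := fun g x => ((Finset.range n).filter fun i => K g - x < D.k (W g i)).card
    with hN
  have hNn : ∀ g x, N g x ≤ n := by
    intro g x
    have := Finset.card_filter_le (Finset.range n) (fun i => K g - x < D.k (W g i))
    rw [Finset.card_range] at this
    exact this
  have hinc : ∀ g ∈ T ^ n, ∀ i < n,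
      ν (D.a (W g (i + 1)) - D.a (W g i)) ≤ αm * lam ^ (D.k (W g i)) := by
    intro g hg i hi
    have hs := hWs g hg i hi
    have e1 : W g (i + 1) = W g i * ((W g i)⁻¹ * W g (i + 1)) := by group
    have e2 := D.a_mul (W g i) ((W g i)⁻¹ * W g (i + 1))
    rw [← e1] at e2
    rw [e2, add_sub_cancel_left, hν, mul_comm]
    exact mul_le_mul_of_nonneg_right (hαm _ _ hs) (by positivity)
  -- good and bad
  set good : G → Prop := fun g => ∀ x : ℕ, (N g x : ℝ) < τ₀ * θ ^ x with hgood
  have hbad : 2 * ((T ^ n).filter fun g => ¬ good g).card ≤ (T ^ n).card := by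
    set Bad := (T ^ n).filter fun g => ¬ good g with hBad
    have hBadT : ∀ g ∈ Bad, g ∈ T ^ n := fun g hg => (Finset.mem_filter.1 hg).1
    have hlast : ∀ g ∈ Bad, ∃ x : ℕ, τ₀ * θ ^ x ≤ (N g x : ℝ) ∧
        ∀ y, x < y → (N g y : ℝ) ≤ τ₀ * θ ^ y := by
      intro g hg
      have hng := (Finset.mem_filter.1 hg).2
      rw [hgood] at hng
      push Not at hng
      obtain ⟨B, hB⟩ := pow_unbounded_of_one_lt (n : ℝ) hθ1
      obtain ⟨x, hx, hx2⟩ := exists_last (fun x : ℕ => τ₀ * θ ^ x ≤ (N g x : ℝ)) hng B (by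
        intro y hy hcon
        have h2 : (N g y : ℝ) ≤ n := by exact_mod_cast hNn g y
        have h3 : θ ^ B ≤ θ ^ y := pow_le_pow_right₀ hθ1.le hy
        have h4 : (1 : ℝ) ≤ τ₀ := by
          have : (2 : ℝ) ≤ τ₀ := by exact_mod_cast hτ₀2
          linarith
        have h5 : 0 < θ ^ y := by positivity
        nlinarith)
      exact ⟨x, hx, fun y hy => (not_le.1 (hx2 y hy)).le⟩
    choose! xg hxg hxg2 using hlast
    set τg : G → ℕ := fun g => N g (xg g) with hτg
    set Lg : G → ℤ := fun g => K g - xg g with hLg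
    have hτ₀' : (2 : ℝ) ≤ τ₀ := by exact_mod_cast hτ₀2
    have hτge : ∀ g ∈ Bad, τ₀ ≤ τg g := by
      intro g hg
      have h2 := hxg g hg
      have h3 : (1 : ℝ) ≤ θ ^ xg g := one_le_pow₀ hθ1.le
      have h4 : (τ₀ : ℝ) ≤ N g (xg g) := by nlinarith
      exact_mod_cast h4
    have hθx : ∀ g ∈ Bad, θ ^ (xg g) ≤ (τg g : ℝ) := by
      intro g hg
      have h2 := hxg g hg
      have h3 : (0 : ℝ) < θ ^ xg g := by positivity
      simp only [hτg]
      nlinarith
    have hxX : ∀ g ∈ Bad, xg g ≤ Xf (τg g) := fun g hg =>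
      hXf (τg g) (hτge g hg) (xg g) (hθx g hg)
    -- surgery
    have hsurg : ∀ g ∈ Bad, ∃ z₁ z₂ : G,
        z₁ ∈ T ^ (kept (fun l => D.k (W g l)) (Lg g) 0 (i0 g)
          + R * (2 * H + 1) * cross (fun l => D.k (W g l)) (Lg g) H 0 (i0 g)
          + 2 * (R * (xg g + H + 1))) ∧
        z₂ ∈ T ^ (kept (fun l => D.k (W g l)) (Lg g) (i0 g) n
          + R * (2 * H + 1) * cross (fun l => D.k (W g l)) (Lg g) H (i0 g) n
          + 2 * (R * (xg g + H + 1))) ∧
        D.k z₁ = K g ∧ D.k (z₁ * z₂) = D.k g ∧ D.f (z₁ * z₂) = D.f g ∧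
        D.a (z₁ * z₂) = ∑ i ∈ (Finset.range n).filter (fun i => D.k (W g i) ≤ Lg g),
          (D.a (W g (i + 1)) - D.a (W g i)) := by
      intro g hg
      have hgT := hBadT g hg
      have hle : ∀ j ≤ n, D.k (W g j) ≤ Lg g + xg g := by
        intro j hj
        have := hi0max g j hj
        simp only [hLg, hK]
        linarith
      obtain ⟨z₁, hz₁, hza₁, hzk₁, hzf₁⟩ := D.surgery T h1T H R hH hR (W g) 0 (Lg g) (xg g) 1
        (by rw [hW0 g hgT]) (by rw [hW0 g hgT]) (i0 g) (Nat.zero_le _)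
        (fun l _ hl => hWs g hgT l (lt_of_lt_of_le hl (hi0 g)))
        (hle 0 (Nat.zero_le _)) (hle _ (hi0 g))
      rw [one_mul] at hza₁ hzk₁ hzf₁
      obtain ⟨z₂, hz₂, hza₂, hzk₂, hzf₂⟩ := D.surgery T h1T H R hH hR (W g) (i0 g) (Lg g) (xg g) z₁
        hzk₁ hzf₁ n (hi0 g) (fun l _ hl => hWs g hgT l hl) (hle _ (hi0 g)) (hle n le_rfl)
      refine ⟨z₁, z₂, hz₁, hz₂, hzk₁, by rw [hzk₂, hWn g hgT], by rw [hzf₂, hWn g hgT], ?_⟩
      rw [hza₂, hza₁, D.a_one, zero_add, Finset.range_eq_Ico,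
        ← Finset.Ico_union_Ico_eq_Ico (Nat.zero_le (i0 g)) (hi0 g), Finset.filter_union,
        Finset.sum_union]
      exact Finset.disjoint_filter_filter (Finset.Ico_disjoint_Ico_consecutive 0 (i0 g) n)
    choose! z₁ z₂ hz₁ hz₂ hkz₁ hkz hfz haz using hsurg
    -- size of the truncated element
    have hsmall : ∀ g ∈ Bad, ν (D.a (z₁ g * z₂ g)) ≤
        lam ^ (Lg g + jf (τg g)) * ν v₀ / 8 := by
      intro g hg
      have hgT := hBadT g hg
      rw [haz g hg]
      have e1 := height_sum_bound n (fun i => D.k (W g i)) (K g)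
        (fun i hi => hi0max g i hi.le) (xg g) τ₀ θ lam (by positivity) hθ0 hθlam
        (fun y hy => hxg2 g hg y hy)
      have e2 : ν (∑ i ∈ (Finset.range n).filter (fun i => D.k (W g i) ≤ Lg g),
          (D.a (W g (i + 1)) - D.a (W g i))) ≤
          αm * ∑ i ∈ (Finset.range n).filter (fun i => D.k (W g i) ≤ Lg g),
            lam ^ (D.k (W g i)) := by
        rw [Finset.mul_sum]
        refine (seminorm_sum_le ν _ _).trans (Finset.sum_le_sum fun i hi => ?_)
        rw [Finset.mem_filter, Finset.mem_range] at hi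
        exact hinc g hgT i hi.1
      have e3 : τ₀ * θ ^ xg g ≤ (τg g : ℝ) := hxg g hg
      have e4 := hjf (τg g) (hτge g hg)
      have e5 : 0 < lam ^ (Lg g) := by positivity
      calc _ ≤ αm * (τ₀ * θ ^ xg g * lam ^ (K g - xg g) * κ₀) :=
            e2.trans (mul_le_mul_of_nonneg_left e1 hαm0.le)
        _ ≤ αm * ((τg g : ℝ) * lam ^ (Lg g) * κ₀) := by
            refine mul_le_mul_of_nonneg_left ?_ hαm0.le
            refine mul_le_mul_of_nonneg_right ?_ hκ₀pos.le
            exact mul_le_mul_of_nonneg_right e3 e5.le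
        _ = (c₆ * τg g) * (lam ^ (Lg g) * ν v₀ / 8) := by
            rw [hc₆]; field_simp
        _ ≤ lam ^ (jf (τg g)) * (lam ^ (Lg g) * ν v₀ / 8) :=
            mul_le_mul_of_nonneg_right e4 (by positivity)
        _ = _ := by
            rw [zpow_add₀ hlam0.ne', zpow_natCast]; ring
    -- lengths
    have hlen : ∀ g ∈ Bad,
        (kept (fun l => D.k (W g l)) (Lg g) 0 (i0 g)
          + R * (2 * H + 1) * cross (fun l => D.k (W g l)) (Lg g) H 0 (i0 g)
          + 2 * (R * (xg g + H + 1))) +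
        (C₄ * (((jf (τg g) : ℤ) - xg g).natAbs + mf (τg g) + 1)) +
        (kept (fun l => D.k (W g l)) (Lg g) (i0 g) n
          + R * (2 * H + 1) * cross (fun l => D.k (W g l)) (Lg g) H (i0 g) n
          + 2 * (R * (xg g + H + 1))) ≤ n := by
      intro g hg
      set h : ℕ → ℤ := fun l => D.k (W g l) with hh
      have hdisj := Finset.Ico_disjoint_Ico_consecutive 0 (i0 g) n
      have hk1 : kept h (Lg g) 0 (i0 g) + kept h (Lg g) (i0 g) n =
          ((Finset.range n).filter fun l => h l ≤ Lg g).card := by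
        unfold kept
        rw [Finset.range_eq_Ico, ← Finset.Ico_union_Ico_eq_Ico (Nat.zero_le (i0 g)) (hi0 g),
          Finset.filter_union, Finset.card_union_of_disjoint
            (Finset.disjoint_filter_filter hdisj)]
      have hk2 : cross h (Lg g) H 0 (i0 g) + cross h (Lg g) H (i0 g) n =
          ((Finset.range n).filter fun l => h l ≤ Lg g ∧ Lg g - H < h l).card := by
        unfold cross
        rw [Finset.range_eq_Ico, ← Finset.Ico_union_Ico_eq_Ico (Nat.zero_le (i0 g)) (hi0 g),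
          Finset.filter_union, Finset.card_union_of_disjoint
            (Finset.disjoint_filter_filter hdisj)]
      have hk3 : ((Finset.range n).filter fun l => h l ≤ Lg g).card + τg g = n := by
        have e1 := Finset.card_filter_add_card_filter_not (s := Finset.range n)
          (fun l => h l ≤ Lg g)
        rw [Finset.card_range] at e1
        have e2 : τg g = ((Finset.range n).filter fun l => ¬ h l ≤ Lg g).card := by
          simp only [hτg, hN, hLg, hh, not_le]
        rw [e2]; exact e1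
      have hk4 : ((Finset.range n).filter fun l => h l ≤ Lg g ∧ Lg g - H < h l).card + τg g ≤
          N g (xg g + H) := by
        have e2 : τg g = ((Finset.range n).filter fun l => Lg g < h l).card := by
          simp only [hτg, hN, hLg, hh]
        rw [e2, ← Finset.card_union_of_disjoint]
        · refine Finset.card_le_card fun l hl => ?_
          simp only [Finset.mem_union, Finset.mem_filter, hLg] at hl ⊢
          rcases hl with hl | hl
          · refine ⟨hl.1, ?_⟩
            push_cast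
            have := hl.2.2
            simp only [hh] at this ⊢
            linarith
          · refine ⟨hl.1, ?_⟩
            push_cast
            have := hl.2
            simp only [hh] at this ⊢
            linarith
        · rw [Finset.disjoint_filter]
          intro l _ h1 h2
          exact absurd h2 (not_lt.2 h1.1)
      have hk5 : 4 * (R * (2 * H + 1) *
          ((Finset.range n).filter fun l => h l ≤ Lg g ∧ Lg g - H < h l).card) ≤ τg g := by
        set cr := ((Finset.range n).filter fun l => h l ≤ Lg g ∧ Lg g - H < h l).card with hcr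
        have e1 : (N g (xg g + H) : ℝ) ≤ τ₀ * θ ^ (xg g + H) := hxg2 g hg _ (by omega)
        have e2 : (cr : ℝ) + τg g ≤ N g (xg g + H) := by exact_mod_cast hk4
        have e3 : τ₀ * θ ^ xg g ≤ (τg g : ℝ) := hxg g hg
        have e4 : (1 : ℝ) ≤ θ ^ H := one_le_pow₀ hθ1.le
        have e5 : (cr : ℝ) ≤ (θ ^ H - 1) * τg g := by
          rw [pow_add] at e1
          have : τ₀ * (θ ^ xg g * θ ^ H) ≤ θ ^ H * τg g := by
            have := mul_le_mul_of_nonneg_right e3 (by linarith : (0 : ℝ) ≤ θ ^ H)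
            linarith
          linarith
        have e6 : ((R * (2 * H + 1) : ℕ) : ℝ) * cr ≤ 1 / 4 * τg g := by
          calc ((R * (2 * H + 1) : ℕ) : ℝ) * cr
              ≤ ((R * (2 * H + 1) : ℕ) : ℝ) * ((θ ^ H - 1) * τg g) :=
                mul_le_mul_of_nonneg_left e5 (Nat.cast_nonneg _)
            _ = (((R * (2 * H + 1) : ℕ) : ℝ) * (θ ^ H - 1)) * τg g := by ring
            _ ≤ 1 / 4 * τg g := mul_le_mul_of_nonneg_right hθR (Nat.cast_nonneg _)
        have e7 : ((4 * (R * (2 * H + 1) * cr) : ℕ) : ℝ) ≤ (τg g : ℝ) := by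
          push_cast at e6 ⊢
          linarith
        exact_mod_cast e7
      have hk6 := hlenf (τg g) (hτge g hg)
      have hk7 := hxX g hg
      have hk8 : C₄ * (((jf (τg g) : ℤ) - xg g).natAbs + mf (τg g) + 1) ≤
          C₄ * (Xf (τg g) + jf (τg g) + mf (τg g) + 1) := Nat.mul_le_mul_left _ (by omega)
      have hk9 : R * (xg g + H + 1) ≤ R * (Xf (τg g) + H + 1) := Nat.mul_le_mul_left _ (by omega)
      have hk10 : R * (2 * H + 1) * cross h (Lg g) H 0 (i0 g) +
          R * (2 * H + 1) * cross h (Lg g) H (i0 g) n = R * (2 * H + 1) *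
          ((Finset.range n).filter fun l => h l ≤ Lg g ∧ Lg g - H < h l).card := by
        rw [← mul_add, hk2]
      omega
    -- each value of `τ`
    have hτcount : ∀ τ, τ₀ ≤ τ → ((Bad.filter fun g => τg g = τ).card) * (τ * (τ + 1)) ≤
        (T ^ n).card := by
      intro τ hτ
      set Bτ := Bad.filter fun g => τg g = τ with hBτ
      have hBτB : ∀ g ∈ Bτ, g ∈ Bad := fun g hg => (Finset.mem_filter.1 hg).1
      have hBττ : ∀ g ∈ Bτ, τg g = τ := fun g hg => (Finset.mem_filter.1 hg).2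
      set code : G → G × ℤ := fun g => (z₁ g * z₂ g, Lg g) with hcode
      set Xτ := Bτ.image code with hXτ
      have hsec : ∀ x ∈ Xτ, ∃ g ∈ Bτ, code g = x := by
        intro x hx
        rw [hXτ, Finset.mem_image] at hx
        exact hx
      choose! sec hsecB hsecx using hsec
      have hdec := D.decode ν lam hlam hν T p (mf τ) (jf τ) w n hp v₀ hv₀ hw Xτ
        (by
          intro x hx
          have h1 := hsmall (sec x) (hBτB _ (hsecB x hx))
          rw [hBττ _ (hsecB x hx)] at h1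
          have h2 := hsecx x hx
          simp only [hcode] at h2
          rw [← h2]
          exact h1)
        (fun x s => z₁ (sec x) * D.ins (D.f (z₁ (sec x))) ((jf τ : ℤ) - xg (sec x))
          (D.pat p (mf τ) v₀ s) * z₂ (sec x))
        (by
          intro x hx s hs
          have hgB := hBτB _ (hsecB x hx)
          have h2 := hsecx x hx
          simp only [hcode] at h2
          have hx1 : z₁ (sec x) * z₂ (sec x) = x.1 := congrArg Prod.fst h2
          have hx2 : Lg (sec x) = x.2 := congrArg Prod.snd h2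
          refine ⟨?_, ?_, ?_, ?_⟩
          · have h3 := hlen (sec x) hgB
            rw [hBττ _ (hsecB x hx)] at h3
            refine Finset.pow_subset_pow_right h1T h3 ?_
            rw [pow_add, pow_add]
            exact Finset.mul_mem_mul (Finset.mul_mem_mul (hz₁ _ hgB) (hC₄ _ _ _ s hs)) (hz₂ _ hgB)
          · rw [D.k_insert, hx1]
          · rw [D.f_insert, hx1]
          · have hx3 : K (sec x) + ((jf τ : ℤ) - xg (sec x)) = x.2 + jf τ := by
              rw [← hx2]; simp only [hLg]; ring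
            rw [D.a_insert, hkz₁ _ hgB, hx1, hx3])
      have hfib : Bτ.card ≤ (τ + 1) ^ (Xf τ * (Fintype.card F * T.card)) * Xτ.card := by
        rw [hXτ]
        refine Finset.card_le_mul_card_image Bτ _ fun b hb => ?_
        rw [← mul_assoc]
        refine D.content_count T (Bτ.filter fun g => code g = b) W n (Xf τ) τ b.2 b.1
          ?_ ?_ ?_ ?_ ?_ ?_ ?_ ?_
        · intro g hg
          exact hW0 g (hBadT g (hBτB g (Finset.mem_filter.1 hg).1))
        · intro g hg
          exact hWn g (hBadT g (hBτB g (Finset.mem_filter.1 hg).1))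
        · intro g hg
          exact hWs g (hBadT g (hBτB g (Finset.mem_filter.1 hg).1))
        · intro g hg i hi
          have h1 := hBτB g (Finset.mem_filter.1 hg).1
          have h2 := (Finset.mem_filter.1 hg).2
          have h3 := hxX g h1
          rw [hBττ g (Finset.mem_filter.1 hg).1] at h3
          have h4 := hi0max g i hi.le
          rw [← h2]
          simp only [hcode, hLg, hK]
          have h5 : (xg g : ℤ) ≤ Xf τ := by exact_mod_cast h3
          linarith
        · intro g hg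
          have h2 := (Finset.mem_filter.1 hg).2
          have h3 := hBττ g (Finset.mem_filter.1 hg).1
          rw [← h2, ← h3]
        · intro g hg
          have h1 := hBτB g (Finset.mem_filter.1 hg).1
          have h2 := (Finset.mem_filter.1 hg).2
          rw [← h2]
          exact (hkz g h1).symm
        · intro g hg
          have h1 := hBτB g (Finset.mem_filter.1 hg).1
          have h2 := (Finset.mem_filter.1 hg).2
          rw [← h2]
          exact (hfz g h1).symm
        · intro g hg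
          have h1 := hBτB g (Finset.mem_filter.1 hg).1
          have h2 := (Finset.mem_filter.1 hg).2
          rw [← h2]
          exact haz g h1
      have hcnt := hcntf τ hτ
      have h2m : 0 < 2 ^ mf τ := by positivity
      refine Nat.le_of_mul_le_mul_left ?_ h2m
      calc 2 ^ mf τ * (Bτ.card * (τ * (τ + 1)))
          ≤ 2 ^ mf τ * (((τ + 1) ^ (Xf τ * (Fintype.card F * T.card)) * Xτ.card) * (τ * (τ + 1))) :=
            Nat.mul_le_mul_left _ (Nat.mul_le_mul_right _ hfib)
        _ = (Xτ.card * 2 ^ mf τ) *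
            ((τ + 1) ^ (Xf τ * (Fintype.card F * T.card)) * (τ * (τ + 1))) := by ring
        _ ≤ ((2 * w + 1) * (T ^ n).card) *
            ((τ + 1) ^ (Xf τ * (Fintype.card F * T.card)) * (τ * (τ + 1))) :=
            Nat.mul_le_mul_right _ hdec
        _ = ((2 * w + 1) * (τ + 1) ^ (Xf τ * (Fintype.card F * T.card)) * (τ * (τ + 1))) *
            (T ^ n).card := by ring
        _ ≤ 2 ^ mf τ * (T ^ n).card := Nat.mul_le_mul_right _ hcnt
    -- summation
    have hsum : (Bad.card : ℝ) ≤ (T ^ n).card * (1 / τ₀) := by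
      have hmaps : ∀ g ∈ Bad, τg g ∈ Finset.Ico τ₀ (n + 1) := fun g hg =>
        Finset.mem_Ico.2 ⟨hτge g hg, by have := hNn g (xg g); simp only [hτg]; omega⟩
      have e1 : (Bad.card : ℝ) = ∑ τ ∈ Finset.Ico τ₀ (n + 1),
          ((Bad.filter fun g => τg g = τ).card : ℝ) := by
        rw [Finset.card_eq_sum_card_fiberwise hmaps]
        push_cast; rfl
      rw [e1]
      calc _ ≤ ∑ τ ∈ Finset.Ico τ₀ (n + 1), ((T ^ n).card : ℝ) * (1 / (τ * (τ + 1))) := by
            refine Finset.sum_le_sum fun τ hτ => ?_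
            have h1 := hτcount τ (Finset.mem_Ico.1 hτ).1
            have h2 : (0 : ℝ) < τ := by
              have : 0 < τ := by have := (Finset.mem_Ico.1 hτ).1; omega
              exact_mod_cast this
            rw [mul_one_div, le_div_iff₀ (by positivity)]
            exact_mod_cast h1
        _ = (T ^ n).card * ∑ τ ∈ Finset.Ico τ₀ (n + 1), (1 : ℝ) / (τ * (τ + 1)) := by
            rw [Finset.mul_sum]
        _ ≤ _ := mul_le_mul_of_nonneg_left (sum_inv_le τ₀ (n + 1) (by omega)) (Nat.cast_nonneg _)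
    have h2 : (1 : ℝ) / τ₀ ≤ 1 / 2 := one_div_le_one_div_of_le (by norm_num) hτ₀'
    have h3 : (Bad.card : ℝ) ≤ (T ^ n).card * (1 / 2) :=
      hsum.trans (mul_le_mul_of_nonneg_left h2 (Nat.cast_nonneg _))
    have h4 : ((2 * Bad.card : ℕ) : ℝ) ≤ ((T ^ n).card : ℝ) := by push_cast; linarith
    exact_mod_cast h4
  -- good elements
  have hgoodcard : ((T ^ n).filter fun g => good g).card * 2 ^ m₁ ≤
      (2 * w + 1) * (T ^ (n + C₄ * (j₁ + m₁ + 1))).card := by
    set Gd := (T ^ n).filter fun g => good g with hGd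
    have hGdT : ∀ g ∈ Gd, g ∈ T ^ n := fun g hg => (Finset.mem_filter.1 hg).1
    set X := Gd.image (fun g => (g, K g)) with hX
    have hXc : X.card = Gd.card := by
      rw [hX]
      exact Finset.card_image_of_injective _ fun a b h => (Prod.ext_iff.1 h).1
    rw [← hXc]
    have hmemX : ∀ x ∈ X, x.1 ∈ Gd ∧ x.2 = K x.1 := by
      intro x hx
      rw [hX, Finset.mem_image] at hx
      obtain ⟨g, hg, rfl⟩ := hx
      exact ⟨hg, rfl⟩
    refine D.decode ν lam hlam hν T p m₁ j₁ w (n + C₄ * (j₁ + m₁ + 1)) hp v₀ hv₀ hw X ?_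
      (fun x s => W x.1 (i0 x.1) * D.ins (D.f (W x.1 (i0 x.1))) (j₁ : ℤ)
        (D.pat p m₁ v₀ s) * ((W x.1 (i0 x.1))⁻¹ * x.1)) ?_
    · intro x hx
      obtain ⟨hxG, hxK⟩ := hmemX x hx
      have hgT := hGdT _ hxG
      have hgd : good x.1 := (Finset.mem_filter.1 hxG).2
      set g := x.1 with hg
      rw [hxK]
      have e1 := height_sum_bound n (fun i => D.k (W g i)) (K g)
        (fun i hi => hi0max g i hi.le) 0 τ₀ θ lam (by positivity) hθ0 hθlam
        (fun y _ => (hgd y).le)
      have e0 : (Finset.range n).filter (fun i => D.k (W g i) ≤ K g - ((0 : ℕ) : ℤ)) =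
          Finset.range n := by
        rw [Finset.filter_true_of_mem]
        intro i hi
        have := hi0max g i (Finset.mem_range.1 hi).le
        simpa [hK] using this
      rw [e0] at e1
      have e2 : D.a g = ∑ i ∈ Finset.range n, (D.a (W g (i + 1)) - D.a (W g i)) := by
        rw [Finset.sum_range_sub (fun i => D.a (W g i)), hWn g hgT, hW0 g hgT, D.a_one, sub_zero]
      have e3 : ν (D.a g) ≤ αm * ∑ i ∈ Finset.range n, lam ^ (D.k (W g i)) := by
        rw [e2, Finset.mul_sum]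
        refine (seminorm_sum_le ν _ _).trans (Finset.sum_le_sum fun i hi => ?_)
        exact hinc g hgT i (Finset.mem_range.1 hi)
      calc ν (D.a g) ≤ αm * (τ₀ * θ ^ 0 * lam ^ (K g - ((0 : ℕ) : ℤ)) * κ₀) :=
            e3.trans (mul_le_mul_of_nonneg_left e1 hαm0.le)
        _ = (c₆ * τ₀) * (lam ^ (K g) * ν v₀ / 8) := by
            rw [hc₆, pow_zero, Nat.cast_zero, sub_zero]; field_simp
        _ ≤ lam ^ j₁ * (lam ^ (K g) * ν v₀ / 8) :=
            mul_le_mul_of_nonneg_right hj₁ (by positivity)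
        _ = _ := by
            rw [zpow_add₀ hlam0.ne', zpow_natCast]; ring
    · intro x hx s hs
      obtain ⟨hxG, hxK⟩ := hmemX x hx
      have hgT := hGdT _ hxG
      have hu : W x.1 (i0 x.1) * ((W x.1 (i0 x.1))⁻¹ * x.1) = x.1 := by group
      refine ⟨?_, ?_, ?_, ?_⟩
      · have h1 : n + C₄ * (j₁ + m₁ + 1) =
            i0 x.1 + C₄ * (((j₁ : ℕ) : ℤ).natAbs + m₁ + 1) + (n - i0 x.1) := by
          have := hi0 x.1
          rw [Int.natAbs_natCast]; omega
        rw [h1, pow_add, pow_add]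
        exact Finset.mul_mem_mul (Finset.mul_mem_mul (hWp _ hgT _ (hi0 _)) (hC₄ _ _ _ s hs))
          (hWq _ hgT _ (hi0 _))
      · rw [D.k_insert, hu]
      · rw [D.f_insert, hu]
      · rw [D.a_insert, hu, hxK]
  have hsplit : ((T ^ n).filter fun g => good g).card + ((T ^ n).filter fun g => ¬ good g).card =
      (T ^ n).card := Finset.card_filter_add_card_filter_not _
  have h4 : 4 * ((T ^ n).filter fun g => good g).card ≤ (T ^ (n + C₄ * (j₁ + m₁ + 1))).card := by
    have hpos : 0 < 2 * w + 1 := by omega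
    refine Nat.le_of_mul_le_mul_left ?_ hpos
    calc (2 * w + 1) * (4 * ((T ^ n).filter fun g => good g).card)
        = ((T ^ n).filter fun g => good g).card * (4 * (2 * w + 1)) := by ring
      _ ≤ ((T ^ n).filter fun g => good g).card * 2 ^ m₁ := Nat.mul_le_mul_left _ hm₁'
      _ ≤ _ := hgoodcard
  omega

end LineData

end Pool.Agent.RatioGrowth
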