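import Mathlib
import Pool.Agent.RatioGrowth.LineMain

set_option autoImplicit false

open Pointwise

namespace Pool.Agent.RatioGrowth

section Construct

variable {G : Type*} [Group G] (H : Subgroup G) (χ : H →* Multiplicative ℤ)

/-- the commutative group structure on an abelian kernel -/
@[reducible] def kerCommGroup (hcomm : ∀ x ∈ χ.ker, ∀ y ∈ χ.ker, x * y = y * x) : CommGroup χ.ker :=
  { (inferInstance : Group χ.ker) with
    mul_comm := fun x y => Subtype.ext (hcomm x x.2 y y.2) }

/-- representatives of right cosets, with `1` representing the trivial coset -/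
noncomputable def repr (H : Subgroup G) (φ : Quotient (QuotientGroup.rightRel H)) : G := by
  classical
  exact if φ = Quotient.mk _ (1 : G) then 1 else φ.out

lemma repr_mk (φ : Quotient (QuotientGroup.rightRel H)) :
    (Quotient.mk (QuotientGroup.rightRel H) (repr H φ)) = φ := by
  classical
  unfold repr
  split_ifs with h
  · exact h.symm
  · exact Quotient.out_eq φ

lemma mul_repr_inv_mem (g : G) :
    g * (repr H (Quotient.mk (QuotientGroup.rightRel H) g))⁻¹ ∈ H := by
  have h := repr_mk H (Quotient.mk (QuotientGroup.rightRel H) g)
  have h2 := Quotient.exact h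
  exact QuotientGroup.rightRel_apply.1 h2

lemma repr_one : repr H (Quotient.mk (QuotientGroup.rightRel H) 1) = 1 := by
  unfold repr; simp

variable (t : H) (ht : χ t = Multiplicative.ofAdd 1)
  (hcomm : ∀ x ∈ χ.ker, ∀ y ∈ χ.ker, x * y = y * x)

/-- conjugation by powers of `t` on the kernel -/
def conjKer (j : ℤ) : χ.ker →* χ.ker where
  toFun x := ⟨t ^ j * x * (t ^ j)⁻¹, by
    rw [MonoidHom.mem_ker, map_mul, map_mul, (MonoidHom.mem_ker).1 x.2]; simp⟩
  map_one' := by ext; simp
  map_mul' x y := by
    ext
    simp

include ht in
lemma χ_zpow (j : ℤ) : χ (t ^ j) = Multiplicative.ofAdd j := by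
  rw [map_zpow, ht, ← ofAdd_zsmul]; simp

/-- the `H`-part of an element -/
noncomputable def hpart (g : G) : H :=
  ⟨g * (repr H (Quotient.mk (QuotientGroup.rightRel H) g))⁻¹, mul_repr_inv_mem H g⟩

/-- height -/
noncomputable def height (g : G) : ℤ := Multiplicative.toAdd (χ (hpart H g))

include ht in
lemma apart_mem (x : H) : x * (t ^ (Multiplicative.toAdd (χ x)))⁻¹ ∈ χ.ker := by
  rw [MonoidHom.mem_ker, map_mul, map_inv, χ_zpow H χ t ht]
  simp

lemma hpart_mul (x : H) (φ : Quotient (QuotientGroup.rightRel H)) :
    Quotient.mk (QuotientGroup.rightRel H) ((x : G) * repr H φ) = φ ∧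
      hpart H ((x : G) * repr H φ) = x := by
  have h1 : Quotient.mk (QuotientGroup.rightRel H) ((x : G) * repr H φ) = φ := by
    conv_rhs => rw [← repr_mk H φ]
    refine Quotient.sound ?_
    rw [← Quotient.eq_iff_equiv, Quotient.eq, QuotientGroup.rightRel_apply]
    simp
  refine ⟨h1, ?_⟩
  unfold hpart
  ext
  simp only [h1]
  group

/-- The line structure of a group with a finite index subgroup `A ⋊ ℤ`. -/
noncomputable def lineData :
    letI := kerCommGroup H χ hcomm
    LineData G (Additive χ.ker) (Quotient (QuotientGroup.rightRel H)) :=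
  letI := kerCommGroup H χ hcomm
  { ι := fun v => ((Additive.toMul v : χ.ker) : H)
    τ := (t : G)
    r := repr H
    a := fun g => Additive.ofMul ⟨hpart H g * (t ^ (Multiplicative.toAdd (χ (hpart H g))))⁻¹,
      apart_mem H χ t ht _⟩
    k := height H χ
    f := fun g => Quotient.mk (QuotientGroup.rightRel H) g
    sh := fun j => MonoidHom.toAdditive (conjKer H χ t j)
    sh_add := by
      intro i j v
      apply Additive.toMul.injective
      ext
      simp [conjKer, zpow_add, mul_assoc]
    ι_add := by
      intro v w
      simp
    conj := by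
      intro j v
      simp [conjKer]
    repr := by
      intro g
      simp only [toMul_ofMul, height]
      unfold hpart
      simp
    a_spec := by
      intro v j φ
      set x : H := ((Additive.toMul v : χ.ker) : H) * t ^ j with hx
      have h1 : (((Additive.toMul v : χ.ker) : H) : G) * (t : G) ^ j * repr H φ
          = (x : G) * repr H φ := by simp [hx]
      have h2 := (hpart_mul H x φ).2
      have h3 : χ x = Multiplicative.ofAdd j := by
        rw [hx, map_mul, (MonoidHom.mem_ker).1 (Additive.toMul v).2, χ_zpow H χ t ht, one_mul]
      apply Additive.toMul.injective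
      ext
      simp only [toMul_ofMul, h1, h2, h3, toAdd_ofAdd]
      simp [hx]
    k_spec := by
      intro v j φ
      set x : H := ((Additive.toMul v : χ.ker) : H) * t ^ j with hx
      have h1 : (((Additive.toMul v : χ.ker) : H) : G) * (t : G) ^ j * repr H φ
          = (x : G) * repr H φ := by simp [hx]
      have h2 := (hpart_mul H x φ).2
      have h3 : χ x = Multiplicative.ofAdd j := by
        rw [hx, map_mul, (MonoidHom.mem_ker).1 (Additive.toMul v).2, χ_zpow H χ t ht, one_mul]
      simp only [height, h1, h2, h3, toAdd_ofAdd]
    f_spec := by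
      intro v j φ
      set x : H := ((Additive.toMul v : χ.ker) : H) * t ^ j with hx
      have h1 : (((Additive.toMul v : χ.ker) : H) : G) * (t : G) ^ j * repr H φ
          = (x : G) * repr H φ := by simp [hx]
      rw [h1]
      exact (hpart_mul H x φ).1
    a_one := by
      have h2 := (hpart_mul H 1 (Quotient.mk (QuotientGroup.rightRel H) 1)).2
      rw [repr_one] at h2
      simp only [OneMemClass.coe_one, mul_one] at h2
      apply Additive.toMul.injective
      ext
      simp [h2]
    k_one := by
      have h2 := (hpart_mul H 1 (Quotient.mk (QuotientGroup.rightRel H) 1)).2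
      rw [repr_one] at h2
      simp only [OneMemClass.coe_one, mul_one] at h2
      simp [height, h2] }

end Construct

end Pool.Agent.RatioGrowth
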