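import Mathlib
import Pool.Agent.RatioGrowth.LineGroup

set_option autoImplicit false

open Pointwise

namespace Pool.Agent.RatioGrowth

variable {G : Type*} [Group G] (H : Subgroup G) (χ : H →* Multiplicative ℤ) (t : H)

lemma conjKer_add (i j : ℤ) (x : χ.ker) :
    conjKer H χ t (i + j) x = conjKer H χ t i (conjKer H χ t j x) := by
  ext
  simp [conjKer, zpow_add, mul_assoc]

lemma conjKer_zero (x : χ.ker) : conjKer H χ t 0 x = x := by
  ext
  simp [conjKer]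

lemma seminorm_zpow (ν : χ.ker → ℝ) (lam : ℝ) (hlam : 1 < lam)
    (hνt : ∀ x, ν (conjKer H χ t 1 x) = lam * ν x) (j : ℤ) (x : χ.ker) :
    ν (conjKer H χ t j x) = lam ^ j * ν x := by
  have hnat : ∀ (m : ℕ) (x : χ.ker), ν (conjKer H χ t (m : ℤ) x) = lam ^ m * ν x := by
    intro m
    induction m with
    | zero => intro x; simp [conjKer_zero]
    | succ m ih =>
      intro x
      have : ((m + 1 : ℕ) : ℤ) = 1 + (m : ℤ) := by push_cast; ring
      rw [this, conjKer_add, hνt, ih, pow_succ]; ring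
  obtain ⟨m, rfl | rfl⟩ := Int.eq_nat_or_neg j
  · rw [hnat, zpow_natCast]
  · have h := hnat m (conjKer H χ t (-(m : ℤ)) x)
    rw [← conjKer_add, add_neg_cancel, conjKer_zero] at h
    rw [zpow_neg, zpow_natCast, h]
    have : lam ^ m ≠ 0 := pow_ne_zero _ (by linarith)
    field_simp

/-- Finite index subgroup `A ⋊ ℤ` with `A` abelian carrying an expanding seminorm. -/
theorem ratio_of_seminorm [DecidableEq G] [H.FiniteIndex] (ht : χ t = Multiplicative.ofAdd 1)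
    (hcomm : ∀ x ∈ χ.ker, ∀ y ∈ χ.ker, x * y = y * x)
    (ν : χ.ker → ℝ) (hν1 : ν 1 = 0) (hνmul : ∀ x y, ν (x * y) ≤ ν x + ν y)
    (hνinv : ∀ x, ν x⁻¹ = ν x) (lam : ℝ) (hlam : 1 < lam)
    (hνt : ∀ x, ν (conjKer H χ t 1 x) = lam * ν x) (x₀ : χ.ker) (hx₀ : 0 < ν x₀)
    (S : Finset G) (hS : Subgroup.closure (S : Set G) = ⊤) :
    ∃ ε : ℝ, 0 < ε ∧ ∀ n : ℕ,
      ε * (((S ∪ S⁻¹ ∪ {1}) ^ n).card : ℝ) ≤
        (((S ∪ S⁻¹ ∪ {1}) ^ (n + 1)).card : ℝ) - (((S ∪ S⁻¹ ∪ {1}) ^ n).card : ℝ) := by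
  have h1T : (1 : G) ∈ (S ∪ S⁻¹ ∪ {1}) := by simp
  have hfin : Finite (Quotient (QuotientGroup.rightRel H)) :=
    Finite.of_equiv _ (QuotientGroup.quotientRightRelEquivQuotientLeftRel H).symm
  let _ := kerCommGroup H χ hcomm
  set ν' : AddGroupSeminorm (Additive χ.ker) :=
    { toFun := fun v => ν (Additive.toMul v)
      map_zero' := hν1
      add_le' := fun v w => hνmul _ _
      neg' := fun v => hνinv _ } with hν'
  have hexp : ∀ (j : ℤ) (v : Additive χ.ker),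
      ν' ((lineData H χ t ht hcomm).sh j v) = lam ^ j * ν' v := by
    intro j v
    exact seminorm_zpow H χ t ν lam hlam hνt j (Additive.toMul v)
  obtain ⟨C, hC⟩ := (lineData H χ t ht hcomm).doubling ν' lam hlam hexp (Additive.ofMul x₀) hx₀
    (S ∪ S⁻¹ ∪ {1}) h1T (exists_pow_superset S hS)
  exact ratio_of_doubling _ h1T C hC

/-- A variant with a seminorm defined on all of `H` and either orientation of `t`. -/
theorem ratio_of_seminorm' [DecidableEq G] [H.FiniteIndex]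
    (ht : χ t = Multiplicative.ofAdd 1 ∨ χ t = Multiplicative.ofAdd (-1))
    (hcomm : ∀ x ∈ χ.ker, ∀ y ∈ χ.ker, x * y = y * x)
    (ν : H → ℝ) (hν1 : ν 1 = 0) (hνmul : ∀ x ∈ χ.ker, ∀ y ∈ χ.ker, ν (x * y) ≤ ν x + ν y)
    (hνinv : ∀ x ∈ χ.ker, ν x⁻¹ = ν x) (lam : ℝ) (hlam : 1 < lam)
    (hνt : ∀ x ∈ χ.ker, ν (t * x * t⁻¹) = lam * ν x) (x₀ : H) (hx₀k : x₀ ∈ χ.ker)
    (hx₀ : 0 < ν x₀) (S : Finset G) (hS : Subgroup.closure (S : Set G) = ⊤) :
    ∃ ε : ℝ, 0 < ε ∧ ∀ n : ℕ,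
      ε * (((S ∪ S⁻¹ ∪ {1}) ^ n).card : ℝ) ≤
        (((S ∪ S⁻¹ ∪ {1}) ^ (n + 1)).card : ℝ) - (((S ∪ S⁻¹ ∪ {1}) ^ n).card : ℝ) := by
  rcases ht with ht | ht
  · refine ratio_of_seminorm H χ t ht hcomm (fun x => ν x) hν1
      (fun x y => hνmul _ x.2 _ y.2) (fun x => hνinv _ x.2) lam hlam ?_ ⟨x₀, hx₀k⟩ hx₀ S hS
    intro x
    have := hνt x x.2
    simpa [conjKer] using this
  · have hk : ∀ x, x ∈ (χ⁻¹ : H →* Multiplicative ℤ).ker ↔ x ∈ χ.ker := by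
      intro x; simp [MonoidHom.mem_ker]
    refine ratio_of_seminorm H χ⁻¹ t (by simp [ht])
      (fun x hx y hy => hcomm x ((hk x).1 hx) y ((hk y).1 hy)) (fun x => ν x) hν1
      (fun x y => hνmul _ ((hk _).1 x.2) _ ((hk _).1 y.2)) (fun x => hνinv _ ((hk _).1 x.2)) lam hlam
      ?_ ⟨x₀, (hk _).2 hx₀k⟩ hx₀ S hS
    intro x
    have := hνt x ((hk _).1 x.2)
    simpa [conjKer] using this

end Pool.Agent.RatioGrowth
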