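import Mathlib
import Pool.Agent.RatioGrowth.Eigen

set_option autoImplicit false

namespace Pool.Agent.RatioGrowth

/-- Precomposition as a linear endomorphism of the complex dual. -/
def precomp {A : Type*} [AddCommGroup A] (σ : A →+ A) : Module.End ℂ (A →+ ℂ) where
  toFun ψ := ψ.comp σ
  map_add' ψ ψ' := by ext; simp
  map_smul' c ψ := by ext; simp

lemma precomp_apply {A : Type*} [AddCommGroup A] (σ : A →+ A) (ψ : A →+ ℂ) (v : A) :
    precomp σ ψ v = ψ (σ v) := rfl

instance dual_finite {A : Type*} [AddCommGroup A] [AddGroup.FG A] :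
    FiniteDimensional ℂ (A →+ ℂ) := by
  classical
  obtain ⟨E, hE⟩ := (AddGroup.FG.out : (⊤ : AddSubgroup A).FG)
  let L : (A →+ ℂ) →ₗ[ℂ] (E → ℂ) :=
    { toFun := fun ψ e => ψ e
      map_add' := fun ψ ψ' => by ext; simp
      map_smul' := fun c ψ => by ext; simp }
  refine FiniteDimensional.of_injective L ?_
  rw [← LinearMap.ker_eq_bot, LinearMap.ker_eq_bot']
  intro ψ hψ
  have h1 : ∀ e ∈ E, ψ e = 0 := fun e he => congrFun hψ ⟨e, he⟩
  have h2 : (E : Set A) ⊆ ψ.ker := fun e he => h1 e he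
  have h3 : AddSubgroup.closure (E : Set A) ≤ ψ.ker := (AddSubgroup.closure_le _).2 h2
  rw [hE] at h3
  ext v
  exact h3 (AddSubgroup.mem_top v)

/-- evaluation as a linear functional -/
def evalLin {A : Type*} [AddCommGroup A] (v : A) : (A →+ ℂ) →ₗ[ℂ] ℂ where
  toFun ψ := ψ v
  map_add' ψ ψ' := by simp
  map_smul' c ψ := by simp

/-- Either some complex character scales by a factor of modulus different from one, or all
integer coordinates of all shifts grow subexponentially. -/
theorem eigen_or_growth {A : Type*} [AddCommGroup A] [AddGroup.FG A] (sh : ℤ → A →+ A)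
    (sh_add : ∀ i j v, sh (i + j) v = sh i (sh j v)) (sh_zero : ∀ v, sh 0 v = v) :
    (∃ (μ : ℂ) (ψ : A →+ ℂ), ψ ≠ 0 ∧ (∀ v, ψ (sh 1 v) = μ * ψ v) ∧ ‖μ‖ ≠ 1) ∨
    (∀ (ψ : A →+ ℤ) (v : A) (ρ : ℝ), 1 < ρ → ∃ C : ℝ, 0 ≤ C ∧ ∀ j : ℤ,
      |((ψ (sh j v) : ℤ) : ℝ)| ≤ C * ρ ^ j.natAbs) := by
  by_cases h : ∀ μ, (precomp (sh 1)).HasEigenvalue μ → ‖μ‖ = 1
  · right
    have h' : ∀ μ, (precomp (sh (-1))).HasEigenvalue μ → ‖μ‖ ≤ 1 := by
      intro μ hμ
      obtain ⟨ψ, hψ⟩ := hμ.exists_hasEigenvector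
      have h1 : ∀ v, ψ (sh (-1) v) = μ * ψ v := fun v => by
        have := hψ.apply_eq_smul
        have h2 := congrArg (fun f : A →+ ℂ => f v) this
        simpa [precomp_apply] using h2
      have h2 : ∀ v, ψ v = μ * ψ (sh 1 v) := fun v => by
        have h3 := h1 (sh 1 v)
        rw [← sh_add, neg_add_cancel, sh_zero] at h3
        exact h3
      have hμ0 : μ ≠ 0 := by
        intro h0
        apply hψ.2
        ext v
        rw [h2 v, h0]; simp
      have h3 : (precomp (sh 1)).HasEigenvalue μ⁻¹ := by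
        refine Module.End.hasEigenvalue_of_hasEigenvector (x := ψ) ⟨?_, hψ.2⟩
        rw [Module.End.mem_eigenspace_iff]
        ext v
        rw [precomp_apply]
        have := h2 v
        simp only [AddMonoidHom.smul_apply, smul_eq_mul]
        rw [this]
        field_simp
      have h4 := h _ h3
      rw [norm_inv, inv_eq_one] at h4
      exact h4.le
    intro ψ v ρ hρ
    set ψc : A →+ ℂ := (Int.castAddHom ℂ).comp ψ with hψc
    obtain ⟨C₁, hC₁, h1⟩ := growth_of_eigen (precomp (sh 1)) (fun μ hμ => (h μ hμ).le) (evalLin v)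
      ρ hρ ψc
    obtain ⟨C₂, hC₂, h2⟩ := growth_of_eigen (precomp (sh (-1))) h' (evalLin v) ρ hρ ψc
    have hpow : ∀ (i : ℤ) (j : ℕ) (φ : A →+ ℂ) (w : A),
        ((precomp (sh i)) ^ j) φ w = φ (sh (j * i) w) := by
      intro i j
      induction j with
      | zero => intro φ w; simp [sh_zero]
      | succ j ih =>
        intro φ w
        rw [pow_succ, Module.End.mul_apply, ih, precomp_apply, ← sh_add]
        congr 2
        push_cast; ring_nf
    refine ⟨C₁ + C₂, by positivity, fun j => ?_⟩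
    have hnorm : ∀ z : ℤ, ‖((z : ℤ) : ℂ)‖ = |(z : ℝ)| := fun z => by simp
    obtain ⟨m, rfl | rfl⟩ := Int.eq_nat_or_neg j
    · have h3 := h1 m
      have h4 : evalLin v (((precomp (sh 1)) ^ m) ψc) = ((ψ (sh m v) : ℤ) : ℂ) := by
        change ((precomp (sh 1)) ^ m) ψc v = _
        rw [hpow, mul_one]; rfl
      rw [h4, hnorm] at h3
      rw [Int.natAbs_natCast]
      have : 0 ≤ C₂ * ρ ^ m := by positivity
      linarith
    · have h3 := h2 m
      have h4 : evalLin v (((precomp (sh (-1))) ^ m) ψc) = ((ψ (sh (-m) v) : ℤ) : ℂ) := by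
        change ((precomp (sh (-1))) ^ m) ψc v = _
        rw [hpow, mul_neg, mul_one]; rfl
      rw [h4, hnorm] at h3
      rw [Int.natAbs_neg, Int.natAbs_natCast]
      have : 0 ≤ C₁ * ρ ^ m := by positivity
      linarith
  · left
    push Not at h
    obtain ⟨μ, hμ, hne⟩ := h
    obtain ⟨ψ, hψ⟩ := hμ.exists_hasEigenvector
    refine ⟨μ, ψ, hψ.2, fun v => ?_, hne⟩
    have := hψ.apply_eq_smul
    have h2 := congrArg (fun f : A →+ ℂ => f v) this
    simpa [precomp_apply] using h2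

end Pool.Agent.RatioGrowth
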