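import Mathlib
import Pool.Agent.RatioGrowth.LineLemmas
import Pool.Agent.RatioGrowth.Eigen

set_option autoImplicit false

open Pointwise

namespace Pool.Agent.RatioGrowth

/-- Integer coordinates with finite fibres on a finitely generated abelian group. -/
theorem count_fg (A : Type*) [AddCommGroup A] [AddGroup.FG A] :
    ∃ (d c : ℕ) (ψ : Fin d → A →+ ℤ), ∀ (X : ℕ) (E : Finset A),
      (∀ a ∈ E, ∀ i, |ψ i a| ≤ X) → E.card ≤ c * (2 * X + 1) ^ d := by
  classical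
  obtain ⟨n, ι, _, p, hp, e, ⟨eq⟩⟩ := AddCommGroup.equiv_free_prod_directSum_zmod A
  have hne : ∀ i, NeZero (p i ^ e i) := fun i => ⟨pow_ne_zero _ (hp i).ne_zero⟩
  have hfin : Finite (DirectSum ι fun i => ZMod (p i ^ e i)) := by
    have : Finite (Π₀ i, ZMod (p i ^ e i)) := Finite.of_injective
      (fun f : (Π₀ i, ZMod (p i ^ e i)) => (f : ∀ i, ZMod (p i ^ e i))) DFunLike.coe_injective
    exact this
  have := Fintype.ofFinite (DirectSum ι fun i => ZMod (p i ^ e i))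
  refine ⟨n, Fintype.card (DirectSum ι fun i => ZMod (p i ^ e i)), fun i =>
    (Finsupp.applyAddHom i).comp ((AddMonoidHom.fst _ _).comp eq.toAddMonoidHom), fun X E hE => ?_⟩
  have hE' : ∀ a ∈ E, ∀ i, |(eq a).1 i| ≤ X := fun a ha i => hE a ha i
  calc E.card ≤ ((Finset.univ : Finset (DirectSum ι fun i => ZMod (p i ^ e i))) ×ˢ
        (Fintype.piFinset fun _ : Fin n => Finset.Icc (-(X : ℤ)) X)).card := by
        refine Finset.card_le_card_of_injOn (fun a => ((eq a).2, fun i => (eq a).1 i)) ?_ ?_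
        · intro a ha
          simp only [Finset.coe_product, Set.mem_prod, Finset.mem_coe, Finset.mem_univ, true_and,
            Fintype.mem_piFinset, Finset.mem_Icc]
          intro i
          exact abs_le.1 (hE' a ha i)
        · intro a _ b _ hab
          simp only [Prod.mk.injEq] at hab
          apply eq.injective
          refine Prod.ext ?_ hab.1
          ext i
          exact congrFun hab.2 i
    _ = _ := by
        rw [Finset.card_product, Finset.card_univ, Fintype.card_piFinset_const, Int.card_Icc]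
        congr 2
        omega

/-- Subexponential growth from coordinate bounds. -/
theorem not_exp {G A F : Type*} [Group G] [DecidableEq G] [Finite F] [AddCommGroup A]
    (a : G → A) (k : G → ℤ) (f : G → F)
    (hinj : ∀ g h, a g = a h → k g = k h → f g = f h → g = h) (T : Finset G)
    (d t : ℕ) (ψ : Fin d → A →+ ℤ)
    (hcount : ∀ (X : ℕ) (E : Finset A), (∀ a ∈ E, ∀ i, |ψ i a| ≤ X) → E.card ≤ t * (2 * X + 1) ^ d)
    (H : ℕ) (hk : ∀ n : ℕ, ∀ g ∈ T ^ n, |k g| ≤ H * n)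
    (hgrow : ∀ ρ : ℝ, 1 < ρ → ∃ C : ℝ, 0 ≤ C ∧ ∀ (n : ℕ), ∀ g ∈ T ^ n, ∀ i,
      |((ψ i (a g) : ℤ) : ℝ)| ≤ C * n * ρ ^ n) (c : ℝ) (hc : 1 < c) :
    ∃ n : ℕ, ((T ^ n).card : ℝ) < c ^ n := by
  classical
  have := Fintype.ofFinite F
  obtain ⟨ρ, hρ1, hρd⟩ : ∃ ρ : ℝ, 1 < ρ ∧ ρ ^ d < c := by
    refine ⟨c ^ (1 / ((d : ℝ) + 1)), Real.one_lt_rpow hc (by positivity), ?_⟩
    rw [← Real.rpow_natCast, ← Real.rpow_mul (by linarith)]
    conv_rhs => rw [← Real.rpow_one c]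
    apply Real.rpow_lt_rpow_of_exponent_lt hc
    rw [one_div, inv_mul_lt_iff₀ (by positivity)]
    linarith
  obtain ⟨C, hC0, hC⟩ := hgrow ρ hρ1
  set Q : ℝ := t * (2 * C + 3) ^ d * (2 * H + 1) * Fintype.card F with hQ
  have hQ0 : 0 ≤ Q := by positivity
  have hbound : ∀ n : ℕ, ((T ^ n).card : ℝ) ≤ Q * ((n : ℝ) + 1) ^ (d + 1) * (ρ ^ d) ^ n := by
    intro n
    set X : ℕ := ⌈C * n * ρ ^ n⌉₊ with hX
    have hρn : (1 : ℝ) ≤ ρ ^ n := one_le_pow₀ hρ1.le
    have h1 : (T ^ n).card ≤ ((T ^ n).image a).card * ((2 * H * n + 1) * Fintype.card F) := by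
      have h2 : (T ^ n).card ≤ (((T ^ n).image a) ×ˢ ((Finset.Icc (-((H * n : ℕ) : ℤ)) (H * n : ℕ)) ×ˢ
          (Finset.univ : Finset F))).card := by
        refine Finset.card_le_card_of_injOn (fun g => (a g, k g, f g)) ?_ ?_
        · intro g hg
          simp only [Finset.coe_product, Set.mem_prod, Finset.mem_coe, Finset.mem_univ, and_true,
            Finset.mem_Icc, Finset.mem_image]
          refine ⟨⟨g, hg, rfl⟩, ?_⟩
          have := abs_le.1 (hk n g hg)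
          push_cast
          exact this
        · intro g _ h _ hgh
          simp only [Prod.mk.injEq] at hgh
          exact hinj g h hgh.1 hgh.2.1 hgh.2.2
      rw [Finset.card_product, Finset.card_product, Int.card_Icc, Finset.card_univ] at h2
      have h3 : (((H * n : ℕ) : ℤ) + 1 - -((H * n : ℕ) : ℤ)).toNat = 2 * H * n + 1 := by
        have : (((H * n : ℕ) : ℤ) + 1 - -((H * n : ℕ) : ℤ)) = ((2 * H * n + 1 : ℕ) : ℤ) := by
          push_cast; ring
        rw [this, Int.toNat_natCast]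
      rw [h3] at h2
      exact h2
    have h4 : ((T ^ n).image a).card ≤ t * (2 * X + 1) ^ d := by
      refine hcount X _ fun v hv i => ?_
      obtain ⟨g, hg, rfl⟩ := Finset.mem_image.1 hv
      have h5 := hC n g hg i
      have h6 : |((ψ i (a g) : ℤ) : ℝ)| ≤ (X : ℝ) := h5.trans (Nat.le_ceil _)
      exact_mod_cast h6
    have h7 : (2 * (X : ℝ) + 1) ≤ (2 * C + 3) * ((n + 1) * ρ ^ n) := by
      have h8 : (X : ℝ) ≤ C * n * ρ ^ n + 1 := (Nat.ceil_lt_add_one (by positivity)).le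
      have h9 : (0 : ℝ) ≤ n := Nat.cast_nonneg n
      have h10 : (1 : ℝ) ≤ ((n : ℝ) + 1) * ρ ^ n := by nlinarith
      have h11 : C * n * ρ ^ n ≤ C * (((n : ℝ) + 1) * ρ ^ n) := by
        have : (n : ℝ) * ρ ^ n ≤ ((n : ℝ) + 1) * ρ ^ n := by nlinarith
        have := mul_le_mul_of_nonneg_left this hC0
        linarith
      linarith
    have h12 : ((T ^ n).card : ℝ) ≤ (t * (2 * (X : ℝ) + 1) ^ d) * ((2 * H * n + 1) * Fintype.card F) := by
      have : (T ^ n).card ≤ (t * (2 * X + 1) ^ d) * ((2 * H * n + 1) * Fintype.card F) :=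
        h1.trans (Nat.mul_le_mul_right _ h4)
      exact_mod_cast this
    have h13 : (2 * (X : ℝ) + 1) ^ d ≤ ((2 * C + 3) * ((n + 1) * ρ ^ n)) ^ d :=
      pow_le_pow_left₀ (by positivity) h7 d
    have h14 : (2 * (H : ℝ) * n + 1) ≤ (2 * H + 1) * (n + 1) := by
      have h9 : (0 : ℝ) ≤ n := Nat.cast_nonneg n
      have h10 : (0 : ℝ) ≤ H := Nat.cast_nonneg H
      nlinarith
    calc ((T ^ n).card : ℝ) ≤ (t * (2 * (X : ℝ) + 1) ^ d) * ((2 * H * n + 1) * Fintype.card F) := h12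
      _ ≤ (t * ((2 * C + 3) * ((n + 1) * ρ ^ n)) ^ d) * (((2 * H + 1) * (n + 1)) * Fintype.card F) := by
          gcongr
      _ = _ := by
          rw [hQ, mul_pow, mul_pow, ← pow_mul, ← pow_mul, mul_comm n d]; ring
  have hc0 : 0 < c := by linarith
  set q : ℝ := ρ ^ d / c with hq
  have hq0 : 0 < q := by positivity
  have hq1 : q < 1 := (div_lt_one hc0).2 hρd
  have htend := tendsto_pow_const_mul_const_pow_of_abs_lt_one (d + 1) (r := q)
    (by rw [abs_of_pos hq0]; exact hq1)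
  have htend2 := (Filter.tendsto_add_atTop_iff_nat 1).2 htend
  have htend3 := htend2.const_mul (Q / q)
  rw [mul_zero] at htend3
  obtain ⟨n, hn⟩ := (htend3.eventually (gt_mem_nhds one_pos)).exists
  refine ⟨n, lt_of_le_of_lt (hbound n) ?_⟩
  have h1 : Q / q * (((n + 1 : ℕ) : ℝ) ^ (d + 1) * q ^ (n + 1)) =
      Q * ((n : ℝ) + 1) ^ (d + 1) * (ρ ^ d) ^ n / c ^ n := by
    push_cast
    rw [pow_succ q n, hq, div_pow]
    field_simp
  rw [h1, div_lt_one (by positivity)] at hn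
  exact hn

namespace LineData

variable {G A F : Type*} [Group G] [AddCommGroup A] (D : LineData G A F)

/-- Growth bound for line data from growth bounds of conjugates. -/
theorem growth_bound [DecidableEq G] [Finite F] (T : Finset G) (d : ℕ) (ψ : Fin d → A →+ ℤ)
    (hsh : ∀ (i : Fin d) (v : A) (ρ : ℝ), 1 < ρ → ∃ C : ℝ, 0 ≤ C ∧ ∀ j : ℤ,
      |((ψ i (D.sh j v) : ℤ) : ℝ)| ≤ C * ρ ^ j.natAbs) :
    (∃ H : ℕ, ∀ n : ℕ, ∀ g ∈ T ^ n, |D.k g| ≤ H * n) ∧
    ∀ ρ : ℝ, 1 < ρ → ∃ C : ℝ, 0 ≤ C ∧ ∀ (n : ℕ), ∀ g ∈ T ^ n, ∀ i,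
      |((ψ i (D.a g) : ℤ) : ℝ)| ≤ C * n * ρ ^ n := by
  classical
  have := Fintype.ofFinite F
  obtain ⟨H, hH1, hH⟩ : ∃ H : ℕ, 1 ≤ H ∧ ∀ φ, ∀ s ∈ T, |D.k (D.r φ * s)| ≤ H := by
    refine ⟨(Finset.univ ×ˢ T).sup (fun x : F × G => (D.k (D.r x.1 * x.2)).natAbs) + 1, by omega,
      fun φ s hs => ?_⟩
    have h := Finset.le_sup (f := fun x : F × G => (D.k (D.r x.1 * x.2)).natAbs)
      (Finset.mem_product.2 ⟨Finset.mem_univ φ, hs⟩ : (φ, s) ∈ (Finset.univ ×ˢ T))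
    simp only at h
    rw [Int.abs_eq_natAbs]
    exact_mod_cast h.trans (Nat.le_succ _)
  have hkn : ∀ n : ℕ, ∀ g ∈ T ^ n, |D.k g| ≤ H * n := by
    intro n
    induction n with
    | zero =>
      intro g hg
      have : g = 1 := by simpa using hg
      subst this
      simp [D.k_one]
    | succ n ih =>
      intro g hg
      rw [pow_succ] at hg
      obtain ⟨x, hx, s, hs, rfl⟩ := Finset.mem_mul.1 hg
      rw [D.k_mul]
      refine (abs_add_le _ _).trans ?_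
      have h1 := ih x hx
      have h2 := hH (D.f x) s hs
      push_cast
      linarith
  refine ⟨⟨H, hkn⟩, fun ρ hρ => ?_⟩
  obtain ⟨ρ₁, hρ₁, hρ₁H⟩ : ∃ ρ₁ : ℝ, 1 < ρ₁ ∧ ρ₁ ^ H ≤ ρ := by
    refine ⟨ρ ^ (1 / (H : ℝ)), Real.one_lt_rpow hρ (by positivity), ?_⟩
    rw [← Real.rpow_natCast, ← Real.rpow_mul (by linarith)]
    have : (1 / (H : ℝ)) * H = 1 := by field_simp
    rw [this, Real.rpow_one]
  have hchoose : ∀ x : Fin d × F × G, ∃ C : ℝ, 0 ≤ C ∧ ∀ j : ℤ,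
      |((ψ x.1 (D.sh j (D.a (D.r x.2.1 * x.2.2))) : ℤ) : ℝ)| ≤ C * ρ₁ ^ j.natAbs := fun x =>
    hsh x.1 _ ρ₁ hρ₁
  choose Cx hCx0 hCx using hchoose
  set C : ℝ := ∑ x ∈ (Finset.univ ×ˢ (Finset.univ ×ˢ T) : Finset (Fin d × F × G)), Cx x with hC
  have hC0 : 0 ≤ C := Finset.sum_nonneg fun x _ => hCx0 x
  refine ⟨C, hC0, fun n => ?_⟩
  have hρn : ∀ n : ℕ, (1 : ℝ) ≤ ρ ^ n := fun n => one_le_pow₀ hρ.le
  induction n with
  | zero =>
    intro g hg i
    have : g = 1 := by simpa using hg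
    subst this
    simp [D.a_one]
  | succ n ih =>
    intro g hg i
    rw [pow_succ] at hg
    obtain ⟨x, hx, s, hs, rfl⟩ := Finset.mem_mul.1 hg
    rw [D.a_mul, map_add]
    push_cast
    refine (abs_add_le _ _).trans ?_
    have h1 := ih x hx i
    have h2 := hCx (i, D.f x, s) (D.k x)
    simp only at h2
    have h3 : Cx (i, D.f x, s) ≤ C :=
      Finset.single_le_sum (f := Cx) (fun x _ => hCx0 x)
        (Finset.mem_product.2 ⟨Finset.mem_univ _, Finset.mem_product.2 ⟨Finset.mem_univ _, hs⟩⟩)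
    have h4 : ρ₁ ^ (D.k x).natAbs ≤ ρ ^ n := by
      have h5 : (D.k x).natAbs ≤ H * n := by
        have := hkn n x hx
        rw [Int.abs_eq_natAbs] at this
        exact_mod_cast this
      calc ρ₁ ^ (D.k x).natAbs ≤ ρ₁ ^ (H * n) := pow_le_pow_right₀ hρ₁.le h5
        _ = (ρ₁ ^ H) ^ n := by rw [pow_mul]
        _ ≤ ρ ^ n := pow_le_pow_left₀ (by positivity) hρ₁H n
    have h6 : |((ψ i (D.sh (D.k x) (D.a (D.r (D.f x) * s))) : ℤ) : ℝ)| ≤ C * ρ ^ n := by
      refine h2.trans ?_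
      exact mul_le_mul h3 h4 (by positivity) hC0
    have h7 : ρ ^ n ≤ ρ ^ (n + 1) := pow_le_pow_right₀ hρ.le (Nat.le_succ n)
    have h8 : C * n * ρ ^ n ≤ C * n * ρ ^ (n + 1) :=
      mul_le_mul_of_nonneg_left h7 (by positivity)
    have h9 : C * ρ ^ n ≤ C * ρ ^ (n + 1) := mul_le_mul_of_nonneg_left h7 hC0
    calc _ ≤ C * n * ρ ^ n + C * ρ ^ n := add_le_add h1 h6
      _ ≤ C * n * ρ ^ (n + 1) + C * ρ ^ (n + 1) := add_le_add h8 h9
      _ = _ := by ring

end LineData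

end Pool.Agent.RatioGrowth
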