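import Mathlib
import Pool.Agent.RatioGrowth.LineSeminorm
import Pool.Agent.RatioGrowth.SubExp
import Pool.Agent.RatioGrowth.Spectral
import Pool.Agent.RatioGrowth.Ascend2

set_option autoImplicit false

open Pointwise

namespace Pool.Agent.RatioGrowth

variable {G : Type*} [Group G]

/-- Finite index subgroup mapping onto `ℤ` with abelian kernel, exponential growth. -/
theorem main_line [DecidableEq G] (H : Subgroup G) [H.FiniteIndex] (χ : H →* Multiplicative ℤ)
    (hχ : Function.Surjective χ)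
    (hcomm : ∀ x ∈ χ.ker, ∀ y ∈ χ.ker, x * y = y * x)
    (S : Finset G) (hS : Subgroup.closure (S : Set G) = ⊤)
    (c : ℝ) (hc : 1 < c) (hexp : ∀ n : ℕ, c ^ n ≤ (((S ∪ S⁻¹ ∪ {1}) ^ n).card : ℝ)) :
    ∃ ε : ℝ, 0 < ε ∧ ∀ n : ℕ,
      ε * (((S ∪ S⁻¹ ∪ {1}) ^ n).card : ℝ) ≤
        (((S ∪ S⁻¹ ∪ {1}) ^ (n + 1)).card : ℝ) - (((S ∪ S⁻¹ ∪ {1}) ^ n).card : ℝ) := by
  classical
  obtain ⟨t, ht⟩ := hχ (Multiplicative.ofAdd 1)
  have hkconj : ∀ (a x : H), x ∈ χ.ker → a * x * a⁻¹ ∈ χ.ker := by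
    intro a x hx
    rw [MonoidHom.mem_ker] at hx ⊢
    rw [map_mul, map_mul, hx, map_inv]; simp
  by_cases hfg : χ.ker.FG
  · let _ := kerCommGroup H χ hcomm
    have hFG : Group.FG χ.ker := (Group.fg_iff_subgroup_fg χ.ker).2 hfg
    have hFG' : AddGroup.FG (Additive χ.ker) := GroupFG.iff_add_fg.1 hFG
    have hfin : Finite (Quotient (QuotientGroup.rightRel H)) :=
      Finite.of_equiv _ (QuotientGroup.quotientRightRelEquivQuotientLeftRel H).symm
    set D := lineData H χ t ht hcomm with hD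
    have hsh0 : ∀ v, D.sh 0 v = v := fun v => conjKer_zero H χ t (Additive.toMul v)
    rcases eigen_or_growth D.sh D.sh_add hsh0 with ⟨μ, ψ, hψ0, hψ, hne⟩ | hgr
    · have hμ0 : μ ≠ 0 := by
        intro h0
        apply hψ0
        refine AddMonoidHom.ext fun v => ?_
        have h1 := hψ (D.sh (-1) v)
        rw [← D.sh_add, add_neg_cancel, hsh0, h0, zero_mul] at h1
        exact h1
      set ν : H → ℝ := fun x => if h : x ∈ χ.ker then ‖ψ (Additive.ofMul ⟨x, h⟩)‖ else 0 with hν
      have hνk : ∀ (x : H) (h : x ∈ χ.ker), ν x = ‖ψ (Additive.ofMul ⟨x, h⟩)‖ := fun x h => by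
        simp only [hν, dif_pos h]
      have hν1 : ν 1 = 0 := by
        rw [hνk 1 χ.ker.one_mem]
        have : (Additive.ofMul (⟨1, χ.ker.one_mem⟩ : χ.ker)) = 0 := rfl
        rw [this, map_zero, norm_zero]
      have hνmul : ∀ x ∈ χ.ker, ∀ y ∈ χ.ker, ν (x * y) ≤ ν x + ν y := by
        intro x hx y hy
        rw [hνk _ (χ.ker.mul_mem hx hy), hνk x hx, hνk y hy]
        have : (Additive.ofMul (⟨x * y, χ.ker.mul_mem hx hy⟩ : χ.ker)) =
          Additive.ofMul (⟨x, hx⟩ : χ.ker) + Additive.ofMul (⟨y, hy⟩ : χ.ker) := rfl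
        rw [this, map_add]
        exact norm_add_le _ _
      have hνinv : ∀ x ∈ χ.ker, ν x⁻¹ = ν x := by
        intro x hx
        rw [hνk _ (χ.ker.inv_mem hx), hνk x hx]
        have : (Additive.ofMul (⟨x⁻¹, χ.ker.inv_mem hx⟩ : χ.ker)) =
          -Additive.ofMul (⟨x, hx⟩ : χ.ker) := rfl
        rw [this, map_neg, norm_neg]
      have hνt : ∀ x ∈ χ.ker, ν (t * x * t⁻¹) = ‖μ‖ * ν x := by
        intro x hx
        rw [hνk _ (hkconj t x hx), hνk x hx, ← norm_mul, ← hψ]
        congr 2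
        apply Additive.toMul.injective
        ext
        simp [hD, lineData, conjKer]
      obtain ⟨x₀, hx₀k, hx₀⟩ : ∃ x₀ ∈ χ.ker, 0 < ν x₀ := by
        have : ∃ v, ψ v ≠ 0 := by
          by_contra hcon
          push Not at hcon
          exact hψ0 (AddMonoidHom.ext hcon)
        obtain ⟨v, hv⟩ := this
        refine ⟨(Additive.toMul v : χ.ker), (Additive.toMul v).2, ?_⟩
        rw [hνk _ (Additive.toMul v).2]
        exact norm_pos_iff.2 hv
      rcases lt_or_gt_of_ne hne with hlt | hgt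
      · have hμpos : 0 < ‖μ‖ := norm_pos_iff.2 hμ0
        refine ratio_of_seminorm' H χ t⁻¹ (Or.inr (by rw [map_inv, ht]; rfl)) hcomm ν hν1 hνmul hνinv
          ‖μ‖⁻¹ (one_lt_inv_iff₀.2 ⟨hμpos, hlt⟩) ?_ x₀ hx₀k hx₀ S hS
        intro x hx
        have h1 := hνt (t⁻¹ * x * t⁻¹⁻¹) (hkconj t⁻¹ x hx)
        have h2 : t * (t⁻¹ * x * t⁻¹⁻¹) * t⁻¹ = x := by group
        rw [h2] at h1
        rw [h1]
        field_simp
      · exact ratio_of_seminorm' H χ t (Or.inl ht) hcomm ν hν1 hνmul hνinv ‖μ‖ hgt hνt x₀ hx₀k hx₀ S hS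
    · -- subexponential growth
      exfalso
      obtain ⟨d, c', ψ, hcount⟩ := count_fg (Additive χ.ker)
      obtain ⟨⟨H', hH'⟩, hgrow⟩ := D.growth_bound (S ∪ S⁻¹ ∪ {1}) d ψ
        (fun i v ρ hρ => hgr (ψ i) v ρ hρ)
      obtain ⟨n, hn⟩ := not_exp D.a D.k D.f (fun g h h1 h2 h3 => D.ext' h1 h2 h3)
        (S ∪ S⁻¹ ∪ {1}) d c' ψ hcount H' hH' hgrow c hc
      exact absurd (hexp n) (not_le.2 hn)
  · have hGfg : Group.FG G := ⟨⟨S, hS⟩⟩
    have hHfg : Group.FG H := inferInstance
    obtain ⟨SH, hSH⟩ := (Group.FG.out : (⊤ : Subgroup H).FG)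
    obtain ⟨t', ht', N₀, hN₀, hasc, hex, x, hx, hxN⟩ := exists_ascending χ t ht hfg SH hSH
    have htχ : χ t'⁻¹ = Multiplicative.ofAdd 1 ∨ χ t'⁻¹ = Multiplicative.ofAdd (-1) := by
      rcases ht' with rfl | rfl
      · right; rw [map_inv, ht]; rfl
      · left; rw [inv_inv, ht]
    exact ratio_of_seminorm' H χ t'⁻¹ htχ hcomm (ascNorm t' N₀) (ascNorm_one t' N₀)
      (fun x hx y hy => ascNorm_mul hasc (hex x hx) (hex y hy))
      (fun x _ => ascNorm_inv t' N₀ x) 2 (by norm_num) (fun x _ => ascNorm_conj t' N₀ x)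
      x hx (ascNorm_pos hasc (hex x hx) hxN) S hS

/-- An infinite cyclic quotient gives a surjection to `ℤ`. -/
theorem exists_hom_of_cyclic {K : Type*} [Group K] (N : Subgroup K) [N.Normal]
    (hcyc : IsCyclic (K ⧸ N)) (hinf : Infinite (K ⧸ N)) :
    ∃ χ : K →* Multiplicative ℤ, Function.Surjective χ ∧ χ.ker = N := by
  obtain ⟨g, hg⟩ := hcyc.exists_generator
  have hord : Function.Injective (fun k : ℤ => g ^ k) := by
    rw [injective_zpow_iff_not_isOfFinOrder]
    intro hfin
    have h1 : (Subgroup.zpowers g : Set (K ⧸ N)).Finite := by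
      rw [finite_zpowers]; exact hfin
    have h2 : (Subgroup.zpowers g : Set (K ⧸ N)) = Set.univ := by
      ext x; simp [hg x]
    rw [h2] at h1
    exact Set.infinite_univ h1
  have hsurj : ∀ x : K ⧸ N, ∃ k : ℤ, g ^ k = x := fun x => Subgroup.mem_zpowers_iff.1 (hg x)
  let e : Multiplicative ℤ →* K ⧸ N := zpowersHom (K ⧸ N) g
  have he : Function.Bijective e := by
    constructor
    · intro a b hab
      have : g ^ (Multiplicative.toAdd a) = g ^ (Multiplicative.toAdd b) := by
        simpa [e, zpowersHom_apply] using hab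
      exact Multiplicative.toAdd.injective (hord this)
    · intro x
      obtain ⟨k, hk⟩ := hsurj x
      exact ⟨Multiplicative.ofAdd k, by simpa [e, zpowersHom_apply] using hk⟩
  let E := MulEquiv.ofBijective e he
  refine ⟨E.symm.toMonoidHom.comp (QuotientGroup.mk' N), ?_, ?_⟩
  · exact E.symm.surjective.comp (QuotientGroup.mk'_surjective N)
  · ext x
    rw [MonoidHom.mem_ker]
    change E.symm (QuotientGroup.mk' N x) = 1 ↔ _
    rw [map_eq_one_iff E.symm E.symm.injective, QuotientGroup.mk'_apply,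
      QuotientGroup.eq_one_iff]

/-- Virtually (abelian-by-cyclic) groups of exponential growth. -/
theorem virtually_abelian_by_cyclic [DecidableEq G] (H : Subgroup G) (hH : H.FiniteIndex)
    (N : Subgroup H) (hN : N.Normal) (hcomm : ∀ x ∈ N, ∀ y ∈ N, x * y = y * x)
    (hcyc : IsCyclic (H ⧸ N))
    (S : Finset G) (hS : Subgroup.closure (S : Set G) = ⊤)
    (hexp : ∃ c : ℝ, 1 < c ∧ ∀ n : ℕ, c ^ n ≤ (((S ∪ S⁻¹ ∪ {1}) ^ n).card : ℝ)) :
    ∃ ε : ℝ, 0 < ε ∧ ∀ n : ℕ,
      ε * (((S ∪ S⁻¹ ∪ {1}) ^ n).card : ℝ) ≤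
        (((S ∪ S⁻¹ ∪ {1}) ^ (n + 1)).card : ℝ) - (((S ∪ S⁻¹ ∪ {1}) ^ n).card : ℝ) := by
  classical
  obtain ⟨c, hc, hexp⟩ := hexp
  rcases finite_or_infinite (H ⧸ N) with hfin | hinf
  · -- virtually abelian
    have hGfg : Group.FG G := ⟨⟨S, hS⟩⟩
    have hHfg : Group.FG H := inferInstance
    have hNfi : N.FiniteIndex := Subgroup.finiteIndex_of_finite_quotient
    have hNfg : Group.FG N := inferInstance
    -- the subgroup of `G`
    set M : Subgroup G := N.map H.subtype with hM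
    have hMfi : M.FiniteIndex := by
      refine ⟨?_⟩
      rw [hM, Subgroup.index_map_subtype]
      exact mul_ne_zero hNfi.index_ne_zero hH.index_ne_zero
    have hMfg : Group.FG M := inferInstance
    have hMcomm : ∀ x y : M, x * y = y * x := by
      rintro ⟨x, hx⟩ ⟨y, hy⟩
      obtain ⟨x', hx', rfl⟩ := Subgroup.mem_map.1 hx
      obtain ⟨y', hy', rfl⟩ := Subgroup.mem_map.1 hy
      refine Subtype.ext ?_
      have := congrArg Subtype.val (hcomm x' hx' y' hy')
      simpa using this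
    let _ : CommGroup M := { (inferInstance : Group M) with mul_comm := hMcomm }
    have hMfg' : AddGroup.FG (Additive M) := GroupFG.iff_add_fg.1 hMfg
    obtain ⟨d, c', ψ, hcount⟩ := count_fg (Additive M)
    by_cases hψ : ∀ i, ψ i = 0
    · -- `M` is finite, hence `G` is finite
      exfalso
      have hMfin : Finite M := by
        by_contra hcon
        rw [not_finite_iff_infinite] at hcon
        have : Infinite (Additive M) := hcon
        obtain ⟨E, hE⟩ := Infinite.exists_subset_card_eq (Additive M) (c' * (2 * 0 + 1) ^ d + 1)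
        have h2 := hcount 0 E (fun a _ i => by rw [hψ i]; simp)
        omega
      have hGfin : Finite G := by
        have h1 : Nat.card M * M.index = Nat.card G := M.card_mul_index
        refine Nat.finite_of_card_ne_zero ?_
        rw [← h1]
        exact mul_ne_zero Nat.card_pos.ne' hMfi.index_ne_zero
      have := Fintype.ofFinite G
      obtain ⟨n, hn⟩ := pow_unbounded_of_one_lt (Fintype.card G : ℝ) hc
      have h1 := hexp n
      have h2 : (((S ∪ S⁻¹ ∪ {1}) ^ n).card : ℝ) ≤ Fintype.card G := by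
        exact_mod_cast Finset.card_le_univ _
      linarith
    · push Not at hψ
      obtain ⟨i, hi⟩ := hψ
      -- a surjection onto the infinite cyclic image
      set χ₀ : M →* Multiplicative ℤ := AddMonoidHom.toMultiplicativeRight (ψ i) with hχ₀
      obtain ⟨v, hv⟩ : ∃ v : M, χ₀ v ≠ 1 := by
        by_contra hcon
        push Not at hcon
        apply hi
        refine AddMonoidHom.ext fun v => ?_
        exact hcon (Additive.toMul v)
      have hcycM : IsCyclic (M ⧸ χ₀.ker) :=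
        isCyclic_of_injective (QuotientGroup.kerLift χ₀) (QuotientGroup.kerLift_injective χ₀)
      have hinfM : Infinite (M ⧸ χ₀.ker) := by
        refine Infinite.of_injective (fun n : ℕ => (QuotientGroup.mk (v ^ n) : M ⧸ χ₀.ker)) ?_
        intro a b hab
        have h1 : χ₀ (v ^ a) = χ₀ (v ^ b) := by
          have := congrArg (QuotientGroup.kerLift χ₀) hab
          simpa using this
        rw [map_pow, map_pow] at h1
        have h2 : Multiplicative.toAdd (χ₀ v ^ a) = Multiplicative.toAdd (χ₀ v ^ b) := by rw [h1]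
        rw [toAdd_pow, toAdd_pow, nsmul_eq_mul, nsmul_eq_mul] at h2
        have h3 : Multiplicative.toAdd (χ₀ v) ≠ 0 := fun h => hv (Multiplicative.toAdd.injective h)
        have h4 := mul_right_cancel₀ h3 h2
        exact_mod_cast h4
      obtain ⟨χ, hχ, _⟩ := exists_hom_of_cyclic χ₀.ker hcycM hinfM
      exact main_line M χ hχ (fun x _ y _ => hMcomm x y) S hS c hc hexp
  · obtain ⟨χ, hχ, hker⟩ := exists_hom_of_cyclic N hcyc hinf
    exact main_line H χ hχ (by rw [hker]; exact hcomm) S hS c hc hexp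

end Pool.Agent.RatioGrowth
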