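import Mathlib
import Pool.Agent.RatioGrowth.Ascending
import Pool.Agent.RatioGrowth.LineGroup

set_option autoImplicit false

open Pointwise

namespace Pool.Agent.RatioGrowth

section

variable {G : Type*} [Group G] {H : Subgroup G} (χ : H →* Multiplicative ℤ) (t : H)

/-- height of an element of `H` -/
def ht (h : H) : ℤ := Multiplicative.toAdd (χ h)

lemma ht_mul (a b : H) : ht χ (a * b) = ht χ a + ht χ b := by simp [ht]
lemma ht_inv (a : H) : ht χ a⁻¹ = - ht χ a := by simp [ht]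
lemma ht_one : ht χ (1 : H) = 0 := by simp [ht]
lemma ht_zpow (hχt : χ t = Multiplicative.ofAdd 1) (k : ℤ) : ht χ (t ^ k) = k := by
  simp [ht, hχt]

/-- kernel part of an element of `H` -/
def nu (h : H) : H := h * (t ^ (ht χ h))⁻¹

lemma eq_nu (h : H) : h = nu χ t h * t ^ (ht χ h) := by simp [nu]

lemma nu_mul (a b : H) : nu χ t (a * b) = nu χ t a * (t ^ (ht χ a) * nu χ t b * (t ^ (ht χ a))⁻¹) := by
  simp only [nu, ht_mul, zpow_add]
  group

lemma mem_ker_iff (h : H) : h ∈ χ.ker ↔ ht χ h = 0 := by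
  rw [MonoidHom.mem_ker]
  constructor
  · intro e; simp [ht, e]
  · intro e; exact Multiplicative.toAdd.injective (by simpa [ht] using e)

end

/-- Strictly ascending exhaustions of the kernel of a homomorphism to `ℤ` defined on a finite index
subgroup: if some element `x` of the kernel outside `N₀` has only finitely many conjugates under
`N₀ ∩ x N₀ x⁻¹` then sphere to ball ratios are bounded below. -/
theorem star_ratio {G : Type*} [Group G] [DecidableEq G] (H : Subgroup G) [H.FiniteIndex]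
    (χ : H →* Multiplicative ℤ) (t : H) (hχt : χ t = Multiplicative.ofAdd 1)
    (N₀ : Subgroup H) (hasc : ∀ g ∈ N₀, t * g * t⁻¹ ∈ N₀)
    (hunion : ∀ g ∈ χ.ker, ∃ k : ℕ, t ^ k * g * (t ^ k)⁻¹ ∈ N₀)
    (x : H) (hxker : x ∈ χ.ker) (hxN : x ∉ N₀)
    (hfin : {y : H | ∃ g ∈ N₀, x⁻¹ * g * x ∈ N₀ ∧ y = g * x * g⁻¹}.Finite)
    (S : Finset G) (hS : Subgroup.closure (S : Set G) = ⊤) :
    ∃ ε : ℝ, 0 < ε ∧ ∀ n : ℕ,
      ε * (((S ∪ S⁻¹ ∪ {1}) ^ n).card : ℝ) ≤
        (((S ∪ S⁻¹ ∪ {1}) ^ (n + 1)).card : ℝ) - (((S ∪ S⁻¹ ∪ {1}) ^ n).card : ℝ) := by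
  classical
  set T : Finset G := S ∪ S⁻¹ ∪ {1} with hT
  have h1T : (1 : G) ∈ T := by simp [hT]
  have hNmono := fun {k k' : ℤ} (h : k ≤ k') => shiftSub_mono (t := t) (N₀ := N₀) hasc h
  have hexh : ∀ g ∈ χ.ker, ∃ k : ℕ, g ∈ shiftSub t N₀ (k : ℤ) := by
    intro g hg
    obtain ⟨k, hk⟩ := hunion g hg
    exact ⟨k, by rw [mem_shiftSub]; simpa using hk⟩
  have hνker : ∀ s : H, nu χ t s ∈ χ.ker := fun s => by
    rw [mem_ker_iff, nu, ht_mul, ht_inv, ht_zpow χ t hχt]; ring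
  -- coset part
  haveI : Finite (Quotient (QuotientGroup.rightRel H)) := by
    have : Finite (G ⧸ H) := inferInstance
    exact Finite.of_equiv _ (QuotientGroup.quotientRightRelEquivQuotientLeftRel H).symm
  haveI : Fintype (Quotient (QuotientGroup.rightRel H)) := Fintype.ofFinite _
  set f : G → Quotient (QuotientGroup.rightRel H) := fun g => Quotient.mk _ g with hf
  have hg_eq : ∀ g : G, g = (hpart H g : G) * repr H (f g) := fun g => by simp [hpart, hf]
  have hpart_coe_mul : ∀ (y : H) (g : G), hpart H ((y : G) * g) = y * hpart H g ∧ f ((y : G) * g) = f g := by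
    intro y g
    have h1 := hpart_mul H (y * hpart H g) (f g)
    have h2 : (((y * hpart H g : H) : G)) * repr H (f g) = (y : G) * g := by
      conv_rhs => rw [hg_eq g]
      simp [mul_assoc]
    rw [h2] at h1
    exact ⟨h1.2, h1.1⟩
  set e : G → ℤ := fun g => ht χ (hpart H g) with he
  set ν : G → H := fun g => nu χ t (hpart H g) with hν
  -- increments
  have hincr : ∀ g s : G, hpart H (g * s) = hpart H g * hpart H (repr H (f g) * s) ∧
      f (g * s) = f (repr H (f g) * s) := by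
    intro g s
    have h1 := hpart_coe_mul (hpart H g) (repr H (f g) * s)
    have h2 : (hpart H g : G) * (repr H (f g) * s) = g * s := by
      conv_rhs => rw [hg_eq g]
      rw [mul_assoc]
    rw [h2] at h1
    exact h1
  -- constant for generators
  obtain ⟨c, hc⟩ : ∃ c : ℕ, ∀ s ∈ T, ∀ φ, ν (repr H φ * s) ∈ shiftSub t N₀ (c : ℤ) := by
    choose F hF using fun s : H => hexh (nu χ t s) (hνker s)
    refine ⟨T.sup fun s => Finset.univ.sup fun φ => F (hpart H (repr H φ * s)), fun s hs φ => hNmono ?_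
      (hF _)⟩
    have h1 := Finset.le_sup (f := fun s => Finset.univ.sup fun φ => F (hpart H (repr H φ * s))) hs
    have h2 := Finset.le_sup (f := fun φ => F (hpart H (repr H φ * s))) (Finset.mem_univ φ)
    exact_mod_cast h2.trans h1
  -- level of `x`
  obtain ⟨d, hd1, hxd, hxd'⟩ : ∃ d : ℕ, 1 ≤ d ∧ x ∈ shiftSub t N₀ (d : ℤ) ∧
      x ∉ shiftSub t N₀ ((d : ℤ) - 1) := by
    have hex := hexh x hxker
    have hne : ¬ Nat.find hex = 0 := by
      intro h0
      have := Nat.find_spec hex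
      rw [h0, mem_shiftSub] at this
      exact hxN (by simpa using this)
    refine ⟨Nat.find hex, by omega, Nat.find_spec hex, ?_⟩
    intro h
    refine Nat.find_min hex (m := Nat.find hex - 1) (by omega) ?_
    rw [Nat.cast_sub (by omega)]
    simpa using h
  -- conjugates of `x`
  set Xc : ℤ → H := fun j => (t ^ j)⁻¹ * x * t ^ j with hXc
  have hX1 : ∀ j : ℤ, Xc j ∈ shiftSub t N₀ (j + d) := by
    intro j
    have h := (shiftSub_conj (t := t) (N₀ := N₀) (k := j + d) (j := -j) (g := x)).2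
      (by simpa using hxd)
    simpa [hXc] using h
  have hX2 : ∀ j : ℤ, Xc j ∉ shiftSub t N₀ (j + d - 1) := by
    intro j h
    apply hxd'
    have h' : t ^ (-j) * x * (t ^ (-j))⁻¹ ∈ shiftSub t N₀ (j + d - 1) := by
      simpa [hXc] using h
    rw [shiftSub_conj] at h'
    have : j + (d : ℤ) - 1 + -j = (d : ℤ) - 1 := by ring
    rwa [this] at h'
  have hXe : ∀ j, ht χ (Xc j) = 0 := by
    intro j
    have := (mem_ker_iff χ x).1 hxker
    simp only [hXc, ht_mul, ht_inv, this]; ring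
  set Fx := hfin.toFinset with hFx
  -- relative finiteness at level `j`
  have hrel : ∀ (j : ℤ) (k₁ k₂ : H), k₁ ∈ shiftSub t N₀ j → k₂ ∈ shiftSub t N₀ j →
      (k₁ * Xc j * k₁⁻¹)⁻¹ * (k₂ * Xc j * k₂⁻¹) ∈ shiftSub t N₀ j →
      t ^ j * (k₁⁻¹ * (k₂ * Xc j * k₂⁻¹) * k₁) * (t ^ j)⁻¹ ∈ Fx := by
    intro j k₁ k₂ h1 h2 h12
    rw [hFx, Set.Finite.mem_toFinset]
    set k := k₁⁻¹ * k₂ with hk
    have hkj : k ∈ shiftSub t N₀ j := Subgroup.mul_mem _ (Subgroup.inv_mem _ h1) h2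
    have hkx : (Xc j)⁻¹ * k * Xc j ∈ shiftSub t N₀ j := by
      have h3 : (Xc j)⁻¹ * k * Xc j =
          k₁⁻¹ * ((k₁ * Xc j * k₁⁻¹)⁻¹ * (k₂ * Xc j * k₂⁻¹)) * k₂ := by
        rw [hk]; group
      rw [h3]
      exact Subgroup.mul_mem _ (Subgroup.mul_mem _ (Subgroup.inv_mem _ h1) h12) h2
    refine ⟨t ^ j * k * (t ^ j)⁻¹, mem_shiftSub.1 hkj, ?_, ?_⟩
    · have := mem_shiftSub.1 hkx
      have h4 : x⁻¹ * (t ^ j * k * (t ^ j)⁻¹) * x = t ^ j * ((Xc j)⁻¹ * k * Xc j) * (t ^ j)⁻¹ := by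
        simp only [hXc]; group
      rw [h4]; exact this
    · rw [hk]; simp only [hXc]; group
  set M : ℕ := Fx.card with hM
  have hMpos : 0 < M := by
    refine Finset.card_pos.2 ⟨x, ?_⟩
    rw [hFx, Set.Finite.mem_toFinset]
    exact ⟨1, N₀.one_mem, by simp [N₀.one_mem], by simp⟩
  -- inserted words
  obtain ⟨C, hC⟩ := exists_pow_superset S hS
    ((Finset.univ : Finset (Quotient (QuotientGroup.rightRel H) × Fin (2 * M))).image fun p =>
      (repr H p.1)⁻¹ * (Xc (c + (p.2 : ℕ)) : G) * repr H p.1)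
  rw [← hT] at hC
  refine ratio_of_doubling T h1T C fun n => ?_
  have hpath := fun g : G => fun hg : g ∈ T ^ n => exists_path T n g hg
  choose! w hw0 hwn hws hwp hwq using hpath
  have hmin : ∀ g : G, ∃ i ≤ n, ∀ j ≤ n, e (w g i) ≤ e (w g j) := by
    intro g
    obtain ⟨i, hi, hi2⟩ := Finset.exists_min_image (Finset.range (n + 1))
      (fun i => e (w g i)) ⟨0, by simp⟩
    exact ⟨i, by simpa [Nat.lt_succ_iff] using hi, fun j hj => hi2 j (by simp; omega)⟩
  choose i0 hi0 hi0min using hmin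
  set κ : G → ℤ := fun g => - e (w g (i0 g)) with hκ
  have hone : hpart H (1 : G) = 1 := by
    have := (hpart_mul H (1 : H) (f 1)).2
    have h2 : ((1 : H) : G) * repr H (f 1) = 1 := by simp [hf, repr_one]
    rw [h2] at this; exact this
  have hνpath : ∀ g ∈ T ^ n, ∀ i ≤ n, ν (w g i) ∈ shiftSub t N₀ (κ g + c) := by
    intro g hg i
    induction i with
    | zero =>
      intro _
      rw [hw0 g hg]
      have : ν 1 = 1 := by simp only [hν, hone, nu, ht_one]; simp
      rw [this]; exact Subgroup.one_mem _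
    | succ i ih =>
      intro hi
      have h1 := ih (by omega)
      set s := (w g i)⁻¹ * w g (i + 1) with hs
      have h2 : w g (i + 1) = w g i * s := by simp [hs]
      have h3 : ν (w g (i + 1)) = ν (w g i) *
          (t ^ (e (w g i)) * ν (repr H (f (w g i)) * s) * (t ^ (e (w g i)))⁻¹) := by
        rw [h2]
        simp only [hν, he, (hincr (w g i) s).1, nu_mul]
      rw [h3]
      refine Subgroup.mul_mem _ h1 ?_
      rw [shiftSub_conj]
      refine hNmono ?_ (hc s (hws g hg i (by omega)) _)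
      have h4 := hi0min g i (by omega)
      simp only [hκ]
      linarith
  have hνgk : ∀ g ∈ T ^ n, ν g ∈ shiftSub t N₀ (κ g + c) := by
    intro g hg
    have := hνpath g hg n le_rfl
    rwa [hwn g hg] at this
  -- the left multipliers
  set y : G → ℕ → H := fun g i =>
    ν (w g (i0 g)) * Xc (κ g + c + i) * (ν (w g (i0 g)))⁻¹ with hy
  have hyconj : ∀ (g : G) (i : ℕ), (y g i : G) = w g (i0 g) *
      ((repr H (f (w g (i0 g))))⁻¹ * (Xc (c + i) : G) * repr H (f (w g (i0 g)))) *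
        (w g (i0 g))⁻¹ := by
    intro g i
    set a := w g (i0 g) with ha
    have hea : ht χ (hpart H a) = - κ g := by simp [hκ, ← ha, he]
    have h1 : hpart H a = ν a * t ^ (- κ g) := by
      conv_lhs => rw [eq_nu χ t (hpart H a), hea]
    have h2 : y g i = hpart H a * Xc (c + i) * (hpart H a)⁻¹ := by
      rw [h1]
      simp only [hy, ← ha, hXc]
      rw [show κ g + (c : ℤ) + i = κ g + (c + i) by ring, zpow_add]
      group
    rw [h2]
    conv_rhs => rw [hg_eq a]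
    simp only [(hpart_coe_mul (hpart H a) (repr H (f a))).2]
    have h3 : f (repr H (f a)) = f a := repr_mk H (f a)
    rw [h3]
    push_cast
    group
  have hye : ∀ g i, ht χ (y g i) = 0 := by
    intro g i
    simp only [hy, ht_mul, ht_inv, hXe]; ring
  have hνy : ∀ (g : G) (i : ℕ) (h : G), ν ((y g i : G) * h) = y g i * ν h := by
    intro g i h
    simp only [hν]
    rw [(hpart_coe_mul (y g i) h).1, nu_mul, hye]
    have : nu χ t (y g i) = y g i := by simp [nu, hye]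
    rw [this]; simp
  -- levels
  have hylev : ∀ g ∈ T ^ n, ∀ i : ℕ, y g i * ν g ∈ shiftSub t N₀ (κ g + c + i + d) ∧
      y g i * ν g ∉ shiftSub t N₀ (κ g + c + i + d - 1) := by
    intro g hg i
    have hu := hνpath g hg (i0 g) (hi0 g)
    have hg' := hνgk g hg
    have hd1' : (1 : ℤ) ≤ d := by exact_mod_cast hd1
    have m1 := fun {z : H} (hz : z ∈ shiftSub t N₀ (κ g + c)) =>
      hNmono (k := κ g + c) (k' := κ g + c + i + d) (by linarith [Int.natCast_nonneg i]) hz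
    have m2 := fun {z : H} (hz : z ∈ shiftSub t N₀ (κ g + c)) =>
      hNmono (k := κ g + c) (k' := κ g + c + i + d - 1) (by linarith [Int.natCast_nonneg i]) hz
    constructor
    · simp only [hy]
      exact Subgroup.mul_mem _ (Subgroup.mul_mem _ (Subgroup.mul_mem _ (m1 hu) (hX1 _))
        (Subgroup.inv_mem _ (m1 hu))) (m1 hg')
    · intro hcon
      apply hX2 (κ g + c + i)
      have h2 : Xc (κ g + c + i) = (ν (w g (i0 g)))⁻¹ * (y g i * ν g) * (ν g)⁻¹ *
          ν (w g (i0 g)) := by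
        simp only [hy]; group
      rw [h2]
      exact Subgroup.mul_mem _ (Subgroup.mul_mem _ (Subgroup.mul_mem _
        (Subgroup.inv_mem _ (m2 hu)) hcon) (Subgroup.inv_mem _ (m2 hg'))) (m2 hu)
  have hlevel_eq : ∀ g₁ ∈ T ^ n, ∀ g₂ ∈ T ^ n, ∀ i₁ i₂ : ℕ,
      (y g₁ i₁ : G) * g₁ = (y g₂ i₂ : G) * g₂ → κ g₁ + c + i₁ = κ g₂ + c + i₂ := by
    have key : ∀ g₁ ∈ T ^ n, ∀ g₂ ∈ T ^ n, ∀ i₁ i₂ : ℕ,
      (y g₁ i₁ : G) * g₁ = (y g₂ i₂ : G) * g₂ → ¬ (κ g₁ + c + i₁ < κ g₂ + c + i₂) := by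
      intro g₁ hg₁ g₂ hg₂ i₁ i₂ heq hlt
      have h1 : y g₁ i₁ * ν g₁ = y g₂ i₂ * ν g₂ := by rw [← hνy, ← hνy, heq]
      apply (hylev g₂ hg₂ i₂).2
      rw [← h1]
      exact hNmono (by linarith) (hylev g₁ hg₁ i₁).1
    intro g₁ hg₁ g₂ hg₂ i₁ i₂ heq
    have h1 := key g₁ hg₁ g₂ hg₂ i₁ i₂ heq
    have h2 := key g₂ hg₂ g₁ hg₁ i₂ i₁ heq.symm
    omega
  refine doubling_of_insertion T n C M hMpos (fun _ => (Finset.univ : Finset (Fin (2 * M))))
    (fun g i => (y g i : G) * g) ?_ ?_ ?_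
  · intro g _; simp
  · intro g hg i _
    have hin : i0 g ≤ n := hi0 g
    have hdec : (y g i : G) * g = w g (i0 g) * (((repr H (f (w g (i0 g))))⁻¹ *
        (Xc (c + (i : ℕ)) : G) * repr H (f (w g (i0 g)))) * ((w g (i0 g))⁻¹ * g)) := by
      rw [hyconj]; group
    change (y g i : G) * g ∈ T ^ (n + C)
    rw [hdec, show n + C = i0 g + (C + (n - i0 g)) by omega, pow_add, pow_add]
    refine Finset.mul_mem_mul (hwp g hg _ hin)
      (Finset.mul_mem_mul (hC (Finset.mem_image.2 ⟨(f (w g (i0 g)), i), Finset.mem_univ _, rfl⟩))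
        (hwq g hg _ hin))
  · intro g' _
    set Fs := ((T ^ n).sigma fun _ => (Finset.univ : Finset (Fin (2 * M)))).filter
      (fun p : (Σ _ : G, Fin (2 * M)) => (y p.1 p.2 : G) * p.1 = g') with hFs
    rcases Fs.eq_empty_or_nonempty with hFe | ⟨p₁, hp₁⟩
    · rw [hFe]; simp
    · have hfacts : ∀ p ∈ Fs, p.1 ∈ T ^ n ∧ (y p.1 p.2 : G) * p.1 = g' := by
        intro p hp
        rw [hFs, Finset.mem_filter, Finset.mem_sigma] at hp
        exact ⟨hp.1.1, hp.2⟩
      obtain ⟨hg₁, he₁⟩ := hfacts p₁ hp₁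
      set j : ℤ := κ p₁.1 + c + ((p₁.2 : ℕ) : ℤ) with hj
      set k₁ : H := ν (w p₁.1 (i0 p₁.1)) with hk₁
      have hlev : ∀ p ∈ Fs, κ p.1 + c + ((p.2 : ℕ) : ℤ) = j := by
        intro p hp
        obtain ⟨h1, h2⟩ := hfacts p hp
        exact hlevel_eq _ h1 _ hg₁ _ _ (h2.trans he₁.symm)
      have hmaps : ∀ p ∈ Fs, t ^ j * (k₁⁻¹ * y p.1 p.2 * k₁) * (t ^ j)⁻¹ ∈ Fx := by
        intro p hp
        obtain ⟨h1, h2⟩ := hfacts p hp
        have hl := hlev p hp
        have hyp : y p.1 p.2 = ν (w p.1 (i0 p.1)) * Xc j * (ν (w p.1 (i0 p.1)))⁻¹ := by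
          simp only [hy, hl]
        rw [hyp]
        have e1 : ν (w p₁.1 (i0 p₁.1)) ∈ shiftSub t N₀ j := by
          refine hNmono ?_ (hνpath _ hg₁ _ (hi0 _))
          rw [hj]; linarith [Int.natCast_nonneg (p₁.2 : ℕ)]
        have e2 : ν (w p.1 (i0 p.1)) ∈ shiftSub t N₀ j := by
          refine hNmono ?_ (hνpath _ h1 _ (hi0 _))
          rw [← hl]; linarith [Int.natCast_nonneg (p.2 : ℕ)]
        have e3 : ν p₁.1 ∈ shiftSub t N₀ j := by
          refine hNmono ?_ (hνgk _ hg₁)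
          rw [hj]; linarith [Int.natCast_nonneg (p₁.2 : ℕ)]
        have e4 : ν p.1 ∈ shiftSub t N₀ j := by
          refine hNmono ?_ (hνgk _ h1)
          rw [← hl]; linarith [Int.natCast_nonneg (p.2 : ℕ)]
        refine hrel j _ _ e1 e2 ?_
        have h5 : y p.1 p.2 * ν p.1 = y p₁.1 p₁.2 * ν p₁.1 := by
          rw [← hνy, ← hνy, h2, he₁]
        have h6 : y p₁.1 p₁.2 = ν (w p₁.1 (i0 p₁.1)) * Xc j * (ν (w p₁.1 (i0 p₁.1)))⁻¹ := by
          simp only [hy, hj]
        have h7 : (ν (w p₁.1 (i0 p₁.1)) * Xc j * (ν (w p₁.1 (i0 p₁.1)))⁻¹)⁻¹ *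
            (ν (w p.1 (i0 p.1)) * Xc j * (ν (w p.1 (i0 p.1)))⁻¹) = ν p₁.1 * (ν p.1)⁻¹ := by
          rw [← h6, ← hyp, inv_mul_eq_iff_eq_mul, ← mul_assoc, ← h5]; group
        rw [h7]
        exact Subgroup.mul_mem _ e3 (Subgroup.inv_mem _ e4)
      refine Finset.card_le_card_of_injOn
        (fun p : (Σ _ : G, Fin (2 * M)) => t ^ j * (k₁⁻¹ * y p.1 p.2 * k₁) * (t ^ j)⁻¹) hmaps ?_
      intro p hp q hq hpq
      have hpF : p ∈ Fs := hp
      have hqF : q ∈ Fs := hq
      simp only at hpq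
      have h1 : y p.1 p.2 = y q.1 q.2 := by
        have h2 := mul_left_cancel (mul_right_cancel hpq)
        exact mul_left_cancel (mul_right_cancel h2)
      obtain ⟨_, h2⟩ := hfacts p hpF
      obtain ⟨_, h3⟩ := hfacts q hqF
      have h4 : p.1 = q.1 := by
        rw [h1] at h2
        exact mul_left_cancel (h2.trans h3.symm)
      have h5 : p.2 = q.2 := by
        have e1 := hlev p hpF
        have e2 := hlev q hqF
        rw [h4] at e1
        ext
        omega
      exact Sigma.ext h4 (heq_of_eq h5)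

end Pool.Agent.RatioGrowth
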