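import Mathlib
import Pool.Agent.RatioGrowth.Star
import Pool.Agent.RatioGrowth.Ascend2
import Pool.Agent.RatioGrowth.LineFinal

set_option autoImplicit false

open Pointwise

namespace Pool.Agent.RatioGrowth

variable {G : Type*} [Group G]

/-- A finitely generated group all of whose conjugacy classes are finite has a centre of finite
index. -/
lemma center_finiteIndex {N : Type*} [Group N] [Group.FG N]
    (hfc : ∀ x : N, {y | ∃ g : N, y = g * x * g⁻¹}.Finite) : (Subgroup.center N).FiniteIndex := by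
  classical
  obtain ⟨S, hS⟩ := Group.fg_def.1 (inferInstance : Group.FG N)
  have h1 : ∀ x : N, (Subgroup.centralizer {x}).FiniteIndex := by
    intro x
    have : Finite (N ⧸ Subgroup.centralizer {x}) := by
      have hfin := (hfc x).to_subtype
      refine Finite.of_injective (fun q : N ⧸ Subgroup.centralizer {x} =>
        (⟨Quotient.out q * x * (Quotient.out q)⁻¹, ⟨_, rfl⟩⟩ : {y | ∃ g : N, y = g * x * g⁻¹})) ?_
      intro p q hpq
      simp only [Subtype.mk.injEq] at hpq
      rw [← Quotient.out_eq p, ← Quotient.out_eq q]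
      change (QuotientGroup.mk (Quotient.out p) : N ⧸ Subgroup.centralizer {x}) =
        QuotientGroup.mk (Quotient.out q)
      rw [QuotientGroup.eq, Subgroup.mem_centralizer_singleton_iff]
      set a := Quotient.out p
      set b := Quotient.out q
      have h2 : x * (a⁻¹ * b) = a⁻¹ * (a * x * a⁻¹) * b := by group
      rw [h2, hpq]; group
    exact Subgroup.finiteIndex_of_finite_quotient
  have h2 : Subgroup.center N = ⨅ x ∈ S, Subgroup.centralizer {x} := by
    apply le_antisymm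
    · refine le_iInf₂ fun x _ => ?_
      exact Subgroup.center_le_centralizer _
    · intro z hz
      have h3 : ∀ x ∈ S, z ∈ Subgroup.centralizer {x} := by
        intro x hx
        rw [Subgroup.mem_iInf] at hz
        have := hz x
        rw [Subgroup.mem_iInf] at this
        exact this hx
      have h4 : Subgroup.closure (S : Set N) ≤ Subgroup.centralizer {z} := by
        rw [Subgroup.closure_le]
        intro x hx
        rw [SetLike.mem_coe, Subgroup.mem_centralizer_singleton_iff]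
        have := (Subgroup.mem_centralizer_singleton_iff).1 (h3 x hx)
        exact this.symm
      rw [Subgroup.mem_center_iff]
      intro g
      have : g ∈ Subgroup.centralizer {z} := h4 (by rw [hS]; trivial)
      exact (Subgroup.mem_centralizer_singleton_iff).1 this
  rw [h2]
  exact Subgroup.finiteIndex_iInf' _ fun x _ => h1 x

/-- A version of the abelian-by-cyclic theorem with `A ⊔ ⟨t⟩` of finite index. -/
theorem ratio_of_abelian_cyclic [DecidableEq G] (A : Subgroup G)
    (hA : ∀ x ∈ A, ∀ y ∈ A, x * y = y * x) (t : G) (ht : ∀ a ∈ A, t * a * t⁻¹ ∈ A)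
    (ht' : ∀ a ∈ A, t⁻¹ * a * t ∈ A) (hfi : (A ⊔ Subgroup.zpowers t).FiniteIndex)
    (S : Finset G) (hS : Subgroup.closure (S : Set G) = ⊤)
    (hexp : ∃ c : ℝ, 1 < c ∧ ∀ n : ℕ, c ^ n ≤ (((S ∪ S⁻¹ ∪ {1}) ^ n).card : ℝ)) :
    ∃ ε : ℝ, 0 < ε ∧ ∀ n : ℕ,
      ε * (((S ∪ S⁻¹ ∪ {1}) ^ n).card : ℝ) ≤
        (((S ∪ S⁻¹ ∪ {1}) ^ (n + 1)).card : ℝ) - (((S ∪ S⁻¹ ∪ {1}) ^ n).card : ℝ) := by
  classical
  set H := A ⊔ Subgroup.zpowers t with hH
  have hAH : A ≤ H := le_sup_left
  have htH : t ∈ H := (le_sup_right : Subgroup.zpowers t ≤ H) (Subgroup.mem_zpowers t)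
  have hnorm : H ≤ Subgroup.normalizer (A : Set G) := by
    rw [hH]
    refine sup_le Subgroup.le_normalizer ?_
    rw [Subgroup.zpowers_le, Subgroup.mem_normalizer_iff]
    intro a
    constructor
    · exact ht a
    · intro h
      have := ht' _ h
      have h2 : t⁻¹ * (t * a * t⁻¹) * t = a := by group
      rwa [h2] at this
  have hN : (A.subgroupOf H).Normal := by
    refine ⟨fun a ha h => ?_⟩
    rw [Subgroup.mem_subgroupOf] at ha ⊢
    exact (Subgroup.mem_normalizer_iff.1 (hnorm h.2) _).1 ha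
  refine virtually_abelian_by_cyclic H hfi (A.subgroupOf H) hN ?_ ?_ S hS hexp
  · intro x hx y hy
    rw [Subgroup.mem_subgroupOf] at hx hy
    exact Subtype.ext (hA _ hx _ hy)
  · set τ : H ⧸ A.subgroupOf H := QuotientGroup.mk ⟨t, htH⟩ with hτ
    refine ⟨τ, fun q => ?_⟩
    set P : Subgroup H := (Subgroup.zpowers τ).comap (QuotientGroup.mk' (A.subgroupOf H)) with hP
    have hle : H ≤ P.map H.subtype := by
      conv_lhs => rw [hH]
      refine sup_le ?_ ?_
      · intro a ha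
        refine ⟨⟨a, hAH ha⟩, ?_, rfl⟩
        rw [hP, SetLike.mem_coe, Subgroup.mem_comap]
        have : QuotientGroup.mk' (A.subgroupOf H) ⟨a, hAH ha⟩ = 1 := by
          rw [QuotientGroup.mk'_apply, QuotientGroup.eq_one_iff, Subgroup.mem_subgroupOf]
          exact ha
        rw [this]; exact Subgroup.one_mem _
      · rw [Subgroup.zpowers_le]
        refine ⟨⟨t, htH⟩, ?_, rfl⟩
        rw [hP, SetLike.mem_coe, Subgroup.mem_comap]
        exact Subgroup.mem_zpowers τ
    obtain ⟨h, rfl⟩ := QuotientGroup.mk_surjective q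
    obtain ⟨h', hh', he⟩ := hle h.2
    have : h' = h := Subtype.ext he
    subst this
    exact hh'

/-- Virtually (FC-by-cyclic) groups of exponential growth. -/
theorem virtually_fc_by_cyclic [DecidableEq G] (H : Subgroup G) (hH : H.FiniteIndex)
    (N : Subgroup H) (hN : N.Normal) (hfc : ∀ x ∈ N, {y | ∃ g ∈ N, y = g * x * g⁻¹}.Finite)
    (hcyc : IsCyclic (H ⧸ N))
    (S : Finset G) (hS : Subgroup.closure (S : Set G) = ⊤)
    (hexp : ∃ c : ℝ, 1 < c ∧ ∀ n : ℕ, c ^ n ≤ (((S ∪ S⁻¹ ∪ {1}) ^ n).card : ℝ)) :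
    ∃ ε : ℝ, 0 < ε ∧ ∀ n : ℕ,
      ε * (((S ∪ S⁻¹ ∪ {1}) ^ n).card : ℝ) ≤
        (((S ∪ S⁻¹ ∪ {1}) ^ (n + 1)).card : ℝ) - (((S ∪ S⁻¹ ∪ {1}) ^ n).card : ℝ) := by
  classical
  have hGfg : Group.FG G := ⟨⟨S, hS⟩⟩
  have hHfg : Group.FG H := inferInstance
  by_cases hfg : N.FG
  · have hNfg : Group.FG N := (Group.fg_iff_subgroup_fg N).2 hfg
    have hZfi : (Subgroup.center N).FiniteIndex := by
      refine center_finiteIndex fun x => ?_
      refine ((hfc x x.2).preimage (Subtype.val_injective.injOn)).subset ?_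
      rintro _ ⟨g, rfl⟩
      exact ⟨g, g.2, rfl⟩
    obtain ⟨q₀, hq₀⟩ := hcyc.exists_generator
    obtain ⟨t, rfl⟩ := QuotientGroup.mk_surjective q₀
    set Z : Subgroup H := (Subgroup.center N).map N.subtype with hZ
    have hZmem : ∀ z : H, z ∈ Z ↔ z ∈ N ∧ ∀ n ∈ N, n * z = z * n := by
      intro z
      constructor
      · rintro ⟨z', hz', rfl⟩
        refine ⟨z'.2, fun n hn => ?_⟩
        exact congrArg Subtype.val (Subgroup.mem_center_iff.1 hz' ⟨n, hn⟩)
      · rintro ⟨h1, h2⟩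
        exact ⟨⟨z, h1⟩, Subgroup.mem_center_iff.2 fun n => Subtype.ext (h2 n n.2), rfl⟩
    have hZnorm : ∀ h : H, ∀ z ∈ Z, h * z * h⁻¹ ∈ Z := by
      intro h z hz
      rw [hZmem] at hz ⊢
      refine ⟨hN.conj_mem _ hz.1 h, fun n hn => ?_⟩
      have h1 := hz.2 (h⁻¹ * n * h⁻¹⁻¹) (hN.conj_mem n hn h⁻¹)
      have h2 : n * (h * z * h⁻¹) = h * ((h⁻¹ * n * h⁻¹⁻¹) * z) * h⁻¹ := by group
      rw [h2, h1]; group
    have hfi : (Z ⊔ Subgroup.zpowers t).FiniteIndex := by
      have : Finite (H ⧸ (Z ⊔ Subgroup.zpowers t)) := by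
        have hfinN : Finite (N ⧸ Subgroup.center N) := inferInstance
        refine Finite.of_surjective (fun q : N ⧸ Subgroup.center N =>
          (QuotientGroup.mk ((Quotient.out q : N) : H) : H ⧸ (Z ⊔ Subgroup.zpowers t))) ?_
        intro x
        obtain ⟨h, rfl⟩ := QuotientGroup.mk_surjective x
        obtain ⟨k, hk⟩ := Subgroup.mem_zpowers_iff.1 (hq₀ (QuotientGroup.mk h))
        have hn : h * (t ^ k)⁻¹ ∈ N := by
          rw [← QuotientGroup.eq_one_iff]
          have : (QuotientGroup.mk (h * (t ^ k)⁻¹) : H ⧸ N) =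
            QuotientGroup.mk h * ((QuotientGroup.mk t) ^ k)⁻¹ := rfl
          rw [this, hk, mul_inv_cancel]
        refine ⟨QuotientGroup.mk ⟨h * (t ^ k)⁻¹, hn⟩, ?_⟩
        obtain ⟨z, hz⟩ := QuotientGroup.mk_out_eq_mul (Subgroup.center N) ⟨h * (t ^ k)⁻¹, hn⟩
        change (QuotientGroup.mk ((Quotient.out (QuotientGroup.mk
          (⟨h * (t ^ k)⁻¹, hn⟩ : N) : N ⧸ Subgroup.center N) : N) : H) :
            H ⧸ (Z ⊔ Subgroup.zpowers t)) = QuotientGroup.mk h
        rw [hz, QuotientGroup.eq]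
        have h3 : ((((⟨h * (t ^ k)⁻¹, hn⟩ : N) * z : N) : H))⁻¹ * h = ((z : N) : H)⁻¹ * t ^ k := by
          push_cast; group
        rw [h3]
        refine Subgroup.mul_mem _ (Subgroup.inv_mem _ ?_) ?_
        · exact (le_sup_left : Z ≤ _) ⟨z, z.2, rfl⟩
        · exact (le_sup_right : Subgroup.zpowers t ≤ _) (Subgroup.zpow_mem_zpowers t k)
      exact Subgroup.finiteIndex_of_finite_quotient
    refine ratio_of_abelian_cyclic (Z.map H.subtype) ?_ (t : G) ?_ ?_ ?_ S hS hexp
    · rintro _ ⟨x, hx, rfl⟩ _ ⟨y, hy, rfl⟩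
      have h1 := ((hZmem y).1 hy).2 x ((hZmem x).1 hx).1
      exact congrArg Subtype.val h1
    · rintro _ ⟨x, hx, rfl⟩
      exact ⟨t * x * t⁻¹, hZnorm t x hx, by simp⟩
    · rintro _ ⟨x, hx, rfl⟩
      have := hZnorm t⁻¹ x hx
      exact ⟨_, this, by simp⟩
    · have h1 : Z.map H.subtype ⊔ Subgroup.zpowers (t : G) =
          (Z ⊔ Subgroup.zpowers t).map H.subtype := by
        rw [Subgroup.map_sup, MonoidHom.map_zpowers]; rfl
      rw [h1]
      refine ⟨?_⟩
      rw [Subgroup.index_map_subtype]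
      exact mul_ne_zero hfi.index_ne_zero hH.index_ne_zero
  · have hinf : Infinite (H ⧸ N) := by
      by_contra hcon
      rw [not_infinite_iff_finite] at hcon
      have hNfi : N.FiniteIndex := Subgroup.finiteIndex_of_finite_quotient
      have : Group.FG N := inferInstance
      exact hfg ((Group.fg_iff_subgroup_fg N).1 this)
    obtain ⟨χ, hχ, hker⟩ := exists_hom_of_cyclic N hcyc hinf
    obtain ⟨t, ht⟩ := hχ (Multiplicative.ofAdd 1)
    obtain ⟨SH, hSH⟩ := Group.fg_def.1 hHfg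
    have hkfg : ¬ χ.ker.FG := by rw [hker]; exact hfg
    obtain ⟨t', ht', N₀, hN₀, hasc, hunion, x, hx, hxN⟩ := exists_ascending χ t ht hkfg SH hSH
    have hfin : {y : H | ∃ g ∈ N₀, x⁻¹ * g * x ∈ N₀ ∧ y = g * x * g⁻¹}.Finite := by
      refine (hfc x (by rw [← hker]; exact hx)).subset ?_
      rintro _ ⟨g, hg, _, rfl⟩
      exact ⟨g, by rw [← hker]; exact hN₀ hg, rfl⟩
    rcases ht' with rfl | rfl
    · exact star_ratio H χ t' ht N₀ hasc hunion x hx hxN hfin S hS
    · have hker' : (χ⁻¹ : H →* Multiplicative ℤ).ker = χ.ker := by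
        ext y
        rw [MonoidHom.mem_ker, MonoidHom.mem_ker, MonoidHom.inv_apply, inv_eq_one]
      refine star_ratio H χ⁻¹ t⁻¹ ?_ N₀ hasc (by rw [hker']; exact hunion) x
        (by rw [hker']; exact hx) hxN hfin S hS
      rw [MonoidHom.inv_apply, map_inv, inv_inv, ht]

end Pool.Agent.RatioGrowth
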