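import Mathlib
import Pool.Agent.RatioGrowth.Basic
import Pool.Agent.RatioGrowth.Graph

set_option autoImplicit false

open Pointwise

namespace Pool.Agent.RatioGrowth

/-- The restricted permutational wreath product `L ≀_X H`: pairs `(lamp, pos)` with
`lamp : X → L` different from `1` at only finitely many points and `pos : H`. -/
@[ext]
structure PermWreath (L H X : Type*) [Group L] [Group H] [MulAction H X] where
  /-- the lamp configuration -/
  lamp : X → L
  /-- the position of the lamplighter -/
  pos : H
  /-- only finitely many lamps are on -/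
  finite_supp : {x | lamp x ≠ 1}.Finite

namespace PermWreath

variable {L H X : Type*} [Group L] [Group H] [MulAction H X]

instance : Mul (PermWreath L H X) where
  mul a b :=
    { lamp := fun x => a.lamp x * b.lamp (a.pos⁻¹ • x)
      pos := a.pos * b.pos
      finite_supp := by
        refine (a.finite_supp.union (b.finite_supp.preimage
          ((MulAction.injective (a.pos⁻¹ : H)).injOn (s := (fun x : X => a.pos⁻¹ • x) ⁻¹'
            {x | b.lamp x ≠ 1})))).subset ?_
        intro x hx
        by_contra h
        simp only [Set.mem_union, Set.mem_ofPred_eq, Set.mem_preimage, not_or, not_not] at h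
        exact hx (by simp [h.1, h.2]) }

instance : One (PermWreath L H X) where
  one := { lamp := fun _ => 1, pos := 1, finite_supp := by simp }

instance : Inv (PermWreath L H X) where
  inv a :=
    { lamp := fun x => (a.lamp (a.pos • x))⁻¹
      pos := a.pos⁻¹
      finite_supp := by
        refine (a.finite_supp.preimage
          ((MulAction.injective (a.pos : H)).injOn (s := (fun x : X => a.pos • x) ⁻¹'
            {x | a.lamp x ≠ 1}))).subset ?_
        intro x hx
        simpa using hx }

@[simp] lemma mul_lamp (a b : PermWreath L H X) (x : X) :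
    (a * b).lamp x = a.lamp x * b.lamp (a.pos⁻¹ • x) := rfl
@[simp] lemma mul_pos (a b : PermWreath L H X) : (a * b).pos = a.pos * b.pos := rfl
@[simp] lemma one_lamp (x : X) : (1 : PermWreath L H X).lamp x = 1 := rfl
@[simp] lemma one_pos : (1 : PermWreath L H X).pos = 1 := rfl
@[simp] lemma inv_lamp (a : PermWreath L H X) (x : X) :
    (a⁻¹).lamp x = (a.lamp (a.pos • x))⁻¹ := rfl
@[simp] lemma inv_pos (a : PermWreath L H X) : (a⁻¹).pos = a.pos⁻¹ := rfl

instance : Group (PermWreath L H X) where
  mul_assoc a b c := by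
    apply PermWreath.ext
    · funext x; simp [mul_assoc, mul_smul]
    · simp [mul_assoc]
  one_mul a := by
    apply PermWreath.ext
    · funext x; simp
    · simp
  mul_one a := by
    apply PermWreath.ext
    · funext x; simp
    · simp
  inv_mul_cancel a := by
    apply PermWreath.ext
    · funext x; simp
    · simp

/-- The element with lamp value `l` exactly on the finite set `E`, and trivial position. -/
noncomputable def lampOn (H : Type*) [Group H] [MulAction H X] (l : L) (E : Finset X) :
    PermWreath L H X where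
  lamp := by classical exact fun x => if x ∈ E then l else 1
  pos := 1
  finite_supp := by
    classical
    refine E.finite_toSet.subset ?_
    intro x hx
    by_contra h
    exact hx (by simp [show x ∉ E from h])

open Classical in
lemma lampOn_lamp (l : L) (E : Finset X) (x : X) :
    (lampOn H l E).lamp x = if x ∈ E then l else 1 := by
  unfold lampOn
  split_ifs with h <;> simp [h]

@[simp] lemma lampOn_pos (l : L) (E : Finset X) : (lampOn H l E).pos = 1 := rfl

open Classical in
/-- Conjugating `lampOn` by an element whose lamps are off on `E`. -/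
lemma conj_lampOn (l : L) (E : Finset X) (a : PermWreath L H X) (ha : ∀ x ∈ E, a.lamp x = 1) :
    a⁻¹ * lampOn H l E * a = lampOn H l (E.image fun x => a.pos⁻¹ • x) := by
  apply PermWreath.ext
  · funext x
    simp only [mul_lamp, inv_lamp, inv_pos, inv_inv, lampOn_lamp, mul_pos, lampOn_pos, mul_one,
      Finset.mem_image]
    by_cases h : a.pos • x ∈ E
    · have h2 : ∃ b ∈ E, a.pos⁻¹ • b = x := ⟨_, h, by simp⟩
      simp [h, h2, ha _ h]
    · have h2 : ¬ ∃ b ∈ E, a.pos⁻¹ • b = x := by
        rintro ⟨b, hb, rfl⟩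
        exact h (by simpa using hb)
      simp [h, h2]
  · simp

end PermWreath

open PermWreath

variable {L H X : Type*} [Group L] [Group H] [MulAction H X]

/-- Main theorem on wreath products. -/
theorem wreath_ratio [Nontrivial L] [Infinite X] [MulAction.IsPretransitive H X]
    (Γ : SimpleGraph X) (hc : Γ.Connected) (hfin : ∀ v, (Γ.neighborSet v).Finite)
    (hinv : ∀ (h : H) (x y : X), Γ.Adj x y → Γ.Adj (h • x) (h • y))
    [DecidableEq (PermWreath L H X)] (S : Finset (PermWreath L H X))
    (hS : Subgroup.closure (S : Set (PermWreath L H X)) = ⊤) :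
    ∃ ε : ℝ, 0 < ε ∧ ∀ n : ℕ,
      ε * (((S ∪ S⁻¹ ∪ {1}) ^ n).card : ℝ) ≤
        (((S ∪ S⁻¹ ∪ {1}) ^ (n + 1)).card : ℝ) - (((S ∪ S⁻¹ ∪ {1}) ^ n).card : ℝ) := by
  classical
  set T : Finset (PermWreath L H X) := S ∪ S⁻¹ ∪ {1} with hT
  have h1T : (1 : PermWreath L H X) ∈ T := by simp [hT]
  obtain ⟨l, hl⟩ := exists_ne (1 : L)
  obtain ⟨o⟩ : Nonempty X := inferInstance
  -- locality constant of the generators
  obtain ⟨c, hcT⟩ : ∃ c : ℕ, ∀ s ∈ T, ∀ x, s.lamp x ≠ 1 → Γ.dist o x ≤ c := by
    have hfs : (⋃ s ∈ T, {x | s.lamp x ≠ 1}).Finite :=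
      T.finite_toSet.biUnion fun s _ => s.finite_supp
    refine ⟨hfs.toFinset.sup fun x => Γ.dist o x, fun s hs x hx => ?_⟩
    refine Finset.le_sup (f := fun x => Γ.dist o x) ?_
    simp only [Set.Finite.mem_toFinset, Set.mem_iUnion]
    exact ⟨s, hs, hx⟩
  -- ball sizes
  set N : ℕ → ℕ := fun r => (cball Γ o r).ncard with hN
  have hNall : ∀ v r, (cball Γ v r).ncard = N r := fun v r => ncard_cball (H := H) hc hinv v o r
  obtain ⟨x0, hx0⟩ := exists_large (N (c + 1))
  set r : ℕ := x0 with hr
  have hNr : r + 1 ≤ N r := succ_le_ncard_cball hc hfin o r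
  set D : ℕ := r + c + 1 with hD
  set M : ℕ := N (D + r) with hM
  have hMle : M ≤ N r * (N r * N (c + 1)) := by
    have e1 : D + r = r + (r + (c + 1)) := by omega
    rw [hM, e1]
    refine ncard_cball_add_le hc hfin o r (r + (c + 1)) _ fun w => ?_
    refine (ncard_cball_add_le hc hfin w r (c + 1) (N (c + 1)) fun w' => ?_).trans ?_
    · exact (hNall w' _).le
    · rw [hNall w r]
  have hMpos : 0 < M := by
    have : D + r + 1 ≤ N (D + r) := succ_le_ncard_cball hc hfin o (D + r)
    omega
  have hlarge : 2 * M ≤ 2 ^ (N r) - 1 := by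
    have h3 := hx0 (N r) (by omega)
    have h4 : N (c + 1) * N r ^ 2 = N r * (N r * N (c + 1)) := by ring
    rw [h4] at h3
    omega
  -- the finite set of all local insertions
  obtain ⟨C, hC⟩ := exists_pow_superset S hS
    (((cball_finite hc hfin o (D + r)).toFinset.powerset).image fun E => lampOn H l E)
  rw [← hT] at hC
  refine ratio_of_doubling T h1T C fun n => ?_
  -- paths
  have hpath := fun g : PermWreath L H X => fun hg : g ∈ T ^ n => exists_path T n g hg
  choose! w hw0 hwn hws hwp hwq using hpath
  -- lamps are close to the path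
  have hlamp : ∀ g ∈ T ^ n, ∀ i ≤ n, ∀ x, (w g i).lamp x ≠ 1 →
      ∃ j ≤ n, Γ.dist ((w g j).pos • o) x ≤ c := by
    intro g hg i
    induction i with
    | zero => intro _ x hx; rw [hw0 g hg] at hx; exact absurd rfl hx
    | succ i ih =>
      intro hi x hx
      by_cases h : (w g i).lamp x ≠ 1
      · exact ih (by omega) x h
      · rw [not_not] at h
        have h2 : w g (i + 1) = w g i * ((w g i)⁻¹ * w g (i + 1)) := by group
        rw [h2, mul_lamp, h, one_mul] at hx
        refine ⟨i, by omega, ?_⟩
        have h3 := hcT _ (hws g hg i (by omega)) _ hx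
        rw [← dist_smul hc hinv ((w g i).pos) o _] at h3
        simpa using h3
  -- a far away vertex
  obtain ⟨z, hz⟩ := exists_far hc hfin
    ((T ^ n).biUnion fun g => (Finset.range (n + 1)).image fun i => (w g i).pos • o) D
  have hz' : ∀ g ∈ T ^ n, ∀ i ≤ n, D ≤ Γ.dist ((w g i).pos • o) z := by
    intro g hg i hi
    refine hz _ ?_
    simp only [Finset.mem_biUnion, Finset.mem_image, Finset.mem_range]
    exact ⟨g, hg, i, by omega, rfl⟩
  -- the closest path vertex to `z`
  have hmin : ∀ g : PermWreath L H X, ∃ i ≤ n, ∀ j ≤ n,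
      Γ.dist ((w g i).pos • o) z ≤ Γ.dist ((w g j).pos • o) z := by
    intro g
    obtain ⟨i, hi, hi2⟩ := Finset.exists_min_image (Finset.range (n + 1))
      (fun i => Γ.dist ((w g i).pos • o) z) ⟨0, by simp⟩
    exact ⟨i, by simpa [Nat.lt_succ_iff] using hi, fun j hj => hi2 j (by simp; omega)⟩
  choose i0 hi0 hi0min using hmin
  set q : PermWreath L H X → X := fun g => (w g (i0 g)).pos • o with hq
  have hlampfar : ∀ g ∈ T ^ n, ∀ i ≤ n, ∀ x, (w g i).lamp x ≠ 1 →
      Γ.dist (q g) z ≤ Γ.dist x z + c := by
    intro g hg i hi x hx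
    obtain ⟨j, hj, hjx⟩ := hlamp g hg i hi x hx
    have h1 := hi0min g j hj
    have h2 := hc.dist_triangle (u := (w g j).pos • o) (v := x) (w := z)
    simp only [hq]
    omega
  -- the centre of the insertion region
  have hp : ∀ g : PermWreath L H X, ∃ p : X, g ∈ T ^ n →
      Γ.dist (q g) p = D ∧ Γ.dist p z = Γ.dist (q g) z - D := by
    intro g
    by_cases hg : g ∈ T ^ n
    · obtain ⟨p, hp1, hp2⟩ := exists_between hc (q g) z D (hz' g hg _ (hi0 g))
      exact ⟨p, fun _ => ⟨hp1, hp2⟩⟩
    · exact ⟨o, fun h => absurd h hg⟩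
  choose p hp using hp
  set P : PermWreath L H X → Finset (Finset X) := fun g =>
    ((cball_finite hc hfin (p g) r).toFinset.powerset).erase ∅ with hPdef
  have hPmem : ∀ g ∈ T ^ n, ∀ E ∈ P g, E.Nonempty ∧ (∀ x ∈ E, Γ.dist (q g) x ≤ D + r) ∧
      (∀ x ∈ E, Γ.dist x z + c + 1 ≤ Γ.dist (q g) z) := by
    intro g hg E hE
    simp only [hPdef, Finset.mem_erase, Finset.mem_powerset] at hE
    obtain ⟨hE1, hE2⟩ := hE
    obtain ⟨hp1, hp2⟩ := hp g hg
    have hD' := hz' g hg _ (hi0 g)
    refine ⟨Finset.nonempty_iff_ne_empty.2 hE1, fun x hx => ?_, fun x hx => ?_⟩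
    · have h1 := hE2 hx
      rw [Set.Finite.mem_toFinset, mem_cball] at h1
      have h2 := hc.dist_triangle (u := q g) (v := p g) (w := x)
      omega
    · have h1 := hE2 hx
      rw [Set.Finite.mem_toFinset, mem_cball] at h1
      have h2 := hc.dist_triangle (u := x) (v := p g) (w := z)
      rw [SimpleGraph.dist_comm (u := x) (v := p g)] at h2
      have h3 : D ≤ Γ.dist (q g) z := hD'
      omega
  have hoff : ∀ g ∈ T ^ n, ∀ E ∈ P g, ∀ i ≤ n, ∀ x ∈ E, (w g i).lamp x = 1 := by
    intro g hg E hE i hi x hx
    by_contra h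
    have h1 := hlampfar g hg i hi x h
    have h2 := (hPmem g hg E hE).2.2 x hx
    omega
  refine doubling_of_insertion T n C M hMpos P (fun g E => lampOn H l E * g) ?_ ?_ ?_
  · -- number of patterns
    intro g hg
    simp only [hPdef]
    rw [Finset.card_erase_of_mem (by simp), Finset.card_powerset,
      ← Set.ncard_eq_toFinset_card _ (cball_finite hc hfin (p g) r), hNall]
    exact hlarge
  · -- the modified elements have length at most n + C
    intro g hg E hE
    set a := w g (i0 g) with ha
    have hdec : lampOn H l E * g = a * ((a⁻¹ * lampOn H l E * a) * (a⁻¹ * g)) := by group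
    have hin : i0 g ≤ n := hi0 g
    have hconj := conj_lampOn (H := H) l E a fun x hx => hoff g hg E hE (i0 g) hin x hx
    have h1 : a⁻¹ * lampOn H l E * a ∈ T ^ C := by
      rw [hconj]
      refine hC (Finset.mem_image_of_mem _ ?_)
      rw [Finset.mem_powerset]
      intro y hy
      obtain ⟨x, hx, rfl⟩ := Finset.mem_image.1 hy
      rw [Set.Finite.mem_toFinset, mem_cball]
      have h2 := (hPmem g hg E hE).2.1 x hx
      rw [← dist_smul hc hinv a.pos o _]
      simpa [hq, ← ha] using h2
    have h2 : a ∈ T ^ (i0 g) := hwp g hg _ hin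
    have h3 : a⁻¹ * g ∈ T ^ (n - i0 g) := hwq g hg _ hin
    change lampOn H l E * g ∈ T ^ (n + C)
    rw [hdec, show n + C = i0 g + (C + (n - i0 g)) by omega, pow_add, pow_add]
    exact Finset.mul_mem_mul h2 (Finset.mul_mem_mul h1 h3)
  · -- multiplicity bound
    intro g' _
    set F := ((T ^ n).sigma fun g => P g).filter
      (fun x : (Σ _ : PermWreath L H X, Finset X) => lampOn H l x.2 * x.1 = g') with hF
    rcases F.eq_empty_or_nonempty with hFe | hFne
    · rw [hFe]; simp
    · -- facts about members of F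
      have hfacts : ∀ x ∈ F, x.1 ∈ T ^ n ∧ x.2 ∈ P x.1 ∧ lampOn H l x.2 * x.1 = g' := by
        intro x hx
        rw [hF, Finset.mem_filter, Finset.mem_sigma] at hx
        exact ⟨hx.1.1, hx.1.2, hx.2⟩
      have hgl : ∀ x ∈ F, ∀ y, g'.lamp y = (if y ∈ x.2 then l else x.1.lamp y) := by
        intro x hx y
        obtain ⟨h1, h2, h3⟩ := hfacts x hx
        rw [← h3, mul_lamp, lampOn_lamp, lampOn_pos]
        by_cases h : y ∈ x.2
        · have h4 := hoff x.1 h1 x.2 h2 n le_rfl y h
          rw [hwn x.1 h1] at h4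
          simp [h, h4]
        · simp [h]
      have hE_iff : ∀ x ∈ F, ∀ y, y ∈ x.2 ↔
          (g'.lamp y ≠ 1 ∧ Γ.dist y z + c + 1 ≤ Γ.dist (q x.1) z) := by
        intro x hx y
        obtain ⟨h1, h2, h3⟩ := hfacts x hx
        constructor
        · intro hy
          refine ⟨?_, (hPmem x.1 h1 x.2 h2).2.2 y hy⟩
          rw [hgl x hx y, if_pos hy]
          exact hl
        · rintro ⟨hy1, hy2⟩
          by_contra hy
          rw [hgl x hx y, if_neg hy] at hy1
          have h4 := hlampfar x.1 h1 n le_rfl y (by rw [hwn x.1 h1]; exact hy1)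
          omega
      obtain ⟨x1, hx1⟩ := hFne
      have hsupp : (g'.finite_supp.toFinset).Nonempty := by
        obtain ⟨h1, h2, _⟩ := hfacts x1 hx1
        obtain ⟨y, hy⟩ := (hPmem x1.1 h1 x1.2 h2).1
        exact ⟨y, by rw [Set.Finite.mem_toFinset]; exact ((hE_iff x1 hx1 y).1 hy).1⟩
      obtain ⟨v, hv, hvmin⟩ := Finset.exists_min_image _ (fun y => Γ.dist y z) hsupp
      rw [Set.Finite.mem_toFinset] at hv
      have hvE : ∀ x ∈ F, v ∈ x.2 := by
        intro x hx
        obtain ⟨h1, h2, _⟩ := hfacts x hx
        obtain ⟨y, hy⟩ := (hPmem x.1 h1 x.2 h2).1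
        have h3 := (hE_iff x hx y).1 hy
        have h4 := hvmin y (by rw [Set.Finite.mem_toFinset]; exact h3.1)
        exact (hE_iff x hx v).2 ⟨hv, by omega⟩
      have hinj : Set.InjOn (fun x : (Σ _ : PermWreath L H X, Finset X) => q x.1) (F : Set _) := by
        intro x hx y hy hxy
        have hx' : x ∈ F := hx
        have hy' : y ∈ F := hy
        simp only at hxy
        have hE : x.2 = y.2 := by
          ext a
          rw [hE_iff x hx' a, hE_iff y hy' a, hxy]
        have h3 := (hfacts x hx').2.2
        have h4 := (hfacts y hy').2.2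
        have h5 : x.1 = y.1 := by
          rw [← h4, hE] at h3
          exact mul_left_cancel h3
        exact Sigma.ext h5 (heq_of_eq hE)
      calc F.card = (F.image fun x : (Σ _ : PermWreath L H X, Finset X) => q x.1).card :=
            (Finset.card_image_of_injOn hinj).symm
        _ ≤ ((cball_finite hc hfin v (D + r)).toFinset).card := by
            refine Finset.card_le_card ?_
            intro y hy
            obtain ⟨x, hx, rfl⟩ := Finset.mem_image.1 hy
            rw [Set.Finite.mem_toFinset, mem_cball, SimpleGraph.dist_comm]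
            obtain ⟨h1, h2, _⟩ := hfacts x hx
            exact (hPmem x.1 h1 x.2 h2).2.1 v (hvE x hx)
        _ = M := by
            rw [← Set.ncard_eq_toFinset_card _ (cball_finite hc hfin v (D + r)), hNall]

end Pool.Agent.RatioGrowth
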