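import Mathlib
import Pool.Agent.RatioGrowth.Wreath
import Pool.Agent.RatioGrowth.Derivation

set_option autoImplicit false

open Pointwise

namespace Pool.Agent.RatioGrowth

open PermWreath

variable {α : Type*} (N : Subgroup (FreeGroup α)) [N.Normal] (m : ℕ)

/-- The Magnus homomorphism recording passages over edges labelled `i`. -/
noncomputable def magnusHom (i : α) :
    FreeGroup α →* PermWreath (Multiplicative (ZMod m)) (FreeGroup α ⧸ N) (FreeGroup α ⧸ N) := by
  classical
  exact FreeGroup.lift fun j =>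
    { lamp := fun x => if x = 1 ∧ j = i then Multiplicative.ofAdd 1 else 1
      pos := QuotientGroup.mk (FreeGroup.of j)
      finite_supp := by
        refine (Set.finite_singleton (1 : FreeGroup α ⧸ N)).subset ?_
        intro x hx
        by_contra h
        rw [Set.mem_singleton_iff] at h
        exact hx (by simp [h]) }

lemma magnusHom_pos (i : α) (g : FreeGroup α) : (magnusHom N m i g).pos = QuotientGroup.mk g := by
  classical
  induction g using FreeGroup.induction_on with
  | C1 => simp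
  | of j => simp [magnusHom]
  | inv_of j h => rw [map_inv, PermWreath.inv_pos, h]; rfl
  | mul x y hx hy => rw [map_mul, PermWreath.mul_pos, hx, hy]; rfl

/-- The tail of the `i`-edge traversed by the letter `(i, b)` read at position `p`. -/
noncomputable def tailOf (i : α) (b : Bool) : FreeGroup α := if b then 1 else (FreeGroup.of i)⁻¹

lemma magnus_letter (hm : m ≠ 1) (i j : α) (b : Bool) (v : FreeGroup α ⧸ N) :
    (magnusHom N m i (FreeGroup.mk [(j, b)])).lamp v ≠ 1 ↔
      j = i ∧ (QuotientGroup.mk (tailOf i b) : FreeGroup α ⧸ N) = v := by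
  classical
  have h1 : (Multiplicative.ofAdd (1 : ZMod m)) ≠ 1 := by
    intro h
    have h2 : (1 : ZMod m) = 0 := h
    have : Subsingleton (ZMod m) := subsingleton_of_zero_eq_one h2.symm
    exact hm (ZMod.subsingleton_iff.1 this)
  have hb1 : FreeGroup.mk [(j, true)] = FreeGroup.of j := rfl
  have hb2 : FreeGroup.mk [(j, false)] = (FreeGroup.of j)⁻¹ := rfl
  cases b with
  | true =>
    rw [hb1]
    simp only [magnusHom, FreeGroup.lift_apply_of, tailOf, if_true]
    constructor
    · intro h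
      by_contra hcon
      apply h
      rw [if_neg]
      rintro ⟨rfl, rfl⟩
      exact hcon ⟨rfl, rfl⟩
    · rintro ⟨rfl, rfl⟩
      rw [if_pos ⟨rfl, rfl⟩]; exact h1
  | false =>
    rw [hb2, map_inv, inv_lamp]
    simp only [magnusHom, FreeGroup.lift_apply_of, tailOf, Bool.false_eq_true, if_false, smul_eq_mul]
    constructor
    · intro h
      have hcond : ((FreeGroup.of j : FreeGroup α) : FreeGroup α ⧸ N) * v = 1 ∧ j = i := by
        by_contra hcon
        apply h
        rw [if_neg hcon]; simp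
      obtain ⟨h2, rfl⟩ := hcond
      refine ⟨rfl, ?_⟩
      rw [QuotientGroup.mk_inv]
      exact (eq_inv_of_mul_eq_one_right h2).symm
    · rintro ⟨rfl, rfl⟩
      rw [if_pos ⟨by rw [QuotientGroup.mk_inv, mul_inv_cancel], rfl⟩]
      rw [Ne, inv_eq_one]; exact h1

lemma magnus_word (hm : m ≠ 1) (i : α) (L : List (α × Bool)) (v : FreeGroup α ⧸ N)
    (h : (magnusHom N m i (FreeGroup.mk L)).lamp v ≠ 1) :
    ∃ L₁ b L₂, L = L₁ ++ (i, b) :: L₂ ∧
      (QuotientGroup.mk (FreeGroup.mk L₁ * tailOf i b) : FreeGroup α ⧸ N) = v := by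
  induction L generalizing v with
  | nil =>
    exfalso; apply h
    have : FreeGroup.mk ([] : List (α × Bool)) = 1 := rfl
    rw [this, map_one]; rfl
  | cons a L ih =>
    obtain ⟨j, b⟩ := a
    have hsplit : FreeGroup.mk ((j, b) :: L) = FreeGroup.mk [(j, b)] * FreeGroup.mk L := by
      rw [FreeGroup.mul_mk]; rfl
    rw [hsplit, map_mul, mul_lamp] at h
    by_cases h1 : (magnusHom N m i (FreeGroup.mk [(j, b)])).lamp v ≠ 1
    · rw [magnus_letter N m hm] at h1
      obtain ⟨rfl, h1⟩ := h1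
      refine ⟨[], b, L, rfl, ?_⟩
      have : FreeGroup.mk ([] : List (α × Bool)) = 1 := rfl
      rw [this, one_mul]; exact h1
    · rw [not_not] at h1
      rw [h1, one_mul] at h
      obtain ⟨L₁, b', L₂, rfl, h2⟩ := ih _ h
      refine ⟨(j, b) :: L₁, b', L₂, rfl, ?_⟩
      rw [magnusHom_pos, smul_eq_mul] at h2
      have hsplit2 : FreeGroup.mk ((j, b) :: L₁) = FreeGroup.mk [(j, b)] * FreeGroup.mk L₁ := by
        rw [FreeGroup.mul_mk]; rfl
      rw [hsplit2, mul_assoc, QuotientGroup.mk_mul, h2, mul_inv_cancel_left]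

lemma mk_ne_one [DecidableEq α] {W : List (α × Bool)} (hW : FreeGroup.IsReduced W) (hne : W ≠ []) :
    FreeGroup.mk W ≠ 1 := by
  intro h
  have h1 : (FreeGroup.mk W).toWord = W := by rw [FreeGroup.toWord_mk, hW.reduce_eq]
  rw [h, FreeGroup.toWord_one] at h1
  exact hne h1.symm

/-- Some element of `N` is not killed by some Magnus homomorphism. -/
lemma exists_magnus (hm : m ≠ 1) (hN : N ≠ ⊥) :
    ∃ n ∈ N, ∃ i : α, ∃ v, (magnusHom N m i n).lamp v ≠ 1 := by
  classical
  have hex : ∃ k : ℕ, ∃ n ∈ N, n ≠ 1 ∧ n.norm = k := by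
    obtain ⟨x, hx⟩ := Subgroup.ne_bot_iff_exists_ne_one.1 hN
    exact ⟨_, x, x.2, fun h => hx (Subtype.ext h), rfl⟩
  obtain ⟨n, hn, hn1, hnk⟩ := Nat.find_spec hex
  have hmin : ∀ W : List (α × Bool), FreeGroup.IsReduced W → W ≠ [] → FreeGroup.mk W ∈ N →
      n.norm ≤ W.length := by
    intro W hW hne hWN
    rw [hnk]
    refine Nat.find_min' hex ⟨_, hWN, mk_ne_one hW hne, ?_⟩ |>.trans le_rfl
    rw [FreeGroup.norm, FreeGroup.toWord_mk, hW.reduce_eq]
  refine ⟨n, hn, ?_⟩
  have hred : FreeGroup.IsReduced n.toWord := FreeGroup.isReduced_toWord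
  have hword : n = FreeGroup.mk n.toWord := FreeGroup.mk_toWord.symm
  rcases hL : n.toWord with _ | ⟨⟨i, b₀⟩, L'⟩
  · exfalso
    rw [hL] at hword
    exact hn1 hword
  rw [hL] at hred hword
  have hlen : n.norm = L'.length + 1 := by rw [FreeGroup.norm, hL]; rfl
  refine ⟨i, ?_⟩
  by_contra hcon
  push Not at hcon
  set v₀ : FreeGroup α ⧸ N := QuotientGroup.mk (tailOf i b₀) with hv₀
  have hfirst : (magnusHom N m i (FreeGroup.mk [(i, b₀)])).lamp v₀ ≠ 1 :=
    (magnus_letter N m hm i i b₀ v₀).2 ⟨rfl, rfl⟩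
  have hsplit : n = FreeGroup.mk [(i, b₀)] * FreeGroup.mk L' := by
    rw [FreeGroup.mul_mk]; exact hword
  have hprod := hcon v₀
  rw [hsplit, map_mul, mul_lamp, magnusHom_pos, smul_eq_mul] at hprod
  have hrest : (magnusHom N m i (FreeGroup.mk L')).lamp
      ((QuotientGroup.mk (FreeGroup.mk [(i, b₀)]) : FreeGroup α ⧸ N)⁻¹ * v₀) ≠ 1 := by
    intro h
    rw [h, mul_one] at hprod
    exact hfirst hprod
  obtain ⟨L₁, b, L₂, hL', hv⟩ := magnus_word N m hm i L' _ hrest
  have hred' : FreeGroup.IsReduced ((i, b₀) :: (L₁ ++ (i, b) :: L₂)) := by rw [← hL']; exact hred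
  have hlen' : n.norm = L₁.length + L₂.length + 2 := by
    rw [hlen, hL', List.length_append, List.length_cons]; ring
  have hredW : FreeGroup.IsReduced ((i, b₀) :: L₁) := by
    have h : FreeGroup.IsReduced (((i, b₀) :: L₁) ++ ((i, b) :: L₂)) := hred'
    exact (List.isChain_append.1 h).1
  have hredL₁ : FreeGroup.IsReduced L₁ := List.IsChain.tail hredW
  -- the prefix is not in N
  have hA : FreeGroup.mk ((i, b₀) :: L₁) ∉ N := by
    intro h
    have := hmin _ hredW (by simp) h
    rw [hlen', List.length_cons] at this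
    omega
  -- the middle is not in N unless empty
  have hB : b ≠ b₀ → FreeGroup.mk L₁ ∉ N := by
    intro hbb h
    rcases L₁ with _ | ⟨a, L₁⟩
    · rw [List.nil_append, FreeGroup.isReduced_cons_cons] at hred'
      exact hbb (hred'.1 rfl).symm
    · have := hmin _ hredL₁ (by simp) h
      rw [hlen'] at this
      omega
  have hmkA : FreeGroup.mk ((i, b₀) :: L₁) = FreeGroup.mk [(i, b₀)] * FreeGroup.mk L₁ := by
    rw [FreeGroup.mul_mk]; rfl
  have hb1 : FreeGroup.mk [(i, true)] = FreeGroup.of i := rfl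
  have hb2 : FreeGroup.mk [(i, false)] = (FreeGroup.of i)⁻¹ := rfl
  rw [hv₀, ← QuotientGroup.mk_inv, ← QuotientGroup.mk_mul] at hv
  rw [hmkA] at hA
  cases b₀ <;> cases b <;>
    simp only [tailOf, hb1, hb2, Bool.false_eq_true, if_false, if_true, mul_one, inv_inv,
      mul_inv_cancel] at hv hA hB
  · -- b₀ = false, b = false
    apply hA
    rw [← QuotientGroup.eq_one_iff, QuotientGroup.mk_mul]
    rw [QuotientGroup.mk_mul, QuotientGroup.mk_one] at hv
    have := eq_inv_of_mul_eq_one_left hv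
    rw [this]; simp
  · apply hB (by simp)
    rw [← QuotientGroup.eq_one_iff]
    exact hv
  · apply hB (by simp)
    rw [← QuotientGroup.eq_one_iff]
    rw [QuotientGroup.mk_mul] at hv
    exact mul_eq_right.1 hv
  · apply hA
    rw [← QuotientGroup.eq_one_iff, QuotientGroup.mk_mul, hv]; simp

lemma lamp_pow_of_pos {L H X : Type*} [Group L] [Group H] [MulAction H X] (g : PermWreath L H X)
    (hg : g.pos = 1) (k : ℕ) (x : X) : (g ^ k).pos = 1 ∧ (g ^ k).lamp x = g.lamp x ^ k := by
  induction k with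
  | zero => simp
  | succ k ih =>
    rw [pow_succ, pow_succ]
    refine ⟨?_, ?_⟩
    · rw [PermWreath.mul_pos, ih.1, hg, one_mul]
    · rw [mul_lamp, ih.1, ih.2, inv_one, one_smul]

/-- `F / K` for `[N, N] ≤ K ≤ [N, N] N ^ m`. -/
theorem magnus_ratio (hm : m ≠ 1) (hN : N ≠ ⊥) [Infinite (FreeGroup α ⧸ N)]
    (K : Subgroup (FreeGroup α)) [K.Normal] (hK1 : ⁅N, N⁆ ≤ K)
    (hK2 : K ≤ ⁅N, N⁆ ⊔ Subgroup.closure {y | ∃ x ∈ N, y = x ^ m})
    [DecidableEq (FreeGroup α ⧸ K)] (S : Finset (FreeGroup α ⧸ K))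
    (hS : Subgroup.closure (S : Set (FreeGroup α ⧸ K)) = ⊤) :
    ∃ ε : ℝ, 0 < ε ∧ ∀ n : ℕ,
      ε * (((S ∪ S⁻¹ ∪ {1}) ^ n).card : ℝ) ≤
        (((S ∪ S⁻¹ ∪ {1}) ^ (n + 1)).card : ℝ) - (((S ∪ S⁻¹ ∪ {1}) ^ n).card : ℝ) := by
  classical
  obtain ⟨n, hn, i, v, hv⟩ := exists_magnus N m hm hN
  have hposN : ∀ x ∈ N, (magnusHom N m i x).pos = 1 := fun x hx => by
    rw [magnusHom_pos]; exact (QuotientGroup.eq_one_iff x).2 hx
  have hKker : K ≤ (magnusHom N m i).ker := by
    refine hK2.trans (sup_le ?_ ?_)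
    · rw [Subgroup.commutator_le]
      intro x hx y hy
      rw [MonoidHom.mem_ker, map_commutatorElement, commutatorElement_eq_one_iff_mul_comm]
      apply PermWreath.ext
      · funext z
        rw [mul_lamp, mul_lamp, hposN x hx, hposN y hy, inv_one, one_smul, mul_comm]
      · rw [PermWreath.mul_pos, PermWreath.mul_pos, hposN x hx, hposN y hy]
    · rw [Subgroup.closure_le]
      rintro _ ⟨x, hx, rfl⟩
      rw [SetLike.mem_coe, MonoidHom.mem_ker, map_pow]
      apply PermWreath.ext
      · funext z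
        rw [(lamp_pow_of_pos _ (hposN x hx) m z).2, one_lamp]
        have : ∀ y : ZMod m, m • y = 0 := fun y => by simp
        exact this _
      · exact (lamp_pow_of_pos _ (hposN x hx) m 1).1
  have hKN : K ≤ N := by
    refine hK2.trans (sup_le (Subgroup.commutator_le_left N N) ?_)
    rw [Subgroup.closure_le]
    rintro _ ⟨x, hx, rfl⟩
    exact pow_mem hx m
  set θ : FreeGroup α ⧸ K →* PermWreath (Multiplicative (ZMod m)) (FreeGroup α ⧸ N)
    (FreeGroup α ⧸ N) := QuotientGroup.lift K (magnusHom N m i) hKker with hθ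
  set π : FreeGroup α ⧸ K →* FreeGroup α ⧸ N :=
    QuotientGroup.lift K (QuotientGroup.mk' N) (by rw [QuotientGroup.ker_mk']; exact hKN) with hπ
  have hθπ : ∀ g, (θ g).pos = π g := by
    intro g
    induction g using QuotientGroup.induction_on with
    | H g => exact magnusHom_pos N m i g
  refine derivation_ratio (G := FreeGroup α ⧸ K) (Q := FreeGroup α ⧸ N) (R := ZMod m) π ?_
    (fun g => Finsupp.ofSupportFinite (fun x => Multiplicative.toAdd ((θ g).lamp x))
      ((θ g).finite_supp.subset fun x hx => hx)) ?_ (QuotientGroup.mk n) ?_ ?_ ?_ S hS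
  · intro q
    obtain ⟨x, rfl⟩ := QuotientGroup.mk_surjective q
    exact ⟨QuotientGroup.mk x, rfl⟩
  · intro g h x
    change Multiplicative.toAdd ((θ (g * h)).lamp x) = Multiplicative.toAdd ((θ g).lamp x) +
      Multiplicative.toAdd ((θ h).lamp ((π g)⁻¹ * x))
    rw [map_mul, mul_lamp, hθπ, toAdd_mul, smul_eq_mul]
  · exact (QuotientGroup.eq_one_iff n).2 hn
  · intro g hg
    induction g using QuotientGroup.induction_on with
    | H g =>
      have hgN : g ∈ N := (QuotientGroup.eq_one_iff g).1 hg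
      rw [← QuotientGroup.mk_mul, ← QuotientGroup.mk_mul, QuotientGroup.eq]
      apply hK1
      have := Subgroup.commutator_mem_commutator (N.inv_mem hn) (N.inv_mem hgN)
      rw [commutatorElement_def] at this
      simpa [mul_assoc] using this
  · intro h
    have := DFunLike.congr_fun h v
    apply hv
    exact this

end Pool.Agent.RatioGrowth
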