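import Mathlib

set_option autoImplicit false

namespace Pool.Agent.RatioGrowth

/-- An order automorphism of the line is piecewise linear (with finitely many pieces) if there is a
finite set `F` of break points such that the map is affine on every interval with no point of `F` in
its interior. -/
def IsPiecewiseLinear (f : ℝ ≃o ℝ) : Prop :=
  ∃ F : Finset ℝ, ∀ a b : ℝ, a < b → (∀ z ∈ F, z ≤ a ∨ b ≤ z) →
    ∃ c d : ℝ, ∀ z, a ≤ z → z ≤ b → f z = c * z + d

lemma exists_gap_right (F : Finset ℝ) (p : ℝ) : ∃ ε > 0, ∀ z ∈ F, z ≤ p ∨ p + ε ≤ z := by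
  classical
  induction F using Finset.induction_on with
  | empty => exact ⟨1, one_pos, by simp⟩
  | insert q F _ ih =>
    obtain ⟨ε, hε, h⟩ := ih
    rcases le_or_gt q p with hq | hq
    · refine ⟨ε, hε, fun z hz => ?_⟩
      rcases Finset.mem_insert.1 hz with rfl | hz
      · exact Or.inl hq
      · exact h z hz
    · refine ⟨min ε (q - p), lt_min hε (by linarith), fun z hz => ?_⟩
      rcases Finset.mem_insert.1 hz with rfl | hz
      · right; have := min_le_right ε (z - p); linarith
      · rcases h z hz with h1 | h1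
        · exact Or.inl h1
        · right; have := min_le_left ε (q - p); linarith

lemma exists_gap_left (F : Finset ℝ) (p : ℝ) : ∃ ε > 0, ∀ z ∈ F, z ≤ p - ε ∨ p ≤ z := by
  classical
  induction F using Finset.induction_on with
  | empty => exact ⟨1, one_pos, by simp⟩
  | insert q F _ ih =>
    obtain ⟨ε, hε, h⟩ := ih
    rcases le_or_gt p q with hq | hq
    · refine ⟨ε, hε, fun z hz => ?_⟩
      rcases Finset.mem_insert.1 hz with rfl | hz
      · exact Or.inr hq
      · exact h z hz
    · refine ⟨min ε (p - q), lt_min hε (by linarith), fun z hz => ?_⟩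
      rcases Finset.mem_insert.1 hz with rfl | hz
      · left; have := min_le_right ε (p - z); linarith
      · rcases h z hz with h1 | h1
        · left; have := min_le_left ε (p - q); linarith
        · exact Or.inr h1

lemma exists_below (F : Finset ℝ) : ∃ R : ℝ, ∀ z ∈ F, R ≤ z := by
  classical
  rcases F.eq_empty_or_nonempty with rfl | h
  · exact ⟨0, by simp⟩
  · exact ⟨F.min' h, fun z hz => F.min'_le z hz⟩

/-- one sided germs; `s = 1` or `s = -1` -/
lemma IsPiecewiseLinear.germ {f : ℝ ≃o ℝ} (hf : IsPiecewiseLinear f) (s : ℝ) (hs : s = 1 ∨ s = -1)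
    (p : ℝ) : ∃ c > 0, ∃ ε > 0, ∀ h, 0 ≤ h → h ≤ ε → f (p + s * h) = f p + s * (c * h) := by
  obtain ⟨F, hF⟩ := hf
  rcases hs with rfl | rfl
  · obtain ⟨ε, hε, hgap⟩ := exists_gap_right F p
    obtain ⟨c, d, hcd⟩ := hF p (p + ε) (by linarith) hgap
    have h0 := hcd p le_rfl (by linarith)
    have h1 := hcd (p + ε) (by linarith) le_rfl
    have hlt : f p < f (p + ε) := f.strictMono (by linarith)
    have hc : 0 < c := by
      rw [h0, h1] at hlt
      have : 0 < c * ε := by linarith
      exact (mul_pos_iff_of_pos_right hε).1 this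
    refine ⟨c, hc, ε, hε, fun h h0' h1' => ?_⟩
    rw [one_mul, one_mul, hcd (p + h) (by linarith) (by linarith), h0]; ring
  · obtain ⟨ε, hε, hgap⟩ := exists_gap_left F p
    obtain ⟨c, d, hcd⟩ := hF (p - ε) p (by linarith) hgap
    have h0 := hcd p (by linarith) le_rfl
    have h1 := hcd (p - ε) le_rfl (by linarith)
    have hlt : f (p - ε) < f p := f.strictMono (by linarith)
    have hc : 0 < c := by
      rw [h0, h1] at hlt
      have : 0 < c * ε := by linarith
      exact (mul_pos_iff_of_pos_right hε).1 this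
    refine ⟨c, hc, ε, hε, fun h h0' h1' => ?_⟩
    have h2 := hcd (p + -1 * h) (by linarith) (by linarith)
    rw [h2, h0]; ring

/-- affine near `-∞` -/
lemma IsPiecewiseLinear.germ_bot {f : ℝ ≃o ℝ} (hf : IsPiecewiseLinear f) :
    ∃ c > 0, ∃ d R : ℝ, ∀ z ≤ R, f z = c * z + d := by
  obtain ⟨F, hF⟩ := hf
  obtain ⟨R, hR⟩ := exists_below F
  obtain ⟨c, d, hcd⟩ := hF (R - 1) R (by linarith) fun z hz => Or.inr (hR z hz)
  have h0 := hcd R (by linarith) le_rfl
  have h1 := hcd (R - 1) le_rfl (by linarith)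
  have hlt : f (R - 1) < f R := f.strictMono (by linarith)
  refine ⟨c, by rw [h0, h1] at hlt; linarith, d, R, fun z hz => ?_⟩
  rcases le_or_gt (R - 1) z with hz1 | hz1
  · exact hcd z hz1 hz
  · obtain ⟨c', d', hcd'⟩ := hF z R (by linarith) fun z hz => Or.inr (hR z hz)
    have h2 := hcd' R (by linarith) le_rfl
    have h3 := hcd' (R - 1) hz1.le (by linarith)
    have hc : c' = c := by linarith
    have hd : d' = d := by rw [hc] at h2; linarith
    rw [hcd' z le_rfl hz, hc, hd]

/-- If `f` is the identity on the left of `r` (near `r`) and affine across `r`, it is the identity on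
the right: so a boundary point of the support is a break point. -/
lemma breakpoint_of_inf {f : ℝ ≃o ℝ} {F : Finset ℝ}
    (hF : ∀ a b : ℝ, a < b → (∀ z ∈ F, z ≤ a ∨ b ≤ z) →
      ∃ c d : ℝ, ∀ z, a ≤ z → z ≤ b → f z = c * z + d) {r η : ℝ} (hη : 0 < η)
    (hleft : ∀ z, r - η ≤ z → z ≤ r → f z = z)
    (hright : ∀ ε > 0, ∃ z, r < z ∧ z < r + ε ∧ f z ≠ z) : r ∈ F := by
  by_contra hr
  obtain ⟨ε₁, h₁, g₁⟩ := exists_gap_left F r
  obtain ⟨ε₂, h₂, g₂⟩ := exists_gap_right F r
  set ε := min η ε₁ with hε
  have hεpos : 0 < ε := lt_min hη h₁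
  obtain ⟨c, d, hcd⟩ := hF (r - ε) (r + ε₂) (by linarith) fun z hz => by
    rcases g₁ z hz with h | h
    · left; have := min_le_right η ε₁; linarith
    · rcases g₂ z hz with h' | h'
      · exact absurd (le_antisymm h' h ▸ hz) hr
      · exact Or.inr h'
  have e1 := hcd r (by linarith) (by linarith)
  have e2 := hcd (r - ε) le_rfl (by linarith)
  rw [hleft r (by linarith) le_rfl] at e1
  rw [hleft (r - ε) (by have := min_le_left η ε₁; linarith) (by linarith)] at e2
  have hc : c = 1 := by
    have : (c - 1) * ε = 0 := by linarith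
    rcases mul_eq_zero.1 this with h | h
    · linarith
    · exact absurd h hεpos.ne'
  have hd : d = 0 := by rw [hc] at e1; linarith
  obtain ⟨z, hz1, hz2, hz3⟩ := hright ε₂ h₂
  apply hz3
  rw [hcd z (by linarith) hz2.le, hc, hd]; ring

end Pool.Agent.RatioGrowth
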