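import Mathlib
import Pool.Agent.RatioGrowth.Basic

set_option autoImplicit false

open Pointwise

namespace Pool.Agent.RatioGrowth

section

variable {G : Type*} [Group G] (φ : G →* (ℝ ≃o ℝ))

lemma phi_mul (g h : G) (z : ℝ) : φ (g * h) z = φ g (φ h z) := by
  rw [map_mul]; rfl

lemma phi_one (z : ℝ) : φ 1 z = z := by
  rw [map_one]; rfl

lemma phi_inv_apply (g : G) (z : ℝ) : φ g⁻¹ (φ g z) = z := by
  rw [← phi_mul, inv_mul_cancel, phi_one]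

lemma phi_apply_inv (g : G) (z : ℝ) : φ g (φ g⁻¹ z) = z := by
  rw [← phi_mul, mul_inv_cancel, phi_one]

lemma phi_le (g : G) {y z : ℝ} : φ g y ≤ φ g z ↔ y ≤ z := (φ g).le_iff_le

/-- the data of an inserted element: `x` fixes `U` below `r` and above `e`, and has slope `κ ≠ 1` on
the right of `r` -/
structure Ins (U : Set ℝ) (e r : ℝ) (x : G) (κ : ℝ) : Prop where
  low : ∀ z ∈ U, z ≤ r → φ x z = z
  right : ∃ δ : ℝ, 0 < δ ∧ r + δ ≤ e ∧ ∀ h, 0 ≤ h → h ≤ δ → φ x (r + h) = r + κ * h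
  high : ∀ z ∈ U, e ≤ z → φ x z = z

/-- the data of a path: `w` is affine on `U` below `e` and `g⁻¹` is affine on `U` below `w e` -/
structure PathData (U : Set ℝ) (e : ℝ) (g w : G) (c d a b : ℝ) : Prop where
  hc : 0 < c
  ha : 0 < a
  hw : ∀ z ∈ U, z ≤ e → φ w z = c * z + d
  hg : ∀ z ∈ U, z ≤ c * e + d → φ g⁻¹ z = a * z + b

variable {φ} {U : Set ℝ} {e r : ℝ}

lemma conj_low (hU : ∀ g : G, ∀ z ∈ U, φ g z ∈ U) {x : G} {κ : ℝ} (hx : Ins φ U e r x κ) {w : G}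
    {z : ℝ} (hz : z ∈ U) (h : z ≤ φ w r) : φ (w * x * w⁻¹) z = z := by
  have h1 : φ w⁻¹ z ≤ r := by
    rw [← phi_le φ w, phi_apply_inv]; exact h
  rw [phi_mul, phi_mul, hx.low _ (hU _ _ hz) h1, phi_apply_inv]

lemma conj_high (hU : ∀ g : G, ∀ z ∈ U, φ g z ∈ U) {x : G} {κ : ℝ} (hx : Ins φ U e r x κ) {w : G}
    {z : ℝ} (hz : z ∈ U) (h : φ w e ≤ z) : φ (w * x * w⁻¹) z = z := by
  have h1 : e ≤ φ w⁻¹ z := by
    rw [← phi_le φ w, phi_apply_inv]; exact h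
  rw [phi_mul, phi_mul, hx.high _ (hU _ _ hz) h1, phi_apply_inv]

lemma conj_mid (hU : ∀ g : G, ∀ z ∈ U, φ g z ∈ U) (he : e ∈ U)
    (hconv : ∀ z, r ≤ z → z ≤ e → z ∈ U) {x : G} {κ : ℝ}
    (hx : Ins φ U e r x κ) {g w : G} {c d a b : ℝ} (hp : PathData φ U e g w c d a b) {h : ℝ}
    (h0 : 0 ≤ h) (he' : r + h ≤ e) :
    φ (w * x * w⁻¹) (c * (r + h) + d) = c * φ x (r + h) + d := by
  have h1 : φ w (r + h) = c * (r + h) + d := hp.hw _ (hconv _ (by linarith) he') he'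
  have h2 : φ x e = e := hx.high e he le_rfl
  rw [phi_mul, phi_mul, ← h1, phi_inv_apply]
  refine hp.hw _ (hU _ _ (hconv _ (by linarith) he')) ?_
  calc φ x (r + h) ≤ φ x e := (phi_le φ x).2 he'
    _ = e := h2

/-- `φ (y₁)` and `φ (y₂)` agree on the common region -/
lemma agree (hU : ∀ g : G, ∀ z ∈ U, φ g z ∈ U) (hlow : ∀ z ∈ U, ∃ z' ∈ U, z' < z)
    (he : e ∈ U) (hr : r ∈ U) (hre : r ≤ e) {x₁ x₂ : G} {κ₁ κ₂ : ℝ}
    (hx₁ : Ins φ U e r x₁ κ₁) (hx₂ : Ins φ U e r x₂ κ₂) {g₁ g₂ w₁ w₂ : G}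
    {c₁ d₁ a₁ b₁ c₂ d₂ a₂ b₂ : ℝ} (hp₁ : PathData φ U e g₁ w₁ c₁ d₁ a₁ b₁)
    (hp₂ : PathData φ U e g₂ w₂ c₂ d₂ a₂ b₂)
    (heq : w₁ * x₁ * w₁⁻¹ * g₁ = w₂ * x₂ * w₂⁻¹ * g₂) {z : ℝ} (hz : z ∈ U)
    (h1 : z ≤ c₁ * e + d₁) (h2 : z ≤ c₂ * e + d₂) :
    φ (w₁ * x₁ * w₁⁻¹) z = φ (w₂ * x₂ * w₂⁻¹) z := by
  set y₁ := w₁ * x₁ * w₁⁻¹ with hy₁
  set y₂ := w₂ * x₂ * w₂⁻¹ with hy₂
  set g' := y₁ * g₁ with hg'
  have e1 : ∀ z ∈ U, z ≤ c₁ * e + d₁ → φ g'⁻¹ (φ y₁ z) = a₁ * z + b₁ := by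
    intro z hz h
    rw [← hp₁.hg z hz h, ← phi_mul]
    congr 2
    rw [hg']; group
  have e2 : ∀ z ∈ U, z ≤ c₂ * e + d₂ → φ g'⁻¹ (φ y₂ z) = a₂ * z + b₂ := by
    intro z hz h
    rw [← hp₂.hg z hz h, ← phi_mul]
    congr 2
    rw [heq]; group
  have hwr₁ : φ w₁ r ∈ U := hU _ _ hr
  have hwr₂ : φ w₂ r ∈ U := hU _ _ hr
  have hm₁ : φ w₁ r ≤ c₁ * e + d₁ := by
    rw [← hp₁.hw e he le_rfl, phi_le]; exact hre
  have hm₂ : φ w₂ r ≤ c₂ * e + d₂ := by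
    rw [← hp₂.hw e he le_rfl, phi_le]; exact hre
  have key : ∀ z ∈ U, z ≤ φ w₁ r → z ≤ φ w₂ r → a₁ * z + b₁ = a₂ * z + b₂ := by
    intro z hz k1 k2
    have f1 := e1 z hz (k1.trans hm₁)
    have f2 := e2 z hz (k2.trans hm₂)
    rw [conj_low hU hx₁ hz k1] at f1
    rw [conj_low hU hx₂ hz k2] at f2
    rw [← f1, ← f2]
  obtain ⟨u, hu, hu1, hu2⟩ : ∃ u ∈ U, u ≤ φ w₁ r ∧ u ≤ φ w₂ r := by
    rcases le_total (φ w₁ r) (φ w₂ r) with h | h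
    · exact ⟨_, hwr₁, le_rfl, h⟩
    · exact ⟨_, hwr₂, h, le_rfl⟩
  obtain ⟨u', hu', hlt⟩ := hlow u hu
  have k1 := key u hu hu1 hu2
  have k2 := key u' hu' (hlt.le.trans hu1) (hlt.le.trans hu2)
  have ha : a₁ = a₂ := by
    have : (a₁ - a₂) * (u - u') = 0 := by linarith
    rcases mul_eq_zero.1 this with h | h
    · linarith
    · exact absurd h (by linarith [sub_pos.2 hlt] |> fun h' : 0 < u - u' => h'.ne')
  have hb : b₁ = b₂ := by rw [ha] at k1; linarith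
  have f1 := e1 z hz h1
  have f2 := e2 z hz h2
  rw [ha, hb, ← f2] at f1
  exact (φ g'⁻¹).injective f1

/-- the location of the inserted element and its slope are determined -/
lemma decode_loc (hU : ∀ g : G, ∀ z ∈ U, φ g z ∈ U) (hlow : ∀ z ∈ U, ∃ z' ∈ U, z' < z)
    (hord : ∀ u ∈ U, ∀ v ∈ U, ∀ z, u ≤ z → z ≤ v → z ∈ U)
    (he : e ∈ U) (hr : r ∈ U) (hre : r ≤ e) {x₁ x₂ : G} {κ₁ κ₂ : ℝ} (hκ₁ : κ₁ ≠ 1) (hκ₂ : κ₂ ≠ 1)
    (hx₁ : Ins φ U e r x₁ κ₁) (hx₂ : Ins φ U e r x₂ κ₂) {g₁ g₂ w₁ w₂ : G}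
    {c₁ d₁ a₁ b₁ c₂ d₂ a₂ b₂ : ℝ} (hp₁ : PathData φ U e g₁ w₁ c₁ d₁ a₁ b₁)
    (hp₂ : PathData φ U e g₂ w₂ c₂ d₂ a₂ b₂)
    (heq : w₁ * x₁ * w₁⁻¹ * g₁ = w₂ * x₂ * w₂⁻¹ * g₂) :
    c₁ * r + d₁ = c₂ * r + d₂ ∧ κ₁ = κ₂ := by
  have hconv : ∀ z, r ≤ z → z ≤ e → z ∈ U := fun z h1 h2 => hord r hr e he z h1 h2
  -- one sided statement, to be used twice
  have main : ∀ {x₁ x₂ : G} {κ₁ κ₂ : ℝ}, κ₁ ≠ 1 →
      Ins φ U e r x₁ κ₁ → Ins φ U e r x₂ κ₂ → ∀ {g₁ g₂ w₁ w₂ : G}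
      {c₁ d₁ a₁ b₁ c₂ d₂ a₂ b₂ : ℝ}, PathData φ U e g₁ w₁ c₁ d₁ a₁ b₁ →
      PathData φ U e g₂ w₂ c₂ d₂ a₂ b₂ →
      w₁ * x₁ * w₁⁻¹ * g₁ = w₂ * x₂ * w₂⁻¹ * g₂ → ¬ (c₁ * r + d₁ < c₂ * r + d₂) := by
    intro x₁ x₂ κ₁ κ₂ hκ₁ hx₁ hx₂ g₁ g₂ w₁ w₂ c₁ d₁ a₁ b₁ c₂ d₂ a₂ b₂ hp₁ hp₂ heq hlt
    obtain ⟨δ, hδ, hδe, hδx⟩ := hx₁.right
    have hw1 := hp₁.hw r hr hre
    have hw2 := hp₂.hw r hr hre
    have hc := hp₁.hc
    set h : ℝ := min δ ((c₂ * r + d₂ - (c₁ * r + d₁)) / c₁) with hh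
    have hpos : 0 < h := lt_min hδ (div_pos (by linarith) hc)
    have hhδ : h ≤ δ := min_le_left _ _
    have hh2 : c₁ * h ≤ c₂ * r + d₂ - (c₁ * r + d₁) := by
      have := min_le_right δ ((c₂ * r + d₂ - (c₁ * r + d₁)) / c₁)
      rw [← hh, le_div_iff₀ hc] at this
      linarith
    have hzle : c₁ * (r + h) + d₁ ≤ c₂ * r + d₂ := by nlinarith
    have hzU : c₁ * (r + h) + d₁ ∈ U := by
      refine hord (φ w₁ r) (hU _ _ hr) (φ w₂ r) (hU _ _ hr) _ ?_ ?_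
      · rw [hw1]; nlinarith
      · rw [hw2]; exact hzle
    have hz1 : c₁ * (r + h) + d₁ ≤ c₁ * e + d₁ := by nlinarith
    have hz2 : c₁ * (r + h) + d₁ ≤ c₂ * e + d₂ := by
      have := hp₂.hc; nlinarith
    have h1 := agree hU hlow he hr hre hx₁ hx₂ hp₁ hp₂ heq hzU hz1 hz2
    rw [conj_low hU hx₂ hzU (by rw [hw2]; exact hzle),
      conj_mid hU he hconv hx₁ hp₁ hpos.le (by linarith), hδx h hpos.le hhδ] at h1
    have h2 : c₁ * h * (κ₁ - 1) = 0 := by linarith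
    rcases mul_eq_zero.1 h2 with h3 | h3
    · exact (mul_pos hc hpos).ne' h3
    · exact hκ₁ (by linarith)
  have hρ : c₁ * r + d₁ = c₂ * r + d₂ := by
    rcases lt_trichotomy (c₁ * r + d₁) (c₂ * r + d₂) with h | h | h
    · exact absurd h (main hκ₁ hx₁ hx₂ hp₁ hp₂ heq)
    · exact h
    · exact absurd h (main hκ₂ hx₂ hx₁ hp₂ hp₁ heq.symm)
  refine ⟨hρ, ?_⟩
  obtain ⟨δ₁, hδ₁, hδe₁, hδx₁⟩ := hx₁.right
  obtain ⟨δ₂, hδ₂, hδe₂, hδx₂⟩ := hx₂.right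
  have hc₁ := hp₁.hc
  have hc₂ := hp₂.hc
  set t : ℝ := min (c₁ * δ₁) (c₂ * δ₂) with ht
  have htpos : 0 < t := lt_min (mul_pos hc₁ hδ₁) (mul_pos hc₂ hδ₂)
  have ht1 : t ≤ c₁ * δ₁ := min_le_left _ _
  have ht2 : t ≤ c₂ * δ₂ := min_le_right _ _
  have hh1 : t / c₁ ≤ δ₁ := by rw [div_le_iff₀ hc₁]; linarith
  have hh2 : t / c₂ ≤ δ₂ := by rw [div_le_iff₀ hc₂]; linarith
  have hz1 : c₁ * (r + t / c₁) + d₁ = c₁ * r + d₁ + t := by field_simp; ring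
  have hz2 : c₂ * (r + t / c₂) + d₂ = c₁ * r + d₁ + t := by rw [hρ]; field_simp; ring
  have hzm1 : c₁ * r + d₁ + t ≤ c₁ * e + d₁ := by nlinarith
  have hzm2 : c₁ * r + d₁ + t ≤ c₂ * e + d₂ := by nlinarith
  have hzU : c₁ * r + d₁ + t ∈ U := by
    refine hord (φ w₁ r) (hU _ _ hr) (φ w₁ e) (hU _ _ he) _ ?_ ?_
    · rw [hp₁.hw r hr hre]; linarith
    · rw [hp₁.hw e he le_rfl]; exact hzm1
  have h1 := agree hU hlow he hr hre hx₁ hx₂ hp₁ hp₂ heq hzU hzm1 hzm2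
  have p1 : 0 ≤ t / c₁ := (div_pos htpos hc₁).le
  have p2 : 0 ≤ t / c₂ := (div_pos htpos hc₂).le
  have q1 := conj_mid hU he hconv hx₁ hp₁ p1 (by linarith)
  have q2 := conj_mid hU he hconv hx₂ hp₂ p2 (by linarith)
  rw [hz1, hδx₁ _ p1 hh1] at q1
  rw [hz2, hδx₂ _ p2 hh2] at q2
  rw [q1, q2] at h1
  have h2 : c₁ * (r + κ₁ * (t / c₁)) + d₁ = c₁ * r + d₁ + κ₁ * t := by field_simp; ring
  have h3 : c₂ * (r + κ₂ * (t / c₂)) + d₂ = c₁ * r + d₁ + κ₂ * t := by rw [hρ]; field_simp; ring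
  rw [h2, h3] at h1
  have h4 : (κ₁ - κ₂) * t = 0 := by linarith
  rcases mul_eq_zero.1 h4 with h | h
  · linarith
  · exact absurd h htpos.ne'

/-- the whole element is determined -/
lemma decode_elt (hU : ∀ g : G, ∀ z ∈ U, φ g z ∈ U) (hlow : ∀ z ∈ U, ∃ z' ∈ U, z' < z)
    (hord : ∀ u ∈ U, ∀ v ∈ U, ∀ z, u ≤ z → z ≤ v → z ∈ U)
    (he : e ∈ U) (hr : r ∈ U) (hre : r < e) {x : G} {κ : ℝ} (hκ : κ ≠ 1)
    (hfaith : ∀ y ∈ Subgroup.normalClosure {x}, (∀ z ∈ U, φ y z = z) → y = 1)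
    (hx : Ins φ U e r x κ) {g₁ g₂ w₁ w₂ : G}
    {c₁ d₁ a₁ b₁ c₂ d₂ a₂ b₂ : ℝ} (hp₁ : PathData φ U e g₁ w₁ c₁ d₁ a₁ b₁)
    (hp₂ : PathData φ U e g₂ w₂ c₂ d₂ a₂ b₂)
    (heq : w₁ * x * w₁⁻¹ * g₁ = w₂ * x * w₂⁻¹ * g₂) : g₁ = g₂ := by
  have hconv : ∀ z, r ≤ z → z ≤ e → z ∈ U := fun z h1 h2 => hord r hr e he z h1 h2
  have main : ∀ {g₁ g₂ w₁ w₂ : G}
      {c₁ d₁ a₁ b₁ c₂ d₂ a₂ b₂ : ℝ}, PathData φ U e g₁ w₁ c₁ d₁ a₁ b₁ →
      PathData φ U e g₂ w₂ c₂ d₂ a₂ b₂ →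
      w₁ * x * w₁⁻¹ * g₁ = w₂ * x * w₂⁻¹ * g₂ → ¬ (c₁ < c₂) := by
    intro g₁ g₂ w₁ w₂ c₁ d₁ a₁ b₁ c₂ d₂ a₂ b₂ hp₁ hp₂ heq hlt
    obtain ⟨hρ, -⟩ := decode_loc hU hlow hord he hr hre.le hκ hκ hx hx hp₁ hp₂ heq
    have hc₁ := hp₁.hc
    have hc₂ := hp₂.hc
    set θ : ℝ := c₁ / c₂ with hθ
    have hθ0 : 0 < θ := div_pos hc₁ hc₂
    have hθ1 : θ < 1 := by rw [hθ, div_lt_one hc₂]; exact hlt
    have hθc : c₂ * θ = c₁ := by rw [hθ]; field_simp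
    have step : ∀ h, 0 ≤ h → r + h ≤ e → φ x (r + θ * h) = r + θ * (φ x (r + h) - r) := by
      intro h h0 hhe
      have hθh : 0 ≤ θ * h := by positivity
      have hθh' : θ * h ≤ h := by nlinarith
      have q1 := conj_mid hU he hconv hx hp₁ h0 hhe
      have q2 := conj_mid hU he hconv hx hp₂ hθh (by linarith)
      have hz : c₂ * (r + θ * h) + d₂ = c₁ * (r + h) + d₁ := by
        rw [mul_add, ← mul_assoc, hθc]; linarith
      rw [hz] at q2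
      have hz1 : c₁ * (r + h) + d₁ ≤ c₁ * e + d₁ := by nlinarith
      have hz2 : c₁ * (r + h) + d₁ ≤ c₂ * e + d₂ := by
        rw [← hz]; nlinarith
      have hzU : c₁ * (r + h) + d₁ ∈ U := by
        rw [← hp₁.hw _ (hconv _ (by linarith) hhe) hhe]
        exact hU _ _ (hconv _ (by linarith) hhe)
      have h1 := agree hU hlow he hr hre.le hx hx hp₁ hp₂ heq hzU hz1 hz2
      rw [q1, q2] at h1
      have h2 : c₁ * (φ x (r + h) - r) = c₂ * (φ x (r + θ * h) - r) := by linarith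
      rw [← hθc, mul_assoc] at h2
      have h3 := mul_left_cancel₀ hc₂.ne' h2
      linarith
    have iter : ∀ j : ℕ, φ x (r + θ ^ j * (e - r)) = r + θ ^ j * (e - r) := by
      intro j
      induction j with
      | zero => simpa using hx.high e he le_rfl
      | succ j ih =>
        have h0 : 0 ≤ θ ^ j * (e - r) := mul_nonneg (pow_nonneg hθ0.le _) (by linarith)
        have h1 : θ ^ j ≤ 1 := pow_le_one₀ hθ0.le hθ1.le
        have h2 := step (θ ^ j * (e - r)) h0 (by nlinarith)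
        rw [ih] at h2
        rw [pow_succ, show θ ^ j * θ * (e - r) = θ * (θ ^ j * (e - r)) by ring, h2]
        ring
    obtain ⟨δ, hδ, hδe, hδx⟩ := hx.right
    obtain ⟨j, hj⟩ := exists_pow_lt_of_lt_one (div_pos hδ (sub_pos.2 hre)) hθ1
    have hj' : θ ^ j * (e - r) ≤ δ := by
      rw [lt_div_iff₀ (sub_pos.2 hre)] at hj; exact hj.le
    have h0 : 0 < θ ^ j * (e - r) := mul_pos (pow_pos hθ0 _) (by linarith)
    have h1 := iter j
    rw [hδx _ h0.le hj'] at h1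
    have h2 : (κ - 1) * (θ ^ j * (e - r)) = 0 := by linarith
    rcases mul_eq_zero.1 h2 with h | h
    · exact hκ (by linarith)
    · exact h0.ne' h
  obtain ⟨hρ, -⟩ := decode_loc hU hlow hord he hr hre.le hκ hκ hx hx hp₁ hp₂ heq
  have hc : c₁ = c₂ := by
    rcases lt_trichotomy c₁ c₂ with h | h | h
    · exact absurd h (main hp₁ hp₂ heq)
    · exact h
    · exact absurd h (main hp₂ hp₁ heq.symm)
  subst hc
  have hd : d₁ = d₂ := by linarith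
  subst hd
  have hyy : ∀ z ∈ U, φ (w₁ * x * w₁⁻¹) z = φ (w₂ * x * w₂⁻¹) z := by
    intro z hz
    rcases le_total z (c₁ * e + d₁) with h | h
    · exact agree hU hlow he hr hre.le hx hx hp₁ hp₂ heq hz h h
    · rw [conj_high hU hx hz (by rw [hp₁.hw e he le_rfl]; exact h),
        conj_high hU hx hz (by rw [hp₂.hw e he le_rfl]; exact h)]
  have hmem : ∀ w : G, w * x * w⁻¹ ∈ Subgroup.normalClosure {x} := fun w =>
    Subgroup.normalClosure_normal.conj_mem x (Subgroup.subset_normalClosure (Set.mem_singleton x)) w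
  have h1 : (w₁ * x * w₁⁻¹)⁻¹ * (w₂ * x * w₂⁻¹) = 1 := by
    refine hfaith _ (Subgroup.mul_mem _ (Subgroup.inv_mem _ (hmem w₁)) (hmem w₂)) fun z hz => ?_
    rw [phi_mul, ← hyy z hz, phi_inv_apply]
  have h2 : w₁ * x * w₁⁻¹ = w₂ * x * w₂⁻¹ := by
    rw [inv_mul_eq_one] at h1; exact h1
  rw [h2] at heq
  exact mul_left_cancel heq

/-- squaring an inserted element -/
lemma Ins.sq {x : G} {κ : ℝ} (hκ : 0 < κ) (hx : Ins φ U e r x κ) : Ins φ U e r (x ^ 2) (κ ^ 2) := by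
  refine ⟨?_, ?_, ?_⟩
  · intro z hz h
    rw [pow_two, phi_mul, hx.low z hz h, hx.low z hz h]
  · obtain ⟨δ, hδ, hδe, hδx⟩ := hx.right
    refine ⟨min δ (δ / κ), lt_min hδ (div_pos hδ hκ), ?_, ?_⟩
    · have := min_le_left δ (δ / κ); linarith
    · intro h h0 h1
      have h2 : h ≤ δ := h1.trans (min_le_left _ _)
      have h3 : κ * h ≤ δ := by
        have := h1.trans (min_le_right _ _)
        rw [le_div_iff₀ hκ] at this; linarith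
      rw [pow_two, phi_mul, hδx h h0 h2, hδx (κ * h) (by positivity) h3]
      ring
  · intro z hz h
    rw [pow_two, phi_mul, hx.high z hz h, hx.high z hz h]

/-- Core theorem: groups acting on an ordered set by maps affine near the left end of `U`. -/
theorem order_core [DecidableEq G] (hU : ∀ g : G, ∀ z ∈ U, φ g z ∈ U)
    (hlow : ∀ z ∈ U, ∃ z' ∈ U, z' < z)
    (hord : ∀ u ∈ U, ∀ v ∈ U, ∀ z, u ≤ z → z ≤ v → z ∈ U)
    (he : e ∈ U) (hr : r ∈ U) (hre : r < e) {x : G} {κ : ℝ} (hκ0 : 0 < κ) (hκ : κ ≠ 1)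
    (hfaith : ∀ y ∈ Subgroup.normalClosure {x}, (∀ z ∈ U, φ y z = z) → y = 1)
    (hx : Ins φ U e r x κ) (S : Finset G) (hS : Subgroup.closure (S : Set G) = ⊤)
    (haff : ∀ s ∈ S ∪ S⁻¹ ∪ {1}, ∃ c d : ℝ, 0 < c ∧ ∀ z ∈ U, z ≤ e → φ s z = c * z + d) :
    ∃ ε : ℝ, 0 < ε ∧ ∀ n : ℕ,
      ε * (((S ∪ S⁻¹ ∪ {1}) ^ n).card : ℝ) ≤
        (((S ∪ S⁻¹ ∪ {1}) ^ (n + 1)).card : ℝ) - (((S ∪ S⁻¹ ∪ {1}) ^ n).card : ℝ) := by
  classical
  obtain ⟨C, hC⟩ := exists_pow_superset S hS {x, x ^ 2}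
  set T : Finset G := S ∪ S⁻¹ ∪ {1} with hT
  have h1T : (1 : G) ∈ T := by simp [hT]
  have hTinv : ∀ s ∈ T, s⁻¹ ∈ T := by
    intro s hs
    simp only [hT, Finset.mem_union, Finset.mem_inv', Finset.mem_singleton] at hs ⊢
    rcases hs with (h | h) | h
    · left; right; simpa using h
    · left; left; exact h
    · right; simp [h]
  refine ratio_of_doubling T h1T C fun n => ?_
  have hpath := fun g : G => fun hg : g ∈ T ^ n => exists_path T n g hg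
  choose! w hw0 hwn hws hwp hwq using hpath
  have hmin : ∀ g : G, ∃ i ≤ n, ∀ j ≤ n, φ (w g i) e ≤ φ (w g j) e := by
    intro g
    obtain ⟨i, hi, hi2⟩ := Finset.exists_min_image (Finset.range (n + 1))
      (fun i => φ (w g i) e) ⟨0, by simp⟩
    exact ⟨i, by simpa [Nat.lt_succ_iff] using hi, fun j hj => hi2 j (by simp; omega)⟩
  choose i0 hi0 hi0min using hmin
  -- inverses of prefixes are affine below the minimum
  have hpre : ∀ g ∈ T ^ n, ∀ i ≤ n, ∃ a b : ℝ, 0 < a ∧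
      ∀ z ∈ U, z ≤ φ (w g (i0 g)) e → φ (w g i)⁻¹ z = a * z + b := by
    intro g hg i
    induction i with
    | zero =>
      intro _
      refine ⟨1, 0, one_pos, fun z _ _ => ?_⟩
      rw [hw0 g hg, inv_one, phi_one]; ring
    | succ i ih =>
      intro hi
      obtain ⟨a, b, ha, hab⟩ := ih (by omega)
      set s := (w g i)⁻¹ * w g (i + 1) with hs
      obtain ⟨c, d, hc, hcd⟩ := haff s⁻¹ (hTinv s (hws g hg i (by omega)))
      refine ⟨c * a, c * b + d, mul_pos hc ha, fun z hz hle => ?_⟩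
      have h2 : (w g (i + 1))⁻¹ = s⁻¹ * (w g i)⁻¹ := by rw [hs]; group
      have h3 : φ (w g i)⁻¹ z ≤ e := by
        rw [← phi_le φ (w g i), phi_apply_inv]
        exact hle.trans (hi0min g i (by omega))
      rw [h2, phi_mul, hcd _ (hU _ _ hz) h3, hab z hz hle]
      ring
  have hdata : ∀ g : G, ∃ c d a b : ℝ, g ∈ T ^ n → PathData φ U e g (w g (i0 g)) c d a b := by
    intro g
    by_cases hg : g ∈ T ^ n
    · obtain ⟨a, b, ha, hab⟩ := hpre g hg n le_rfl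
      rw [hwn g hg] at hab
      obtain ⟨p, q, hp, hpq⟩ := hpre g hg (i0 g) (hi0 g)
      have hw : ∀ z ∈ U, z ≤ e → φ (w g (i0 g)) z = p⁻¹ * z + (-(q / p)) := by
        intro z hz hle
        have h1 := hpq (φ (w g (i0 g)) z) (hU _ _ hz) ((phi_le φ _).2 hle)
        rw [phi_inv_apply] at h1
        have h2 : φ (w g (i0 g)) z = (z - q) / p := by
          rw [eq_div_iff hp.ne']; linarith
        rw [h2]
        field_simp
        try ring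
      refine ⟨p⁻¹, -(q / p), a, b, fun _ => ⟨inv_pos.2 hp, ha, hw, ?_⟩⟩
      rw [← hw e he le_rfl]
      exact hab
    · exact ⟨0, 0, 0, 0, fun h => absurd h hg⟩
  choose cc dd aa bb hdat using hdata
  have hκ2 : κ ^ 2 ≠ 1 := by
    intro h
    have : (κ - 1) * (κ + 1) = 0 := by linarith
    rcases mul_eq_zero.1 this with h | h
    · exact hκ (by linarith)
    · linarith
  have hκκ : κ ≠ κ ^ 2 := by
    intro h
    have : κ * (κ - 1) = 0 := by linarith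
    rcases mul_eq_zero.1 this with h | h
    · exact hκ0.ne' h
    · exact hκ (by linarith)
  have hxx : Ins φ U e r (x ^ 2) (κ ^ 2) := hx.sq hκ0
  have hfaith2 : ∀ y ∈ Subgroup.normalClosure {x ^ 2}, (∀ z ∈ U, φ y z = z) → y = 1 := by
    intro y hy hz
    refine hfaith y ?_ hz
    have : Subgroup.normalClosure {x ^ 2} ≤ Subgroup.normalClosure {x} := by
      refine Subgroup.normalClosure_le_normal ?_
      rintro _ rfl
      exact Subgroup.pow_mem _ (Subgroup.subset_normalClosure (Set.mem_singleton x)) 2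
    exact this hy
  refine doubling_of_insertion T n C 1 one_pos (fun _ => (Finset.univ : Finset Bool))
    (fun g b => w g (i0 g) * (if b then x else x ^ 2) * (w g (i0 g))⁻¹ * g) ?_ ?_ ?_
  · intro g _; simp
  · intro g hg b _
    have hin : i0 g ≤ n := hi0 g
    have hdec : w g (i0 g) * (if b then x else x ^ 2) * (w g (i0 g))⁻¹ * g =
        w g (i0 g) * ((if b then x else x ^ 2) * ((w g (i0 g))⁻¹ * g)) := by group
    rw [hdec, show n + C = i0 g + (C + (n - i0 g)) by omega, pow_add, pow_add]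
    refine Finset.mul_mem_mul (hwp g hg _ hin) (Finset.mul_mem_mul (hC ?_) (hwq g hg _ hin))
    cases b <;> simp
  · intro g' _
    rw [Finset.card_le_one]
    rintro ⟨g₁, b₁⟩ h₁ ⟨g₂, b₂⟩ h₂
    rw [Finset.mem_filter, Finset.mem_sigma] at h₁ h₂
    obtain ⟨⟨hg₁, -⟩, he₁⟩ := h₁
    obtain ⟨⟨hg₂, -⟩, he₂⟩ := h₂
    simp only at hg₁ hg₂ he₁ he₂
    have hp₁ := hdat g₁ hg₁
    have hp₂ := hdat g₂ hg₂
    have heq := he₁.trans he₂.symm
    cases b₁ <;> cases b₂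
    · simp only [Bool.false_eq_true, if_false] at heq
      have := decode_elt hU hlow hord he hr hre hκ2 hfaith2 hxx hp₁ hp₂ heq
      rw [this]
    · simp only [Bool.false_eq_true, if_false, if_true] at heq
      exact absurd (decode_loc hU hlow hord he hr hre.le hκ2 hκ hxx hx hp₁ hp₂ heq).2.symm hκκ
    · simp only [Bool.false_eq_true, if_false, if_true] at heq
      exact absurd (decode_loc hU hlow hord he hr hre.le hκ hκ2 hx hxx hp₁ hp₂ heq).2 hκκ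
    · simp only [if_true] at heq
      have := decode_elt hU hlow hord he hr hre hκ hfaith hx hp₁ hp₂ heq
      rw [this]

end

end Pool.Agent.RatioGrowth
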