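import Mathlib
import Pool.Agent.RatioGrowth.PLCore
import Pool.Agent.RatioGrowth.PLBasic

set_option autoImplicit false

open Pointwise

namespace Pool.Agent.RatioGrowth

section

variable {G : Type*} [Group G] (φ : G →* (ℝ ≃o ℝ))

/-- convex hull of the orbit of `p` -/
def hull (p : ℝ) : Set ℝ := {z | ∃ g h : G, φ g p ≤ z ∧ z ≤ φ h p}

lemma mem_hull_self (p : ℝ) : p ∈ hull φ p := ⟨1, 1, by rw [phi_one], by rw [phi_one]⟩

lemma hull_inv {p z : ℝ} (k : G) (hz : z ∈ hull φ p) : φ k z ∈ hull φ p := by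
  obtain ⟨g, h, h1, h2⟩ := hz
  refine ⟨k * g, k * h, ?_, ?_⟩
  · rw [phi_mul, phi_le]; exact h1
  · rw [phi_mul, phi_le]; exact h2

lemma hull_ord {p u v z : ℝ} (hu : u ∈ hull φ p) (hv : v ∈ hull φ p) (h1 : u ≤ z) (h2 : z ≤ v) :
    z ∈ hull φ p := by
  obtain ⟨g, _, hg, _⟩ := hu
  obtain ⟨_, h, _, hh⟩ := hv
  exact ⟨g, h, hg.trans h1, h2.trans hh⟩

lemma hull_subset {p z : ℝ} (hz : z ∈ hull φ p) : hull φ z ⊆ hull φ p := by
  rintro u ⟨g, h, h1, h2⟩
  exact hull_ord φ (hull_inv φ g hz) (hull_inv φ h hz) h1 h2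

lemma hull_symm {p z : ℝ} (hz : z ∈ hull φ p) : p ∈ hull φ z := by
  obtain ⟨g, h, h1, h2⟩ := hz
  refine ⟨h⁻¹, g⁻¹, ?_, ?_⟩
  · rw [← phi_le φ h, phi_apply_inv]; exact h2
  · rw [← phi_le φ g, phi_apply_inv]; exact h1

lemma hull_eq {p z : ℝ} (hz : z ∈ hull φ p) : hull φ z = hull φ p :=
  Set.Subset.antisymm (hull_subset φ hz) (hull_subset φ (hull_symm φ hz))

lemma hull_move {p u v : ℝ} (hu : u ∈ hull φ p) (hv : v ∈ hull φ p) : ∃ g : G, φ g v ≤ u := by
  obtain ⟨g, _, hg, _⟩ := hu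
  obtain ⟨_, h, _, hh⟩ := hv
  refine ⟨g * h⁻¹, ?_⟩
  rw [phi_mul]
  refine ((phi_le φ g).2 ?_).trans hg
  rw [← phi_le φ h, phi_apply_inv]; exact hh

lemma hull_fixed {z u : ℝ} (hz : ∀ g : G, φ g z = z) (hu : u ∈ hull φ z) : u = z := by
  obtain ⟨g, h, h1, h2⟩ := hu
  rw [hz] at h1 h2
  exact le_antisymm h2 h1

/-- the pointwise stabiliser of an invariant set is normal -/
lemma ncl_fix {V : Set ℝ} (hV : ∀ g : G, ∀ z ∈ V, φ g z ∈ V) {y : G} (hy : ∀ z ∈ V, φ y z = z) :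
    ∀ y' ∈ Subgroup.normalClosure {y}, ∀ z ∈ V, φ y' z = z := by
  let N : Subgroup G :=
    { carrier := {g | ∀ z ∈ V, φ g z = z}
      mul_mem' := by
        intro a b ha hb z hz
        rw [phi_mul, hb z hz, ha z hz]
      one_mem' := fun z _ => phi_one φ z
      inv_mem' := by
        intro a ha z hz
        conv_lhs => rw [← ha z hz]
        exact phi_inv_apply φ a z }
  have hN : N.Normal := ⟨fun n hn g z hz => by
    rw [phi_mul, phi_mul, hn _ (hV _ _ hz), phi_apply_inv]⟩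
  have h1 : Subgroup.normalClosure {y} ≤ N := by
    refine Subgroup.normalClosure_le_normal ?_
    rintro _ rfl
    exact hy
  exact fun y' hy' => h1 hy'

/-- elements of bounded support -/
lemma ncl_bdd {y : G} (hy : ∃ a b : ℝ, ∀ z, (z ≤ a ∨ b ≤ z) → φ y z = z) :
    ∀ y' ∈ Subgroup.normalClosure {y}, ∃ a b : ℝ, ∀ z, (z ≤ a ∨ b ≤ z) → φ y' z = z := by
  let N : Subgroup G :=
    { carrier := {g | ∃ a b : ℝ, ∀ z, (z ≤ a ∨ b ≤ z) → φ g z = z}
      mul_mem' := by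
        rintro g h ⟨a, b, hg⟩ ⟨a', b', hh⟩
        refine ⟨min a a', max b b', fun z hz => ?_⟩
        have h1 : φ h z = z := hh z (hz.imp (fun k => k.trans (min_le_right _ _))
          (fun k => (le_max_right _ _).trans k))
        have h2 : φ g z = z := hg z (hz.imp (fun k => k.trans (min_le_left _ _))
          (fun k => (le_max_left _ _).trans k))
        rw [phi_mul, h1, h2]
      one_mem' := ⟨0, 0, fun z _ => phi_one φ z⟩
      inv_mem' := by
        rintro g ⟨a, b, hg⟩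
        refine ⟨a, b, fun z hz => ?_⟩
        conv_lhs => rw [← hg z hz]
        exact phi_inv_apply φ g z }
  have hN : N.Normal := ⟨by
    rintro n ⟨a, b, hn⟩ g
    refine ⟨φ g a, φ g b, fun z hz => ?_⟩
    have h1 : φ g⁻¹ z ≤ a ∨ b ≤ φ g⁻¹ z := by
      refine hz.imp (fun k => ?_) (fun k => ?_)
      · rw [← phi_le φ g, phi_apply_inv]; exact k
      · rw [← phi_le φ g, phi_apply_inv]; exact k
    rw [phi_mul, phi_mul, hn _ h1, phi_apply_inv]⟩
  have h1 : Subgroup.normalClosure {y} ≤ N := by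
    refine Subgroup.normalClosure_le_normal ?_
    rintro _ rfl
    exact hy
  exact fun y' hy' => h1 hy'

/-- At a global fixed point the one sided slopes define a homomorphism, so commutators have trivial
one sided germs. -/
lemma germ_trivial (hpl : ∀ g, IsPiecewiseLinear (φ g)) (s : ℝ) (hs : s = 1 ∨ s = -1) (p : ℝ)
    (hp : ∀ g, φ g p = p) (y : G) (hy : y ∈ commutator G) :
    ∃ ε > 0, ∀ h, 0 ≤ h → h ≤ ε → φ y (p + s * h) = p + s * h := by
  have hgerm := fun g => (hpl g).germ s hs p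
  choose c hc ε hε hgerm using hgerm
  have hs0 : s ≠ 0 := by rcases hs with rfl | rfl <;> norm_num
  have key : ∀ g : G, ∀ h, 0 ≤ h → h ≤ ε g → φ g (p + s * h) = p + s * (c g * h) := by
    intro g h h0 h1
    rw [hgerm g h h0 h1, hp]
  have hmul : ∀ g h : G, c (g * h) = c g * c h := by
    intro g h
    set t := min (ε h) (min (ε g / c h) (ε (g * h))) with ht
    have htpos : 0 < t := lt_min (hε h) (lt_min (div_pos (hε g) (hc h)) (hε _))
    have t1 : t ≤ ε h := min_le_left _ _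
    have t2 : c h * t ≤ ε g := by
      have : t ≤ ε g / c h := (min_le_right _ _).trans (min_le_left _ _)
      rw [le_div_iff₀ (hc h)] at this; linarith
    have t3 : t ≤ ε (g * h) := (min_le_right _ _).trans (min_le_right _ _)
    have e1 := key (g * h) t htpos.le t3
    rw [phi_mul, key h t htpos.le t1, key g (c h * t) (mul_pos (hc h) htpos).le t2] at e1
    have e2 : s * ((c g * c h - c (g * h)) * t) = 0 := by linarith
    rcases mul_eq_zero.1 e2 with h' | h'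
    · exact absurd h' hs0
    · rcases mul_eq_zero.1 h' with h'' | h''
      · linarith
      · exact absurd h'' htpos.ne'
  have hone : c 1 = 1 := by
    have h1 := hmul 1 1
    rw [mul_one] at h1
    have : c 1 * (c 1 - 1) = 0 := by linarith
    rcases mul_eq_zero.1 this with h | h
    · exact absurd h (hc 1).ne'
    · linarith
  let σ : G →* ℝ := { toFun := c, map_one' := hone, map_mul' := hmul }
  have h1 : y ∈ (σ.toHomUnits).ker := Abelianization.commutator_subset_ker _ hy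
  have h2 : c y = 1 := by
    rw [MonoidHom.mem_ker] at h1
    have := congrArg Units.val h1
    simpa [σ] using this
  refine ⟨ε y, hε y, fun h h0 h1 => ?_⟩
  rw [key y h h0 h1, h2, one_mul]

section inv

variable {V : Set ℝ}

lemma inf_fixed (hV : ∀ g : G, ∀ z ∈ V, φ g z ∈ V) (hne : V.Nonempty) (hb : BddBelow V) (g : G) :
    φ g (sInf V) = sInf V := by
  have key : ∀ g : G, φ g (sInf V) ≤ sInf V := by
    intro g
    refine le_csInf hne fun z hz => ?_
    rw [← phi_le φ g⁻¹, phi_inv_apply]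
    exact csInf_le hb (hV _ _ hz)
  refine le_antisymm (key g) ?_
  rw [← phi_le φ g⁻¹, phi_inv_apply]
  exact key g⁻¹

lemma sup_fixed (hV : ∀ g : G, ∀ z ∈ V, φ g z ∈ V) (hne : V.Nonempty) (hb : BddAbove V) (g : G) :
    φ g (sSup V) = sSup V := by
  have key : ∀ g : G, sSup V ≤ φ g (sSup V) := by
    intro g
    refine csSup_le hne fun z hz => ?_
    rw [← phi_le φ g⁻¹, phi_inv_apply]
    exact le_csSup hb (hV _ _ hz)
  refine le_antisymm ?_ (key g)
  rw [← phi_le φ g⁻¹, phi_inv_apply]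
  exact key g⁻¹

end inv

lemma hull_no_min {p z : ℝ} (hp : ∃ g : G, φ g p ≠ p) (hz : z ∈ hull φ p) :
    ∃ z' ∈ hull φ p, z' < z := by
  have : ∃ g : G, φ g z ≠ z := by
    by_contra hcon
    push Not at hcon
    obtain ⟨g, hg⟩ := hp
    have h1 := hull_fixed φ hcon (hull_symm φ hz)
    rw [h1] at hg
    exact hg (hcon g)
  obtain ⟨g, hg⟩ := this
  rcases lt_or_gt_of_ne hg with h | h
  · exact ⟨_, hull_inv φ g hz, h⟩
  · refine ⟨_, hull_inv φ g⁻¹ hz, ?_⟩
    rw [← (φ g).lt_iff_lt, phi_apply_inv]; exact h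

lemma hull_no_max {p z : ℝ} (hp : ∃ g : G, φ g p ≠ p) (hz : z ∈ hull φ p) :
    ∃ z' ∈ hull φ p, z < z' := by
  have : ∃ g : G, φ g z ≠ z := by
    by_contra hcon
    push Not at hcon
    obtain ⟨g, hg⟩ := hp
    have h1 := hull_fixed φ hcon (hull_symm φ hz)
    rw [h1] at hg
    exact hg (hcon g)
  obtain ⟨g, hg⟩ := this
  rcases lt_or_gt_of_ne hg with h | h
  · refine ⟨_, hull_inv φ g⁻¹ hz, ?_⟩
    rw [← (φ g).lt_iff_lt, phi_apply_inv]; exact h
  · exact ⟨_, hull_inv φ g hz, h⟩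

lemma hull_inf_lt {p z : ℝ} (hp : ∃ g : G, φ g p ≠ p) (hb : BddBelow (hull φ p))
    (hz : z ∈ hull φ p) : sInf (hull φ p) < z := by
  obtain ⟨z', hz', h⟩ := hull_no_min φ hp hz
  exact (csInf_le hb hz').trans_lt h

lemma hull_lt_sup {p z : ℝ} (hp : ∃ g : G, φ g p ≠ p) (hb : BddAbove (hull φ p))
    (hz : z ∈ hull φ p) : z < sSup (hull φ p) := by
  obtain ⟨z', hz', h⟩ := hull_no_max φ hp hz
  exact h.trans_le (le_csSup hb hz')

/-- every element is affine near the left end of an orbital -/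
lemma aff_left (hpl : ∀ g, IsPiecewiseLinear (φ g)) {p : ℝ} (hp : ∃ g : G, φ g p ≠ p) (s : G) :
    ∃ u ∈ hull φ p, ∃ c d : ℝ, 0 < c ∧ ∀ z ∈ hull φ p, z ≤ u → φ s z = c * z + d := by
  by_cases hb : BddBelow (hull φ p)
  · have hfix := inf_fixed φ (fun g z hz => hull_inv φ g hz) ⟨p, mem_hull_self φ p⟩ hb
    obtain ⟨c, hc, ε, hε, hgerm⟩ := (hpl s).germ 1 (Or.inl rfl) (sInf (hull φ p))
    obtain ⟨u, hu, hlt⟩ := exists_lt_of_csInf_lt (s := hull φ p) ⟨p, mem_hull_self φ p⟩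
      (show sInf (hull φ p) < sInf (hull φ p) + ε by linarith)
    refine ⟨u, hu, c, sInf (hull φ p) - c * sInf (hull φ p), hc, fun z hz hzu => ?_⟩
    have h1 := hull_inf_lt φ hp hb hz
    have h2 := hgerm (z - sInf (hull φ p)) (by linarith) (by linarith)
    rw [one_mul, one_mul, hfix s, add_sub_cancel] at h2
    rw [h2]; ring
  · obtain ⟨c, hc, d, R, hR⟩ := (hpl s).germ_bot
    rw [not_bddBelow_iff] at hb
    obtain ⟨u, hu, hlt⟩ := hb R
    exact ⟨u, hu, c, d, hc, fun z _ hz => hR z (hz.trans hlt.le)⟩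

lemma aff_left_all (hpl : ∀ g, IsPiecewiseLinear (φ g)) {p : ℝ} (hp : ∃ g : G, φ g p ≠ p)
    (T : Finset G) :
    ∃ u ∈ hull φ p, ∀ s ∈ T, ∃ c d : ℝ, 0 < c ∧ ∀ z ∈ hull φ p, z ≤ u → φ s z = c * z + d := by
  classical
  induction T using Finset.induction_on with
  | empty => exact ⟨p, mem_hull_self φ p, by simp⟩
  | insert t T _ ih =>
    obtain ⟨u, hu, h⟩ := ih
    obtain ⟨u', hu', c, d, hc, h'⟩ := aff_left φ hpl hp t
    refine ⟨min u u', ?_, ?_⟩
    · rcases min_choice u u' with e | e <;> rw [e] <;> assumption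
    · intro s hs
      rcases Finset.mem_insert.1 hs with rfl | hs
      · exact ⟨c, d, hc, fun z hz hle => h' z hz (hle.trans (min_le_right _ _))⟩
      · obtain ⟨c, d, hc, h''⟩ := h s hs
        exact ⟨c, d, hc, fun z hz hle => h'' z hz (hle.trans (min_le_left _ _))⟩

/-- commutators of bounded support are trivial near the left end of every orbital -/
lemma triv_left (hpl : ∀ g, IsPiecewiseLinear (φ g)) {p : ℝ} (hp : ∃ g : G, φ g p ≠ p) {y : G}
    (hy : y ∈ commutator G) (hbd : ∃ a b : ℝ, ∀ z, (z ≤ a ∨ b ≤ z) → φ y z = z) :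
    ∃ u ∈ hull φ p, ∀ z ∈ hull φ p, z ≤ u → φ y z = z := by
  by_cases hb : BddBelow (hull φ p)
  · have hfix := inf_fixed φ (fun g z hz => hull_inv φ g hz) ⟨p, mem_hull_self φ p⟩ hb
    obtain ⟨ε, hε, hgerm⟩ := germ_trivial φ hpl 1 (Or.inl rfl) (sInf (hull φ p)) hfix y hy
    obtain ⟨u, hu, hlt⟩ := exists_lt_of_csInf_lt (s := hull φ p) ⟨p, mem_hull_self φ p⟩
      (show sInf (hull φ p) < sInf (hull φ p) + ε by linarith)
    refine ⟨u, hu, fun z hz hzu => ?_⟩
    have h1 := hull_inf_lt φ hp hb hz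
    have h2 := hgerm (z - sInf (hull φ p)) (by linarith) (by linarith)
    rwa [one_mul, add_sub_cancel] at h2
  · obtain ⟨a, b, hab⟩ := hbd
    rw [not_bddBelow_iff] at hb
    obtain ⟨u, hu, hlt⟩ := hb a
    exact ⟨u, hu, fun z _ hz => hab z (Or.inl (hz.trans hlt.le))⟩

lemma triv_right (hpl : ∀ g, IsPiecewiseLinear (φ g)) {p : ℝ} (hp : ∃ g : G, φ g p ≠ p) {y : G}
    (hy : y ∈ commutator G) (hbd : ∃ a b : ℝ, ∀ z, (z ≤ a ∨ b ≤ z) → φ y z = z) :
    ∃ u ∈ hull φ p, ∀ z ∈ hull φ p, u ≤ z → φ y z = z := by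
  by_cases hb : BddAbove (hull φ p)
  · have hfix := sup_fixed φ (fun g z hz => hull_inv φ g hz) ⟨p, mem_hull_self φ p⟩ hb
    obtain ⟨ε, hε, hgerm⟩ := germ_trivial φ hpl (-1) (Or.inr rfl) (sSup (hull φ p)) hfix y hy
    obtain ⟨u, hu, hlt⟩ := exists_lt_of_lt_csSup (s := hull φ p) ⟨p, mem_hull_self φ p⟩
      (show sSup (hull φ p) - ε < sSup (hull φ p) by linarith)
    refine ⟨u, hu, fun z hz hzu => ?_⟩
    have h1 := hull_lt_sup φ hp hb hz
    have h2 := hgerm (sSup (hull φ p) - z) (by linarith) (by linarith)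
    rw [show sSup (hull φ p) + -1 * (sSup (hull φ p) - z) = z by ring] at h2
    exact h2
  · obtain ⟨a, b, hab⟩ := hbd
    rw [not_bddAbove_iff] at hb
    obtain ⟨u, hu, hlt⟩ := hb b
    exact ⟨u, hu, fun z _ hz => hab z (Or.inr (hlt.le.trans hz))⟩

/-- the lower boundary of the support in an orbital -/
lemma exists_boundary {y : G} {F : Finset ℝ} (hpl : IsPiecewiseLinear (φ y))
    (hF : ∀ a b : ℝ, a < b → (∀ z ∈ F, z ≤ a ∨ b ≤ z) →
      ∃ c d : ℝ, ∀ z, a ≤ z → z ≤ b → φ y z = c * z + d) {p : ℝ} (hp : ∃ g : G, φ g p ≠ p)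
    (hleft : ∃ u ∈ hull φ p, ∀ z ∈ hull φ p, z ≤ u → φ y z = z)
    (hmov : ∃ z ∈ hull φ p, φ y z ≠ z) :
    ∃ r ∈ hull φ p, r ∈ F ∧ (∀ z ∈ hull φ p, z ≤ r → φ y z = z) ∧
      ∃ κ : ℝ, 0 < κ ∧ κ ≠ 1 ∧ ∃ δ > 0, ∀ h, 0 ≤ h → h ≤ δ → φ y (r + h) = r + κ * h := by
  obtain ⟨u, hu, hfix⟩ := hleft
  obtain ⟨z₀, hz₀, hz₀'⟩ := hmov
  set A : Set ℝ := {z | z ∈ hull φ p ∧ φ y z ≠ z} with hA
  have hAne : A.Nonempty := ⟨z₀, hz₀, hz₀'⟩
  have hAu : ∀ z ∈ A, u ≤ z := by
    rintro z ⟨h1, h2⟩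
    by_contra hcon
    exact h2 (hfix z h1 (not_le.1 hcon).le)
  have hAb : BddBelow A := ⟨u, hAu⟩
  set r := sInf A with hr
  have hur : u ≤ r := le_csInf hAne hAu
  have hrz : r ≤ z₀ := csInf_le hAb ⟨hz₀, hz₀'⟩
  have hrV : r ∈ hull φ p := hull_ord φ hu hz₀ hur hrz
  have hlt : ∀ z ∈ hull φ p, z < r → φ y z = z := by
    intro z hz h
    by_contra hcon
    exact absurd (csInf_le hAb (show z ∈ A from ⟨hz, hcon⟩)) (not_le.2 h)
  have hrr : φ y r = r := by
    by_contra hcon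
    rcases lt_or_gt_of_ne hcon with h | h
    · exact hcon ((φ y).injective (hlt _ (hull_inv φ y hrV) h))
    · have h1 : φ y⁻¹ r < r := by rw [← (φ y).lt_iff_lt, phi_apply_inv]; exact h
      have h2 := hlt _ (hull_inv φ y⁻¹ hrV) h1
      rw [phi_apply_inv] at h2
      rw [← h2] at h1
      exact lt_irrefl _ h1
  have hle : ∀ z ∈ hull φ p, z ≤ r → φ y z = z := by
    intro z hz h
    rcases h.lt_or_eq with h | h
    · exact hlt z hz h
    · rw [h]; exact hrr
  have hclose : ∀ ε > 0, ∃ z, r < z ∧ z < r + ε ∧ φ y z ≠ z := by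
    intro ε hε
    obtain ⟨z, hz, hlt'⟩ := exists_lt_of_csInf_lt hAne (show sInf A < r + ε by linarith)
    refine ⟨z, ?_, hlt', hz.2⟩
    rcases (csInf_le hAb hz).lt_or_eq with h | h
    · exact h
    · exact absurd (hle z hz.1 h.ge) hz.2
  obtain ⟨z', hz', hz'r⟩ := hull_no_min φ hp hrV
  have hrF : r ∈ F := by
    refine breakpoint_of_inf hF (η := r - z') (by linarith) (fun z h1 h2 => ?_) hclose
    exact hle z (hull_ord φ hz' hrV (by linarith) h2) h2
  obtain ⟨c, hc, ε, hε, hgerm⟩ := hpl.germ 1 (Or.inl rfl) r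
  have hg : ∀ h, 0 ≤ h → h ≤ ε → φ y (r + h) = r + c * h := by
    intro h h0 h1
    have := hgerm h h0 h1
    rwa [one_mul, one_mul, hrr] at this
  refine ⟨r, hrV, hrF, hle, c, hc, ?_, ε, hε, hg⟩
  rintro rfl
  obtain ⟨z, h1, h2, h3⟩ := hclose ε hε
  apply h3
  have := hg (z - r) (by linarith) (by linarith)
  rwa [one_mul, add_sub_cancel] at this

/-- the orbitals moved by an element -/
def Moved (y : G) : Set (Set ℝ) := {W | ∃ z, φ y z ≠ z ∧ W = hull φ z}

lemma moved_finite (hpl : ∀ g, IsPiecewiseLinear (φ g)) {y : G}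
    (hy : y ∈ commutator G) (hbd : ∃ a b : ℝ, ∀ z, (z ≤ a ∨ b ≤ z) → φ y z = z) :
    (Moved φ y).Finite := by
  classical
  obtain ⟨F, hF⟩ := hpl y
  refine (F.finite_toSet.image (hull φ)).subset ?_
  rintro _ ⟨z, hz, rfl⟩
  obtain ⟨r, hr, hrF, -⟩ := exists_boundary φ (hpl y) hF ⟨y, hz⟩
    (triv_left φ hpl ⟨y, hz⟩ hy hbd) ⟨z, mem_hull_self φ z, hz⟩
  exact ⟨r, hrF, hull_eq φ hr⟩

/-- Main theorem on groups of piecewise linear homeomorphisms. -/
theorem pl_ratio [DecidableEq G] (hpl : ∀ g, IsPiecewiseLinear (φ g)) (x₀ : G)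
    (hx₀ : x₀ ∈ commutator G) (hne : φ x₀ ≠ 1)
    (hbd : ∃ a b : ℝ, ∀ z, (z ≤ a ∨ b ≤ z) → φ x₀ z = z)
    (hinj : ∀ y ∈ Subgroup.normalClosure {x₀}, φ y = 1 → y = 1)
    (S : Finset G) (hS : Subgroup.closure (S : Set G) = ⊤) :
    ∃ ε : ℝ, 0 < ε ∧ ∀ n : ℕ,
      ε * (((S ∪ S⁻¹ ∪ {1}) ^ n).card : ℝ) ≤
        (((S ∪ S⁻¹ ∪ {1}) ^ (n + 1)).card : ℝ) - (((S ∪ S⁻¹ ∪ {1}) ^ n).card : ℝ) := by
  classical
  set K := Subgroup.normalClosure {x₀} with hK
  have hKc : ∀ y ∈ K, y ∈ commutator G := by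
    have : K ≤ commutator G := by
      refine Subgroup.normalClosure_le_normal ?_
      rintro _ rfl
      exact hx₀
    exact fun y hy => this hy
  have hKb := ncl_bdd φ hbd
  have hx₀1 : x₀ ≠ 1 := by rintro rfl; exact hne (map_one φ)
  -- an element moving as few orbitals as possible
  have hex : ∃ n : ℕ, ∃ y ∈ K, y ≠ 1 ∧ (Moved φ y).ncard = n :=
    ⟨_, x₀, Subgroup.subset_normalClosure (Set.mem_singleton x₀), hx₀1, rfl⟩
  obtain ⟨y, hyK, hy1, hyn⟩ := Nat.find_spec hex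
  have hymin : ∀ y' ∈ K, y' ≠ 1 → (Moved φ y).ncard ≤ (Moved φ y').ncard := by
    intro y' hy' hy'1
    rw [hyn]
    exact Nat.find_min' hex ⟨y', hy', hy'1, rfl⟩
  obtain ⟨p, hp⟩ : ∃ p, φ y p ≠ p := by
    by_contra hcon
    push Not at hcon
    refine hy1 (hinj y hyK ?_)
    ext z
    exact hcon z
  have hpG : ∃ g : G, φ g p ≠ p := ⟨y, hp⟩
  have hVinv : ∀ g : G, ∀ z ∈ hull φ p, φ g z ∈ hull φ p := fun g z hz => hull_inv φ g hz
  -- faithfulness on the orbital of `p`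
  have hyK' : ∀ y' ∈ Subgroup.normalClosure {y}, y' ∈ K := by
    have : Subgroup.normalClosure {y} ≤ K := by
      refine Subgroup.normalClosure_le_normal ?_
      rintro _ rfl
      exact hyK
    exact fun y' hy' => this hy'
  have hfaith : ∀ y' ∈ Subgroup.normalClosure {y}, (∀ z ∈ hull φ p, φ y' z = z) → y' = 1 := by
    intro y' hy' hfix
    by_contra hy'1
    have hsub : Moved φ y' ⊆ Moved φ y := by
      rintro _ ⟨z, hz, rfl⟩
      by_contra hcon
      have h1 : ∀ z' ∈ hull φ z, φ y z' = z' := by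
        intro z' hz'
        by_contra hcon'
        exact hcon ⟨z', hcon', (hull_eq φ hz').symm⟩
      exact hz (ncl_fix φ (fun g z hz => hull_inv φ g hz) h1 y' hy' z (mem_hull_self φ z))
    have hfin : (Moved φ y).Finite := moved_finite φ hpl (hKc y hyK) (hKb y hyK)
    have heq : Moved φ y' = Moved φ y :=
      Set.eq_of_subset_of_ncard_le hsub (hymin y' (hyK' y' hy') hy'1) hfin
    have hmem : hull φ p ∈ Moved φ y' := by rw [heq]; exact ⟨p, hp, rfl⟩
    obtain ⟨z, hz, hz2⟩ := hmem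
    exact hz (hfix z (by rw [hz2]; exact mem_hull_self φ z))
  -- the region where all generators are affine
  obtain ⟨e, he, haff⟩ := aff_left_all φ hpl hpG (S ∪ S⁻¹ ∪ {1})
  obtain ⟨u₂, hu₂, hfix₂⟩ := triv_right φ hpl hpG (hKc y hyK) (hKb y hyK)
  obtain ⟨g, hg⟩ := hull_move φ he hu₂
  set x := g * y * g⁻¹ with hx
  have hxncl : Subgroup.normalClosure {x} ≤ Subgroup.normalClosure {y} := by
    refine Subgroup.normalClosure_le_normal ?_
    rintro _ rfl
    exact Subgroup.normalClosure_normal.conj_mem y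
      (Subgroup.subset_normalClosure (Set.mem_singleton y)) g
  have hxmem : x ∈ Subgroup.normalClosure {y} :=
    hxncl (Subgroup.subset_normalClosure (Set.mem_singleton x))
  have hxK : x ∈ K := hyK' x hxmem
  have hhigh : ∀ z ∈ hull φ p, e ≤ z → φ x z = z := by
    intro z hz h
    have h1 : u₂ ≤ φ g⁻¹ z := by
      rw [← phi_le φ g, phi_apply_inv]; exact hg.trans h
    rw [hx, phi_mul, phi_mul, hfix₂ _ (hull_inv φ _ hz) h1, phi_apply_inv]
  have hxmov : ∃ z ∈ hull φ p, φ x z ≠ z := by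
    refine ⟨φ g p, hull_inv φ g (mem_hull_self φ p), ?_⟩
    rw [hx, phi_mul, phi_mul, phi_inv_apply]
    intro h
    exact hp ((φ g).injective h)
  obtain ⟨F, hF⟩ := hpl x
  obtain ⟨r, hr, -, hlow, κ, hκ0, hκ1, δ, hδ, hδx⟩ := exists_boundary φ (hpl x) hF hpG
    (triv_left φ hpl hpG (hKc x hxK) (hKb x hxK)) hxmov
  have hre : r < e := by
    by_contra hcon
    push Not at hcon
    obtain ⟨z', hz', hlt⟩ := hull_no_max φ hpG hr
    set h := min δ (z' - r) with hh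
    have hpos : 0 < h := lt_min hδ (by linarith)
    have h1 : h ≤ δ := min_le_left _ _
    have h2 : h ≤ z' - r := min_le_right _ _
    have h3 := hδx h hpos.le h1
    have h4 : r + h ∈ hull φ p := hull_ord φ hr hz' (by linarith) (by linarith)
    rw [hhigh _ h4 (by linarith)] at h3
    have h5 : (κ - 1) * h = 0 := by linarith
    rcases mul_eq_zero.1 h5 with h6 | h6
    · exact hκ1 (by linarith)
    · exact hpos.ne' h6
  have hIns : Ins φ (hull φ p) e r x κ := by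
    refine ⟨hlow, ⟨min δ (e - r), lt_min hδ (by linarith), ?_, ?_⟩, hhigh⟩
    · have := min_le_right δ (e - r); linarith
    · intro h h0 h1
      exact hδx h h0 (h1.trans (min_le_left _ _))
  refine order_core (φ := φ) (U := hull φ p) (e := e) (r := r) hVinv
    (fun z hz => hull_no_min φ hpG hz) (fun u hu v hv z h1 h2 => hull_ord φ hu hv h1 h2)
    he hr hre hκ0 hκ1 (fun y' hy' h => hfaith y' (hxncl hy') h) hIns S hS haff

end

end Pool.Agent.RatioGrowth
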