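import Mathlib
import Pool.Agent.RatioGrowth.Wreath
import Pool.Agent.RatioGrowth.Cocycle

set_option autoImplicit false

open Pointwise

namespace Pool.Agent.RatioGrowth

/-- Groups with a homomorphism to a permutational wreath product that is injective on the normal
closure of an element of the base group. -/
theorem wreath_hom_ratio {G L H X : Type*} [Group G] [DecidableEq G] [Group L] [Group H]
    [MulAction H X] (Γ : SimpleGraph X) (hconn : Γ.Connected)
    (hfin : ∀ v : X, (Γ.neighborSet v).Finite)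
    (haut : ∀ (h : H) (x y : X), Γ.Adj x y → Γ.Adj (h • x) (h • y))
    (φ : G →* PermWreath L H X) (a : G) (hpos : (φ a).pos = 1) (x₀ : X)
    (ha : (φ a).lamp x₀ ≠ 1) (horb : {x : X | ∃ g : G, (φ g).pos • x₀ = x}.Infinite)
    (hinj : ∀ y ∈ Subgroup.normalClosure {a}, φ y = 1 → y = 1)
    (S : Finset G) (hS : Subgroup.closure (S : Set G) = ⊤) :
    ∃ ε : ℝ, 0 < ε ∧ ∀ n : ℕ,
      ε * (((S ∪ S⁻¹ ∪ {1}) ^ n).card : ℝ) ≤
        (((S ∪ S⁻¹ ∪ {1}) ^ (n + 1)).card : ℝ) - (((S ∪ S⁻¹ ∪ {1}) ^ n).card : ℝ) := by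
  let P : G →* H :=
    { toFun := fun g => (φ g).pos
      map_one' := by rw [map_one]; rfl
      map_mul' := fun g h => by rw [map_mul]; rfl }
  let _ : MulAction G X := MulAction.compHom X P
  have hsm : ∀ (g : G) (x : X), g • x = (φ g).pos • x := fun _ _ => rfl
  have hposcl : ∀ y ∈ Subgroup.normalClosure {a}, (φ y).pos = 1 := by
    intro y hy
    have : Subgroup.normalClosure {a} ≤ P.ker := by
      refine Subgroup.normalClosure_le_normal ?_
      rintro _ rfl
      exact hpos
    exact this hy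
  refine cocycle_ratio (fun g x => (φ g).lamp x) ?_ (fun g => (φ g).finite_supp) Γ hconn hfin
    (fun g x y h => by rw [hsm, hsm]; exact haut _ x y h) x₀ ?_ a ?_ ha ?_ S hS
  · intro g h x
    rw [hsm, map_inv, map_mul, PermWreath.mul_lamp, PermWreath.inv_pos]
  · refine horb.mono ?_
    rintro _ ⟨g, rfl⟩
    exact ⟨g, rfl⟩
  · intro x
    rw [hsm, hpos, one_smul]
  · intro y hy h
    refine hinj y hy ?_
    apply PermWreath.ext
    · funext x; exact h x
    · exact hposcl y hy

end Pool.Agent.RatioGrowth
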